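import Mathlib

/-!
Halton-Niederreiter sequences with random generating matrices, their discrepancy, and the exponent
in the almost sure lower bound.
-/

open MeasureTheory ProbabilityTheory

namespace Pool.Agent.Lib.MP_490b4c_nt

variable {l : ℕ} (d q : Fin l → ℕ)

/-- The coordinates: `d i` of them for the base `q i`. -/
abbrev Coord : Type := Σ i : Fin l, Fin (d i)

/-- Tuples of generating matrices: `C (k, j, r)` is the entry in row `j` and column `r` of the
matrix of the coordinate `k` (rows and columns are numbered from `0`). -/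
abbrev Mats : Type := (x : Coord d × ℕ × ℕ) → ZMod (q x.1.1)

/-- The product measure: all entries are independent and uniformly distributed. -/
noncomputable def prob : Measure (Mats d q) := Measure.infinitePi fun _ => uniformOn Set.univ

variable {d q}

/-- The digit number `j` of the coordinate `k` of the point number `n`.  The digit of `n` at
`b ^ r` in base `b` is `n / b ^ r % b`; it vanishes for `r ≥ n`. -/
def ydig (C : Mats d q) (n : ℕ) (k : Coord d) (j : ℕ) : ZMod (q k.1) :=
  ∑ r ∈ Finset.range n, C (k, j, r) * ((n / q k.1 ^ r % q k.1 : ℕ) : ZMod (q k.1))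

/-- The point number `n` of the Halton-Niederreiter sequence with generating matrices `C`. -/
noncomputable def pt (C : Mats d q) (n : ℕ) (k : Coord d) : ℝ :=
  ∑' j : ℕ, ((ydig C n k j).val : ℝ) / (q k.1 : ℝ) ^ (j + 1)

open Classical in
/-- The discrepancy of the first `N` points, over the boxes `∏ [a k, b k)` in the unit cube. -/
noncomputable def disc {κ : Type} [Fintype κ] (z : ℕ → κ → ℝ) (N : ℕ) : ℝ :=
  sSup {e | ∃ a b : κ → ℝ, (∀ k, 0 ≤ a k ∧ a k ≤ b k ∧ b k ≤ 1) ∧
    e = |(((Finset.range N).filter fun n => ∀ k, z n k ∈ Set.Ico (a k) (b k)).card : ℝ) / N -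
      ∏ k, (b k - a k)|}

/-- The exponent attached to the base `b` with least prime factor `p`:
`(1 / (2 log p)) ∫_0^1 log ((1 / b) ∑_c |∑_x e(x (t + c / b))| ^ (log p / log b)) dt`,
where `c` and `x` run from `0` to `b - 1`. -/
noncomputable def expo (b : ℕ) : ℝ :=
  (∫ t in (0 : ℝ)..1, Real.log ((∑ c ∈ Finset.range b,
    ‖∑ x ∈ Finset.range b, Complex.exp (2 * Real.pi * Complex.I * (x * (t + c / b)))‖ ^
      (Real.log b.minFac / Real.log b)) / b)) / (2 * Real.log b.minFac)

end Pool.Agent.Lib.MP_490b4c_nt
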