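import Pool.Agent.Lib.MP_490b4c_nt.Poly

/-! Digit characters are controlled by the discrepancy. -/

open Finset Real

namespace Pool.Agent.Lib.MP_490b4c_nt

/-- The number formed by the first `t` digits. -/
def pre {B : ℕ} (y : ℕ → ZMod B) : ℕ → ℕ
  | 0 => 0
  | t + 1 => pre y t * B + (y t).val

/-- A linear form in the digits of a number with `t` digits. -/
def lc {B : ℕ} (K : ℕ → ZMod B) : ℕ → ℕ → ZMod B
  | 0, _ => 0
  | t + 1, Q => K t * (Q : ZMod B) + lc K t (Q / B)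

variable {B : ℕ} [NeZero B]

theorem pre_lt (y : ℕ → ZMod B) (t : ℕ) : pre y t < B ^ t := by
  induction t with
  | zero => simp [pre]
  | succ t ih =>
    have := (y t).val_lt
    rw [pre, pow_succ]
    nlinarith

theorem lc_pre (K y : ℕ → ZMod B) (t : ℕ) : lc K t (pre y t) = ∑ j ∈ range t, K j * y j := by
  induction t with
  | zero => simp [lc]
  | succ t ih =>
    rw [lc, pre, mul_comm (pre y t), Nat.mul_add_div (NeZero.pos B), Nat.div_eq_of_lt (y t).val_lt,
      add_zero, ih, sum_range_succ, add_comm]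
    simp

theorem sum_lc (hB : 2 ≤ B) {K : ℕ → ZMod B} {t : ℕ} (h : K t = 1) :
    ∑ P ∈ range (B ^ (t + 1)), ch (lc K (t + 1) P) = 0 := by
  rw [pow_succ, sum_range_mul']
  refine sum_eq_zero fun x _ => ?_
  have e : ∀ m ∈ range B, ch (lc K (t + 1) (x * B + m)) = ch (m : ZMod B) * ch (lc K t x) := by
    intro m hm
    rw [lc, mul_comm x, Nat.mul_add_div (NeZero.pos B), Nat.div_eq_of_lt (mem_range.1 hm), h]
    simp [AddChar.map_add_eq_mul]
  have : Fact (1 < B) := ⟨hB⟩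
  have e' := sum_ch (1 : ZMod B)
  simp only [mul_one, one_ne_zero, if_false] at e'
  rw [sum_congr rfl e, ← sum_mul, ← sum_nbij' (s := univ) (fun c : ZMod B => c.val)
    (fun c => (c : ZMod B)) (fun c _ => mem_range.2 c.val_lt) (fun _ _ => mem_univ _)
    (fun c _ => ZMod.natCast_zmod_val c) (fun c hc => ZMod.val_cast_of_lt (mem_range.1 hc))
    (f := ch) fun c _ => by rw [ZMod.natCast_zmod_val], e', zero_mul]

theorem mem_pre (hB : 2 ≤ B) {y : ℕ → ZMod B} (h : ∀ J, ∃ j, J ≤ j ∧ y j = 0) (t : ℕ) :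
    ∑' j : ℕ, ((y j).val : ℝ) / (B : ℝ) ^ (j + 1) ∈
      Set.Ico (pre y t / (B : ℝ) ^ t) ((pre y t + 1) / (B : ℝ) ^ t) := by
  have hB' : (2 : ℝ) ≤ B := by exact_mod_cast hB
  have h1 : ∀ t, HasSum (fun j : ℕ => ((B : ℝ) - 1) / (B : ℝ) ^ (j + t + 1)) (1 / (B : ℝ) ^ t) := by
    intro t
    have := (hasSum_geometric_of_lt_one (r := (B : ℝ)⁻¹) (by positivity)
      (inv_lt_one_of_one_lt₀ (by linarith))).mul_left (((B : ℝ) - 1) / B ^ (t + 1))
    have e1 : (fun j : ℕ => ((B : ℝ) - 1) / (B : ℝ) ^ (j + t + 1)) =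
        fun j : ℕ => ((B : ℝ) - 1) / B ^ (t + 1) * (B : ℝ)⁻¹ ^ j := by
      funext j
      rw [inv_pow]
      field_simp
      ring
    have e2 : 1 / (B : ℝ) ^ t = ((B : ℝ) - 1) / B ^ (t + 1) * (1 - (B : ℝ)⁻¹)⁻¹ := by
      have : (B : ℝ) - 1 ≠ 0 := by linarith
      field_simp
      ring
    rwa [e1, e2]
  have h2 : ∀ j, ((y j).val : ℝ) ≤ B - 1 := fun j => by
    have : ((y j).val : ℝ) + 1 ≤ B := by exact_mod_cast (y j).val_lt
    linarith
  have h3 : Summable fun j : ℕ => ((y j).val : ℝ) / (B : ℝ) ^ (j + 1) :=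
    .of_nonneg_of_le (fun _ => by positivity) (fun j => by rw [add_zero]; gcongr; exact h2 j)
      (h1 0).summable
  have h4 : ∑ j ∈ range t, ((y j).val : ℝ) / (B : ℝ) ^ (j + 1) = pre y t / (B : ℝ) ^ t := by
    induction t with
    | zero => simp [pre]
    | succ t ih =>
      rw [sum_range_succ, ih, pre]
      push_cast
      field_simp
      ring
  rw [← h3.sum_add_tsum_nat_add t, h4, add_div]
  refine ⟨le_add_of_nonneg_right (tsum_nonneg fun _ => by positivity), add_lt_add_right ?_ _⟩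
  obtain ⟨j, hj, hj'⟩ := h t
  obtain ⟨j, rfl⟩ := Nat.exists_eq_add_of_le' hj
  rw [← (h1 t).tsum_eq]
  refine Summable.tsum_lt_tsum (i := j) (fun i => ?_) ?_ ((summable_nat_add_iff t).2 h3)
    (h1 t).summable
  · simp only
    gcongr
    exact h2 _
  · rw [hj', ZMod.val_zero, Nat.cast_zero, zero_div]
    exact div_pos (by linarith) (by positivity)

section

variable {κ : Type} [Fintype κ]

open Classical in
theorem abs_le_one (z : ℕ → κ → ℝ) (N : ℕ) {a b : κ → ℝ}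
    (h : ∀ k, 0 ≤ a k ∧ a k ≤ b k ∧ b k ≤ 1) :
    |(((range N).filter fun n => ∀ k, z n k ∈ Set.Ico (a k) (b k)).card : ℝ) / N -
      ∏ k, (b k - a k)| ≤ 1 := by
  have h1 : (((range N).filter fun n => ∀ k, z n k ∈ Set.Ico (a k) (b k)).card : ℝ) / N ≤ 1 :=
    div_le_one_of_le₀ (by exact_mod_cast (card_filter_le _ _).trans (card_range N).le)
      (Nat.cast_nonneg _)
  have h2 : ∏ k, (b k - a k) ≤ 1 :=
    prod_le_one (fun k _ => sub_nonneg.2 (h k).2.1) fun k _ => by linarith [h k]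
  have h3 : 0 ≤ ∏ k, (b k - a k) := prod_nonneg fun k _ => sub_nonneg.2 (h k).2.1
  have h4 : 0 ≤ (((range N).filter fun n => ∀ k, z n k ∈ Set.Ico (a k) (b k)).card : ℝ) / N := by
    positivity
  rw [abs_le]
  constructor <;> linarith

theorem disc_le_one (z : ℕ → κ → ℝ) (N : ℕ) : disc z N ≤ 1 :=
  Real.sSup_le (by rintro _ ⟨a, b, h, rfl⟩; exact abs_le_one z N h) zero_le_one

open Classical in
theorem le_disc (z : ℕ → κ → ℝ) (N : ℕ) {a b : κ → ℝ} (h : ∀ k, 0 ≤ a k ∧ a k ≤ b k ∧ b k ≤ 1) :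
    |(((range N).filter fun n => ∀ k, z n k ∈ Set.Ico (a k) (b k)).card : ℝ) / N -
      ∏ k, (b k - a k)| ≤ disc z N :=
  le_csSup ⟨1, by rintro _ ⟨a, b, h, rfl⟩; exact abs_le_one z N h⟩ ⟨a, b, h, rfl⟩

theorem koksma {β : κ → ℕ} (hβ : ∀ k, 0 < β k) {z : ℕ → κ → ℝ} {g : ℕ → κ → ℕ}
    (hg : ∀ n k, g n k < β k)
    (hz : ∀ n k, z n k ∈ Set.Ico (g n k / (β k : ℝ)) ((g n k + 1) / (β k : ℝ)))
    {ψ : κ → ℕ → ℂ} (hψ : ∀ k P, ‖ψ k P‖ = 1) {k₀ : κ} (h0 : ∑ P ∈ range (β k₀), ψ k₀ P = 0)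
    (N : ℕ) : ‖∑ n ∈ range N, ∏ k, ψ k (g n k)‖ ≤ (∏ k, (β k : ℝ)) * (N * disc z N) := by
  classical
  rcases N.eq_zero_or_pos with rfl | hN
  · simp
  have hN' : (0 : ℝ) < N := Nat.cast_pos.2 hN
  have hβ' : ∀ k, (0 : ℝ) < β k := fun k => Nat.cast_pos.2 (hβ k)
  have e0 : ∑ P ∈ Fintype.piFinset fun k => range (β k), ∏ k, ψ k (P k) = 0 := by
    rw [← prod_univ_sum]
    exact prod_eq_zero (mem_univ k₀) h0
  have e1 : ∑ n ∈ range N, ∏ k, ψ k (g n k) = ∑ P ∈ Fintype.piFinset fun k => range (β k),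
      (∏ k, ψ k (P k)) * ((((range N).filter fun n => g n = P).card : ℝ) -
        N * ∏ k, (1 / β k : ℝ) : ℝ) := by
    rw [← sum_fiberwise_of_maps_to (t := Fintype.piFinset fun k => range (β k)) (g := g)
      fun n _ => Fintype.mem_piFinset.2 fun k => mem_range.2 (hg n k)]
    simp only [Complex.ofReal_sub, mul_sub, sum_sub_distrib, ← sum_mul, e0, zero_mul, sub_zero]
    refine sum_congr rfl fun P _ => ?_
    rw [sum_congr rfl (g := fun _ => ∏ k, ψ k (P k)) fun n hn => by rw [(mem_filter.1 hn).2]]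
    simp [mul_comm]
  rw [e1]
  refine (norm_sum_le _ _).trans ((sum_le_card_nsmul _ _ (N * disc z N) fun P hP => ?_).trans_eq ?_)
  · have hP' : ∀ k, (P k : ℝ) + 1 ≤ β k := fun k => by
      exact_mod_cast mem_range.1 (Fintype.mem_piFinset.1 hP k)
    have h1 := le_disc z N (a := fun k => P k / (β k : ℝ)) (b := fun k => (P k + 1) / (β k : ℝ))
      fun k => ⟨by positivity, by have := hβ' k; gcongr; linarith, (div_le_one (hβ' k)).2 (hP' k)⟩
    have e2 : ((range N).filter fun n => ∀ k, z n k ∈ Set.Ico (P k / (β k : ℝ))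
        ((P k + 1) / (β k : ℝ))) = (range N).filter fun n => g n = P := by
      refine filter_congr fun n _ => ⟨fun h => funext fun k => ?_, fun h k => h ▸ hz n k⟩
      have h2 := (h k).1.trans_lt (hz n k).2
      have h3 := (hz n k).1.trans_lt (h k).2
      rw [div_lt_div_iff_of_pos_right (hβ' k)] at h2 h3
      have h4 : P k < g n k + 1 := by exact_mod_cast h2
      have h5 : g n k < P k + 1 := by exact_mod_cast h3
      omega
    have e3 : ∀ k, ((P k : ℝ) + 1) / β k - P k / β k = 1 / β k := fun k => by ring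
    simp only [e3] at h1
    rw [e2] at h1
    rw [norm_mul, norm_prod, prod_eq_one fun k _ => hψ k _, one_mul, Complex.norm_real,
      Real.norm_eq_abs]
    refine le_of_eq_of_le ?_ (mul_le_mul_of_nonneg_left h1 hN'.le)
    rw [← abs_of_pos hN', ← abs_mul, abs_of_pos hN', mul_sub, mul_div_cancel₀ _ hN'.ne']
  · simp

end

variable {l : ℕ} {d q : Fin l → ℕ} [∀ i, NeZero (q i)]

/-- A combination of rows of the matrix of the coordinate `k`. -/
def comb (k : Coord d) (K : ℕ → ZMod (q k.1)) (t : ℕ) (C : Mats d q) (r : ℕ) : ZMod (q k.1) :=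
  ∑ j ∈ range t, K j * C (k, j, r)

omit [∀ i, NeZero (q i)] in
theorem lin_comb (k : Coord d) (K : ℕ → ZMod (q k.1)) (t : ℕ) (C : Mats d q) (n : ℕ) :
    lin (comb k K t C) n = ∑ j ∈ range t, K j * ydig C n k j := by
  simp only [lin, comb, ydig, sum_mul, mul_sum, mul_assoc]
  exact sum_comm

theorem sum_le_disc (hq : ∀ i, 2 ≤ q i) {C : Mats d q}
    (hC : ∀ n k J, ∃ j, J ≤ j ∧ ydig C n k j = 0) {k k' : Coord d} (hk : k ≠ k')
    (K : ℕ → ZMod (q k.1)) (K' : ℕ → ZMod (q k'.1)) (s t : ℕ) (h : K' t = 1) (N : ℕ) :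
    ‖∑ n ∈ range N, ch (lin (comb k K s C) n) * ch (lin (comb k' K' (t + 1) C) n)‖ ≤
      (q k.1 : ℝ) ^ s * (q k'.1 : ℝ) ^ (t + 1) * (N * disc (pt C) N) := by
  classical
  let τ : Coord d → ℕ := Function.update (Function.update 0 k s) k' (t + 1)
  let L : (j : Coord d) → ℕ → ZMod (q j.1) := Function.update (Function.update 0 k K) k' K'
  have τ1 : τ k = s := by simp [τ, hk]
  have τ2 : τ k' = t + 1 := by simp [τ]
  have τ3 : ∀ j ∈ (univ : Finset (Coord d)), j ≠ k ∧ j ≠ k' → τ j = 0 := fun j _ h => by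
    simp [τ, h.1, h.2]
  have L1 : L k = K := by simp [L, hk]
  have L2 : L k' = K' := by simp [L]
  have := koksma (β := fun j => q j.1 ^ τ j) (fun j => pow_pos (NeZero.pos _) _) (z := pt C)
    (g := fun n j => pre (ydig C n j) (τ j)) (fun n j => pre_lt _ _)
    (fun n j => by rw [Nat.cast_pow]; exact mem_pre (hq _) (hC n j) (τ j))
    (ψ := fun j P => ch (lc (L j) (τ j) P)) (fun _ _ => norm_ch _) (k₀ := k')
    (by simpa only [τ2, L2] using sum_lc (hq _) h) N
  rw [prod_eq_mul k k' hk (fun j hj h => by simp [τ3 j hj h]) (by simp) (by simp)] at this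
  simp only [τ1, τ2, Nat.cast_pow] at this
  convert this using 3 with n
  rw [prod_eq_mul k k' hk (fun j hj h => by simp [τ3 j hj h, lc]) (by simp) (by simp), lc_pre,
    lc_pre, τ1, τ2, L1, L2, lin_comb, lin_comb]

end Pool.Agent.Lib.MP_490b4c_nt
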