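import Pool.Agent.Lib.MP_490b4c_nt.Defs

/-! The constant in the explicit almost sure upper bound. -/

namespace Pool.Agent.Lib.MP_490b4c_nt

/-- The supremum over real `t` of `(1 / b) ∑_c |∑_x e(x (t + c / b))|`, where `c` and `x` run from
`0` to `b - 1`. -/
noncomputable def lam (b : ℕ) : ℝ :=
  ⨆ t : ℝ, (∑ c ∈ Finset.range b,
    ‖∑ x ∈ Finset.range b, Complex.exp (2 * Real.pi * Complex.I * (x * (t + c / b)))‖) / b

end Pool.Agent.Lib.MP_490b4c_nt
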