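import Pool.Agent.Lib.MP_490b4c_nt.TwoLow

/-! The almost sure upper bound in terms of the mean maximal character sum. -/

open Finset MeasureTheory Real Filter

namespace Pool.Agent.Lib.MP_490b4c_nt

namespace Two

theorem int_hom {Ω : Type} [AddCommGroup Ω] [MeasurableSpace Ω] [MeasurableAdd Ω] {P : Measure Ω}
    [IsProbabilityMeasure P] [P.IsAddLeftInvariant] {H : Type} [AddCommGroup H] [Fintype H]
    (φ : Ω →+ H) (hm : ∀ h, MeasurableSet (φ ⁻¹' {h})) (hs : Function.Surjective φ) (f : H → ℝ) :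
    Integrable (fun ω => f (φ ω)) P ∧ ∫ ω, f (φ ω) ∂P = (∑ h, f h) / Fintype.card H := by
  classical
  have e : (fun ω => f (φ ω)) = fun ω => ∑ h, (φ ⁻¹' {h}).indicator (fun _ => f h) ω := by
    funext ω
    simp [Set.indicator_apply]
  have hi : ∀ h, Integrable ((φ ⁻¹' {h}).indicator fun _ => f h) P := fun h =>
    (integrable_const _).indicator (hm h)
  rw [e]
  refine ⟨integrable_finsetSum _ fun h _ => hi h, ?_⟩
  rw [integral_finsetSum _ fun h _ => hi h, sum_div]
  refine sum_congr rfl fun h _ => ?_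
  rw [integral_indicator_const _ (hm h), real_fiber φ hm hs, smul_eq_mul]
  ring

theorem ch_sum {B : ℕ} [NeZero B] {ι : Type} (s : Finset ι) (f : ι → ZMod B) :
    ch (∑ i ∈ s, f i) = ∏ i ∈ s, ch (f i) := by
  classical
  induction s using Finset.induction_on with
  | empty => simp
  | insert a s ha ih => rw [sum_insert ha, prod_insert ha, ← ih, ch, AddChar.map_add_eq_mul]

variable {l : ℕ} {d q : Fin l → ℕ} [∀ i, Fact (q i).Prime] {t m : ℕ}

/-- The combination of rows given by a frequency. -/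
def phi (κ : (k : Coord d) → Fin t → ZMod (q k.1)) (m : ℕ) :
    Mats d q →+ ((i : Fin l) → Fin m → ZMod (q i)) where
  toFun C i r := ∑ a : Fin (d i), ∑ j, κ ⟨i, a⟩ j * C (⟨i, a⟩, j, r)
  map_zero' := by funext i r; simp
  map_add' C C' := by funext i r; simp [mul_add, sum_add_distrib]

theorem meas_phi (κ : (k : Coord d) → Fin t → ZMod (q k.1))
    (h : (i : Fin l) → Fin m → ZMod (q i)) : MeasurableSet (phi κ m ⁻¹' {h}) := by
  refine Measurable.eq_const (f := phi κ m) (measurable_pi_lambda _ fun i =>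
    measurable_pi_lambda _ fun r => ?_) h |>.setOf
  simp only [phi, AddMonoidHom.coe_mk, ZeroHom.coe_mk]
  exact Finset.measurable_fun_sum _ fun a _ => Finset.measurable_fun_sum _ fun j _ =>
    (measurable_pi_apply (X := fun x : Coord d × ℕ × ℕ => ZMod (q x.1.1))
      (⟨i, a⟩, j, r)).const_mul (κ ⟨i, a⟩ j)

theorem surj_phi (κ : (k : Coord d) → Fin t → ZMod (q k.1)) (h : ∀ i, ∃ a j, κ ⟨i, a⟩ j ≠ 0) :
    Function.Surjective (phi κ m) := by
  intro v
  choose a j h using h
  choose w hw using fun i => ext_fin (v i)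
  refine ⟨fun x => if x.1.2 = a x.1.1 ∧ x.2.1 = j x.1.1 then
    (κ ⟨x.1.1, a x.1.1⟩ (j x.1.1))⁻¹ * w x.1.1 x.2.2 else 0, ?_⟩
  funext i r
  simp only [phi, AddMonoidHom.coe_mk, ZeroHom.coe_mk]
  rw [sum_eq_single (a i) (fun b _ hb => by simp [hb]) (by simp),
    sum_eq_single (j i) (fun b _ hb => by simp [Fin.val_inj, hb]) (by simp),
    if_pos ⟨rfl, rfl⟩, mul_inv_cancel_left₀ (h i), hw]

/-- The bases that are active for a frequency. -/
def act (K : (k : Coord d) → Fin t → ZMod (q k.1)) : Finset (Fin l) :=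
  univ.filter fun i => ∃ a j, K ⟨i, a⟩ j ≠ 0

/-- The frequency with the inactive blocks filled by ones. -/
def fill (K : (k : Coord d) → Fin t → ZMod (q k.1)) (k : Coord d) (j : Fin t) : ZMod (q k.1) :=
  if k.1 ∈ act K then K k j else 1

theorem SS_eq (C : Mats d q) (K : (k : Coord d) → Fin t → ZMod (q k.1)) {N : ℕ} (hN : N ≤ 2 ^ m) :
    SS (b := fun k : Coord d => q k.1) (ydig C) t K N = csum q (act K) (phi (fill K) m C) N := by
  have hq : ∀ i, 2 ≤ q i := fun i => (Fact.out : (q i).Prime).two_le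
  refine sum_congr rfl fun n hn => ?_
  rw [Fintype.prod_sigma, ← prod_subset (subset_univ (act K)) fun i _ hi => ?_]
  · refine prod_congr rfl fun i hi => ?_
    refine (ch_sum (B := q i) univ _).symm.trans (congrArg ch ?_)
    rw [sum_congr rfl fun a _ => dot_ydig hq C ⟨i, a⟩ ((mem_range.1 hn).trans_le hN) (K ⟨i, a⟩),
      sum_comm]
    simp only [phi, fill, hi, if_true, AddMonoidHom.coe_mk, ZeroHom.coe_mk, sum_mul]
  · simp only [act, mem_filter, mem_univ, true_and, not_exists, not_not] at hi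
    simp [hi]

/-- The random majorant. -/
noncomputable def XX (M : ℕ) (C : Mats d q) : ℝ :=
  ∑ K ∈ univ.erase (0 : (k : Coord d) → Fin M.size → ZMod (q k.1)),
    wgt (b := fun k : Coord d => q k.1) M.size K * TT (act K) M (phi (fill K) M.size C)

theorem XX_nonneg (M : ℕ) (C : Mats d q) : 0 ≤ XX M C :=
  sum_nonneg fun K _ => mul_nonneg (wgt_nonneg _ K) (TT_nonneg _ _)

theorem disc_le_XX {C : Mats d q} (hC : ∀ n k J, ∃ j, J ≤ j ∧ ydig C n k j = 0) {N M : ℕ}
    (h : N ≤ M) : N * disc (pt C) N ≤ XX M C + 2 * Fintype.card (Coord d) := by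
  have hq : ∀ i, 2 ≤ q i := fun i => (Fact.out : (q i).Prime).two_le
  have hN := h.trans (Nat.lt_size_self M).le
  refine (etk (b := fun k : Coord d => q k.1) (fun k => hq _) (y := ydig C)
    (fun n k => mem_pre (hq _) (hC n k) M.size) hN).trans
    (add_le_add_left (sum_le_sum fun K _ => mul_le_mul_of_nonneg_left ?_ (wgt_nonneg _ K)) _)
  rw [SS_eq C K hN]
  exact le_TT h _

theorem int_XX (hd : ∀ i, 1 ≤ d i) (M : ℕ) : Integrable (XX M) (prob d q) ∧
    ∫ C, XX M C ∂prob d q ≤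
      (∏ k : Coord d, 2 * (q k.1 : ℝ)) * (M.size + 1) ^ Fintype.card (Coord d) * mean q M := by
  have key : ∀ K ∈ univ.erase (0 : (k : Coord d) → Fin M.size → ZMod (q k.1)),
      Integrable (fun C => TT (act K) M (phi (fill K) M.size C)) (prob d q) ∧
      ∫ C, TT (act K) M (phi (fill K) M.size C) ∂prob d q ≤ mean q M := by
    intro K hK
    obtain ⟨k, hk⟩ := Function.ne_iff.1 (mem_erase.1 hK).1
    obtain ⟨j, hj⟩ := Function.ne_iff.1 hk
    have h1 := int_hom (P := prob d q) _ (meas_phi (m := M.size) (fill K)) (surj_phi _ fun i => by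
      by_cases hi : i ∈ act K
      · simpa only [fill, hi, if_true] using (mem_filter.1 hi).2
      · exact ⟨⟨0, hd i⟩, j, by simp [fill, hi]⟩) (TT (act K) M)
    refine ⟨h1.1, h1.2.trans_le ?_⟩
    rw [card_G]
    exact av_le_mean ⟨k.1, mem_filter.2 ⟨mem_univ _, k.2, j, hj⟩⟩ M
  refine ⟨integrable_finsetSum _ fun K hK => (key K hK).1.const_mul _, ?_⟩
  simp only [XX]
  rw [integral_finsetSum _ fun K hK => (key K hK).1.const_mul _]
  refine (sum_le_sum fun K hK => (integral_const_mul _ _).trans_le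
    (mul_le_mul_of_nonneg_left (key K hK).2 (wgt_nonneg _ K))).trans ?_
  rw [← sum_mul]
  refine mul_le_mul_of_nonneg_right ((sum_le_sum_of_subset_of_nonneg (erase_subset _ _)
    fun K _ _ => wgt_nonneg _ K).trans ?_) (mean_nonneg M)
  rw [sum_wgt, ← card_univ, ← prod_const, ← prod_mul_distrib]
  refine prod_le_prod (fun _ _ => by positivity) fun k _ => ?_
  have : (1 : ℝ) ≤ q k.1 := by exact_mod_cast (Fact.out : (q k.1).Prime).one_le
  nlinarith

theorem upper (hl : 1 ≤ l) (hd : ∀ i, 1 ≤ d i) : ∀ᵐ C ∂prob d q, ∃ c : ℝ, ∀ᶠ N : ℕ in atTop,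
    ∀ N' ≤ N, N' * disc (pt C) N' ≤ c * (mean q N * log N ^ (Fintype.card (Coord d) + 3)) := by
  classical
  set D := Fintype.card (Coord d)
  set c₀ := ∏ k : Coord d, 2 * (q k.1 : ℝ)
  have hc₀ : 0 < c₀ := prod_pos fun k _ => by
    have := (Fact.out : (q k.1).Prime).pos
    positivity
  let M : ℕ → ℕ → ℕ := fun i j => Nat.findGreatest (fun M => mean q M ≤ 2 ^ j) (2 ^ i)
  have hM : ∀ i j, mean q (M i j) ≤ 2 ^ j := fun i j =>
    Nat.findGreatest_spec (P := fun M => mean q M ≤ 2 ^ j) (Nat.zero_le _)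
      ((mean_le 0).trans (by simp))
  let Z : ℕ → Mats d q → ℝ := fun i C => ∑ j ∈ range (i + l + 1), XX (M i j) C / 2 ^ j
  let w : ℕ → ℝ := fun i => ((i : ℝ) + l + 1) * (c₀ * (i + 2) ^ D)
  have hw : ∀ i, 0 < w i := fun i => by positivity
  have hZ : ∀ i : ℕ, (prob d q).real {C | ((i : ℝ) + 1) ^ 2 * w i ≤ Z i C} ≤ 1 / ((i : ℝ) + 1) ^ 2 := by
    intro i
    have h1 := mul_meas_ge_le_integral_of_nonneg (μ := prob d q) (f := Z i)
      (ae_of_all _ fun C => sum_nonneg fun j _ => div_nonneg (XX_nonneg _ _) (by positivity))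
      (integrable_finsetSum _ fun j _ => (int_XX hd _).1.div_const _) (((i : ℝ) + 1) ^ 2 * w i)
    have h2 : ∫ C, Z i C ∂prob d q ≤ w i := by
      simp only [Z]
      rw [integral_finsetSum _ fun j _ => (int_XX hd _).1.div_const _]
      refine (sum_le_card_nsmul _ _ (c₀ * ((i : ℝ) + 2) ^ D) fun j _ => ?_).trans_eq (by simp [w])
      rw [integral_div, div_le_iff₀ (by positivity)]
      refine (int_XX hd _).2.trans (mul_le_mul (mul_le_mul_of_nonneg_left
        (pow_le_pow_left₀ (by positivity) ?_ _) hc₀.le) (hM i j) (mean_nonneg _) (by positivity))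
      have : (M i j).size ≤ i + 1 := Nat.size_le.2 ((Nat.findGreatest_le _).trans_lt
        (Nat.pow_lt_pow_right one_lt_two (Nat.lt_succ_self i)))
      have : ((M i j).size : ℝ) ≤ i + 1 := by exact_mod_cast this
      linarith
    rw [le_div_iff₀' (by positivity)]
    refine le_of_mul_le_mul_right ?_ (hw i)
    linarith
  have hs : Summable fun i : ℕ => 1 / ((i : ℝ) + 1) ^ 2 := by
    have := (summable_nat_add_iff 1).2 (summable_one_div_nat_pow.2 one_lt_two)
    simpa using this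
  have hBC := ae_eventually_notMem (μ := prob d q)
    (s := fun i => {C | ((i : ℝ) + 1) ^ 2 * w i ≤ Z i C}) (ne_top_of_le_ne_top
      hs.tsum_ofReal_ne_top
      (ENNReal.tsum_le_tsum fun i => by
        rw [← ofReal_measureReal (measure_ne_top _ _)]
        exact ENNReal.ofReal_le_ofReal (hZ i)))
  filter_upwards [hBC, ae_digits] with C h1 h2
  obtain ⟨i₀, h1⟩ := eventually_atTop.1 h1
  refine ⟨2 * (6 ^ 2 * ((6 + 2 * l) * (c₀ * 8 ^ D))) + 2 * D * 2 ^ (D + 3), ?_⟩
  filter_upwards [eventually_ge_atTop (2 ^ i₀), eventually_ge_atTop 2] with N hN hN2 N' hN'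
  have h3 := not_le.1 (h1 N.size (Nat.lt_size.2 hN).le)
  have h4 := one_le_mean (q := q) hl (show 1 ≤ N by omega)
  obtain ⟨n, hn1, hn2⟩ := exists_nat_pow_near h4 (one_lt_two (α := ℝ))
  have h5 : n < N.size + l := by
    refine (pow_lt_pow_iff_right₀ (one_lt_two (α := ℝ))).1 ((hn1.trans (mean_le N)).trans_lt ?_)
    rw [pow_add, mul_comm]
    exact mul_lt_mul_of_pos_right (by exact_mod_cast Nat.lt_size_self N) (by positivity)
  have h6 := disc_le_XX h2 (hN'.trans (Nat.le_findGreatest (P := fun M => mean q M ≤ 2 ^ (n + 1))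
    (Nat.lt_size_self N).le hn2.le))
  have h7 : XX (M N.size (n + 1)) C / 2 ^ (n + 1) ≤ Z N.size C :=
    single_le_sum (f := fun j => XX (M N.size j) C / 2 ^ j)
      (fun j _ => div_nonneg (XX_nonneg _ _) (by positivity)) (mem_range.2 (by omega))
  obtain ⟨l1, l2⟩ := size_le_log hN2
  have h8 : ((N.size : ℝ) + 1) ^ 2 * w N.size ≤
      6 ^ 2 * ((6 + 2 * l) * (c₀ * 8 ^ D)) * log N ^ (D + 3) := by
    calc _ ≤ (6 * log N) ^ 2 * (((6 + 2 * l) * log N) * (c₀ * (8 * log N) ^ D)) := by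
          simp only [w]
          gcongr <;> nlinarith [l.cast_nonneg (α := ℝ)]
      _ = _ := by ring
  have h9 : (1 : ℝ) ≤ 2 ^ (D + 3) * log N ^ (D + 3) := by
    rw [← mul_pow]
    exact one_le_pow₀ (by linarith)
  rw [div_le_iff₀ (by positivity), pow_succ] at h7
  have h10 : 0 ≤ Z N.size C := sum_nonneg fun j _ => div_nonneg (XX_nonneg _ _) (by positivity)
  have h11 := mul_le_mul (h3.le.trans h8) hn1 (by positivity) (h10.trans (h3.le.trans h8))
  have h12 := mul_le_mul_of_nonneg_left (one_le_mul_of_one_le_of_one_le h9 h4)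
    (show (0 : ℝ) ≤ 2 * D by positivity)
  nlinarith

end Two

end Pool.Agent.Lib.MP_490b4c_nt
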