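import Pool.Agent.Lib.MP_490b4c_nt.ExDefs
import Pool.Agent.Lib.MP_490b4c_nt.TwoUp

/-! Explicit upper bounds for the mean maximal character sum. -/

open Finset MeasureTheory Real Filter

namespace Pool.Agent.Lib.MP_490b4c_nt

namespace Two

open Classical in
/-- A bound for geometric sums of length at most `L`. -/
noncomputable def WW (L : ℕ) (z : ℂ) : ℝ := if z = 1 then L else min L (2 / ‖z - 1‖)

theorem WW_le (L : ℕ) (z : ℂ) : WW L z ≤ L := by
  rw [WW]
  split_ifs
  exacts [le_rfl, min_le_left _ _]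

theorem WW_nonneg (L : ℕ) (z : ℂ) : 0 ≤ WW L z := by
  rw [WW]
  split_ifs <;> positivity

theorem norm_Dk_le_WW {N L : ℕ} (h : N ≤ L) {z : ℂ} (hz : ‖z‖ = 1) : ‖Dk N z‖ ≤ WW L z := by
  have h1 : ‖Dk N z‖ ≤ L := (norm_Dk_le N hz).trans (Nat.cast_le.2 h)
  rw [WW]
  split_ifs with h2
  · exact h1
  · refine le_min h1 ?_
    rw [Dk, geom_sum_eq h2, norm_div]
    refine div_le_div_of_nonneg_right ((norm_sub_le _ _).trans_eq ?_) (norm_nonneg _)
    rw [norm_pow, hz, one_pow, norm_one, one_add_one_eq_two]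

theorem four_min_le {y : ℝ} (h0 : 0 ≤ y) (h1 : y ≤ 1) :
    4 * min y (1 - y) ≤ ‖ee (y : UnitAddCircle) - 1‖ := by
  rw [ee_coe, show (2 * π * Complex.I * y : ℂ) = Complex.I * (2 * π * y : ℝ) by push_cast; ring,
    Complex.norm_exp_I_mul_ofReal_sub_one]
  refine le_trans ?_ (le_abs_self _)
  rcases le_total y (1 - y) with h | h
  · have := le_sin_mul (x := 2 * y) (by linarith) (by linarith)
    rw [min_eq_left h, show 2 * π * y / 2 = π / 2 * (2 * y) by ring]
    linarith
  · have := le_sin_mul (x := 2 * (1 - y)) (by linarith) (by linarith)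
    rw [min_eq_right h, show 2 * π * y / 2 = π - π / 2 * (2 * (1 - y)) by ring, sin_pi_sub]
    linarith

variable {B : ℕ} [NeZero B]

theorem sum_zmod {M : Type} [AddCommMonoid M] (f : ZMod B → M) :
    ∑ c, f c = ∑ x ∈ range B, f x :=
  sum_nbij' (s := univ) (fun c : ZMod B => c.val)
    (fun c => (c : ZMod B)) (fun c _ => mem_range.2 c.val_lt) (fun _ _ => mem_univ _)
    (fun c _ => ZMod.natCast_zmod_val c) (fun c hc => ZMod.val_cast_of_lt (mem_range.1 hc))
    fun c _ => by rw [ZMod.natCast_zmod_val]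

theorem sum_WW_le (θ : UnitAddCircle) : ∑ c : ZMod B, WW B (ch c * ee θ) ≤ B * (3 + log B) := by
  have hB : (0 : ℝ) < B := Nat.cast_pos.2 (NeZero.pos B)
  obtain ⟨x, rfl⟩ := QuotientAddGroup.mk_surjective θ
  have e1 : ∀ k : ℤ, ch (k : ZMod B) = ee ((k / B : ℝ) : UnitAddCircle) := fun k => by
    rw [ee_coe, ch, ZMod.stdAddChar_coe]
    congr 1
    push_cast
    ring
  set t := Int.fract (B * x) with ht
  have e2 : ee (x : UnitAddCircle) = ch (⌊B * x⌋ : ZMod B) * ee ((t / B : ℝ) : UnitAddCircle) := by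
    rw [e1, ← ee_add, ← AddCircle.coe_add, ← add_div, ht, Int.floor_add_fract,
      mul_div_cancel_left₀ _ hB.ne']
  have e3 : ∑ c : ZMod B, WW B (ch c * ee (x : UnitAddCircle)) =
      ∑ c ∈ range B, WW B (ee (((c + t) / B : ℝ) : UnitAddCircle)) := by
    simp only [e2, ← mul_assoc, ch, ← AddChar.map_add_eq_mul]
    refine (Equiv.sum_comp (Equiv.addRight (⌊B * x⌋ : ZMod B))
      fun c => WW B (ZMod.stdAddChar c * ee ((t / B : ℝ) : UnitAddCircle))).trans ?_
    rw [sum_zmod]
    refine sum_congr rfl fun c _ => ?_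
    rw [add_div, AddCircle.coe_add, ee_add, ← Int.cast_natCast (R := ZMod B), ← ch, e1,
      Int.cast_natCast]
  let g : ℕ → ℝ := fun c => if c = 0 then B else B / (2 * c)
  have g0 : ∀ c, 0 ≤ g c := fun c => by simp only [g]; split_ifs <;> positivity
  have h1 : ∀ c ∈ range B, WW B (ee (((c + t) / B : ℝ) : UnitAddCircle)) ≤ g c + g (B - 1 - c) := by
    intro c hc
    rw [mem_range] at hc
    by_cases a1 : c = 0
    · exact (WW_le _ _).trans (le_add_of_le_of_nonneg (by simp [g, a1]) (g0 _))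
    by_cases a2 : B - 1 - c = 0
    · exact (WW_le _ _).trans (le_add_of_nonneg_of_le (g0 _) (by simp [g, a2]))
    have t0 : 0 ≤ t := Int.fract_nonneg _
    have t1 : t < 1 := Int.fract_lt_one _
    have c1 : (1 : ℝ) ≤ c := by exact_mod_cast Nat.pos_of_ne_zero a1
    have c2 : ((B - 1 - c : ℕ) : ℝ) = B - 1 - c := by
      rw [Nat.sub_sub, Nat.cast_sub (by omega)]
      push_cast
      ring
    have c3 : (1 : ℝ) ≤ B - 1 - c := by rw [← c2]; exact_mod_cast Nat.pos_of_ne_zero a2
    have h2 := four_min_le (y := (c + t) / B) (by positivity) ((div_le_one hB).2 (by linarith))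
    have h3 : min (c : ℝ) (B - 1 - c) / B ≤ min ((c + t) / B) (1 - (c + t) / B) := by
      rw [one_sub_div hB.ne', min_div_div_right hB.le]
      exact div_le_div_of_nonneg_right (min_le_min (by linarith) (by linarith)) hB.le
    have h4 : 0 < min (c : ℝ) (B - 1 - c) := lt_min (by linarith) (by linarith)
    have h5 : 0 < min (c : ℝ) (B - 1 - c) / B := div_pos h4 hB
    rw [WW, if_neg fun h => by rw [h, sub_self, norm_zero] at h2; linarith]
    refine (min_le_right _ _).trans ((div_le_div_of_nonneg_left zero_le_two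
      (show 0 < 4 * (min (c : ℝ) (B - 1 - c) / B) by positivity) (by linarith)).trans ?_)
    simp only [g, if_neg a1, if_neg a2, c2]
    rcases le_total (c : ℝ) (B - 1 - c) with h | h
    · rw [min_eq_left h]
      refine le_add_of_le_of_nonneg (le_of_eq ?_) (by positivity)
      field_simp
      norm_num
    · rw [min_eq_right h]
      refine le_add_of_nonneg_of_le (by positivity) (le_of_eq ?_)
      field_simp
      norm_num
  rw [e3]
  refine (sum_le_sum h1).trans ?_
  rw [sum_add_distrib, sum_range_reflect, ← two_mul]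
  have h6 : ∑ c ∈ range B, g c ≤ ∑ c ∈ range (B + 1), g c :=
    sum_le_sum_of_subset_of_nonneg (range_subset_range.2 (Nat.le_succ B)) fun c _ _ => g0 c
  have h7 : ∑ c ∈ range (B + 1), g c = B / 2 * harmonic B + B := by
    rw [sum_range_succ', harmonic]
    push_cast
    rw [mul_sum]
    congr 1
    refine sum_congr rfl fun c _ => ?_
    simp only [g, if_neg (Nat.succ_ne_zero c)]
    push_cast
    field_simp
  nlinarith [harmonic_le_one_add_log B]

theorem mm_one_le (θ : UnitAddCircle) : mm B 1 θ ≤ 3 + log B := by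
  have hB : (0 : ℝ) < B := Nat.cast_pos.2 (NeZero.pos B)
  rw [mm, div_le_iff₀' hB]
  refine le_trans (sum_le_sum fun c _ => ?_) (sum_WW_le θ)
  rw [rpow_one]
  exact norm_Dk_le_WW le_rfl (by rw [norm_mul, norm_ch, norm_ee, mul_one])

theorem lam_eq : lam B = ⨆ t : ℝ, mm B 1 t := by
  refine congrArg _ (funext fun t => ?_)
  rw [mm, sum_zmod]
  congr 1
  refine sum_congr rfl fun c hc => ?_
  rw [rpow_one]
  congr 1
  refine sum_congr rfl fun x _ => ?_
  rw [ch_eq, ZMod.val_cast_of_lt (mem_range.1 hc), ee_coe, ee_coe, ← Complex.exp_add,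
    ← Complex.exp_nat_mul]
  congr 1
  push_cast
  ring

theorem lam_le : lam B ≤ 3 + log B := by
  rw [lam_eq]
  exact ciSup_le fun t => mm_one_le _

theorem mm_le_lam (θ : UnitAddCircle) : mm B 1 θ ≤ lam B := by
  obtain ⟨x, rfl⟩ := QuotientAddGroup.mk_surjective θ
  rw [lam_eq]
  exact le_ciSup (f := fun t : ℝ => mm B 1 t) ⟨_, by rintro _ ⟨t, rfl⟩; exact mm_one_le _⟩ x

theorem one_le_lam : 1 ≤ lam B := by
  have hB : (0 : ℝ) < B := Nat.cast_pos.2 (NeZero.pos B)
  refine le_trans ?_ (mm_le_lam 0)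
  rw [mm, le_div_iff₀ hB]
  refine le_trans (le_of_eq ?_) (single_le_sum (fun _ _ => by positivity) (mem_univ 0))
  simp [ee, Dk]

/-- The discrete Fourier transform of the first `K` values. -/
noncomputable def ft (u : ℕ → ℂ) (K : ℕ) (h : ZMod B) : ℂ := ∑ x ∈ range K, u x * ch (-h) ^ x

theorem inv_ft (u : ℕ → ℂ) {K n : ℕ} (hK : K ≤ B) (hn : n < K) :
    u n = (∑ h : ZMod B, ft u K h * ch h ^ n) / B := by
  have hB : (B : ℂ) ≠ 0 := Nat.cast_ne_zero.2 (NeZero.ne B)
  have e : ∀ (h : ZMod B) (x : ℕ),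
      u x * ch (-h) ^ x * ch h ^ n = u x * ch (h * ((n : ZMod B) - (x : ZMod B))) :=
    fun h x => by
      rw [ch_pow, ch_pow, mul_assoc, ch, ch, ← AddChar.map_add_eq_mul]
      congr 2
      ring
  simp only [ft, sum_mul, e]
  rw [sum_comm, sum_eq_single n (fun x hx hne => ?_) fun h => absurd (mem_range.2 hn) h,
    ← mul_sum, sum_ch, if_pos (sub_self _), mul_div_cancel_right₀ _ hB]
  rw [← mul_sum, sum_ch, if_neg, mul_zero]
  rw [sub_eq_zero, ZMod.natCast_eq_natCast_iff', Nat.mod_eq_of_lt (hn.trans_le hK),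
    Nat.mod_eq_of_lt ((mem_range.1 hx).trans_le hK)]
  exact hne.symm

theorem prod_bound {ι : Type} [Fintype ι] [DecidableEq ι] (u : ι → ℕ → ℂ) (K : ι → ℕ)
    (hK : ∀ i, K i ≤ B) {N : ℕ} (hN : ∀ i, N ≤ K i) (hNB : N ≤ B) :
    ‖∑ n ∈ range N, ∏ i, u i n‖ ≤ (∑ h : ι → ZMod B, (∏ i, ‖ft (u i) (K i) (h i)‖) *
      WW B (ch (∑ i, h i))) / (B : ℝ) ^ Fintype.card ι := by
  have e : ∑ n ∈ range N, ∏ i, u i n = (∑ h : ι → ZMod B, (∏ i, ft (u i) (K i) (h i)) *
      Dk N (ch (∑ i, h i))) / (B : ℂ) ^ Fintype.card ι := by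
    simp only [Dk, mul_sum]
    rw [sum_comm, sum_div]
    refine sum_congr rfl fun n hn => ?_
    rw [prod_congr rfl fun i _ => inv_ft (u i) (hK i) ((mem_range.1 hn).trans_le (hN i)),
      prod_div_distrib, prod_const, card_univ, Fintype.prod_sum]
    simp only [prod_mul_distrib, ch_sum, prod_pow]
  rw [e, norm_div, norm_pow, Complex.norm_natCast]
  refine div_le_div_of_nonneg_right ((norm_sum_le _ _).trans (sum_le_sum fun h _ => ?_))
    (by positivity)
  rw [norm_mul, norm_prod]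
  exact mul_le_mul_of_nonneg_left (norm_Dk_le_WW hNB (norm_ch _))
    (prod_nonneg fun _ _ => norm_nonneg _)

theorem sum_WW_pi {ι : Type} [Fintype ι] [DecidableEq ι] (i₀ : ι) :
    ∑ h : ι → ZMod B, WW B (ch (∑ i, h i)) ≤ (B : ℝ) ^ Fintype.card ι * (3 + log B) := by
  have hB : (0 : ℝ) < B := Nat.cast_pos.2 (NeZero.pos B)
  have e : ∀ c : ZMod B, ∑ h : ι → ZMod B, WW B (ch (∑ i, h i)) =
      ∑ h : ι → ZMod B, WW B (ch c * ch (∑ i, h i)) := fun c => by
    rw [← Equiv.sum_comp (Equiv.addLeft (Pi.single i₀ c : ι → ZMod B))]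
    simp [sum_add_distrib, AddChar.map_add_eq_mul]
  refine le_of_mul_le_mul_left ?_ hB
  calc _ = ∑ c : ZMod B, ∑ h : ι → ZMod B, WW B (ch c * ch (∑ i, h i)) := by
        simp [← e]
    _ ≤ ∑ h : ι → ZMod B, B * (3 + log B) := by
        rw [sum_comm]
        exact sum_le_sum fun h _ => by rw [ch_eq (∑ i, h i)]; exact sum_WW_le _
    _ = _ := by
        simp
        ring

omit [NeZero B] in
theorem eq_of_digits {m n n' : ℕ} (h : n < B ^ m) (h' : n' < B ^ m)
    (e : ∀ r < m, n / B ^ r % B = n' / B ^ r % B) : n = n' := by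
  induction m generalizing n n' with
  | zero => simp at h h'; omega
  | succ m ih =>
    have h1 := ih (n := n / B) (n' := n' / B) (Nat.div_lt_of_lt_mul (by rwa [pow_succ'] at h))
      (Nat.div_lt_of_lt_mul (by rwa [pow_succ'] at h')) fun r hr => by
        simpa only [Nat.div_div_eq_div_mul, ← pow_succ'] using e (r + 1) (by omega)
    have h2 := e 0 (by omega)
    rw [pow_zero, Nat.div_one, Nat.div_one] at h2
    rw [← Nat.div_add_mod n B, ← Nat.div_add_mod n' B, h1, h2]

variable {l : ℕ} {q : Fin l → ℕ} [∀ i, Fact (q i).Prime] {s : Finset (Fin l)} {m : ℕ}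

/-- One digit character. -/
noncomputable def uu {p m : ℕ} [NeZero p] (a : Fin m → ZMod p) (n : ℕ) : ℂ :=
  ch (∑ r : Fin m, a r * ((n / p ^ (r : ℕ) % p : ℕ) : ZMod p))

theorem sum_prod_s (F : (i : Fin l) → (Fin m → ZMod (q i)) → ℂ) :
    ∑ a : (i : Fin l) → Fin m → ZMod (q i), ∏ i ∈ s, F i (a i) =
      ∏ i, if i ∈ s then ∑ v, F i v else (q i : ℂ) ^ m := by
  have : ∀ a : (i : Fin l) → Fin m → ZMod (q i), ∏ i ∈ s, F i (a i) =
      ∏ i, if i ∈ s then F i (a i) else 1 := fun a => by rw [prod_ite_mem, univ_inter]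
  simp only [this]
  rw [← Fintype.prod_sum fun i v => if i ∈ s then F i v else 1]
  refine prod_congr rfl fun i _ => ?_
  split_ifs <;> simp

theorem l2_bound (hs : s.Nonempty) {K : ℕ} (hK : K ≤ 2 ^ m) (h : ZMod B) :
    ∑ a : (i : Fin l) → Fin m → ZMod (q i), ‖ft (fun n => ∏ i ∈ s, uu (a i) n) K h‖ ≤
      (∏ i, (q i : ℝ) ^ m) * √K := by
  have hq : ∀ i, 2 ≤ q i := fun i => (Fact.out : (q i).Prime).two_le
  have orth : ∀ x ∈ range K, ∀ y ∈ range K, ∑ a : (i : Fin l) → Fin m → ZMod (q i),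
      ∏ i ∈ s, (uu (a i) x * (starRingEnd ℂ) (uu (a i) y)) =
      if x = y then ∏ i, (q i : ℂ) ^ m else 0 := by
    intro x hx y hy
    rw [sum_prod_s fun i v => uu v x * (starRingEnd ℂ) (uu v y)]
    simp only [uu, ch, ← AddChar.map_neg_eq_conj, ← AddChar.map_add_eq_mul, ← sub_eq_add_neg,
      ← sum_sub_distrib, ← mul_sub, sum_dot]
    split_ifs with e
    · simp [e, funext_iff]
    · obtain ⟨i, hi⟩ := hs
      refine prod_eq_zero (mem_univ i) ?_
      rw [if_pos hi, if_neg fun h0 => e ?_]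
      have hm : K ≤ q i ^ m := hK.trans (Nat.pow_le_pow_left (hq i) m)
      refine eq_of_digits ((mem_range.1 hx).trans_le hm) ((mem_range.1 hy).trans_le hm)
        fun r hr => ?_
      have := sub_eq_zero.1 (congrFun h0 ⟨r, hr⟩)
      rwa [ZMod.natCast_eq_natCast_iff', Nat.mod_mod, Nat.mod_mod] at this
  have e : ∑ a : (i : Fin l) → Fin m → ZMod (q i), ‖ft (fun n => ∏ i ∈ s, uu (a i) n) K h‖ ^ 2 =
      (∏ i, (q i : ℝ) ^ m) * K := by
    apply Complex.ofReal_injective
    push_cast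
    simp only [← Complex.mul_conj', ft, map_sum, sum_mul_sum, map_mul, map_prod]
    rw [sum_comm, sum_congr rfl (g := fun _ => ∏ i, (q i : ℂ) ^ m) fun x hx => ?_]
    · simp [mul_comm]
    · rw [sum_comm, sum_congr rfl (g := fun y => (if x = y then ∏ i, (q i : ℂ) ^ m else 0) *
        (ch (-h) ^ x * (starRingEnd ℂ) (ch (-h) ^ y))) fun y hy => ?_]
      · simp only [ite_mul, zero_mul, sum_ite_eq, hx, if_true, Complex.mul_conj', norm_pow,
          norm_ch]
        simp
      · rw [← orth x hx y hy, sum_mul]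
        refine sum_congr rfl fun a _ => ?_
        rw [prod_mul_distrib]
        ring
  refine (le_sqrt_of_sq_le (sq_sum_le_card_mul_sum_sq.trans_eq ?_)).trans_eq
    (by rw [sqrt_mul (sq_nonneg _), sqrt_sq (G_pos m).le] :
      √((∏ i, (q i : ℝ) ^ m) ^ 2 * K) = _)
  rw [e, card_univ, card_G]
  ring

theorem av_le_sqrt (hs : s.Nonempty) {M : ℕ} (hM : 1 ≤ M) : av q s M ≤ √M * (3 + log M) := by
  have : NeZero M := ⟨by omega⟩
  have hM' : (0 : ℝ) < M := by exact_mod_cast hM
  rw [av, div_le_iff₀' (G_pos _)]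
  calc _ ≤ ∑ a : (i : Fin l) → Fin M.size → ZMod (q i), (∑ h : Unit → ZMod M,
        ‖ft (fun n => ∏ i ∈ s, uu (a i) n) M (h ())‖ * WW M (ch (∑ i, h i))) / M := by
        refine sum_le_sum fun a _ => ?_
        obtain ⟨N, hN, e⟩ := exists_TT s M a
        rw [e]
        simpa [csum, uu] using prod_bound (B := M) (fun (_ : Unit) n => ∏ i ∈ s, uu (a i) n)
          (fun _ => M) (fun _ => le_rfl) (fun _ => hN) hN
    _ ≤ (∑ h : Unit → ZMod M, (∏ i, (q i : ℝ) ^ M.size) * √M * WW M (ch (∑ i, h i))) / M := by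
        rw [← sum_div, sum_comm]
        refine div_le_div_of_nonneg_right (sum_le_sum fun h _ => ?_) hM'.le
        rw [← sum_mul]
        exact mul_le_mul_of_nonneg_right (l2_bound hs (Nat.lt_size_self M).le _) (WW_nonneg _ _)
    _ ≤ _ := by
        rw [← mul_sum, div_le_iff₀ hM']
        refine (mul_le_mul_of_nonneg_left (sum_WW_pi ())
          (mul_nonneg (G_pos _).le (sqrt_nonneg _))).trans_eq ?_
        simp
        ring

theorem sum_ft_le {p : ℕ} [Fact p.Prime] {k : ℕ} (hk : k ≤ m) (h : ZMod B) :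
    ∑ v : Fin m → ZMod p, ‖ft (uu v) (p ^ k) h‖ ≤ (p : ℝ) ^ m * lam p ^ k := by
  have hp : 2 ≤ p := (Fact.out : p.Prime).two_le
  have hp0 : (0 : ℝ) < p := by positivity
  obtain ⟨θ, hθ⟩ : ∃ θ, ch (-h) = ee θ := ⟨_, ch_eq _⟩
  have e : ∀ v : Fin m → ZMod p, ‖ft (uu v) (p ^ k) h‖ = ∏ r : Fin m,
      if (r : ℕ) < k then ‖Dk p (ch (v r) * ee (p ^ (r : ℕ) • θ))‖ else 1 := by
    intro v
    obtain ⟨w, hw⟩ := ext_fin v
    rw [ft, sum_congr rfl (g := fun x => ch (lin w x) * ee θ ^ x) fun x hx => by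
      rw [hθ, uu, lin_eq hp w ((mem_range.1 hx).trans_le (Nat.pow_le_pow_right (by omega) hk)),
        sum_range]
      simp only [hw], ← poly_eq hp, PP, norm_prod]
    simp only [← hw, ← ee_nsmul]
    rw [Fin.prod_univ_eq_prod_range (fun r => ‖Dk p (ch (w r) * ee (p ^ r • θ))‖) k,
      Fin.prod_univ_eq_prod_range
        (fun r => if r < k then ‖Dk p (ch (w r) * ee (p ^ r • θ))‖ else 1) m, ← prod_filter]
    congr 1
    ext r
    simp only [mem_range, mem_filter]
    omega
  simp only [e]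
  rw [← Fintype.prod_sum fun (r : Fin m) (c : ZMod p) =>
    if (r : ℕ) < k then ‖Dk p (ch c * ee (p ^ (r : ℕ) • θ))‖ else 1]
  refine (prod_le_prod (g := fun r : Fin m => p * if (r : ℕ) < k then lam p else 1)
    (fun r _ => sum_nonneg fun c _ => by split_ifs <;> positivity) fun r _ => ?_).trans_eq ?_
  · split_ifs
    · have := mm_le_lam (B := p) (p ^ (r : ℕ) • θ)
      rw [mm, div_le_iff₀' hp0] at this
      simpa using this
    · simp
  · rw [prod_mul_distrib, Fin.prod_univ_eq_prod_range (fun r => if r < k then lam p else 1) m,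
      ← prod_filter, show (range m).filter (· < k) = range k by
        ext r; simp only [mem_range, mem_filter]; omega]
    simp

theorem av_le_lam (hs : s.Nonempty) {M : ℕ} (hM : 2 ≤ M) :
    av q s M ≤ (∏ i, lam (q i) ^ Nat.clog (q i) M) * (3 + log (M * ∏ i, q i : ℕ)) := by
  have hq : ∀ i, 2 ≤ q i := fun i => (Fact.out : (q i).Prime).two_le
  have hQ : 0 < ∏ i, q i := prod_pos fun i _ => by linarith [hq i]
  set L := M * ∏ i, q i with hL
  have : NeZero L := ⟨by positivity⟩
  have hL' : (0 : ℝ) < (L : ℝ) ^ Fintype.card s := pow_pos (Nat.cast_pos.2 (NeZero.pos L)) _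
  have hK : ∀ i, q i ^ Nat.clog (q i) M ≤ L := fun i => by
    have h2 := Nat.pow_pred_clog_lt_self (hq i) hM
    rw [← Nat.succ_pred_eq_of_pos (Nat.clog_pos (hq i) hM), Nat.pow_succ]
    exact Nat.mul_le_mul h2.le (Nat.le_of_dvd hQ (dvd_prod_of_mem _ (mem_univ i)))
  have hP : 0 ≤ (∏ i, (q i : ℝ) ^ M.size) * ∏ i, lam (q i) ^ Nat.clog (q i) M :=
    mul_nonneg (G_pos _).le (prod_nonneg fun i _ => pow_nonneg (zero_le_one.trans one_le_lam) _)
  obtain ⟨i₀, hi₀⟩ := hs
  rw [av, div_le_iff₀' (G_pos _)]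
  calc _ ≤ ∑ a : (i : Fin l) → Fin M.size → ZMod (q i), (∑ h : s → ZMod L,
        (∏ i : s, ‖ft (uu (a i)) (q i ^ Nat.clog (q i) M) (h i)‖) * WW L (ch (∑ i, h i))) /
          (L : ℝ) ^ Fintype.card s := by
        refine sum_le_sum fun a _ => ?_
        obtain ⟨N, hN, e⟩ := exists_TT s M a
        rw [e]
        refine le_trans (le_of_eq (congrArg norm (sum_congr rfl fun n _ => ?_)))
          (prod_bound (B := L) (fun i : s => uu (a i)) _ (fun i => hK i)
          (fun i => hN.trans (Nat.le_pow_clog (hq i) M)) (hN.trans (Nat.le_mul_of_pos_right M hQ)))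
        exact (prod_coe_sort s fun i => uu (a i) n).symm
    _ ≤ (∑ h : s → ZMod L, ((∏ i, (q i : ℝ) ^ M.size) * ∏ i, lam (q i) ^ Nat.clog (q i) M) *
        WW L (ch (∑ i, h i))) / (L : ℝ) ^ Fintype.card s := by
        rw [← sum_div, sum_comm]
        refine div_le_div_of_nonneg_right (sum_le_sum fun h _ => ?_) hL'.le
        rw [← sum_mul]
        refine mul_le_mul_of_nonneg_right ?_ (WW_nonneg _ _)
        let F : (i : Fin l) → (Fin M.size → ZMod (q i)) → ℝ := fun i v =>
          if hi : i ∈ s then ‖ft (uu v) (q i ^ Nat.clog (q i) M) (h ⟨i, hi⟩)‖ else 1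
        have e : ∀ a : (i : Fin l) → Fin M.size → ZMod (q i),
            ∏ i : s, ‖ft (uu (a i)) (q i ^ Nat.clog (q i) M) (h i)‖ = ∏ i, F i (a i) := fun a => by
          rw [← prod_subset (subset_univ s) fun i _ hi => dif_neg hi, ← prod_coe_sort s]
          exact prod_congr rfl fun i _ => by simp only [F, dif_pos i.2]
        simp only [e]
        rw [← Fintype.prod_sum F, ← prod_mul_distrib]
        refine prod_le_prod (fun i _ => sum_nonneg fun v _ => by
          simp only [F]; split_ifs <;> positivity) fun i _ => ?_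
        by_cases hi : i ∈ s
        · simp only [F, dif_pos hi]
          exact sum_ft_le (Nat.clog_le_of_le_pow ((Nat.lt_size_self M).le.trans
            (Nat.pow_le_pow_left (hq i) _))) _
        · simp only [F, dif_neg hi]
          simpa using le_mul_of_one_le_right (by positivity) (one_le_pow₀ one_le_lam)
    _ ≤ _ := by
        rw [← mul_sum, div_le_iff₀ hL']
        refine (mul_le_mul_of_nonneg_left (sum_WW_pi (⟨i₀, hi₀⟩ : s)) hP).trans_eq ?_
        ring

theorem mean_bound : ∃ c : ℝ, ∀ M : ℕ, 2 ≤ M → mean q M ≤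
    c * ((M : ℝ) ^ min (1 / 2) (∑ i, log (lam (q i)) / log (q i)) * log M) := by
  have hq : ∀ i, 2 ≤ q i := fun i => (Fact.out : (q i).Prime).two_le
  have hQ : (1 : ℝ) ≤ (∏ i, q i : ℕ) := by
    have : 0 < ∏ i, q i := prod_pos fun i _ => by linarith [hq i]
    exact_mod_cast this
  have hlQ := log_nonneg hQ
  have hΛ : 1 ≤ ∏ i, lam (q i) := prod_induction _ (1 ≤ ·)
    (fun _ _ => one_le_mul_of_one_le_of_one_le) le_rfl fun i _ => one_le_lam
  refine ⟨2 ^ l * ((∏ i, lam (q i)) * (7 + 2 * log (∏ i, q i : ℕ))), fun M hM => ?_⟩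
  have hM' : (0 : ℝ) < M := by positivity
  have hl := (size_le_log hM).1
  refine (sum_le_card_nsmul _ _ ((∏ i, lam (q i)) * (7 + 2 * log (∏ i, q i : ℕ)) *
    ((M : ℝ) ^ min (1 / 2) (∑ i, log (lam (q i)) / log (q i)) * log M)) fun s hs => ?_).trans ?_
  · have hs' : s.Nonempty := nonempty_iff_ne_empty.2 (mem_erase.1 hs).1
    have h1 : 3 + log (M * ∏ i, q i : ℕ) ≤ (7 + 2 * log (∏ i, q i : ℕ)) * log M := by
      rw [Nat.cast_mul, log_mul hM'.ne' (by positivity)]
      nlinarith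
    rcases le_total (1 / 2) (∑ i, log (lam (q i)) / log (q i)) with h | h
    · rw [min_eq_left h, ← sqrt_eq_rpow]
      refine (av_le_sqrt hs' (by omega)).trans ?_
      rw [mul_mul_mul_comm]
      exact mul_le_mul (le_mul_of_one_le_left (sqrt_nonneg _) hΛ) (by nlinarith) (by positivity)
        (by positivity)
    · rw [min_eq_right h, mul_mul_mul_comm]
      refine (av_le_lam hs' hM).trans (mul_le_mul ?_ h1 (by positivity) (by positivity))
      rw [rpow_sum_of_pos hM', ← prod_mul_distrib]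
      refine prod_le_prod (fun i _ => pow_nonneg (zero_le_one.trans one_le_lam) _) fun i _ => ?_
      have h2 := Nat.pow_pred_clog_lt_self (hq i) hM
      have h3 := one_le_lam (B := q i)
      have h4 : 0 < log (q i) := log_pos (by exact_mod_cast hq i)
      rw [← Nat.succ_pred_eq_of_pos (Nat.clog_pos (hq i) hM), pow_succ']
      refine mul_le_mul_of_nonneg_left ?_ (by positivity)
      have h5 : ((Nat.clog (q i) M).pred : ℝ) * log (q i) ≤ log M := by
        rw [← log_pow]
        exact log_le_log (pow_pos (Nat.cast_pos.2 (NeZero.pos _)) _) (by exact_mod_cast h2.le)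
      rw [← rpow_natCast, rpow_def_of_pos (by positivity), rpow_def_of_pos hM', exp_le_exp,
        ← mul_div_assoc, le_div_iff₀ h4]
      nlinarith [log_nonneg h3]
  · rw [nsmul_eq_mul, mul_assoc ((2 : ℝ) ^ l)]
    exact mul_le_mul_of_nonneg_right card_sets (by positivity)

end Two

end Pool.Agent.Lib.MP_490b4c_nt
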