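import Pool.Agent.Lib.MP_490b4c_nt.ExUp

/-!
For prime bases an explicit almost sure upper bound for the discrepancy of Halton-Niederreiter
sequences.
-/

namespace Pool.Agent.Lib.MP_490b4c_nt.ExplicitUpper

open MeasureTheory Filter Pool.Agent.Lib.MP_490b4c_nt

theorem result (l : ℕ) (hl : 1 ≤ l) (d q : Fin l → ℕ) (hd : ∀ i, 1 ≤ d i)
    [∀ i, Fact (q i).Prime] : (∀ i, lam (q i) ≤ 3 + Real.log (q i)) ∧
      ∀ᵐ C ∂prob d q, ∃ c : ℝ, ∀ᶠ N : ℕ in atTop, disc (pt C) N ≤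
        c * ((N : ℝ) ^ (min (1 / 2) (∑ i, Real.log (lam (q i)) / Real.log (q i)) - 1) *
          Real.log N ^ (∑ i, d i + 4)) := by
  refine ⟨fun i => Two.lam_le, ?_⟩
  obtain ⟨c₀, h₀⟩ := Two.mean_bound (q := q)
  filter_upwards [Two.upper (q := q) hl hd] with C ⟨c, h1⟩
  refine ⟨|c| * c₀, ?_⟩
  filter_upwards [h1, eventually_ge_atTop 2] with N h hN
  have hN' : (0 : ℝ) < N := by positivity
  have h2 := pow_nonneg (Real.log_natCast_nonneg N) (∑ i, d i + 3)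
  have h3 := h N le_rfl
  rw [show Fintype.card (Coord d) = ∑ i, d i by simp] at h3
  refine le_of_mul_le_mul_left ((h3.trans (mul_le_mul (le_abs_self c)
    (mul_le_mul_of_nonneg_right (h₀ N hN) h2) (mul_nonneg (Two.mean_nonneg N) h2)
    (abs_nonneg c))).trans_eq ?_) hN'
  rw [Real.rpow_sub_one hN'.ne']
  field_simp
  ring

end Pool.Agent.Lib.MP_490b4c_nt.ExplicitUpper
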