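import Pool.Agent.Lib.MP_490b4c_nt.HalfLevel

/-! The choice of the levels, and the logarithmic mean of the degree at one level. -/

open Finset Real

namespace Pool.Agent.Lib.MP_490b4c_nt.Half

theorem sum_log_le {n : ℕ} {x : ℕ → ℝ} (hx : ∀ j < n, 0 < x j) {D C : ℝ} (hD : 1 ≤ D)
    (h : ∑ j ∈ range n, x j ≤ D * n + C) : ∑ j ∈ range n, log (x j) ≤ n * log D + |C| := by
  have h1 : ∀ j ∈ range n, log (x j) ≤ log D + (x j / D - 1) := fun j hj => by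
    have h2 := hx j (mem_range.1 hj)
    have h3 := log_le_sub_one_of_pos (div_pos h2 (by linarith : 0 < D))
    rw [log_div h2.ne' (by linarith)] at h3
    linarith
  refine (sum_le_sum h1).trans ?_
  rw [sum_add_distrib, sum_sub_distrib, ← sum_div]
  simp only [sum_const, card_range, nsmul_eq_mul, mul_one]
  have h4 : (∑ j ∈ range n, x j) / D ≤ n + |C| := by
    rw [div_le_iff₀ (by linarith)]
    nlinarith [le_abs_self C, abs_nonneg C]
  linarith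

theorem lam_ok {p n : ℕ} (hp : 4096 ≤ p) (hn : 33 ^ 3 * p ^ 2 ≤ n ^ 3) :
    1 ≤ n / 2 ∧ ∃ c : ℝ, 1 ≤ c ∧ c ^ 3 = p ∧
      ∑ d ∈ range p, ps p (n / 2) d ≤ p * (1 / (2 * c)) ^ 2 := by
  obtain ⟨c, c0, hc⟩ : ∃ c : ℝ, 0 ≤ c ∧ c ^ 3 = p :=
    ⟨(p : ℝ) ^ ((3 : ℕ)⁻¹ : ℝ), by positivity,
      Real.rpow_inv_natCast_pow (Nat.cast_nonneg p) (by norm_num)⟩
  have h1 : 16 ≤ c := by
    refine (pow_le_pow_iff_left₀ (by norm_num) c0 (by norm_num : 3 ≠ 0)).1 ?_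
    rw [hc]
    exact_mod_cast hp
  have h2 : 33 * c ^ 2 ≤ n := by
    refine (pow_le_pow_iff_left₀ (by positivity) (Nat.cast_nonneg n) (by norm_num : 3 ≠ 0)).1 ?_
    rw [mul_pow, ← pow_mul, mul_comm 2, pow_mul, hc]
    exact_mod_cast hn
  have h3 : (n : ℝ) ≤ 2 * (n / 2 : ℕ) + 1 := by exact_mod_cast (by omega : n ≤ 2 * (n / 2) + 1)
  have h4 : 16 * c ^ 2 ≤ (n / 2 : ℕ) := by nlinarith
  have h5 : 1 ≤ n / 2 := by exact_mod_cast (by nlinarith : (1 : ℝ) ≤ (n / 2 : ℕ))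
  refine ⟨h5, c, by linarith, hc, (sum_ps_le (by omega) h5).trans ?_⟩
  have h6 : (p : ℝ) / (n / 2 : ℕ) ≤ c / 16 := by
    rw [div_le_div_iff₀ (by exact_mod_cast h5) (by norm_num), ← hc]
    nlinarith
  have h7 : (p : ℝ) * (1 / (2 * c)) ^ 2 = c / 4 := by
    rw [← hc]
    field_simp
    norm_num
  linarith

theorem exists_pairs {l : ℕ} (s : Finset (Fin l)) : ∃ u v : Fin (s.card / 2) → s,
    Function.Injective (Sum.elim u v) ∧ ∃ w : Fin l → Fin l,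
      (∀ p, w (u p) = u p) ∧ ∀ p, w (v p) = u p := by
  classical
  set u : Fin (s.card / 2) → s := fun p => s.equivFin.symm ⟨p, by omega⟩ with hu
  set v : Fin (s.card / 2) → s := fun p => s.equivFin.symm ⟨s.card / 2 + p, by omega⟩ with hv
  have h : Function.Injective (Sum.elim u v) := by
    rintro (p | p) (p' | p') e <;>
      simp only [Sum.elim_inl, Sum.elim_inr, hu, hv, Equiv.apply_eq_iff_eq, Fin.mk.injEq] at e
    · rw [Fin.ext e]
    · omega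
    · omega
    · rw [Fin.ext (by omega : (p : ℕ) = p')]
  refine ⟨u, v, h, fun i => if h : ∃ p, (v p : Fin l) = i then u h.choose else i, fun p => ?_,
    fun p => ?_⟩
  · refine dif_neg fun ⟨p', e⟩ => ?_
    cases h (a₁ := Sum.inr p') (a₂ := Sum.inl p) (Subtype.ext e)
  · have h1 : ∃ p', (v p' : Fin l) = v p := ⟨p, rfl⟩
    have h2 := h (a₁ := Sum.inr h1.choose) (a₂ := Sum.inr p) (Subtype.ext h1.choose_spec)
    simp only [dif_pos h1, Sum.inr.inj h2]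

/-- The cut in base `b` at level `j`, coupled to the base `a`. -/
def cut (a b R j : ℕ) : ℕ := Nat.log b (a ^ Nat.log a (R ^ j))

theorem cut_zero (a b R : ℕ) : cut a b R 0 = 0 := by simp [cut]

theorem cut_self {a : ℕ} (ha : 1 < a) (R j : ℕ) : cut a a R j = Nat.log a (R ^ j) :=
  Nat.log_pow ha _

theorem cut_bounds {a b R K : ℕ} (ha : 1 < a) (hb : 1 < b) (hK : a * b ≤ K) (hR : 0 < R) (j : ℕ) :
    b ^ cut a b R j ≤ R ^ j ∧ R ^ j ≤ K * b ^ cut a b R j := by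
  have h1 := Nat.pow_log_le_self a (pow_ne_zero j hR.ne')
  have h2 := Nat.pow_log_le_self b (pow_ne_zero (Nat.log a (R ^ j)) (by omega : a ≠ 0))
  have h3 := (Nat.lt_pow_succ_log_self ha (R ^ j)).le
  have h4 := (Nat.lt_pow_succ_log_self hb (a ^ Nat.log a (R ^ j))).le
  rw [Nat.succ_eq_add_one, pow_succ'] at h3 h4
  refine ⟨h2.trans h1, h3.trans ((Nat.mul_le_mul_left a h4).trans ?_)⟩
  rw [← mul_assoc]
  exact Nat.mul_le_mul_right _ hK

theorem cut_step {a b R K : ℕ} (ha : 1 < a) (hb : 1 < b) (hK : a * b ≤ K) (hR : K < R) (j : ℕ) :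
    cut a b R j < cut a b R (j + 1) ∧ b ^ (cut a b R (j + 1) - cut a b R j) ≤ R * K := by
  obtain ⟨h1, h2⟩ := cut_bounds ha hb hK (by omega : 0 < R) j
  obtain ⟨h3, h4⟩ := cut_bounds ha hb hK (by omega : 0 < R) (j + 1)
  have h0 : 0 < b ^ cut a b R j := by positivity
  rw [pow_succ'] at h3 h4
  have h5 : cut a b R j < cut a b R (j + 1) := by
    refine (Nat.pow_lt_pow_iff_right hb).1 (lt_of_mul_lt_mul_left (a := K) ?_ (Nat.zero_le K))
    exact ((Nat.mul_lt_mul_of_pos_right hR h0).trans_le (Nat.mul_le_mul_left R h1)).trans_le h4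
  refine ⟨h5, Nat.le_of_mul_le_mul_right ?_ h0⟩
  rw [← pow_add, Nat.sub_add_cancel h5.le, mul_assoc]
  exact h3.trans (Nat.mul_le_mul_left R h2)

variable {l : ℕ} {q : Fin l → ℕ} [∀ i, Fact (q i).Prime] {s : Finset (Fin l)} {M : ℕ}
  {ρ : Fin l → ℕ → ℕ} {N J j : ℕ}

theorem level_bad (hs : s.Nonempty) (hρ : ∀ i j, ρ i j ≤ ρ i (j + 1)) (h0 : ∀ i, ρ i 0 = 0)
    (hN : N ≤ 2 ^ M) (hJ : ∀ i ∈ s, N ≤ q i ^ ρ i J) {X A K : ℕ}
    (hX : ∀ i : s, q i ^ ρ i j ≤ X) (hK : ∀ i : s, X ≤ K * q i ^ ρ i j)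
    (hA : ∀ i : s, 2 * q i ^ (ρ i (j + 1) - ρ i j) ≤ A) :
    ∑ n ∈ range N, log ((tower hs hρ h0 hN hJ).dg j (key q s ρ j n)) ≤
      N * (3 * log ((8 * K + 1) ^ Fintype.card s * (2 * A + 1))) := by
  have hq : ∀ i : s, 0 < q i ^ ρ i j := fun i => pow_pos (Fact.out : (q i).Prime).pos _
  refine (sum_le_card_nsmul _ _ _ fun n hn => ?_).trans_eq (by rw [card_range, nsmul_eq_mul])
  have h1 := (dg_le_card hs hρ h0 hN hJ hX hA (Lm := univ.sup fun i : s => ρ i (j + 1) - ρ i j)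
    (fun i => le_sup (f := fun i : s => ρ i (j + 1) - ρ i j) (mem_univ i))
    (mem_range.1 hn)).trans ((card_filter_le _ _).trans (card_le_card (product_subset_product
      (filter_subset _ _) (product_subset_product_right (filter_subset _ _)))))
  rw [card_product, card_product] at h1
  have h2 := card_Adm_le (A := A) hq hK ⟨_, hs.choose_spec⟩
  rw [show (3 : ℝ) = (3 : ℕ) by norm_num, ← log_pow]
  refine log_le_log (by exact_mod_cast (tower hs hρ h0 hN hJ).one_le_dg j (mem_range.1 hn))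
    ((Nat.cast_le.2 h1).trans (le_trans (le_of_eq ?_)
      (pow_le_pow_left₀ (Nat.cast_nonneg _) h2 3)))
  push_cast
  ring

theorem level_good (hs : s.Nonempty) (hρ : ∀ i j, ρ i j ≤ ρ i (j + 1)) (h0 : ∀ i, ρ i 0 = 0)
    (hN : N ≤ 2 ^ M) (hJ : ∀ i ∈ s, N ≤ q i ^ ρ i J) {X A K Lm m : ℕ} {η : ℝ} (hη : 0 < η)
    (hη1 : η ≤ 1 / 2) (h3 : ∀ i : s, 3 ≤ q i) (hlt : ∀ i : s, ρ i j < ρ i (j + 1))
    (hX : ∀ i : s, q i ^ ρ i j ≤ X) (hK : ∀ i : s, X ≤ K * q i ^ ρ i j)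
    (hA : ∀ i : s, 2 * q i ^ (ρ i (j + 1) - ρ i j) ≤ A)
    (hL : ∀ i : s, ρ i (j + 1) - ρ i j ≤ Lm) (hXK : Fintype.card s * K ≤ X)
    (hrel : ∀ m : s → ℤ, m ≠ 0 → (∀ i, |m i| ≤ A) →
      η ≤ |∑ i, m i * (X / (q i : ℝ) ^ ρ i (j + 1))|)
    (hNA : X / η * (A : ℝ) ^ Fintype.card s ≤ N) (hm : 1 ≤ m) {u v : Fin m → s}
    (huv : Function.Injective (Sum.elim u v)) (i₀ i₁ : s) :
    ∑ n ∈ range N, log ((tower hs hρ h0 hN hJ).dg j (key q s ρ j n)) ≤
      N * (log (2 * 24 ^ Fintype.card s * ((8 * K + 1) ^ Fintype.card s) ^ 3) +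
        log (1 + GG (q i₀) (q i₁) (4 * K) Lm ((q i₀ : ℝ) ^ ρ i₀ j / (q i₁ : ℝ) ^ ρ i₁ j)) +
        log (1 + ∑ p, HH (q (u p)) (q (v p)) m (4 * K) A
          ((q (u p) : ℝ) ^ ρ (u p) j / (q (v p) : ℝ) ^ ρ (v p) j))) := by
  have hq : ∀ i : s, 0 < q i ^ ρ i j := fun i => pow_pos (Fact.out : (q i).Prime).pos _
  have h1 := sum_triples_le (A := A) (b := fun i : s => q i)
    (L := fun i : s => ρ i (j + 1) - ρ i j) (N := N) (Lm := Lm)
    (c := 2 * 24 ^ Fintype.card s * N) (by positivity) hq hK h3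
    (fun i => by have := hlt i; omega) hm huv
    (fun n i => key q s ρ j n i % q i ^ (ρ i (j + 1) - ρ i j)) (fun z => joint_le hη hη1 hq
      (fun i => (h3 i).trans (Nat.le_self_pow (by have := hlt i; omega) _))
      (fun i => by have := hA i; omega) hK (le_trans (hq i₀) (hX i₀)) hXK (fun m hm hA => by
        simpa only [Nat.cast_pow, ← pow_add, Nat.add_sub_cancel' (hρ _ j)] using hrel m hm hA)
      hNA z) i₀ i₁
  simp only [Nat.cast_pow (q _)] at h1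
  have g0 := GG_nonneg (q i₀) (q i₁) (4 * K) Lm ((q i₀ : ℝ) ^ ρ i₀ j / (q i₁ : ℝ) ^ ρ i₁ j)
  have g1 : 0 ≤ ∑ p, HH (q (u p)) (q (v p)) m (4 * K) A
      ((q (u p) : ℝ) ^ ρ (u p) j / (q (v p) : ℝ) ^ ρ (v p) j) :=
    sum_nonneg fun _ _ => HH_nonneg _ _ _ _ _ _
  generalize GG (q i₀) (q i₁) (4 * K) Lm _ = G at *
  generalize ∑ p, HH (q (u p)) (q (v p)) m (4 * K) A _ = H at *
  have c1 : (1 : ℝ) ≤ 2 * 24 ^ Fintype.card s * ((8 * K + 1) ^ Fintype.card s) ^ 3 :=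
    one_le_mul_of_one_le_of_one_le (one_le_mul_of_one_le_of_one_le one_le_two
      (one_le_pow₀ (by norm_num))) (one_le_pow₀ (one_le_pow₀ (by
        linarith [Nat.cast_nonneg (α := ℝ) K])))
  rw [← log_mul (by linarith) (by linarith), ← log_mul (by positivity) (by linarith)]
  refine (sum_log_le (C := 0) (fun n hn => by
    exact_mod_cast (tower hs hρ h0 hN hJ).one_le_dg j hn) (one_le_mul_of_one_le_of_one_le
      (one_le_mul_of_one_le_of_one_le c1 (le_add_of_nonneg_right g0))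
      (le_add_of_nonneg_right g1)) ?_).trans_eq (by rw [abs_zero, add_zero])
  refine ((sum_le_sum fun n hn => Nat.cast_le.2
    (dg_le_card hs hρ h0 hN hJ hX hA hL (mem_range.1 hn))).trans h1).trans ?_
  have h2 : G * H ≤ (1 + G) * (1 + H) := by nlinarith
  refine (mul_le_mul_of_nonneg_left h2 (by positivity)).trans_eq ?_
  ring

end Pool.Agent.Lib.MP_490b4c_nt.Half
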