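import Mathlib

/-! Digit congruences of additive quadruples: the carry count and sums of digit weights. -/

open Finset Real

namespace Pool.Agent.Lib.MP_490b4c_nt.Half

/-- The digit number `t` of an integer in base `q`. -/
def dz (q t : ℕ) (a : ℤ) : ℕ := (a / (q : ℤ) ^ t % q).toNat

/-- The distance of a digit from the extreme digits. -/
def nd (q d : ℕ) : ℕ := min d (q - 1 - d)

/-- The first `L` digits of `y₁, y₂` and of `y₃, y₄` have congruent sums. -/
def Cong (q L y₁ y₂ y₃ y₄ : ℕ) : Prop :=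
  ∀ t < L, y₁ / q ^ t % q + y₂ / q ^ t % q ≡ y₃ / q ^ t % q + y₄ / q ^ t % q [MOD q]

theorem dz_eq {q t L a' : ℕ} {a : ℤ} (ht : t < L) (h : (a' : ℤ) ≡ a [ZMOD (q : ℤ) ^ L]) :
    a' / q ^ t % q = dz q t a := by
  rcases Nat.eq_zero_or_pos q with rfl | hq
  · have h0 : ((0 : ℕ) : ℤ) ^ L = 0 := by simp [show L ≠ 0 by omega]
    rw [h0, Int.modEq_zero_iff] at h
    rw [dz, ← h]
    norm_cast
  obtain ⟨w, hw⟩ := h.dvd
  obtain ⟨k, rfl⟩ := Nat.exists_eq_add_of_lt ht
  have e : a = a' + (q : ℤ) ^ t * (q * (q ^ k * w)) := by linear_combination hw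
  rw [dz, e, Int.add_mul_ediv_left _ _ (by positivity), Int.add_mul_emod_self_left]
  norm_cast

theorem sum_range_mul {M : Type*} [AddCommMonoid M] (g : ℕ → M) (P q : ℕ) :
    ∑ z ∈ range (P * q), g z = ∑ d ∈ range q, ∑ z ∈ range P, g (z + P * d) := by
  induction q with
  | zero => simp
  | succ q ih =>
    rw [Nat.mul_succ, sum_range_add, ih, sum_range_succ]
    simp only [add_comm (P * q)]

/-- The carry into the digit number `t`. -/
def car (P x y : ℕ) : ℕ := (x % P + y % P) / P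

theorem add_div_car {P : ℕ} (hP : 0 < P) (x y : ℕ) : (x + y) / P = x / P + y / P + car P x y := by
  have e : x + y = x % P + y % P + P * (x / P + y / P) := by
    have h1 := Nat.mod_add_div x P
    have h2 := Nat.mod_add_div y P
    rw [mul_add]
    omega
  rw [car, e, Nat.add_mul_div_left _ _ hP]
  omega

/-- The congruence in terms of carries. -/
def Cc (q a a' b t z : ℕ) : Prop :=
  a' / q ^ t + car (q ^ t) (z + b) a' ≡ a / q ^ t + car (q ^ t) z a [MOD q]

theorem Cc_of {q a a' b t z : ℕ} (hq : 0 < q) (h : z / q ^ t % q + (z + b + a') / q ^ t % q ≡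
    (z + a) / q ^ t % q + (z + b) / q ^ t % q [MOD q]) : Cc q a a' b t z := by
  have hP : 0 < q ^ t := by positivity
  have h1 : z / q ^ t + (z + b + a') / q ^ t ≡ (z + a) / q ^ t + (z + b) / q ^ t [MOD q] :=
    (((Nat.mod_modEq _ _).add (Nat.mod_modEq _ _)).symm.trans h).trans
      ((Nat.mod_modEq _ _).add (Nat.mod_modEq _ _))
  rw [add_div_car hP (z + b) a', add_div_car hP z a] at h1
  refine Nat.ModEq.add_left_cancel' (z / q ^ t + (z + b) / q ^ t) ?_
  convert h1 using 1 <;> ring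

theorem Cc_shift {q a a' b t r z d : ℕ} (ht : t ≤ r) :
    Cc q a a' b t (z + q ^ r * d) ↔ Cc q a a' b t z := by
  obtain ⟨k, rfl⟩ := Nat.exists_eq_add_of_le ht
  simp only [Cc, car, pow_add, mul_assoc, add_right_comm z _ b, Nat.add_mul_mod_self_left]

theorem not_both {q a a' b r z i k : ℕ} (hq : 3 ≤ q) (hz : z < q ^ r) (hi : i < k)
    (ha : k ≤ nd q (a / q ^ r % q)) (hb : k ≤ nd q (b / q ^ r % q))
    (h1 : Cc q a a' b (r + 1) (z + q ^ r * i))
    (h2 : Cc q a a' b (r + 1) (z + q ^ r * (q - k + i))) : False := by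
  have hP : 0 < q ^ r := by positivity
  have aux : ∀ c : ℕ, k ≤ nd q (c / q ^ r % q) →
      z + q ^ r * i + c % q ^ (r + 1) < q ^ (r + 1) ∧ q ^ r * k ≤ c % q ^ (r + 1) := by
    intro c hc
    obtain ⟨h3, h4⟩ := le_min_iff.1 hc
    have h5 := Nat.mod_lt c hP
    have h6 : q ^ r * (i + c / q ^ r % q + 2) ≤ q ^ r * q := Nat.mul_le_mul_left _ (by omega)
    have h7 := Nat.mul_le_mul_left (q ^ r) h3
    rw [Nat.mod_pow_succ, pow_succ]
    simp only [mul_add] at h6
    generalize c % q ^ r = o at *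
    omega
  have hk : k ≤ q := (ha.trans (min_le_right _ _)).trans (by omega)
  have e : z + q ^ r * (q - k + i) + q ^ r * k = z + q ^ r * i + q ^ (r + 1) := by
    rw [pow_succ, add_assoc, add_assoc, ← mul_add, ← mul_add]
    congr 2
    omega
  have hik : q ^ r * (i + 1) ≤ q ^ r * k := Nat.mul_le_mul_left _ hi
  rw [mul_add, mul_one] at hik
  have hx : z + q ^ r * i < q ^ r * k := by omega
  obtain ⟨a1, a2⟩ := aux a ha
  obtain ⟨b1, b2⟩ := aux b hb
  simp only [Cc] at h1 h2
  generalize hQ : q ^ (r + 1) = Q at *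
  have hQ0 : 0 < Q := by omega
  generalize z + q ^ r * i = x at *
  generalize z + q ^ r * (q - k + i) = y at *
  have hA := Nat.mod_lt a' hQ0
  have c1 : car Q x a = 0 := by
    rw [car, Nat.mod_eq_of_lt (by omega : x < Q)]
    exact Nat.div_eq_of_lt a1
  have c2 : car Q y a = 1 := by
    rw [car, Nat.mod_eq_of_lt (by omega : y < Q)]
    exact Nat.div_eq_of_lt_le (by omega) (by omega)
  have c3 : (x + b) % Q = x + b % Q := by
    rw [← Nat.add_mod_mod, Nat.mod_eq_of_lt b1]
  have c4 : (y + b) % Q ≤ x + b % Q := by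
    rw [← Nat.add_mod_mod, Nat.mod_eq_sub_mod (by omega)]
    exact (Nat.mod_le _ _).trans (by omega)
  have c5 : car Q (y + b) a' ≤ car Q (x + b) a' := by
    rw [car, car, c3]
    exact Nat.div_le_div_right (by omega)
  have c6 : car Q (x + b) a' < 2 := by
    rw [car, c3]
    exact (Nat.div_lt_iff_lt_mul hQ0).2 (by omega)
  rw [c1] at h1
  rw [c2] at h2
  have h3 : a' / Q + car Q (y + b) a' ≡ a' / Q + (car Q (x + b) a' + 1) [MOD q] :=
    h2.trans (by rw [← add_assoc]; exact (h1.add_right 1).symm)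
  have h4 := Nat.ModEq.eq_of_lt_of_lt (Nat.ModEq.add_left_cancel' _ h3) (by omega) (by omega)
  omega

open Classical in
theorem card_digit_le {q a a' b r z k : ℕ} (hq : 3 ≤ q) (hz : z < q ^ r)
    (ha : k ≤ nd q (a / q ^ r % q)) (hb : k ≤ nd q (b / q ^ r % q)) :
    ((range q).filter fun d => Cc q a a' b (r + 1) (z + q ^ r * d)).card ≤ q - k := by
  have h0 := le_min_iff.1 ha
  have h1 := card_filter_add_card_filter_not (s := range q)
    fun d => Cc q a a' b (r + 1) (z + q ^ r * d)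
  have h2 : (range k).card ≤
      ((range q).filter fun d => ¬ Cc q a a' b (r + 1) (z + q ^ r * d)).card := by
    refine card_le_card_of_injOn (fun i => if Cc q a a' b (r + 1) (z + q ^ r * i) then q - k + i
      else i) (fun i hi => ?_) fun i hi j hj e => ?_
    · have hi' := mem_range.1 (mem_coe.1 hi)
      refine mem_coe.2 (mem_filter.2 ?_)
      by_cases h : Cc q a a' b (r + 1) (z + q ^ r * i)
      · simp only [if_pos h]
        exact ⟨mem_range.2 (by omega), not_both hq hz hi' ha hb h⟩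
      · simp only [if_neg h]
        exact ⟨mem_range.2 (by omega), h⟩
    · have hi' := mem_range.1 (mem_coe.1 hi)
      have hj' := mem_range.1 (mem_coe.1 hj)
      simp only at e
      split_ifs at e <;> omega
  rw [card_range] at h1 h2
  omega

open Classical in
theorem card_Cc_le {q : ℕ} (hq : 3 ≤ q) (a a' b L r : ℕ) :
    ((range (q ^ r)).filter fun z => ∀ t < L, t ≤ r → Cc q a a' b t z).card ≤ ∏ t ∈ range r,
      (q - if t + 1 < L then min (nd q (a / q ^ t % q)) (nd q (b / q ^ t % q)) else 0) := by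
  induction r with
  | zero => exact (card_filter_le _ _).trans (by simp)
  | succ r ih =>
    rw [prod_range_succ, card_filter, pow_succ, sum_range_mul, sum_comm]
    refine le_trans ?_ (Nat.mul_le_mul_right _ ih)
    rw [card_filter, sum_mul]
    refine sum_le_sum fun z hz => ?_
    by_cases h : ∀ t < L, t ≤ r → Cc q a a' b t z
    · rw [if_pos h, one_mul, ← card_filter]
      split_ifs with hL
      · refine le_trans (card_le_card fun d hd => ?_) (card_digit_le (a' := a') hq
          (mem_range.1 hz) (min_le_left _ _) (min_le_right _ _))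
        exact mem_filter.2 ⟨(mem_filter.1 hd).1, (mem_filter.1 hd).2 _ hL le_rfl⟩
      · exact (card_filter_le _ _).trans_eq (card_range q)
    · rw [sum_eq_zero fun d _ => if_neg fun h' => h fun t ht htr =>
        (Cc_shift htr).1 (h' t ht (by omega))]
      exact Nat.zero_le _

/-- The digit weight. -/
noncomputable def ps (q m d : ℕ) : ℝ := (1 - (nd q d : ℝ) / q) ^ m

theorem nd_div {q : ℕ} (d : ℕ) : 0 ≤ 1 - (nd q d : ℝ) / q ∧ 1 - (nd q d : ℝ) / q ≤ 1 := by
  have h : (nd q d : ℝ) ≤ q := by exact_mod_cast (min_le_right _ _).trans (by omega)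
  exact ⟨sub_nonneg.2 (div_le_one_of_le₀ h (Nat.cast_nonneg _)), sub_le_self _ (by positivity)⟩

theorem ps_nonneg (q m d : ℕ) : 0 ≤ ps q m d := pow_nonneg (nd_div d).1 _

theorem ps_le_one (q m d : ℕ) : ps q m d ≤ 1 := pow_le_one₀ (nd_div d).1 (nd_div d).2

/-- The weight of a pair of lags. -/
noncomputable def FF (q m : ℕ) (a b : ℤ) : ℝ :=
  ∏ t ∈ range (Nat.log q (min a.natAbs b.natAbs)), max (ps q m (dz q t a)) (ps q m (dz q t b))

theorem FF_nonneg (q m : ℕ) (a b : ℤ) : 0 ≤ FF q m a b :=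
  prod_nonneg fun _ _ => le_max_of_le_left (ps_nonneg _ _ _)

theorem FF_comm (q m : ℕ) (a b : ℤ) : FF q m a b = FF q m b a := by
  simp only [FF, min_comm a.natAbs, max_comm (ps q m (dz q _ a))]

theorem FF_le {q m s : ℕ} {a b : ℤ} (hs : s ≤ Nat.log q (min a.natAbs b.natAbs)) :
    FF q m a b ≤ ∑ T ∈ (range s).powerset, (∏ t ∈ T, ps q m (dz q t a)) *
      ∏ t ∈ range s \ T, ps q m (dz q t b) := by
  rw [← prod_add]
  refine (prod_le_prod_of_subset_of_le_one (range_mono hs)
    (fun _ _ => le_max_of_le_left (ps_nonneg _ _ _))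
    fun _ _ _ => max_le (ps_le_one _ _ _) (ps_le_one _ _ _)).trans ?_
  exact prod_le_prod (fun _ _ => le_max_of_le_left (ps_nonneg _ _ _)) fun _ _ =>
    max_le_add_of_nonneg (ps_nonneg _ _ _) (ps_nonneg _ _ _)

theorem FF_le_one (q m : ℕ) (a b : ℤ) : FF q m a b ≤ 1 := by
  simpa using FF_le (q := q) (m := m) (a := a) (b := b) (Nat.zero_le _)

open Classical in
/-- The offsets that satisfy all congruences for given lags. -/
noncomputable def Zs (q L : ℕ) (a b e : ℤ) : Finset ℕ :=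
  (range (q ^ L)).filter fun z => ∃ y₁ y₂ y₃ y₄ : ℕ, Cong q L y₁ y₂ y₃ y₄ ∧ y₁ % q ^ L = z ∧
    (y₃ : ℤ) = y₁ + a ∧ (y₄ : ℤ) = y₁ + b ∧ (y₂ : ℤ) = y₁ + b + (a + e)

theorem card_Zs_le {q L : ℕ} (hq : 3 ≤ q) (hL : 1 ≤ L) (m : ℕ) {a b : ℤ} (e : ℤ)
    (ha : a.natAbs < q ^ L) : (((Zs q L a b e).card : ℝ) / q ^ L) ^ m ≤ FF q m a b := by
  classical
  have hB : (0 : ℤ) < (q : ℤ) ^ L := by positivity
  have hq0 : (0 : ℝ) < q := by positivity
  have red : ∀ c : ℤ, (((c % (q : ℤ) ^ L).toNat : ℕ) : ℤ) ≡ c [ZMOD (q : ℤ) ^ L] := fun c => by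
    rw [Int.toNat_of_nonneg (Int.emod_nonneg _ hB.ne')]
    exact Int.mod_modEq _ _
  have h1 := card_Cc_le hq (a % (q : ℤ) ^ L).toNat ((a + e) % (q : ℤ) ^ L).toNat
    (b % (q : ℤ) ^ L).toNat L L
  have h2 := (card_le_card (s := Zs q L a b e) fun z hz => ?_).trans h1
  swap
  · obtain ⟨h3, y₁, y₂, y₃, y₄, hc, rfl, e3, e4, e2⟩ := mem_filter.1 hz
    refine mem_filter.2 ⟨h3, fun t ht _ => Cc_of (by omega) ?_⟩
    have r0 : ((y₁ % q ^ L : ℕ) : ℤ) ≡ y₁ [ZMOD (q : ℤ) ^ L] := by
      push_cast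
      exact Int.mod_modEq _ _
    have dd : ∀ {x y : ℕ}, (x : ℤ) ≡ y [ZMOD (q : ℤ) ^ L] → x / q ^ t % q = y / q ^ t % q :=
      fun h => (dz_eq ht h).trans (dz_eq ht (Int.ModEq.refl _)).symm
    have r2 := (r0.add (red b)).add (red (a + e))
    have r3 := r0.add (red a)
    have r4 := r0.add (red b)
    rw [← e2, ← Nat.cast_add, ← Nat.cast_add] at r2
    rw [← e3, ← Nat.cast_add] at r3
    rw [← e4, ← Nat.cast_add] at r4
    rw [dd r0, dd r2, dd r3, dd r4]
    exact hc t ht
  have hs : Nat.log q (min a.natAbs b.natAbs) < L := by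
    rcases eq_or_ne (min a.natAbs b.natAbs) 0 with h | h
    · rw [h, Nat.log_zero_right]
      exact hL
    · exact Nat.log_lt_of_lt_pow h ((min_le_left _ _).trans_lt ha)
  set g : ℕ → ℝ := fun t => if t + 1 < L then
    max (1 - (nd q (dz q t a) : ℝ) / q) (1 - (nd q (dz q t b) : ℝ) / q) else 1 with hg
  have g0 : ∀ t, 0 ≤ g t ∧ g t ≤ 1 := fun t => by
    simp only [hg]
    split_ifs
    · exact ⟨le_max_of_le_left (nd_div _).1, max_le (nd_div _).2 (nd_div _).2⟩
    · exact ⟨zero_le_one, le_rfl⟩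
  have h3 : ((Zs q L a b e).card : ℝ) / q ^ L ≤ ∏ t ∈ range L, g t := by
    rw [div_le_iff₀ (by positivity), ← card_range L, ← prod_const, card_range, ← prod_mul_distrib]
    refine (Nat.cast_le.2 h2).trans (le_of_eq ?_)
    rw [Nat.cast_prod]
    refine prod_congr rfl fun t ht => ?_
    rw [dz_eq (mem_range.1 ht) (red a), dz_eq (mem_range.1 ht) (red b)]
    simp only [hg]
    split_ifs
    · have hn : nd q (dz q t a) ≤ q := (min_le_right _ _).trans (by omega)
      rw [Nat.cast_sub ((min_le_left _ _).trans hn), max_sub_sub_left,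
        min_div_div_right hq0.le, Nat.cast_min]
      field_simp
    · simp
  refine (pow_le_pow_left₀ (by positivity) (h3.trans (prod_le_prod_of_subset_of_le_one
    (range_mono hs.le) (fun t _ => (g0 t).1) fun t _ _ => (g0 t).2)) m).trans (le_of_eq ?_)
  rw [← prod_pow]
  refine prod_congr rfl fun t ht => ?_
  simp only [hg, if_pos (show t + 1 < L by have := mem_range.1 ht; omega), ps]
  rcases le_total (1 - (nd q (dz q t a) : ℝ) / q) (1 - (nd q (dz q t b) : ℝ) / q) with h | h
  · rw [max_eq_right h, max_eq_right (pow_le_pow_left₀ (nd_div _).1 h m)]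
  · rw [max_eq_left h, max_eq_left (pow_le_pow_left₀ (nd_div _).1 h m)]

end Pool.Agent.Lib.MP_490b4c_nt.Half
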