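import Mathlib

/-! A lower bound for the first moment of a sum of characters, level by level. -/

open Finset Real

namespace Pool.Agent.Lib.MP_490b4c_nt.Half

variable {Ω : Type*} [AddCommGroup Ω] [Fintype Ω]

theorem sum_mul_conj {I : Type*} (s t : Finset I) (ψ χ : I → AddChar Ω ℂ) (c d : I → ℂ)
    [∀ i k, Decidable (ψ i = χ k)] :
    ∑ a, (∑ i ∈ s, ψ i a * c i) * (starRingEnd ℂ) (∑ k ∈ t, χ k a * d k) =
      Fintype.card Ω * ∑ i ∈ s, ∑ k ∈ t,
        if ψ i = χ k then c i * (starRingEnd ℂ) (d k) else 0 := by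
  classical
  simp only [map_sum, sum_mul_sum, map_mul]
  simp only [mul_sum]
  rw [sum_comm]
  refine sum_congr rfl fun i _ => ?_
  rw [sum_comm]
  refine sum_congr rfl fun k _ => ?_
  have h : ∀ a, ψ i a * c i * ((starRingEnd ℂ) (χ k a) * (starRingEnd ℂ) (d k)) =
      (ψ i - χ k) a * (c i * (starRingEnd ℂ) (d k)) := fun a => by
    rw [AddChar.sub_apply, AddChar.map_neg_eq_conj]
    ring
  simp only [h, ← sum_mul, AddChar.sum_eq_ite, sub_eq_zero]
  split_ifs <;> simp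

theorem sum_norm_sq {I : Type*} (s : Finset I) (ψ : I → AddChar Ω ℂ) (hψ : Set.InjOn ψ s) :
    ∑ a, ‖∑ i ∈ s, ψ i a‖ ^ 2 = Fintype.card Ω * (s.card : ℝ) := by
  classical
  have h := sum_mul_conj s s ψ ψ (fun _ => 1) fun _ => 1
  simp only [mul_one, Complex.mul_conj', map_one] at h
  rw [sum_congr rfl (g := fun _ => (1 : ℂ)) (s₁ := s) fun i hi => by
    rw [sum_eq_single i (fun k hk hne => if_neg fun e => hne (hψ hi hk e).symm)
      (fun h => absurd hi h), if_pos rfl]] at h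
  simp only [sum_const, nsmul_eq_mul, mul_one] at h
  exact_mod_cast h

theorem four_amgm (a b c d : ℝ) : a * b * (c * d) ≤ (a ^ 4 + b ^ 4 + c ^ 4 + d ^ 4) / 4 := by
  nlinarith [sq_nonneg (a ^ 2 - b ^ 2), sq_nonneg (c ^ 2 - d ^ 2), sq_nonneg (a * b - c * d)]

open Classical in
/-- The number of additive quadruples with a given first entry. -/
noncomputable def deg {I : Type*} (s : Finset I) (ψ : I → AddChar Ω ℂ) (i : I) : ℕ :=
  ((s ×ˢ s ×ˢ s).filter fun x => ψ i + ψ x.1 = ψ x.2.1 + ψ x.2.2).card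

omit [Fintype Ω] in
theorem one_le_deg {I : Type*} {s : Finset I} (ψ : I → AddChar Ω ℂ) {i : I} (hi : i ∈ s) :
    1 ≤ deg s ψ i := by
  classical
  exact card_pos.2 ⟨(i, i, i), by simp [hi]⟩

theorem fourth_le {I : Type*} (s : Finset I) (ψ : I → AddChar Ω ℂ) (t : I → ℂ) :
    ∑ a, ‖∑ i ∈ s, ψ i a * t i‖ ^ 4 ≤ Fintype.card Ω * ∑ i ∈ s, deg s ψ i * ‖t i‖ ^ 4 := by
  classical
  have h := sum_mul_conj (s ×ˢ s) (s ×ˢ s) (fun x => ψ x.1 + ψ x.2) (fun x => ψ x.1 + ψ x.2)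
    (fun x => t x.1 * t x.2) fun x => t x.1 * t x.2
  have e : ∀ a, ∑ x ∈ s ×ˢ s, (ψ x.1 + ψ x.2) a * (t x.1 * t x.2) =
      (∑ i ∈ s, ψ i a * t i) ^ 2 := fun a => by
    rw [sq, sum_mul_sum, sum_product]
    exact sum_congr rfl fun i _ => sum_congr rfl fun k _ => by rw [AddChar.add_apply]; ring
  simp only [e, Complex.mul_conj', norm_pow] at h
  have h1 : ((∑ a, ‖∑ i ∈ s, ψ i a * t i‖ ^ 4 : ℝ) : ℂ) =
      ∑ a, ((‖∑ i ∈ s, ψ i a * t i‖ ^ 2 : ℝ) : ℂ) ^ 2 := by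
    push_cast
    exact sum_congr rfl fun a _ => by ring
  have h2 := congrArg norm (h1.trans h)
  rw [Complex.norm_real, Real.norm_of_nonneg (by positivity), norm_mul, Complex.norm_natCast] at h2
  rw [h2]
  refine mul_le_mul_of_nonneg_left ?_ (Nat.cast_nonneg _)
  set F : (I × I → I × I → ℝ) → ℝ := fun f => ∑ x ∈ s ×ˢ s, ∑ y ∈ s ×ˢ s,
    if ψ x.1 + ψ x.2 = ψ y.1 + ψ y.2 then f x y else 0 with hF
  have f1 : F (fun x _ => ‖t x.1‖ ^ 4) = ∑ i ∈ s, deg s ψ i * ‖t i‖ ^ 4 := by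
    simp only [hF]
    rw [sum_product]
    refine sum_congr rfl fun i _ => ?_
    rw [deg, card_filter, Nat.cast_sum, sum_mul, sum_product]
    refine sum_congr rfl fun b _ => sum_congr rfl fun c _ => ?_
    split_ifs <;> simp
  have f2 : F (fun x _ => ‖t x.2‖ ^ 4) = F fun x _ => ‖t x.1‖ ^ 4 := by
    simp only [hF]
    rw [sum_product, sum_product, sum_comm]
    simp only [add_comm]
  have sw : ∀ g : I × I → ℝ, F (fun _ y => g y) = F fun x _ => g x := fun g => by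
    simp only [hF]
    rw [sum_comm]
    simp only [eq_comm]
  have f3 := sw fun y => ‖t y.1‖ ^ 4
  have f4 := sw fun y => ‖t y.2‖ ^ 4
  have f5 : F (fun x y => (‖t x.1‖ ^ 4 + ‖t x.2‖ ^ 4 + ‖t y.1‖ ^ 4 + ‖t y.2‖ ^ 4) / 4) =
      (F (fun x _ => ‖t x.1‖ ^ 4) + F (fun x _ => ‖t x.2‖ ^ 4) +
        F (fun _ y => ‖t y.1‖ ^ 4) + F fun _ y => ‖t y.2‖ ^ 4) / 4 := by
    simp only [hF, ← sum_add_distrib, sum_div]
    refine sum_congr rfl fun x _ => sum_congr rfl fun y _ => ?_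
    split_ifs <;> simp
  rw [f3, f4, f2, f1] at f5
  refine le_trans ?_ (f5.trans_le (le_of_eq (by ring)))
  refine (norm_sum_le _ _).trans (sum_le_sum fun x _ => (norm_sum_le _ _).trans
    (sum_le_sum fun y _ => ?_))
  split_ifs
  · simpa only [norm_mul, Complex.norm_conj] using four_amgm _ _ _ _
  · simp

/-- The dual form of the weighted fourth moment bound. -/
theorem dual43 {I : Type*} (s : Finset I) (ψ : I → AddChar Ω ℂ) (hψ : Set.InjOn ψ s) (c : I → ℂ) :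
    Fintype.card Ω * ∑ i ∈ s, (deg s ψ i : ℝ) ^ (-(1 / 3) : ℝ) * ‖c i‖ ^ (4 / 3 : ℝ) ≤
      ∑ a, ‖∑ i ∈ s, ψ i a * c i‖ ^ (4 / 3 : ℝ) := by
  classical
  choose v hv using fun i => Complex.exists_norm_eq_mul_self (c i)
  set τ : I → ℝ := fun i => (deg s ψ i : ℝ) ^ (-(1 / 3) : ℝ) * ‖c i‖ ^ (1 / 3 : ℝ) with hτ
  have τ0 : ∀ i, 0 ≤ τ i := fun i => by positivity
  set Z := ∑ i ∈ s, (deg s ψ i : ℝ) ^ (-(1 / 3) : ℝ) * ‖c i‖ ^ (4 / 3 : ℝ) with hZ
  have hZ0 : 0 ≤ Z := sum_nonneg fun i _ => by positivity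
  set t : I → ℂ := fun i => τ i * (starRingEnd ℂ) (v i) with ht
  have h1 := sum_mul_conj s s ψ ψ c t
  have h2 : ∑ i ∈ s, ∑ k ∈ s, (if ψ i = ψ k then c i * (starRingEnd ℂ) (t k) else 0) = Z := by
    rw [hZ, Complex.ofReal_sum]
    refine sum_congr rfl fun i hi => ?_
    rw [sum_eq_single i (fun k hk hne => if_neg fun e => hne (hψ hi hk e).symm)
      (fun h => absurd hi h), if_pos rfl]
    have e : ‖c i‖ ^ (4 / 3 : ℝ) = ‖c i‖ ^ (1 / 3 : ℝ) * ‖c i‖ := by
      rw [← Real.rpow_add_one' (norm_nonneg _) (by norm_num)]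
      norm_num
    rw [e, ← mul_assoc, Complex.ofReal_mul, (hv i).2]
    simp only [ht, map_mul, Complex.conj_ofReal, Complex.conj_conj, hτ]
    ring
  have h3 : ∑ i ∈ s, deg s ψ i * ‖t i‖ ^ 4 = Z := by
    refine sum_congr rfl fun i hi => ?_
    have hd : (0 : ℝ) < deg s ψ i := by exact_mod_cast one_le_deg ψ hi
    have e1 : ((deg s ψ i : ℝ) ^ (-(1 / 3) : ℝ)) ^ 4 * deg s ψ i =
        (deg s ψ i : ℝ) ^ (-(1 / 3) : ℝ) := by
      rw [← Real.rpow_natCast, ← Real.rpow_mul hd.le, ← Real.rpow_add_one hd.ne']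
      norm_num
    have e2 : (‖c i‖ ^ (1 / 3 : ℝ)) ^ 4 = ‖c i‖ ^ (4 / 3 : ℝ) := by
      rw [← Real.rpow_natCast, ← Real.rpow_mul (norm_nonneg _)]
      norm_num
    simp only [ht, norm_mul, Complex.norm_conj, (hv i).1, mul_one, Complex.norm_real,
      Real.norm_of_nonneg (τ0 i)]
    simp only [hτ]
    rw [mul_pow, e2, ← e1]
    rw [e1, ← mul_assoc, mul_comm (deg s ψ i : ℝ), e1]
  have h4 := fourth_le s ψ t
  rw [h2] at h1
  rw [h3] at h4
  have h5 : Fintype.card Ω * Z ≤ ∑ a, ‖∑ i ∈ s, ψ i a * c i‖ * ‖∑ i ∈ s, ψ i a * t i‖ := by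
    have h6 := congrArg norm h1
    rw [norm_mul, Complex.norm_natCast, Complex.norm_real, Real.norm_of_nonneg hZ0] at h6
    rw [← h6]
    refine (norm_sum_le _ _).trans_eq (sum_congr rfl fun a _ => ?_)
    rw [norm_mul, Complex.norm_conj]
  have hpq : Real.HolderConjugate (4 / 3) 4 := Real.holderConjugate_iff.2 (by norm_num)
  have h7 : ∀ a, ‖∑ i ∈ s, ψ i a * c i‖ * ‖∑ i ∈ s, ψ i a * t i‖ ≤
      3 / 4 * ‖∑ i ∈ s, ψ i a * c i‖ ^ (4 / 3 : ℝ) + 1 / 4 * ‖∑ i ∈ s, ψ i a * t i‖ ^ 4 :=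
    fun a => by
      refine (Real.young_inequality_of_nonneg (norm_nonneg _) (norm_nonneg _) hpq).trans_eq ?_
      rw [show (4 : ℝ) = (4 : ℕ) by norm_num, Real.rpow_natCast]
      push_cast
      ring
  have h8 := h5.trans (sum_le_sum fun a _ => h7 a)
  rw [sum_add_distrib, ← mul_sum, ← mul_sum] at h8
  linarith

/-- A tower of partitions of `range N` with fresh characters at each level. -/
structure Tower (Ω K : Type*) [AddCommGroup Ω] (N J : ℕ) where
  Φ : ℕ → AddChar Ω ℂ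
  key : ℕ → ℕ → K
  up : ℕ → K → K
  ψ : ℕ → K → AddChar Ω ℂ
  prj : ℕ → Ω → Ω
  key_succ : ∀ j n, key (j + 1) n = up j (key j n)
  fresh : ∀ j n h, Φ n (prj j h) = ψ j (key j n) h
  inj : ∀ j, ∀ n < N, ∀ n' < N, key (j + 1) n = key (j + 1) n' →
    ψ j (key j n) = ψ j (key j n') → key j n = key j n'
  bot : ∀ n < N, ∀ n' < N, key 0 n = key 0 n' → n = n'
  top : ∀ n < N, ∀ n' < N, key J n = key J n'
  orth : ∀ n < N, ∀ n' < N, Φ n = Φ n' → n = n'

namespace Tower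

variable {K : Type*} [DecidableEq K] {N J : ℕ} (T : Tower Ω K N J)

/-- The cells of level `j` inside a cell of level `j + 1`. -/
def sib (j : ℕ) (k' : K) : Finset K := ((range N).image (T.key j)).filter fun k => T.up j k = k'

/-- The degree of a cell. -/
noncomputable def dg (j : ℕ) (k : K) : ℕ := deg (T.sib j (T.up j k)) (T.ψ j) k

/-- The sum over a cell. -/
noncomputable def W (j : ℕ) (k : K) (a : Ω) : ℂ :=
  ∑ n ∈ (range N).filter fun n => T.key j n = k, T.Φ n a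

omit [Fintype Ω] in
theorem one_le_dg (j : ℕ) {n : ℕ} (hn : n < N) : 1 ≤ T.dg j (T.key j n) :=
  one_le_deg _ (mem_filter.2 ⟨mem_image_of_mem _ (mem_range.2 hn), rfl⟩)

theorem step (j : ℕ) (k' : K) :
    ∑ k ∈ T.sib j k', (T.dg j k : ℝ) ^ (-(1 / 3) : ℝ) * ∑ a, ‖T.W j k a‖ ^ (4 / 3 : ℝ) ≤
      ∑ a, ‖T.W (j + 1) k' a‖ ^ (4 / 3 : ℝ) := by
  have hc : (0 : ℝ) < Fintype.card Ω := by exact_mod_cast Fintype.card_pos
  have hinj : Set.InjOn (T.ψ j) (T.sib j k') := by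
    intro k hk k₁ hk₁ e
    obtain ⟨h1, h2⟩ := mem_filter.1 (mem_coe.1 hk)
    obtain ⟨h3, h4⟩ := mem_filter.1 (mem_coe.1 hk₁)
    obtain ⟨n, hn, rfl⟩ := mem_image.1 h1
    obtain ⟨n', hn', rfl⟩ := mem_image.1 h3
    exact T.inj j n (mem_range.1 hn) n' (mem_range.1 hn')
      (by rw [T.key_succ, T.key_succ, h2, h4]) e
  have hW : ∀ a h, T.W (j + 1) k' (a + T.prj j h) = ∑ k ∈ T.sib j k', T.ψ j k h * T.W j k a := by
    intro a h
    rw [W, ← sum_fiberwise_of_maps_to (g := T.key j) (t := T.sib j k') fun n hn => by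
      obtain ⟨h1, h2⟩ := mem_filter.1 hn
      exact mem_filter.2 ⟨mem_image_of_mem _ h1, by rw [← T.key_succ, h2]⟩]
    refine sum_congr rfl fun k hk => ?_
    rw [W, mul_sum, filter_filter]
    refine sum_congr (filter_congr fun n _ => ⟨fun h => h.2, fun h => ⟨?_, h⟩⟩) fun n hn => ?_
    · rw [T.key_succ, h, (mem_filter.1 hk).2]
    · rw [AddChar.map_add_eq_mul, T.fresh, (mem_filter.1 hn).2, mul_comm]
  refine le_of_mul_le_mul_left ?_ hc
  calc _ = ∑ a, Fintype.card Ω * ∑ k ∈ T.sib j k',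
        (deg (T.sib j k') (T.ψ j) k : ℝ) ^ (-(1 / 3) : ℝ) * ‖T.W j k a‖ ^ (4 / 3 : ℝ) := by
        rw [← mul_sum, sum_comm]
        congr 1
        exact sum_congr rfl fun k hk => by rw [mul_sum, dg, (mem_filter.1 hk).2]
    _ ≤ ∑ a, ∑ h, ‖T.W (j + 1) k' (a + T.prj j h)‖ ^ (4 / 3 : ℝ) :=
        sum_le_sum fun a _ => by
          simp only [hW]
          exact dual43 _ _ hinj _
    _ = _ := by
        rw [sum_comm]
        refine (sum_congr rfl fun h _ => Equiv.sum_comp (Equiv.addRight (T.prj j h))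
          fun a => ‖T.W (j + 1) k' a‖ ^ (4 / 3 : ℝ)).trans ?_
        simp

theorem unroll (j : ℕ) : ∀ g : K → ℝ, (∀ k, 0 ≤ g k) →
    Fintype.card Ω * ∑ n ∈ range N, g (T.key j n) *
      ∏ i ∈ range j, (T.dg i (T.key i n) : ℝ) ^ (-(1 / 3) : ℝ) ≤
    ∑ k ∈ (range N).image (T.key j), g k * ∑ a, ‖T.W j k a‖ ^ (4 / 3 : ℝ) := by
  induction j with
  | zero =>
    intro g _
    rw [sum_image fun n hn n' hn' => T.bot n (mem_range.1 hn) n' (mem_range.1 hn'), mul_sum]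
    refine le_of_eq (sum_congr rfl fun n hn => ?_)
    have : ∀ a, T.W 0 (T.key 0 n) a = T.Φ n a := fun a =>
      sum_eq_single n (fun n' hn' hne => absurd (T.bot n' (mem_range.1 (mem_filter.1 hn').1) n
        (mem_range.1 hn) (mem_filter.1 hn').2) hne) fun h => (h (mem_filter.2 ⟨hn, rfl⟩)).elim
    simp [this, mul_comm]
  | succ j ih =>
    intro g hg
    have h1 := ih (fun k => g (T.up j k) * (T.dg j k : ℝ) ^ (-(1 / 3) : ℝ))
      fun k => mul_nonneg (hg _) (by positivity)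
    refine le_trans (le_of_eq ?_) (h1.trans ?_)
    · congr 1
      exact sum_congr rfl fun n _ => by rw [prod_range_succ, T.key_succ]; ring
    · rw [← sum_fiberwise_of_maps_to (g := T.up j) (t := (range N).image (T.key (j + 1)))
        fun k hk => by
          obtain ⟨n, hn, rfl⟩ := mem_image.1 hk
          exact mem_image.2 ⟨n, hn, T.key_succ j n⟩]
      refine sum_le_sum fun k' _ => le_trans (le_of_eq ?_)
        (mul_le_mul_of_nonneg_left (T.step j k') (hg k'))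
      rw [mul_sum]
      exact sum_congr rfl fun k hk => by rw [(mem_filter.1 hk).2, mul_assoc]

theorem split43 {x u : ℝ} (hx : 0 ≤ x) (hu : 0 < u) :
    x ^ (4 / 3 : ℝ) ≤ u * x + x ^ 2 / u ^ 2 := by
  obtain ⟨y, hy, rfl⟩ : ∃ y, 0 ≤ y ∧ x = y ^ 3 :=
    ⟨x ^ ((3 : ℕ)⁻¹ : ℝ), by positivity, (Real.rpow_inv_natCast_pow hx (by norm_num)).symm⟩
  have e : (y ^ 3) ^ (4 / 3 : ℝ) = y ^ 4 := by
    rw [← Real.rpow_natCast, ← Real.rpow_mul hy, ← Real.rpow_natCast]
    norm_num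
  rw [e]
  rcases le_total y u with h | h
  · have : y ^ 4 ≤ u * y ^ 3 := by
      rw [pow_succ']
      exact mul_le_mul_of_nonneg_right h (by positivity)
    have : 0 ≤ (y ^ 3) ^ 2 / u ^ 2 := by positivity
    linarith
  · have : y ^ 4 ≤ (y ^ 3) ^ 2 / u ^ 2 := by
      rw [le_div_iff₀ (by positivity), show (y ^ 3) ^ 2 = y ^ 4 * y ^ 2 by ring]
      exact mul_le_mul_of_nonneg_left (pow_le_pow_left₀ hu.le h 2) (by positivity)
    have : 0 ≤ u * y ^ 3 := by positivity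
    linarith

/-- The first moment is large if the degrees are small on logarithmic average. -/
theorem first_moment {Λ : ℝ}
    (hΛ : ∑ j ∈ range J, ∑ n ∈ range N, log (T.dg j (T.key j n)) ≤ N * Λ) :
    Fintype.card Ω * (3 / 8 * N * exp (-Λ / 2)) ≤ ∑ a, ‖∑ n ∈ range N, T.Φ n a‖ := by
  rcases Nat.eq_zero_or_pos N with rfl | hN
  · simp
  have h1 := T.unroll J (fun _ => 1) fun _ => zero_le_one
  have e1 : (range N).image (T.key J) = {T.key J 0} := by
    ext k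
    simp only [mem_image, mem_range, mem_singleton]
    exact ⟨fun ⟨n, hn, e⟩ => e ▸ T.top n hn 0 hN, fun e => ⟨0, hN, e.symm⟩⟩
  have e2 : ∀ a, T.W J (T.key J 0) a = ∑ n ∈ range N, T.Φ n a := fun a => by
    rw [W, filter_true_of_mem fun n hn => T.top n (mem_range.1 hn) 0 hN]
  simp only [e1, sum_singleton, e2, one_mul] at h1
  have h2 : ∀ n ∈ range N, exp (-Λ / 3) * (1 + (Λ - ∑ j ∈ range J, log (T.dg j (T.key j n))) / 3)
      ≤ ∏ i ∈ range J, (T.dg i (T.key i n) : ℝ) ^ (-(1 / 3) : ℝ) := fun n hn => by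
    have e : ∏ i ∈ range J, (T.dg i (T.key i n) : ℝ) ^ (-(1 / 3) : ℝ) =
        exp (-Λ / 3) * exp ((Λ - ∑ j ∈ range J, log (T.dg j (T.key j n))) / 3) := by
      rw [← exp_add, prod_congr rfl fun i _ => Real.rpow_def_of_pos
        (by exact_mod_cast T.one_le_dg i (mem_range.1 hn)) _, ← exp_sum, ← sum_mul]
      congr 1
      ring
    rw [e]
    exact mul_le_mul_of_nonneg_left ((add_comm _ _).trans_le (add_one_le_exp _)) (exp_pos _).le
  have h3 : exp (-Λ / 3) * N ≤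
      ∑ n ∈ range N, ∏ i ∈ range J, (T.dg i (T.key i n) : ℝ) ^ (-(1 / 3) : ℝ) := by
    refine le_trans ?_ (sum_le_sum h2)
    rw [← mul_sum]
    refine mul_le_mul_of_nonneg_left ?_ (exp_pos _).le
    rw [sum_comm] at hΛ
    rw [sum_add_distrib, ← sum_div, sum_sub_distrib]
    simp only [sum_const, card_range, nsmul_eq_mul]
    linarith
  have hu : 0 < 2 * exp (Λ / 6) := by positivity
  have h4 := sum_le_sum fun a (_ : a ∈ univ) =>
    split43 (norm_nonneg (∑ n ∈ range N, T.Φ n a)) hu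
  rw [sum_add_distrib, ← mul_sum, ← sum_div, sum_norm_sq _ _ fun n hn n' hn' =>
    T.orth n (mem_range.1 (mem_coe.1 hn)) n' (mem_range.1 (mem_coe.1 hn')), card_range] at h4
  have h5 := (mul_le_mul_of_nonneg_left h3 (Nat.cast_nonneg (Fintype.card Ω))).trans (h1.trans h4)
  have e3 : exp (-Λ / 3) = exp (Λ / 6) * exp (-Λ / 2) := by
    rw [← exp_add]
    congr 1
    ring
  have e4 : (Fintype.card Ω : ℝ) * N / (2 * exp (Λ / 6)) ^ 2 =
      Fintype.card Ω * N * exp (-Λ / 3) / 4 := by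
    have : exp (-Λ / 3) * exp (Λ / 6) ^ 2 = 1 := by
      rw [sq, ← exp_add, ← exp_add, ← exp_zero]
      congr 1
      ring
    rw [div_eq_iff (by positivity)]
    linear_combination (-(Fintype.card Ω : ℝ) * N) * this
  rw [e4, e3] at h5
  refine le_of_mul_le_mul_left ?_ hu
  linarith

end Tower

end Pool.Agent.Lib.MP_490b4c_nt.Half
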