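import Mathlib

/-! Near relations between powers of distinct primes are rare. -/

open Finset Real

namespace Pool.Agent.Lib.MP_490b4c_nt.Half

theorem pow_ne_pow_of_prime {p q a b : ℕ} (hp : p.Prime) (hq : q.Prime) (hne : p ≠ q)
    (hb : 1 ≤ b) : p ^ a ≠ q ^ b := fun e =>
  hne ((Nat.prime_dvd_prime_iff_eq hq hp).1
    (hq.dvd_of_dvd_pow (e ▸ dvd_pow_self q (by omega) : q ∣ p ^ a))).symm

variable {ι : Type*} [Fintype ι] [DecidableEq ι] {b : ι → ℕ} {ρ : ι → ℕ → ℕ} {L : ℕ} {X : ℕ → ℝ}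

omit [Fintype ι] [DecidableEq ι] in
theorem gap_bounds (hρ : ∀ i j, ρ i j < ρ i (j + 1) ∧ ρ i (j + 1) ≤ ρ i j + L) (i : ι) (j t : ℕ) :
    ρ i j + t ≤ ρ i (j + t) ∧ ρ i (j + t) ≤ ρ i j + t * L := by
  induction t with
  | zero => simp
  | succ t ih =>
    have := hρ i (j + t)
    rw [← add_assoc j, add_mul, one_mul]
    omega

open Classical in
theorem elim_aux (hb : ∀ i, (b i).Prime) (hinj : Function.Injective b)
    (hρ : ∀ i j, ρ i j < ρ i (j + 1) ∧ ρ i (j + 1) ≤ ρ i j + L) (hX : Monotone X)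
    (hX0 : ∀ j, 0 < X j) {κ : ℝ} (hκ : 0 < κ) (hlow : ∀ i j, κ * (b i : ℝ) ^ ρ i j ≤ X j)
    (n : ℕ) : ∀ c : ι → ℝ, c ≠ 0 → (univ.filter fun i => c i ≠ 0).card ≤ n → ∀ ε : ℝ, 0 < ε →
      ∃ η C : ℝ, 0 < η ∧ ∀ J : ℕ, (((range J).filter fun j =>
        |∑ i, c i * (X j / (b i : ℝ) ^ ρ i j)| < η).card : ℝ) ≤ ε * J + C := by
  have hb0 : ∀ i, (0 : ℝ) < b i := fun i => by exact_mod_cast (hb i).pos
  induction n with
  | zero =>
    intro c hc h
    obtain ⟨i, hi⟩ := Function.ne_iff.1 hc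
    have : 0 < (univ.filter fun i => c i ≠ 0).card :=
      card_pos.2 ⟨i, mem_filter.2 ⟨mem_univ _, hi⟩⟩
    omega
  | succ n ih =>
    intro c hc h ε hε
    obtain ⟨i₁, hi₁⟩ := Function.ne_iff.1 hc
    replace hi₁ : c i₁ ≠ 0 := hi₁
    by_cases h2 : ∀ i, i ≠ i₁ → c i = 0
    · refine ⟨|c i₁| * κ, 0, by positivity, fun J => ?_⟩
      rw [filter_false_of_mem fun j _ => not_lt.2 ?_]
      · simp only [card_empty, Nat.cast_zero]
        positivity
      have := hX0 j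
      have := hb0 i₁
      rw [sum_eq_single i₁ (fun i _ hi => by rw [h2 i hi, zero_mul]) (by simp), abs_mul,
        abs_of_pos (by positivity : 0 < X j / (b i₁ : ℝ) ^ ρ i₁ j)]
      exact mul_le_mul_of_nonneg_left ((le_div_iff₀ (by positivity)).2 (hlow i₁ j)) (abs_nonneg _)
    push Not at h2
    obtain ⟨i₂, hne, hi₂⟩ := h2
    obtain ⟨G, hG⟩ := exists_nat_gt (2 / ε)
    have hG0 : (0 : ℝ) < G := lt_trans (by positivity) hG
    have hG1 : 0 < G := by exact_mod_cast hG0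
    set 𝒟 := Fintype.piFinset fun _ : ι => Icc 1 (G * L + 1) with h𝒟
    have hD : 𝒟.Nonempty := ⟨fun _ => 1, by simp [h𝒟]⟩
    have hD0 : (0 : ℝ) < 𝒟.card := by exact_mod_cast hD.card_pos
    set c' : (ι → ℕ) → ι → ℝ := fun Δ i => c i * (1 - (b i₁ : ℝ) ^ Δ i₁ / (b i : ℝ) ^ Δ i) with hc'
    have key : ∀ Δ : ι → ℕ, ∃ η C : ℝ, 0 < η ∧ (Δ ∈ 𝒟 → ∀ J : ℕ, (((range J).filter fun j =>
        |∑ i, c' Δ i * (X j / (b i : ℝ) ^ ρ i j)| < η).card : ℝ) ≤ ε / (2 * 𝒟.card) * J + C) := by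
      intro Δ
      by_cases hΔ : Δ ∈ 𝒟
      swap
      · exact ⟨1, 0, one_pos, fun h => absurd h hΔ⟩
      have h3 : c' Δ i₂ ≠ 0 := by
        refine mul_ne_zero hi₂ (sub_ne_zero.2 fun e => ?_)
        rw [eq_div_iff (pow_pos (hb0 _) _).ne', one_mul] at e
        exact pow_ne_pow_of_prime (hb i₁) (hb i₂) (fun e => hne (hinj e).symm)
          (mem_Icc.1 (Fintype.mem_piFinset.1 hΔ i₂)).1 (by exact_mod_cast e.symm)
      have h4 : (univ.filter fun i => c' Δ i ≠ 0) ⊆ (univ.filter fun i => c i ≠ 0).erase i₁ := by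
        intro i hi
        have h5 := (mem_filter.1 hi).2
        refine mem_erase.2 ⟨fun e => h5 ?_, mem_filter.2 ⟨mem_univ _, left_ne_zero_of_mul h5⟩⟩
        simp only [hc', e, div_self (pow_pos (hb0 i₁) _).ne', sub_self, mul_zero]
      have h5 := card_le_card h4
      rw [card_erase_of_mem (by simpa using hi₁)] at h5
      obtain ⟨η, C, h6, h7⟩ := ih (c' Δ) (fun e => h3 (congrFun e i₂)) (by omega)
        (ε / (2 * 𝒟.card)) (by positivity)
      exact ⟨η, C, h6, fun _ => h7⟩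
    choose η C hη using key
    obtain ⟨Δ₀, -, hΔ₀⟩ := exists_min_image 𝒟 η hD
    have hA : (0 : ℝ) < 1 + (b i₁ : ℝ) ^ (G * L + 1) := by have := hb0 i₁; positivity
    refine ⟨η Δ₀ / (1 + (b i₁ : ℝ) ^ (G * L + 1)), 1 + ∑ Δ ∈ 𝒟, C Δ, div_pos (hη Δ₀).1 hA,
      fun J => ?_⟩
    set η₁ := η Δ₀ / (1 + (b i₁ : ℝ) ^ (G * L + 1)) with hη₁
    set bad : ℕ → Prop := fun j => |∑ i, c i * (X j / (b i : ℝ) ^ ρ i j)| < η₁ with hbad
    set Iso := (range J).filter fun j => bad j ∧ ∀ t, 1 ≤ t → t ≤ G → ¬ bad (j + t) with hIso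
    have hsub : (range J).filter bad ⊆ Iso ∪ 𝒟.biUnion fun Δ => (range J).filter fun j =>
        |∑ i, c' Δ i * (X j / (b i : ℝ) ^ ρ i j)| < η Δ := by
      intro j hj
      obtain ⟨hj1, hj2⟩ := mem_filter.1 hj
      by_cases hI : ∀ t, 1 ≤ t → t ≤ G → ¬ bad (j + t)
      · exact mem_union_left _ (mem_filter.2 ⟨hj1, hj2, hI⟩)
      push Not at hI
      obtain ⟨t, ht1, ht2, ht3⟩ := hI
      set Δ : ι → ℕ := fun i => ρ i (j + t) - ρ i j with hΔ
      have hΔ1 : ∀ i, 1 ≤ Δ i ∧ Δ i ≤ G * L + 1 ∧ ρ i (j + t) = ρ i j + Δ i := fun i => by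
        have h5 := gap_bounds hρ i j t
        have h6 := Nat.mul_le_mul_right L ht2
        simp only [hΔ]
        omega
      have hΔ2 : Δ ∈ 𝒟 := Fintype.mem_piFinset.2 fun i => mem_Icc.2 ⟨(hΔ1 i).1, (hΔ1 i).2.1⟩
      refine mem_union_right _ (mem_biUnion.2 ⟨Δ, hΔ2, mem_filter.2 ⟨hj1, ?_⟩⟩)
      have e : ∑ i, c' Δ i * (X j / (b i : ℝ) ^ ρ i j) =
          ∑ i, c i * (X j / (b i : ℝ) ^ ρ i j) - (b i₁ : ℝ) ^ Δ i₁ * (X j / X (j + t)) *
            ∑ i, c i * (X (j + t) / (b i : ℝ) ^ ρ i (j + t)) := by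
        rw [mul_sum, ← sum_sub_distrib]
        refine sum_congr rfl fun i _ => ?_
        have := hX0 (j + t)
        have := hb0 i
        simp only [hc', (hΔ1 i).2.2, pow_add]
        field_simp
      have h5 : 0 ≤ X j / X (j + t) := (div_pos (hX0 _) (hX0 _)).le
      have h6 : X j / X (j + t) ≤ 1 := (div_le_one (hX0 _)).2 (hX (by omega))
      have h7 : (b i₁ : ℝ) ^ Δ i₁ ≤ (b i₁ : ℝ) ^ (G * L + 1) :=
        pow_le_pow_right₀ (by exact_mod_cast (hb i₁).one_le) (hΔ1 i₁).2.1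
      have h8 : 0 ≤ (b i₁ : ℝ) ^ Δ i₁ := (pow_pos (hb0 _) _).le
      have h9 : |(b i₁ : ℝ) ^ Δ i₁ * (X j / X (j + t)) *
          ∑ i, c i * (X (j + t) / (b i : ℝ) ^ ρ i (j + t))| ≤ (b i₁ : ℝ) ^ (G * L + 1) * η₁ := by
        rw [abs_mul, abs_of_nonneg (mul_nonneg h8 h5)]
        exact mul_le_mul ((mul_le_of_le_one_right h8 h6).trans h7) ht3.le (abs_nonneg _)
          (h8.trans h7)
      have h10 : η₁ * (1 + (b i₁ : ℝ) ^ (G * L + 1)) = η Δ₀ := div_mul_cancel₀ _ hA.ne'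
      rw [e]
      refine ((abs_sub _ _).trans_lt (add_lt_add_of_lt_of_le hj2 h9)).trans_le ?_
      linarith [hΔ₀ Δ hΔ2]
    have hI : Iso.card ≤ J / G + 1 := by
      rw [← card_range (J / G + 1)]
      refine card_le_card_of_injOn (fun j => j / G) (fun j hj => ?_) ?_
      · have := Nat.div_le_div_right (c := G) (mem_range.1 (mem_filter.1 (mem_coe.1 hj)).1).le
        exact mem_coe.2 (mem_range.2 (Nat.lt_succ_of_le this))
      · have aux : ∀ j ∈ Iso, ∀ j' ∈ Iso, j / G = j' / G → ¬ j < j' := fun j hj j' hj' e hlt => by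
          have h5 := Nat.div_add_mod j G
          have h6 := Nat.div_add_mod j' G
          have h7 := Nat.mod_lt j' hG1
          rw [e] at h5
          refine (mem_filter.1 hj).2.2 (j' - j) (by omega) (by omega) ?_
          rw [show j + (j' - j) = j' by omega]
          exact (mem_filter.1 hj').2.1
        intro j hj j' hj' e
        exact le_antisymm (not_lt.1 (aux j' hj' j hj e.symm)) (not_lt.1 (aux j hj j' hj' e))
    have hI' : (Iso.card : ℝ) ≤ ε / 2 * J + 1 := by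
      have h5 : ((J / G : ℕ) : ℝ) ≤ J / G := Nat.cast_div_le
      have h6 : (J : ℝ) / G ≤ ε / 2 * J := by
        rw [div_lt_iff₀ hε] at hG
        rw [div_le_iff₀ hG0]
        nlinarith [Nat.cast_nonneg (α := ℝ) J]
      have h7 : (Iso.card : ℝ) ≤ (J / G : ℕ) + 1 := by exact_mod_cast hI
      linarith
    have h5 : (((range J).filter bad).card : ℝ) ≤ Iso.card + ∑ Δ ∈ 𝒟, (((range J).filter fun j =>
        |∑ i, c' Δ i * (X j / (b i : ℝ) ^ ρ i j)| < η Δ).card : ℝ) := by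
      exact_mod_cast (card_le_card hsub).trans ((card_union_le _ _).trans
        (Nat.add_le_add_left card_biUnion_le _))
    have h6 := sum_le_sum fun Δ (hΔ : Δ ∈ 𝒟) => (hη Δ).2 hΔ J
    rw [sum_add_distrib, sum_const, nsmul_eq_mul] at h6
    have h7 : (𝒟.card : ℝ) * (ε / (2 * 𝒟.card) * J) = ε / 2 * J := by field_simp
    linarith

open Classical in
/-- Levels with a near relation with bounded integer coefficients have small density. -/
theorem elim (hb : ∀ i, (b i).Prime) (hinj : Function.Injective b)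
    (hρ : ∀ i j, ρ i j < ρ i (j + 1) ∧ ρ i (j + 1) ≤ ρ i j + L) (hX : Monotone X)
    (hX0 : ∀ j, 0 < X j) {κ : ℝ} (hκ : 0 < κ) (hlow : ∀ i j, κ * (b i : ℝ) ^ ρ i j ≤ X j)
    (A : ℕ) {ε : ℝ} (hε : 0 < ε) : ∃ η C : ℝ, 0 < η ∧ ∀ J : ℕ, (((range J).filter fun j =>
      ∃ m : ι → ℤ, m ≠ 0 ∧ (∀ i, |m i| ≤ A) ∧
        |∑ i, m i * (X j / (b i : ℝ) ^ ρ i j)| < η).card : ℝ) ≤ ε * J + C := by
  set 𝒜 := Fintype.piFinset fun _ : ι => Icc (-(A : ℤ)) A with h𝒜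
  have hD : 𝒜.Nonempty := ⟨0, by simp [h𝒜]⟩
  have hD0 : (0 : ℝ) < 𝒜.card := by exact_mod_cast hD.card_pos
  have key : ∀ m : ι → ℤ, ∃ η C : ℝ, 0 < η ∧ ∀ J : ℕ, (((range J).filter fun j => m ≠ 0 ∧
      |∑ i, m i * (X j / (b i : ℝ) ^ ρ i j)| < η).card : ℝ) ≤ ε / 𝒜.card * J + C := fun m => by
    by_cases hm : m = 0
    · refine ⟨1, 0, one_pos, fun J => ?_⟩
      rw [filter_false_of_mem fun j _ h => h.1 hm, card_empty, Nat.cast_zero]
      positivity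
    obtain ⟨η, C, h1, h2⟩ := elim_aux hb hinj hρ hX hX0 hκ hlow _ (fun i => (m i : ℝ))
      (fun e => hm (funext fun i => Int.cast_eq_zero.1 (congrFun e i))) le_rfl (ε / 𝒜.card)
      (by positivity)
    exact ⟨η, C, h1, fun J => by simpa only [ne_eq, hm, not_false_iff, true_and] using h2 J⟩
  choose η C hη using key
  obtain ⟨m₀, -, hm₀⟩ := exists_min_image 𝒜 η hD
  refine ⟨η m₀, ∑ m ∈ 𝒜, C m, (hη m₀).1, fun J => ?_⟩
  have h1 := sum_le_sum fun m (_ : m ∈ 𝒜) => (hη m).2 J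
  rw [sum_add_distrib, sum_const, nsmul_eq_mul, ← mul_assoc, mul_div_cancel₀ _ hD0.ne'] at h1
  refine le_trans ?_ h1
  rw [← Nat.cast_sum, Nat.cast_le]
  refine le_trans (card_le_card fun j hj => ?_) card_biUnion_le
  obtain ⟨h2, m, h3, h4, h5⟩ := mem_filter.1 hj
  have h6 : m ∈ 𝒜 := Fintype.mem_piFinset.2 fun i => mem_Icc.2 (abs_le.1 (h4 i))
  exact mem_biUnion.2 ⟨m, h6, mem_filter.2 ⟨h2, h3, h5.trans_le (hm₀ m h6)⟩⟩

end Pool.Agent.Lib.MP_490b4c_nt.Half
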