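import Pool.Agent.Lib.MP_490b4c_nt.HalfTower

/-! The mean degree at one level. -/

open Finset Real

namespace Pool.Agent.Lib.MP_490b4c_nt.Half

variable {ι : Type*} [Fintype ι] [DecidableEq ι]

theorem resid {n Q B : ℕ} (hQ : 0 < Q) (hB : 3 ≤ B) :
    |(n : ℝ) * (1 / (Q * B)) - ((n / Q % B : ℕ) + 1 / 2) / B - ((n / Q / B : ℕ) : ℤ)| ≤
      1 / (6 * (B / 3 : ℕ)) := by
  have hQ' : (0 : ℝ) < Q := by exact_mod_cast hQ
  have hB' : (3 : ℝ) ≤ B := by exact_mod_cast hB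
  have h1 : (n : ℝ) = Q * (B * (n / Q / B : ℕ) + (n / Q % B : ℕ)) + (n % Q : ℕ) := by
    exact_mod_cast (by rw [Nat.div_add_mod, Nat.div_add_mod] :
      n = Q * (B * (n / Q / B) + n / Q % B) + n % Q)
  have h2 : ((n % Q : ℕ) : ℝ) / Q ≤ 1 :=
    (div_le_one hQ').2 (by exact_mod_cast (Nat.mod_lt n hQ).le)
  have h3 : 0 ≤ ((n % Q : ℕ) : ℝ) / Q := by positivity
  have h4 : (1 : ℝ) ≤ (B / 3 : ℕ) := by exact_mod_cast (by omega : 1 ≤ B / 3)
  have h5 : 3 * ((B / 3 : ℕ) : ℝ) ≤ B := by exact_mod_cast (by omega : 3 * (B / 3) ≤ B)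
  have e : (n : ℝ) * (1 / (Q * B)) - ((n / Q % B : ℕ) + 1 / 2) / B - ((n / Q / B : ℕ) : ℤ) =
      (((n % Q : ℕ) : ℝ) / Q - 1 / 2) / B := by
    rw [Int.cast_natCast]
    nth_rewrite 1 [h1]
    field_simp
    ring
  rw [e, abs_div, abs_of_pos (by linarith : (0 : ℝ) < B), div_le_div_iff₀ (by linarith)
    (by linarith)]
  have h6 : |((n % Q : ℕ) : ℝ) / Q - 1 / 2| ≤ 1 / 2 := abs_le.2 ⟨by linarith, by linarith⟩
  nlinarith [abs_nonneg (((n % Q : ℕ) : ℝ) / Q - 1 / 2)]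

/-- Without near relations the digit blocks of one level are nearly independent. -/
theorem joint_le {Q B : ι → ℕ} {X K A N : ℕ} {η : ℝ} (hη : 0 < η) (hη1 : η ≤ 1 / 2)
    (hQ : ∀ i, 0 < Q i) (hB : ∀ i, 3 ≤ B i) (hBA : ∀ i, B i ≤ A) (hK : ∀ i, X ≤ K * Q i)
    (hX : 1 ≤ X) (hXK : Fintype.card ι * K ≤ X)
    (hrel : ∀ m : ι → ℤ, m ≠ 0 → (∀ i, |m i| ≤ A) → η ≤ |∑ i, m i * (X / (Q i * B i : ℝ))|)
    (hN : X / η * (A : ℝ) ^ Fintype.card ι ≤ N) (z : ι → ℕ) :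
    (((range N).filter fun n => ∀ i, n / Q i % B i = z i).card : ℝ) ≤
      2 * 24 ^ Fintype.card ι * N / ∏ i, (B i : ℝ) := by
  have hX' : (1 : ℝ) ≤ X := by exact_mod_cast hX
  have hQ' : ∀ i, (0 : ℝ) < Q i := fun i => by exact_mod_cast hQ i
  have hB' : ∀ i, (0 : ℝ) < B i := fun i => by exact_mod_cast (by have := hB i; omega : 0 < B i)
  have hP : 0 < ∏ i, (B i : ℝ) := prod_pos fun i _ => hB' i
  have h1 := sieve (fun i => 1 / (Q i * B i : ℝ)) (fun i => (z i + 1 / 2) / B i) (fun i => B i / 3)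
    (fun i => by have := hB i; omega) (η := η / X) (by positivity) (fun m hm hM w => ?_)
    (filter_subset (fun n => ∀ i, n / Q i % B i = z i) (range N)) fun n hn i =>
      ⟨_, by rw [← (mem_filter.1 hn).2 i]; exact resid (hQ i) (hB i)⟩
  · have h2 : (N : ℝ) / ∏ i, ((B i / 3 : ℕ) : ℝ) ≤ 6 ^ Fintype.card ι * N / ∏ i, (B i : ℝ) := by
      rw [div_le_div_iff₀ (prod_pos fun i _ => by
        exact_mod_cast (by have := hB i; omega : 0 < B i / 3)) hP, mul_comm _ (N : ℝ), mul_assoc,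
        ← card_univ, ← prod_const, ← prod_mul_distrib]
      exact mul_le_mul_of_nonneg_left (prod_le_prod (fun i _ => (hB' i).le) fun i _ => by
        exact_mod_cast (by have := hB i; omega : B i ≤ 6 * (B i / 3))) (Nat.cast_nonneg _)
    have h3 : 1 / (η / X) ≤ 6 ^ Fintype.card ι * N / ∏ i, (B i : ℝ) := by
      have h4 : ∏ i, (B i : ℝ) ≤ (A : ℝ) ^ Fintype.card ι := by
        rw [← card_univ, ← prod_const]
        exact prod_le_prod (fun i _ => (hB' i).le) fun i _ => by exact_mod_cast hBA i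
      rw [one_div_div, le_div_iff₀ hP]
      exact ((mul_le_mul_of_nonneg_left h4 (by positivity)).trans hN).trans
        (le_mul_of_one_le_left (Nat.cast_nonneg _) (one_le_pow₀ (by norm_num)))
    refine (h1.trans (mul_le_mul_of_nonneg_left (add_le_add h2 h3) (by positivity))).trans_eq ?_
    rw [show (24 : ℝ) = 4 * 6 by norm_num, mul_pow]
    ring
  rcases eq_or_ne w 0 with rfl | hw
  · have h2 := hrel m hm fun i => (hM i).le.trans (by have := hBA i; omega)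
    have e : ∑ i, m i * (X / (Q i * B i : ℝ)) = (∑ i, m i * (1 / (Q i * B i : ℝ))) * X := by
      rw [sum_mul]
      exact sum_congr rfl fun i _ => by ring
    rw [e, abs_mul, abs_of_pos (by linarith : (0 : ℝ) < X)] at h2
    rwa [Int.cast_zero, sub_zero, div_le_iff₀ (by linarith)]
  · have h2 : |∑ i, m i * (1 / (Q i * B i : ℝ))| ≤ 1 / 3 := by
      refine (abs_sum_le_sum_abs _ _).trans ((sum_le_card_nsmul _ _ (K / (3 * X) : ℝ)
        fun i _ => ?_).trans ?_)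
      · have h3 : 3 * |(m i : ℝ)| ≤ B i := by
          exact_mod_cast (by have := hM i; omega : 3 * |m i| ≤ B i)
        have h4 : (X : ℝ) ≤ K * Q i := by exact_mod_cast hK i
        have := hQ' i
        have := hB' i
        rw [abs_mul, abs_of_pos (by positivity : (0 : ℝ) < 1 / (Q i * B i)), mul_one_div,
          div_le_div_iff₀ (by positivity) (by positivity), ← mul_assoc, ← mul_assoc,
          mul_comm _ (B i : ℝ)]
        exact mul_le_mul (by linarith) h4 (by linarith) (by linarith)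
      · have h3 : (Fintype.card ι : ℝ) * K ≤ X := by exact_mod_cast hXK
        rw [card_univ, nsmul_eq_mul, ← mul_div_assoc, div_le_div_iff₀ (by linarith) (by norm_num)]
        linarith
    have h3 : (1 : ℝ) ≤ |(w : ℝ)| := by exact_mod_cast Int.one_le_abs hw
    have h4 := abs_sub_abs_le_abs_sub (w : ℝ) (∑ i, m i * (1 / (Q i * B i : ℝ)))
    rw [abs_sub_comm] at h4
    have h5 : η / X ≤ η := div_le_self hη.le hX'
    linarith

omit [DecidableEq ι] in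
theorem prod_le_sum_pairs {m : ℕ} (hm : 1 ≤ m) {u v : Fin m → ι}
    (huv : Function.Injective (Sum.elim u v)) {x : ι → ℝ} (h0 : ∀ i, 0 ≤ x i) (h1 : ∀ i, x i ≤ 1) :
    ∏ i, x i ≤ ∑ p, x (u p) ^ m * x (v p) ^ m := by
  have h2 : ∏ i, x i ≤ ∏ p, x (u p) * x (v p) := by
    refine (prod_le_prod_of_subset_of_le_one (subset_univ (univ.map ⟨_, huv⟩)) (fun i _ => h0 i)
      fun i _ _ => h1 i).trans_eq ?_
    rw [prod_map, Fintype.prod_sum_type, prod_mul_distrib]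
    rfl
  obtain ⟨p₀, -, hp⟩ := exists_max_image univ (fun p => x (u p) * x (v p)) ⟨⟨0, hm⟩, mem_univ _⟩
  refine h2.trans ((prod_le_prod (fun p _ => mul_nonneg (h0 _) (h0 _)) hp).trans ?_)
  rw [prod_const, card_univ, Fintype.card_fin, mul_pow]
  exact single_le_sum (f := fun p => x (u p) ^ m * x (v p) ^ m)
    (fun p _ => mul_nonneg (pow_nonneg (h0 _) _) (pow_nonneg (h0 _) _)) (mem_univ p₀)

variable {Q : ι → ℕ} {X A K : ℕ}

theorem card_Adm_le (hQ : ∀ i, 0 < Q i) (hK : ∀ i, X ≤ K * Q i) (i₀ : ι) :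
    ((Adm Q X A).card : ℝ) ≤ (8 * K + 1) ^ Fintype.card ι * (2 * A + 1) := by
  have h := sum_fib_le (Adm Q X A) (· i₀) (Icc (-(A : ℤ)) A)
    (fun a ha => Fintype.mem_piFinset.1 (mem_filter.1 ha).1 i₀)
    (fun y => card_Adm_fib hQ hK i₀ y fun a ha => mem_filter.1 ha) (fun _ => 1) fun _ => zero_le_one
  rw [sum_const, sum_const, Int.card_Icc, show (A : ℤ) + 1 - -(A : ℤ) = (2 * A + 1 : ℕ) by
    push_cast; ring, Int.toNat_natCast] at h
  simpa using h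

theorem card_AdmE_le (hQ : ∀ i, 0 < Q i) (hK : ∀ i, X ≤ K * Q i) (b : ι → ℕ) (L : ℕ) (i i' : ι) :
    (((Adm Q X A).filter fun e => ∀ i, e i ∈ Es (b i) L).card : ℝ) ≤
      (8 * K + 1) ^ Fintype.card ι * GG (b i) (b i') (4 * K) L (Q i / Q i') := by
  have h := sum_fib_le ((Adm Q X A).filter fun e => ∀ i, e i ∈ Es (b i) L) (fun e => (e i, e i'))
    ((Es (b i) L ×ˢ Es (b i') L).filter fun x => |x.1 * ((Q i : ℝ) / Q i') - x.2| ≤ (4 * K : ℕ))
    (fun a ha => mem_filter.2 ⟨mem_product.2 ⟨(mem_filter.1 ha).2 i, (mem_filter.1 ha).2 i'⟩,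
      comp_of_Adm hQ hK (mem_filter.1 ha).1 i i'⟩)
    (fun y => card_Adm_fib hQ hK i y.1 fun a ha =>
      ⟨(mem_filter.1 (mem_filter.1 ha).1).1, congrArg Prod.fst (mem_filter.1 ha).2⟩)
    (fun _ => 1) fun _ => zero_le_one
  rw [sum_filter (s := Es (b i) L ×ˢ Es (b i') L), sum_const, nsmul_eq_mul, mul_one] at h
  exact h

theorem sum_FF_le (hQ : ∀ i, 0 < Q i) (hK : ∀ i, X ≤ K * Q i) (u v m : ℕ) (i i' : ι) :
    ∑ x ∈ Adm Q X A ×ˢ Adm Q X A, FF u m (x.1 i) (x.2 i) * FF v m (x.1 i') (x.2 i') ≤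
      ((8 * K + 1) ^ Fintype.card ι) ^ 2 * HH u v m (4 * K) A (Q i / Q i') := by
  have box : ∀ a ∈ Adm Q X A, ∀ k, a k ∈ Icc (-(A : ℤ)) A := fun a ha =>
    Fintype.mem_piFinset.1 (mem_filter.1 ha).1
  have h := sum_fib_le (Adm Q X A ×ˢ Adm Q X A) (fun x => ((x.1 i, x.2 i), (x.1 i', x.2 i')))
    (((Icc (-(A : ℤ)) A ×ˢ Icc (-(A : ℤ)) A) ×ˢ (Icc (-(A : ℤ)) A ×ˢ Icc (-(A : ℤ)) A)).filter
      fun x => |x.1.1 * ((Q i : ℝ) / Q i') - x.2.1| ≤ (4 * K : ℕ) ∧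
        |x.1.2 * ((Q i : ℝ) / Q i') - x.2.2| ≤ (4 * K : ℕ))
    (fun a ha => by
      obtain ⟨h1, h2⟩ := mem_product.1 ha
      exact mem_filter.2 ⟨mem_product.2 ⟨mem_product.2 ⟨box _ h1 i, box _ h2 i⟩,
        mem_product.2 ⟨box _ h1 i', box _ h2 i'⟩⟩, comp_of_Adm hQ hK h1 i i',
        comp_of_Adm hQ hK h2 i i'⟩)
    (W := ((8 * K + 1) ^ Fintype.card ι) ^ 2) (fun y => ?_)
    (fun y => FF u m y.1.1 y.1.2 * FF v m y.2.1 y.2.2)
    fun _ => mul_nonneg (FF_nonneg _ _ _ _) (FF_nonneg _ _ _ _)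
  · rw [sum_filter] at h
    exact h
  have h1 := card_Adm_fib (A := A) hQ hK i y.1.1 fun a ha => mem_filter.1 ha
  have h2 := card_Adm_fib (A := A) hQ hK i y.1.2 fun a ha => mem_filter.1 ha
  refine le_trans ?_ ((mul_le_mul h1 h2 (Nat.cast_nonneg _) (by positivity)).trans_eq (sq _).symm)
  rw [← Nat.cast_mul, ← card_product, Nat.cast_le]
  refine card_le_card fun x hx => ?_
  obtain ⟨h3, rfl⟩ := mem_filter.1 hx
  exact mem_product.2 ⟨mem_filter.2 ⟨(mem_product.1 h3).1, rfl⟩,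
    mem_filter.2 ⟨(mem_product.1 h3).2, rfl⟩⟩

/-- The mean number of admissible triples of lags. -/
theorem sum_triples_le {b L : ι → ℕ} {N Lm m : ℕ} {c : ℝ} (hc : 0 ≤ c) (hQ : ∀ i, 0 < Q i)
    (hK : ∀ i, X ≤ K * Q i) (hb : ∀ i, 3 ≤ b i) (hL : ∀ i, 1 ≤ L i) (hm : 1 ≤ m)
    {u v : Fin m → ι} (huv : Function.Injective (Sum.elim u v)) (k : ℕ → ι → ℕ)
    (hk : ∀ z : ι → ℕ, (((range N).filter fun n => ∀ i, k n i = z i).card : ℝ) ≤
      c / ∏ i, ((b i ^ L i : ℕ) : ℝ)) (i₀ i₁ : ι) :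
    ∑ n ∈ range N, ((((((Adm Q X A).filter fun a => ∀ i, (a i).natAbs < b i ^ L i) ×ˢ
      Adm Q X A ×ˢ (Adm Q X A).filter fun e => ∀ i, e i ∈ Es (b i) Lm).filter
      fun x => ∀ i, k n i ∈ Zs (b i) (L i) (x.1 i) (x.2.1 i) (x.2.2 i)).card : ℕ) : ℝ) ≤
    c * ((8 * K + 1) ^ Fintype.card ι) ^ 3 * (GG (b i₀) (b i₁) (4 * K) Lm (Q i₀ / Q i₁) *
      ∑ p, HH (b (u p)) (b (v p)) m (4 * K) A (Q (u p) / Q (v p))) := by
  have hB : ∀ i, (0 : ℝ) < (b i : ℝ) ^ L i := fun i => by have := hb i; positivity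
  simp only [card_filter, Nat.cast_sum]
  rw [sum_comm]
  simp only [← Nat.cast_sum, ← card_filter]
  rw [Nat.cast_sum]
  refine (sum_le_sum (g := fun x : (ι → ℤ) × (ι → ℤ) × (ι → ℤ) => c * ∑ p,
    FF (b (u p)) m (x.1 (u p)) (x.2.1 (u p)) * FF (b (v p)) m (x.1 (v p)) (x.2.1 (v p)))
    fun x hx => ?_).trans ?_
  · have ha := (mem_filter.1 (mem_product.1 hx).1).2
    rw [card_eq_sum_card_fiberwise (f := k) (t := Fintype.piFinset fun i =>
      Zs (b i) (L i) (x.1 i) (x.2.1 i) (x.2.2 i)) fun n hn =>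
        mem_coe.2 (Fintype.mem_piFinset.2 (mem_filter.1 (mem_coe.1 hn)).2), Nat.cast_sum]
    refine (sum_le_card_nsmul _ _ _ fun z _ => (Nat.cast_le.2 (card_le_card fun n hn =>
      mem_filter.2 ⟨(mem_filter.1 (mem_filter.1 hn).1).1,
        congrFun (mem_filter.1 hn).2⟩)).trans (hk z)).trans ?_
    rw [nsmul_eq_mul, Fintype.card_piFinset, mul_div_left_comm, Nat.cast_prod, ← prod_div_distrib]
    refine mul_le_mul_of_nonneg_left ((prod_le_sum_pairs hm huv (fun i => by positivity)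
      fun i => ?_).trans (sum_le_sum fun p _ => ?_)) hc
    · exact div_le_one_of_le₀ (Nat.cast_le.2 ((@card_filter_le _ _ _ (_)).trans_eq
        (card_range _))) (Nat.cast_nonneg _)
    · push_cast
      exact mul_le_mul (card_Zs_le (hb _) (hL _) m _ (ha _)) (card_Zs_le (hb _) (hL _) m _ (ha _))
        (by positivity) (FF_nonneg _ _ _ _)
  have nn : ∀ a a' : ι → ℤ, 0 ≤ ∑ p, FF (b (u p)) m (a (u p)) (a' (u p)) *
      FF (b (v p)) m (a (v p)) (a' (v p)) := fun a a' =>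
    sum_nonneg fun p _ => mul_nonneg (FF_nonneg _ _ _ _) (FF_nonneg _ _ _ _)
  rw [← mul_sum, mul_assoc]
  refine mul_le_mul_of_nonneg_left ?_ hc
  calc _ ≤ ∑ a ∈ Adm Q X A, ∑ a' ∈ Adm Q X A,
        (((Adm Q X A).filter fun e => ∀ i, e i ∈ Es (b i) Lm).card : ℝ) *
          ∑ p, FF (b (u p)) m (a (u p)) (a' (u p)) * FF (b (v p)) m (a (v p)) (a' (v p)) := by
        simp only [sum_product, sum_const, nsmul_eq_mul]
        exact sum_le_sum_of_subset_of_nonneg (filter_subset _ _) fun a _ _ =>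
          sum_nonneg fun a' _ => mul_nonneg (Nat.cast_nonneg _) (nn a a')
    _ = (((Adm Q X A).filter fun e => ∀ i, e i ∈ Es (b i) Lm).card : ℝ) *
          ∑ p, ∑ x ∈ Adm Q X A ×ˢ Adm Q X A, FF (b (u p)) m (x.1 (u p)) (x.2 (u p)) *
            FF (b (v p)) m (x.1 (v p)) (x.2 (v p)) := by
        rw [sum_comm (s := univ), sum_product]
        simp only [mul_sum]
    _ ≤ _ := by
        refine (mul_le_mul (card_AdmE_le hQ hK b Lm i₀ i₁) (sum_le_sum fun p _ =>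
          sum_FF_le hQ hK _ _ m (u p) (v p)) (sum_nonneg fun p _ => sum_nonneg fun x _ =>
            mul_nonneg (FF_nonneg _ _ _ _) (FF_nonneg _ _ _ _))
          (mul_nonneg (by positivity) (GG_nonneg _ _ _ _ _))).trans_eq ?_
        rw [← mul_sum]
        ring

end Pool.Agent.Lib.MP_490b4c_nt.Half
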