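import Pool.Agent.Lib.MP_490b4c_nt.HalfCut

/-! The mean character sum has exponent `1 / 2` when there are many bases. -/

open Finset Real Filter

namespace Pool.Agent.Lib.MP_490b4c_nt.Half

theorem exists_exp (c : ℝ) {ε : ℝ} (hε : 0 < ε) (T : ℕ) :
    ∃ ρ : ℕ, 1 ≤ ρ ∧ T < 2 ^ ρ ∧ c * ρ ^ 2 ≤ exp (ε * log ((2 ^ ρ : ℕ) : ℝ)) := by
  have h1 : 1 < exp (ε * log 2) := one_lt_exp_iff.2 (mul_pos hε (log_pos one_lt_two))
  have h2 := (tendsto_pow_const_div_const_pow_of_one_lt 2 h1).const_mul c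
  rw [mul_zero] at h2
  obtain ⟨ρ, h3, h4⟩ := ((h2.eventually (gt_mem_nhds one_pos)).and
    (eventually_ge_atTop (T + 1))).exists
  refine ⟨ρ, by omega, lt_of_lt_of_le (by omega) (Nat.lt_two_pow_self (n := ρ)).le, ?_⟩
  rw [← mul_div_assoc, div_lt_one (by positivity), ← exp_nat_mul] at h3
  rw [Nat.cast_pow, log_pow, mul_left_comm]
  exact h3.le

variable {l : ℕ} {q : Fin l → ℕ} [∀ i, Fact (q i).Prime] {s : Finset (Fin l)}

theorem exists_tower (hs : s.Nonempty) (hq : Set.InjOn q s)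
    (h1 : ∀ i ∈ s, 4096 ≤ q i ∧ 33 ^ 3 * q i ^ 2 ≤ s.card ^ 3) {ε : ℝ} (hε : 0 < ε) :
    ∃ C : ℝ, ∀ N M : ℕ, 1 ≤ N → N ≤ 2 ^ M →
      3 / 8 * N * exp (-((1 + 7 * ε) * log N + C) / 2) * ∏ i, (q i : ℝ) ^ M ≤
        ∑ a : (i : Fin l) → Fin M → ZMod (q i), ‖csum q s a N‖ := by
  classical
  have hp : ∀ i, (q i).Prime := fun i => Fact.out
  obtain ⟨u, v, huv, w, hwu, hwv⟩ := exists_pairs s
  have hm : 1 ≤ s.card / 2 := (lam_ok (h1 _ hs.choose_spec).1 (h1 _ hs.choose_spec).2).1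
  choose c hc1 hc3 hcl using fun i : s => (lam_ok (h1 i i.2).1 (h1 i i.2).2).2
  generalize s.card / 2 = m at u v huv hwu hwv hm hcl
  obtain ⟨S, hS⟩ : ∃ S, ∀ i, q i ≤ S := ⟨univ.sup q, fun i => le_sup (mem_univ i)⟩
  obtain ⟨K, hK, hK1⟩ : ∃ K, (∀ i i', q i * q i' ≤ K) ∧ 1 ≤ K :=
    ⟨S * S + 1, fun i i' => (Nat.mul_le_mul (hS i) (hS i')).trans (Nat.le_succ _), by omega⟩
  have hK' : (1 : ℝ) ≤ K := by exact_mod_cast hK1
  set c₀ : ℝ := 2 * 24 ^ Fintype.card s * ((8 * K + 1) ^ Fintype.card s) ^ 3 with hc₀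
  have c₀1 : 1 ≤ c₀ := one_le_mul_of_one_le_of_one_le (one_le_mul_of_one_le_of_one_le one_le_two
    (one_le_pow₀ (by norm_num))) (one_le_pow₀ (one_le_pow₀ (by linarith)))
  set c₁ : ℝ := 384 * (4 * K : ℕ) * (S + (4 * K : ℕ)) with hc₁
  set c₂ : ℝ := m * (92160 * (4 * K : ℕ) ^ 4 * (S + 1) * (S + 1) ^ 2 * (2 * K)) with hc₂
  obtain ⟨ρ₀, hρ₀, hR, hcR⟩ := exists_exp (c₀ * (1 + c₁) * (1 + c₂)) hε
    (Fintype.card s * K + K + (8 * K + 1) ^ Fintype.card s * (5 * K))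
  have hR2 : ∀ j, (2 ^ ρ₀) ^ j = 2 ^ (ρ₀ * j) := fun j => (pow_mul _ _ _).symm
  generalize 2 ^ ρ₀ = R at hR hcR hR2
  have hKR : K < R := by omega
  have hR0 : 0 < R := by omega
  have hR' : (1 : ℝ) < R := by exact_mod_cast (by omega : 1 < R)
  have lR : 0 < log R := log_pos hR'
  set ρ : Fin l → ℕ → ℕ := fun i => cut (q (w i)) (q i) R with hρ
  have b1 := fun i j => cut_bounds (hp (w i)).one_lt (hp i).one_lt (hK _ _) (by omega : 0 < R) j
  have b2 := fun i j => cut_step (hp (w i)).one_lt (hp i).one_lt (hK _ _) hKR j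
  have b3 : ∀ i j, ρ i (j + 1) - ρ i j ≤ R * K := fun i j =>
    (Nat.lt_pow_self (hp i).one_lt).le.trans (b2 i j).2
  have hne : ∀ p, q (u p) ≠ q (v p) := fun p e => by
    cases huv (a₁ := Sum.inl p) (a₂ := Sum.inr p) (Subtype.ext (hq (u p).2 (v p).2 e))
  have hα : ∀ p j, (q (u p) : ℝ) ^ ρ (u p) j / (q (v p) : ℝ) ^ ρ (v p) j =
      alp (q (u p)) (q (v p)) (ρ (u p) j) := fun p j => by
    simp only [hρ, hwu, hwv, alp, cut_self (hp _).one_lt]
    rfl
  have r1 : ∀ i, Function.Injective (ρ i) := fun i =>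
    (strictMono_nat_of_lt_succ fun j => (b2 i j).1).injective
  have r2 : ∀ i j, ρ i j ≤ ρ₀ * j := fun i j => (Nat.pow_le_pow_iff_right one_lt_two).1
    ((Nat.pow_le_pow_left (hp i).two_le _).trans ((b1 i j).1.trans_eq (hR2 j)))
  have hA : 1 ≤ 2 * (R * K) := by have := Nat.mul_pos (by omega : 0 < R) hK1; omega
  have hS' : ∀ i, (q i : ℝ) ≤ S := fun i => by exact_mod_cast hS i
  obtain ⟨CG, hG⟩ := avg_GG (κ := 4 * K) (hp _) (hp _) (hne ⟨0, hm⟩)
    (by have := (h1 _ (u ⟨0, hm⟩).2).1; omega) (by have := (h1 _ (v ⟨0, hm⟩).2).1; omega) hρ₀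
    (by omega) (r1 (u ⟨0, hm⟩)) (r2 _) (R * K)
  choose CH hH using fun p => avg_HH (κ := 4 * K) (hp _) (hp _) (hne p)
    (by have := (h1 _ (v p).2).1; omega) hρ₀ (by omega) (r1 (u p)) (r2 _) (hc1 _) (hc3 _) (hc1 _)
    (hc3 _) (hcl _) (hcl _) hA
  obtain ⟨η₀, CE, hη₀, hE⟩ := elim (b := fun i : s => q i) (ρ := fun i j => ρ i (j + 1))
    (L := R * K) (X := fun j => ((R ^ j : ℕ) : ℝ)) (fun i => hp i)
    (fun i i' e => Subtype.ext (hq i.2 i'.2 e))
    (fun i j => ⟨(b2 i _).1, by have := b3 i (j + 1); omega⟩)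
    (fun j j' h => Nat.cast_le.2 (Nat.pow_le_pow_right (by omega) h))
    (fun j => by positivity) (κ := 1 / R) (by positivity) (fun i j => by
      rw [one_div_mul_eq_div, div_le_iff₀ (by linarith)]
      exact_mod_cast (b1 i (j + 1)).1) (2 * (R * K)) hε
  set η := min η₀ (1 / 2) with hη
  have η0 : 0 < η := lt_min hη₀ one_half_pos
  obtain ⟨j₀, hj₀⟩ := pow_unbounded_of_one_lt
    (K * (((2 * (R * K) : ℕ) : ℝ) ^ Fintype.card s / η)) hR'
  refine ⟨(1 + 7 * ε) * (log K + log R) + |CG| + |∑ p, CH p| + (1 + CE + j₀) * (6 * log R),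
    fun N M hN hM => ?_⟩
  have hN' : (1 : ℝ) ≤ N := by exact_mod_cast hN
  set J := Nat.log R (K * N) + 1 with hJ
  have hJ1 : ∀ i ∈ s, N ≤ q i ^ ρ i J := fun i _ => Nat.le_of_mul_le_mul_left
    ((Nat.lt_pow_succ_log_self (by omega : 1 < R) (K * N)).le.trans (b1 i J).2) hK1
  have hJ2 : ∀ j < J, R ^ j ≤ K * N := fun j hj =>
    (Nat.pow_le_pow_right (by omega) (by omega)).trans
      (Nat.pow_log_le_self R (Nat.mul_pos hK1 hN).ne')
  have hJ3 : J * log R ≤ log N + (log K + log R) := by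
    have h2 : ((R ^ Nat.log R (K * N) : ℕ) : ℝ) ≤ (K * N : ℕ) := Nat.cast_le.2 (hJ2 _ (by omega))
    have h3 := log_le_log (by positivity) h2
    rw [Nat.cast_pow, log_pow, Nat.cast_mul, log_mul (by linarith) (by linarith)] at h3
    rw [hJ, Nat.cast_succ]
    linarith
  set T := tower (M := M) hs (fun i j => (b2 i j).1.le) (fun i => cut_zero _ _ _) hM hJ1 with hT
  set G : ℕ → ℝ := fun j => GG (q (u ⟨0, hm⟩)) (q (v ⟨0, hm⟩)) (4 * K) (R * K)
    (alp (q (u ⟨0, hm⟩)) (q (v ⟨0, hm⟩)) (ρ (u ⟨0, hm⟩) j)) with hGd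
  set H : ℕ → ℝ := fun j => ∑ p, HH (q (u p)) (q (v p)) m (4 * K) (2 * (R * K))
    (alp (q (u p)) (q (v p)) (ρ (u p) j)) with hHd
  have G0 : ∀ j, 0 ≤ G j := fun j => GG_nonneg _ _ _ _ _
  have H0 : ∀ j, 0 ≤ H j := fun j => sum_nonneg fun _ _ => HH_nonneg _ _ _ _ _ _
  set bad : ℕ → Prop := fun j => j = 0 ∨ (∃ m : s → ℤ, m ≠ 0 ∧ (∀ i, |m i| ≤ (2 * (R * K) : ℕ)) ∧
    |∑ i, m i * (((R ^ j : ℕ) : ℝ) / (q i : ℝ) ^ ρ i (j + 1))| < η₀) ∨ J ≤ j + j₀ with hbad
  have lev : ∀ j ∈ range J, ∑ n ∈ range N, log (T.dg j (T.key j n)) ≤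
      N * (log c₀ + log (1 + G j) + log (1 + H j) + if bad j then 6 * log R else 0) := by
    intro j hj
    split_ifs with hb
    · refine (level_bad hs _ _ hM hJ1 (K := K) (A := 2 * (R * K)) (fun i => (b1 i j).1)
        (fun i => (b1 i j).2) fun i => Nat.mul_le_mul_left 2 (b2 i j).2).trans
          (mul_le_mul_of_nonneg_left ?_ (by linarith))
      have h2 : (8 * K + 1) ^ Fintype.card s * (2 * (2 * (R * K)) + 1) ≤ R ^ 2 := by
        have h3 : 2 * (2 * (R * K)) + 1 ≤ 5 * K * R := by rw [mul_assoc, mul_comm K]; omega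
        refine (Nat.mul_le_mul_left _ h3).trans ?_
        rw [← mul_assoc, sq]
        exact Nat.mul_le_mul_right _ (by omega)
      have h3 : log ((8 * K + 1) ^ Fintype.card s * (2 * (2 * (R * K) : ℕ) + 1)) ≤
          log ((R : ℝ) ^ 2) := log_le_log (by positivity) (by exact_mod_cast h2)
      rw [log_pow] at h3
      have := log_nonneg c₀1
      have := log_nonneg (le_add_of_nonneg_right (G0 j))
      have := log_nonneg (le_add_of_nonneg_right (H0 j))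
      push_cast at h3 ⊢
      linarith
    simp only [hbad, not_or, not_exists, not_and, not_lt, not_le] at hb
    obtain ⟨hb1, hb2, hb3⟩ := hb
    refine (level_good hs _ _ hM hJ1 (K := K) (A := 2 * (R * K)) (Lm := R * K) η0
      (min_le_right _ _) (fun i => by have := (h1 i i.2).1; omega) (fun i => (b2 i j).1)
      (fun i => (b1 i j).1) (fun i => (b1 i j).2) (fun i => Nat.mul_le_mul_left 2 (b2 i j).2)
      (fun i => b3 i j) (le_trans (by omega) (Nat.le_self_pow hb1 R))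
      (fun m h2 h3 => (min_le_left _ _).trans (hb2 m h2 h3)) ?_ hm huv (u ⟨0, hm⟩)
      (v ⟨0, hm⟩)).trans_eq (by simp only [add_zero, hGd, hHd, ← hα]; rfl)
    have h2 : ((R ^ (j + j₀) : ℕ) : ℝ) ≤ (K * N : ℕ) := Nat.cast_le.2 (hJ2 _ hb3)
    rw [Nat.cast_pow, pow_add, Nat.cast_mul] at h2
    refine le_of_mul_le_mul_left (le_trans (le_of_eq ?_) ((mul_le_mul_of_nonneg_left hj₀.le
      (by positivity)).trans h2)) (by linarith : (0 : ℝ) < K)
    rw [Nat.cast_pow]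
    ring
  have c₁0 : 0 ≤ c₁ := by positivity
  have c₂0 : 0 ≤ c₂ := by positivity
  have ρ1 : (1 : ℝ) ≤ ρ₀ := by exact_mod_cast hρ₀
  have J0 : (0 : ℝ) ≤ J := Nat.cast_nonneg _
  have sG := sum_log_le (n := J) (x := fun j => 1 + G j) (fun j _ => by linarith [G0 j])
    (D := (1 + c₁) * ρ₀) (C := CG) (by nlinarith) (by
      rw [sum_add_distrib, sum_const, card_range, nsmul_eq_mul, mul_one]
      have h2 : 384 * ((4 * K : ℕ) : ℝ) * (q (v ⟨0, hm⟩) + (4 * K : ℕ)) * ρ₀ * J ≤ c₁ * ρ₀ * J := by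
        have := hS' (v ⟨0, hm⟩)
        rw [hc₁]
        gcongr
      nlinarith [hG J])
  have sH := sum_log_le (n := J) (x := fun j => 1 + H j) (fun j _ => by linarith [H0 j])
    (D := (1 + c₂) * ρ₀ * R) (C := ∑ p, CH p) (one_le_mul_of_one_le_of_one_le (by nlinarith) hR'.le)
    (by
      rw [sum_add_distrib, sum_const, card_range, nsmul_eq_mul, mul_one, sum_comm]
      have h2 : ∀ p ∈ univ, _ ≤ 92160 * ((4 * K : ℕ) : ℝ) ^ 4 * (S + 1) * (S + 1) ^ 2 * ρ₀ *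
          (2 * (R * K) : ℕ) * J + CH p := fun p _ => (hH p J).trans (by
        have := hS' (u p)
        have := hS' (v p)
        gcongr)
      have h3 := sum_le_sum h2
      rw [sum_add_distrib, sum_const, card_univ, Fintype.card_fin, nsmul_eq_mul] at h3
      have h4 : m * (92160 * ((4 * K : ℕ) : ℝ) ^ 4 * (S + 1) * (S + 1) ^ 2 * ρ₀ *
          (2 * (R * K) : ℕ) * J) = c₂ * ρ₀ * R * J := by
        rw [hc₂]
        push_cast
        ring
      have h5 : (J : ℝ) ≤ ρ₀ * R * J := le_mul_of_one_le_left J0 (by nlinarith)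
      linarith)
  have sB : (((range J).filter bad).card : ℝ) ≤ 1 + (ε * J + CE) + j₀ := by
    have h2 : ((range J).filter fun j => j = 0).card ≤ 1 :=
      card_le_one.2 fun a ha b hb => (mem_filter.1 ha).2.trans (mem_filter.1 hb).2.symm
    have h3 : ((range J).filter fun j => J ≤ j + j₀).card ≤ j₀ :=
      (card_le_card (t := Ico (J - j₀) J) fun j hj => mem_Ico.2 ⟨by
        have := (mem_filter.1 hj).2; omega, mem_range.1 (mem_filter.1 hj).1⟩).trans (by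
          rw [Nat.card_Ico]; omega)
    simp only [hbad, filter_or]
    have h4 := hE J
    refine (Nat.cast_le.2 ((card_union_le _ _).trans (add_le_add h2 ((card_union_le _ _).trans
      (add_le_add le_rfl h3))))).trans ?_
    push_cast at h4 ⊢
    linarith
  have hlog : log c₀ + log ((1 + c₁) * ρ₀) + log ((1 + c₂) * ρ₀ * R) ≤ (1 + ε) * log R := by
    have h2 := log_le_log (by positivity) hcR
    rw [log_exp] at h2
    rw [log_mul (by positivity) (by positivity : (R : ℝ) ≠ 0), ← add_assoc,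
      ← log_mul (by positivity) (by positivity), ← log_mul (by positivity) (by positivity),
      show c₀ * ((1 + c₁) * ρ₀) * ((1 + c₂) * ρ₀) = c₀ * (1 + c₁) * (1 + c₂) * ρ₀ ^ 2 by ring]
    linarith
  have main := T.first_moment (Λ := (1 + 7 * ε) * log N + ((1 + 7 * ε) * (log K + log R) + |CG| +
      |∑ p, CH p| + (1 + CE + j₀) * (6 * log R))) ((sum_le_sum lev).trans (by
    rw [← mul_sum]
    refine mul_le_mul_of_nonneg_left ?_ (by linarith)
    simp only [sum_add_distrib]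
    rw [← sum_filter, sum_const, sum_const, card_range, nsmul_eq_mul, nsmul_eq_mul]
    have h2 := mul_le_mul_of_nonneg_right sB (by linarith : 0 ≤ 6 * log R)
    have h3 := mul_le_mul_of_nonneg_left hlog J0
    have h4 := mul_le_mul_of_nonneg_left hJ3 (by linarith : 0 ≤ 1 + 7 * ε)
    linarith))
  rw [Two.card_G, mul_comm] at main
  refine main.trans_eq (sum_congr rfl fun a _ => congrArg _ (sum_congr rfl fun n _ => ?_))
  exact prod_coe_sort s fun i => ZMod.stdAddChar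
    (∑ r : Fin M, a i r * ((n / q i ^ (r : ℕ) % q i : ℕ) : ZMod (q i)))

/-- The lower bound for the mean. -/
theorem le_mean (hs : s.Nonempty) (hq : Set.InjOn q s)
    (h1 : ∀ i ∈ s, 4096 ≤ q i ∧ 33 ^ 3 * q i ^ 2 ≤ s.card ^ 3) {ε : ℝ} (hε : 0 < ε) :
    ∃ c : ℝ, 0 < c ∧ ∀ N : ℕ, 1 ≤ N → c * (N : ℝ) ^ (1 / 2 - ε) ≤ mean q N := by
  obtain ⟨C, hC⟩ := exists_tower hs hq h1 (ε := 2 * ε / 7) (by positivity)
  refine ⟨3 / 8 * exp (-C / 2), by positivity, fun N hN => le_trans ?_ (Two.av_le_mean hs N)⟩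
  have hN' : (0 : ℝ) < N := by exact_mod_cast hN
  rw [Two.av, le_div_iff₀ (Two.G_pos _)]
  refine le_trans (le_of_eq ?_) ((hC N N.size hN (Nat.lt_size_self N).le).trans
    (sum_le_sum fun a _ => Two.le_TT le_rfl a))
  congr 1
  rw [rpow_def_of_pos hN', mul_assoc, mul_assoc, ← exp_add]
  nth_rewrite 2 [← exp_log hN']
  rw [← exp_add]
  congr 2
  ring

omit [∀ i, Fact (q i).Prime] in
/-- The primes up to `2 ^ 30` are enough. -/
theorem of_all_primes (h : ∀ p : ℕ, p.Prime → p ≤ 2 ^ 30 → p ∈ Set.range q) :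
    ∃ s : Finset (Fin l), s.Nonempty ∧
      ∀ i ∈ s, 4096 ≤ q i ∧ 33 ^ 3 * q i ^ 2 ≤ s.card ^ 3 := by
  classical
  set s := univ.filter fun i => 4096 ≤ q i ∧ q i ≤ 2 ^ 30 with hs
  have h1 : Nat.primesLE (2 ^ 30) ⊆ range 4096 ∪ s.image q := fun p hp' => by
    obtain ⟨h2, h3⟩ := Nat.mem_primesLE.1 hp'
    obtain ⟨i, rfl⟩ := h p h3 h2
    by_cases h4 : q i < 4096
    · exact mem_union_left _ (mem_range.2 h4)
    · exact mem_union_right _ (mem_image_of_mem _ (mem_filter.2 ⟨mem_univ _, not_lt.1 h4, h2⟩))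
  have h2 := (card_le_card h1).trans ((card_union_le _ _).trans
    (add_le_add (card_range _).le card_image_le))
  rw [Nat.primesLE_card_eq_primeCounting] at h2
  have h3 := Chebyshev.pi_ge (2 ^ 30)
  have l2 : 0 < log 2 := log_pos one_lt_two
  have h4 : log (((2 ^ 30 : ℕ) : ℝ) + 1) ≤ 31 * log 2 := by
    rw [show (31 : ℝ) = (31 : ℕ) by norm_num, ← log_pow]
    exact log_le_log (by positivity) (by norm_num)
  have h5 : log ((2 ^ 30 : ℕ) : ℝ) = 30 * log 2 := by rw [Nat.cast_pow, log_pow]; norm_num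
  rw [h5, div_le_iff₀ (by positivity)] at h3
  have h6 : ((33 * 2 ^ 20 + 4096 : ℕ) : ℝ) ≤ Nat.primeCounting (2 ^ 30) := by
    refine le_of_mul_le_mul_right (le_trans ?_ h3) (by positivity)
    push_cast at h4 ⊢
    linarith
  have h7 : 33 * 2 ^ 20 ≤ s.card := by
    have := Nat.cast_le.1 h6
    omega
  refine ⟨s, card_pos.1 (by omega), fun i hi => ⟨(mem_filter.1 hi).2.1, le_trans ?_
    (Nat.pow_le_pow_left h7 3)⟩⟩
  exact (Nat.mul_le_mul_left _ (Nat.pow_le_pow_left (mem_filter.1 hi).2.2 2)).trans_eq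
    (by norm_num)

theorem ev_log_le (c : ℝ) (k : ℕ) {ε : ℝ} (hε : 0 < ε) :
    ∀ᶠ N : ℕ in atTop, c * log N ^ k ≤ (N : ℝ) ^ ε := by
  have h := ((isLittleO_log_rpow_rpow_atTop k hε).const_mul_left c).bound one_pos
  filter_upwards [tendsto_natCast_atTop_atTop.eventually h] with N hN
  rw [one_mul, rpow_natCast, Real.norm_of_nonneg (rpow_nonneg (Nat.cast_nonneg N) ε)] at hN
  exact (le_abs_self _).trans hN

theorem ev_le_div {c c' ε : ℝ} (hc : 0 < c) (hc' : 0 < c') (hε : 0 < ε) (k : ℕ)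
    (h : ∀ N : ℕ, 1 ≤ N → c * (N : ℝ) ^ (1 / 2 - ε / 2) ≤ mean q N) :
    ∀ᶠ N : ℕ in atTop, (N : ℝ) ^ (1 / 2 - ε) ≤ c' * (mean q N / log N ^ k) := by
  filter_upwards [ev_log_le (1 / (c' * c)) k (half_pos hε), eventually_ge_atTop 2] with N h1 h2
  have hN : (1 : ℝ) < N := by exact_mod_cast h2
  have h3 := pow_pos (log_pos hN) k
  rw [← mul_div_assoc, le_div_iff₀ h3]
  refine le_trans ?_ (mul_le_mul_of_nonneg_left (h N (by omega)) hc'.le)
  rw [one_div_mul_eq_div, div_le_iff₀ (by positivity)] at h1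
  refine (mul_le_mul_of_nonneg_left h1 (by positivity)).trans_eq ?_
  rw [← mul_assoc, ← rpow_add (by linarith), show 1 / 2 - ε + ε / 2 = 1 / 2 - ε / 2 by ring]
  ring

end Pool.Agent.Lib.MP_490b4c_nt.Half
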