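import Pool.Agent.Lib.MP_490b4c_nt.ExUp

/-! A sieve bound for visits of a linear sequence to a small box of the torus. -/

open Finset Real

namespace Pool.Agent.Lib.MP_490b4c_nt.Half

/-- The exponential `e(t)`. -/
noncomputable def E (t : ℝ) : ℂ := ee (t : UnitAddCircle)

theorem E_add (s t : ℝ) : E (s + t) = E s * E t := by rw [E, AddCircle.coe_add, ee_add]; rfl

theorem norm_E (t : ℝ) : ‖E t‖ = 1 := norm_ee _

theorem E_int (z : ℤ) : E z = 1 := by
  rw [E, ee_coe, mul_comm]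
  exact_mod_cast Complex.exp_int_mul_two_pi_mul_I z

theorem E_zero : E 0 = 1 := by simpa using E_int 0

theorem E_nat_mul (n : ℕ) (t : ℝ) : E (n * t) = E t ^ n := by
  induction n with
  | zero => simp [E_zero]
  | succ n ih => rw [Nat.cast_succ, add_mul, one_mul, E_add, ih, pow_succ]

theorem E_sub_int (t : ℝ) (z : ℤ) : E (t - z) = E t := by
  conv_rhs => rw [show t = t - z + z by ring, E_add, E_int, mul_one]

theorem E_mul_conj (s t : ℝ) : E s * (starRingEnd ℂ) (E t) = E (s - t) := by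
  have h : E t * (starRingEnd ℂ) (E t) = 1 := by rw [Complex.mul_conj', norm_E]; simp
  conv_lhs => rw [show s = s - t + t by ring, E_add, mul_assoc, h, mul_one]

theorem E_sum {ι : Type*} (s : Finset ι) (f : ι → ℝ) : E (∑ i ∈ s, f i) = ∏ i ∈ s, E (f i) := by
  classical
  induction s using Finset.induction_on with
  | empty => simp [E_zero]
  | insert i s hi ih => rw [sum_insert hi, prod_insert hi, E_add, ih]

theorem geom_le {y η : ℝ} (hη : 0 < η) (h : ∀ z : ℤ, η ≤ |y - z|) (N : ℕ) :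
    ‖∑ n ∈ range N, E y ^ n‖ ≤ 1 / η := by
  have h0 := Int.fract_nonneg y
  have h1 := Int.fract_lt_one y
  have h2 := Two.four_min_le h0 h1.le
  have h3 : E (Int.fract y) = E y := E_sub_int y ⌊y⌋
  have h4 : η ≤ min (Int.fract y) (1 - Int.fract y) := by
    refine le_min ((h ⌊y⌋).trans_eq (abs_of_nonneg h0)) ((h (⌊y⌋ + 1)).trans_eq ?_)
    rw [abs_sub_comm, show ((⌊y⌋ + 1 : ℤ) : ℝ) - y = 1 - Int.fract y by
      rw [Int.fract]; push_cast; ring, abs_of_nonneg (by linarith)]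
  have h5 : 4 * η ≤ ‖E y - 1‖ := by rw [← h3]; exact le_trans (by linarith) h2
  have h6 : E y ≠ 1 := fun e => by rw [e] at h5; simp at h5; linarith
  have h7 := Two.norm_Dk_le_WW (le_refl N) (norm_E y)
  rw [Two.WW, if_neg h6] at h7
  refine (h7.trans (min_le_right _ _)).trans ?_
  rw [div_le_div_iff₀ (by linarith) hη]
  linarith

theorem fejer {t : ℝ} {z : ℤ} {M : ℕ} (hM : 1 ≤ M) (h : |t - z| ≤ 1 / (6 * M)) :
    (M : ℝ) / 2 ≤ ‖∑ k ∈ range M, E (k * t)‖ := by
  have hM' : (0 : ℝ) < M := by exact_mod_cast hM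
  refine le_trans ?_ (Complex.re_le_norm _)
  rw [Complex.re_sum]
  refine le_trans (le_of_eq ?_) (card_nsmul_le_sum _ _ (1 / 2 : ℝ) fun k hk => ?_)
  · simp [div_eq_mul_inv]
  · have e : E (k * t) = Complex.exp ((2 * π * (k * (t - z)) : ℝ) * Complex.I) := by
      rw [← E_sub_int (k * t) (k * z), E, ee_coe]
      congr 1
      push_cast
      ring
    rw [e, Complex.exp_ofReal_mul_I_re, ← cos_abs, ← cos_pi_div_three]
    refine cos_le_cos_of_nonneg_of_le_pi (abs_nonneg _) (by linarith [pi_pos]) ?_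
    have hk' : (k : ℝ) ≤ M := by exact_mod_cast (mem_range.1 hk).le
    have h1 : (k : ℝ) * |t - z| ≤ M * (1 / (6 * M)) :=
      mul_le_mul hk' h (abs_nonneg _) hM'.le
    have h2 : (M : ℝ) * (1 / (6 * M)) = 1 / 6 := by field_simp
    rw [abs_mul, abs_mul (k : ℝ), abs_of_pos two_pi_pos, Nat.abs_cast]
    nlinarith [pi_pos]

theorem sieve {ι : Type*} [Fintype ι] [DecidableEq ι] (θ x : ι → ℝ) (M : ι → ℕ)
    (hM : ∀ i, 1 ≤ M i) {η : ℝ} (hη : 0 < η)
    (h : ∀ m : ι → ℤ, m ≠ 0 → (∀ i, |m i| < M i) → ∀ z : ℤ, η ≤ |∑ i, m i * θ i - z|)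
    {N : ℕ} {S : Finset ℕ} (hS : S ⊆ range N)
    (hx : ∀ n ∈ S, ∀ i, ∃ z : ℤ, |n * θ i - x i - z| ≤ 1 / (6 * M i)) :
    (S.card : ℝ) ≤ 4 ^ Fintype.card ι * (N / ∏ i, (M i : ℝ) + 1 / η) := by
  have hP : (0 : ℝ) < ∏ i, (M i : ℝ) := prod_pos fun i _ => by exact_mod_cast hM i
  set B := Fintype.piFinset fun i => range (M i) with hB
  have hBc : (B.card : ℝ) = ∏ i, (M i : ℝ) := by simp [hB]
  set D : ℕ → ℂ := fun n => ∑ k ∈ B, E (∑ i, k i * (n * θ i - x i)) with hD
  have h1 : ∀ n ∈ S, (∏ i, (M i : ℝ)) ^ 2 / 4 ^ Fintype.card ι ≤ ‖D n‖ ^ 2 := fun n hn => by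
    have e : D n = ∏ i, ∑ k ∈ range (M i), E (k * (n * θ i - x i)) := by
      simp only [hD, E_sum]
      rw [prod_univ_sum]
    have e2 : (∏ i, (M i : ℝ)) ^ 2 / 4 ^ Fintype.card ι = (∏ i, (M i : ℝ) / 2) ^ 2 := by
      rw [prod_div_distrib, div_pow, prod_const, card_univ, ← pow_mul, mul_comm, pow_mul]
      norm_num
    rw [e, e2, norm_prod]
    refine pow_le_pow_left₀ (by positivity) (prod_le_prod (fun i _ => by positivity)
      fun i _ => ?_) 2
    obtain ⟨z, hz⟩ := hx n hn i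
    exact fejer (hM i) hz
  have h2 : ∑ n ∈ range N, ‖D n‖ ^ 2 ≤ ∑ k ∈ B, ∑ k' ∈ B, 
      ((if k = k' then (N : ℝ) else 0) + 1 / η) := by
    have e : ((∑ n ∈ range N, ‖D n‖ ^ 2 : ℝ) : ℂ) = ∑ k ∈ B, ∑ k' ∈ B,
        E (-∑ i, ((k i : ℝ) - k' i) * x i) *
          ∑ n ∈ range N, E (∑ i, ((k i : ℤ) - k' i : ℤ) * θ i) ^ n := by
      push_cast
      simp only [← Complex.mul_conj', hD, map_sum, sum_mul_sum, E_mul_conj]
      simp only [mul_sum (range N)]
      rw [sum_comm]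
      refine sum_congr rfl fun k _ => ?_
      rw [sum_comm]
      refine sum_congr rfl fun k' _ => sum_congr rfl fun n _ => ?_
      rw [← E_nat_mul, ← E_add, mul_sum, ← sum_neg_distrib, ← sum_add_distrib, ← sum_sub_distrib]
      congr 1
      exact sum_congr rfl fun i _ => by ring
    have e2 := congrArg norm e
    rw [Complex.norm_real, Real.norm_of_nonneg (by positivity)] at e2
    rw [e2]
    refine (norm_sum_le _ _).trans (sum_le_sum fun k hk => (norm_sum_le _ _).trans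
      (sum_le_sum fun k' hk' => ?_))
    rw [norm_mul, norm_E, one_mul]
    split_ifs with hkk
    · refine (norm_sum_le _ _).trans (le_add_of_le_of_nonneg ?_ (by positivity))
      simp [norm_E]
    · rw [zero_add]
      refine geom_le hη (h (fun i => (k i : ℤ) - k' i) (fun e => hkk (funext fun i => ?_))
        fun i => ?_) N
      · have := congrFun e i
        simp only [Pi.zero_apply] at this
        omega
      · have h3 := mem_range.1 (Fintype.mem_piFinset.1 hk i)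
        have h4 := mem_range.1 (Fintype.mem_piFinset.1 hk' i)
        rw [abs_lt]
        omega
  have h3 := (card_nsmul_le_sum _ _ _ h1).trans ((sum_le_sum_of_subset_of_nonneg hS
    fun n _ _ => by positivity).trans h2)
  simp only [sum_add_distrib, sum_ite_eq, sum_const, nsmul_eq_mul, hBc] at h3
  rw [sum_congr rfl (g := fun _ => (N : ℝ)) fun k hk => if_pos hk, sum_const, nsmul_eq_mul,
    hBc, ← mul_div_assoc, div_le_iff₀ (by positivity)] at h3
  refine le_of_mul_le_mul_right (h3.trans_eq ?_) (pow_pos hP 2)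
  field_simp

theorem exists_gap {γ : ℝ} (hγ : ∀ m z : ℤ, m ≠ 0 → m * γ ≠ z) (M : ℕ) :
    ∃ η : ℝ, 0 < η ∧ ∀ m : ℤ, m ≠ 0 → |m| < M → ∀ z : ℤ, η ≤ |m * γ - z| := by
  have h1 : ∀ m : ℤ, ∃ η : ℝ, 0 < η ∧ (m ≠ 0 → ∀ z : ℤ, η ≤ |m * γ - z|) := fun m => by
    by_cases hm : m = 0
    · exact ⟨1, one_pos, fun h => absurd hm h⟩
    · exact ⟨|m * γ - round (m * γ)|, abs_pos.2 (sub_ne_zero.2 (hγ m _ hm)),
        fun _ z => round_le _ z⟩
  choose η hη using h1
  obtain ⟨m₀, -, hm₀⟩ := exists_min_image (Icc (-(M : ℤ)) M) η ⟨0, by simp⟩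
  exact ⟨η m₀, (hη m₀).1, fun m hm hM z => (hm₀ m (mem_Icc.2 (abs_le.1 hM.le))).trans
    ((hη m).2 hm z)⟩

/-- Visits of an irrational rotation to an arc. -/
theorem visits {γ : ℝ} (hγ : ∀ m z : ℤ, m ≠ 0 → m * γ ≠ z) {δ : ℝ} (hδ : 0 < δ) :
    ∃ c : ℝ, 0 ≤ c ∧ ∀ (x : ℝ) (n : ℕ) (S : Finset ℕ), S ⊆ range n →
      (∀ r ∈ S, ∃ z : ℤ, |r * γ - x - z| ≤ δ) → (S.card : ℝ) ≤ 48 * δ * n + c := by
  by_cases hd : δ ≤ 1 / 12
  · set M := ⌊1 / (6 * δ)⌋₊ with hM
    have h0 : (2 : ℝ) ≤ 1 / (6 * δ) := by rw [le_div_iff₀ (by positivity)]; linarith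
    have h1 : (M : ℝ) ≤ 1 / (6 * δ) := Nat.floor_le (by positivity)
    have h2 : 1 / (6 * δ) < M + 1 := Nat.lt_floor_add_one _
    have h3 : (1 : ℝ) ≤ M := by linarith
    have h4 : 1 ≤ 12 * δ * M := by
      rw [div_lt_iff₀ (by positivity)] at h2
      nlinarith
    obtain ⟨η, hη, hg⟩ := exists_gap hγ M
    refine ⟨4 / η, by positivity, fun x n S hS hx => ?_⟩
    have h5 := sieve (ι := Unit) (fun _ => γ) (fun _ => x) (fun _ => M)
      (fun _ => by exact_mod_cast h3) hη (fun m hm hM z => by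
        simpa using hg (m ()) (fun e => hm (funext fun _ => e)) (hM ()) z) hS fun r hr _ => by
      obtain ⟨z, hz⟩ := hx r hr
      refine ⟨z, hz.trans ?_⟩
      rw [le_div_iff₀ (by positivity)] at h1 ⊢
      linarith
    simp only [Fintype.card_unique, pow_one, univ_unique, prod_singleton] at h5
    have h6 : (n : ℝ) / M ≤ 12 * δ * n := by
      rw [div_le_iff₀ (by positivity)]
      nlinarith [Nat.cast_nonneg (α := ℝ) n]
    have h7 : 4 / η = 4 * (1 / η) := by ring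
    linarith
  · refine ⟨0, le_rfl, fun x n S hS _ => ?_⟩
    have h1 : (S.card : ℝ) ≤ n := by exact_mod_cast (card_le_card hS).trans_eq (card_range n)
    nlinarith [Nat.cast_nonneg (α := ℝ) n]

end Pool.Agent.Lib.MP_490b4c_nt.Half
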