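import Pool.Agent.Lib.MP_490b4c_nt.HalfSum
import Pool.Agent.Lib.MP_490b4c_nt.HalfSieve
import Pool.Agent.Lib.MP_490b4c_nt.HalfElim

/-! Two bases: averages over the levels of sums over compatible lags. -/

open Finset Real

namespace Pool.Agent.Lib.MP_490b4c_nt.Half

/-- The ratio of a power of `u` and the largest power of `v` below it. -/
noncomputable def alp (u v r : ℕ) : ℝ := (u : ℝ) ^ r / (v : ℝ) ^ Nat.log v (u ^ r)

theorem alp_bounds {u v : ℕ} (hu : 0 < u) (hv : 1 < v) (r : ℕ) :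
    1 ≤ alp u v r ∧ alp u v r ≤ v := by
  have hv' : (0 : ℝ) < (v : ℝ) ^ Nat.log v (u ^ r) := by positivity
  have h1 := Nat.pow_log_le_self v (pow_ne_zero r hu.ne')
  have h2 := (Nat.lt_pow_succ_log_self hv (u ^ r)).le
  rw [alp, one_le_div hv', div_le_iff₀ hv', ← pow_succ']
  exact ⟨by exact_mod_cast h1, by exact_mod_cast h2⟩

theorem log_irr {u v : ℕ} (hu : u.Prime) (hv : v.Prime) (huv : u ≠ v) (m z : ℤ) (hm : m ≠ 0) :
    m * (log u / log v) ≠ z := by
  have lu : 0 < log u := log_pos (by exact_mod_cast hu.one_lt)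
  have lv : 0 < log v := log_pos (by exact_mod_cast hv.one_lt)
  intro e
  rw [← mul_div_assoc, div_eq_iff lv.ne'] at e
  have e1 := congrArg abs e
  rw [abs_mul, abs_mul, abs_of_pos lu, abs_of_pos lv, ← Int.cast_abs, ← Int.cast_abs,
    ← Nat.cast_natAbs, ← Nat.cast_natAbs, ← log_pow, ← log_pow] at e1
  have e2 := log_injOn_pos (Set.mem_Ioi.2 (by have := hu.pos; positivity))
    (Set.mem_Ioi.2 (by have := hv.pos; positivity)) e1
  exact pow_ne_pow_of_prime hv hu huv.symm (Int.natAbs_pos.2 hm) (by exact_mod_cast e2.symm)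

theorem abs_log_sub_le {x y : ℝ} (hx : 1 ≤ x) (hy : 1 ≤ y) : |log x - log y| ≤ |x - y| := by
  have aux : ∀ {a b : ℝ}, 1 ≤ a → 1 ≤ b → log a - log b ≤ |a - b| := fun {a b} ha hb => by
    rw [← log_div (by linarith) (by linarith)]
    refine (log_le_sub_one_of_pos (by positivity)).trans ?_
    rw [div_sub_one (by linarith)]
    exact (div_le_div_of_nonneg_right (le_abs_self _) (by linarith)).trans
      (div_le_self (abs_nonneg _) hb)
  exact abs_sub_le_iff.2 ⟨aux hx hy, (aux hy hx).trans_eq (abs_sub_comm _ _)⟩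

variable {u v : ℕ} {r : ℕ → ℕ} {ρ κ : ℕ}

theorem freq (hu : u.Prime) (hv : v.Prime) (huv : u ≠ v) (hv3 : 3 ≤ v) (hρ : 1 ≤ ρ) (hκ : 1 ≤ κ)
    (hr : Function.Injective r) (hrρ : ∀ j, r j ≤ ρ * j) (x y : ℤ) : ∃ c : ℝ, ∀ J : ℕ,
      (((range J).filter fun j => |x * alp u v (r j) - y| ≤ κ).card : ℝ) ≤
        96 * κ * ρ / max 1 |(x : ℝ)| * J + c := by
  have hρ' : (1 : ℝ) ≤ ρ := by exact_mod_cast hρ
  have hκ' : (1 : ℝ) ≤ κ := by exact_mod_cast hκ
  rcases eq_or_ne x 0 with rfl | hx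
  · refine ⟨0, fun J => ?_⟩
    have h1 : (((range J).filter fun j => |(0 : ℤ) * alp u v (r j) - y| ≤ κ).card : ℝ) ≤ J := by
      exact_mod_cast (card_filter_le _ _).trans_eq (card_range J)
    have h2 : (1 : ℝ) ≤ 96 * κ * ρ := by nlinarith
    simp only [Int.cast_zero, abs_zero, zero_le_one, max_eq_left, div_one, add_zero] at h1 ⊢
    exact h1.trans (le_mul_of_one_le_left (Nat.cast_nonneg _) h2)
  have hx1 : (1 : ℝ) ≤ |(x : ℝ)| := by exact_mod_cast Int.one_le_abs hx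
  have lv : 1 ≤ log v := by
    rw [le_log_iff_exp_le (by positivity)]
    exact exp_one_lt_three.le.trans (by exact_mod_cast hv3)
  obtain ⟨c, hc, h⟩ := visits (log_irr hu hv huv) (δ := 2 * κ / |(x : ℝ)|) (by positivity)
  refine ⟨c, fun J => ?_⟩
  set S := (range J).filter fun j => |x * alp u v (r j) - y| ≤ κ with hS
  rcases S.eq_empty_or_nonempty with h0 | ⟨j₀, hj₀⟩
  · rw [h0, card_empty, Nat.cast_zero]
    positivity
  have h1 := h (log (alp u v (r j₀)) / log v) (ρ * J) (S.image r) (fun k hk => by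
    obtain ⟨j, hj, rfl⟩ := mem_image.1 hk
    exact mem_range.2 ((hrρ j).trans_lt (Nat.mul_lt_mul_of_pos_left
      (mem_range.1 (mem_filter.1 hj).1) hρ))) fun k hk => by
    obtain ⟨j, hj, rfl⟩ := mem_image.1 hk
    refine ⟨Nat.log v (u ^ r j), ?_⟩
    have e : (r j : ℝ) * (log u / log v) - log (alp u v (r j₀)) / log v -
        ((Nat.log v (u ^ r j) : ℤ) : ℝ) = (log (alp u v (r j)) - log (alp u v (r j₀))) / log v := by
      have := hu.pos
      rw [alp.eq_1 u v (r j), log_div (by positivity) (by positivity), log_pow, log_pow]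
      push_cast
      field_simp
      ring
    rw [e, abs_div, abs_of_pos (by linarith : 0 < log v)]
    refine (div_le_self (abs_nonneg _) lv).trans ((abs_log_sub_le
      (alp_bounds hu.pos hv.one_lt _).1 (alp_bounds hu.pos hv.one_lt _).1).trans ?_)
    rw [le_div_iff₀ (by linarith), ← abs_mul]
    have h2 := abs_le.1 (mem_filter.1 hj).2
    have h3 := abs_le.1 (mem_filter.1 hj₀).2
    exact abs_le.2 ⟨by linarith, by linarith⟩
  rw [card_image_of_injective _ hr] at h1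
  refine h1.trans (le_of_eq ?_)
  rw [max_eq_right hx1]
  push_cast
  ring

theorem avg_le {I : Type*} (s : Finset I) (w f : I → ℝ) (hw : ∀ i ∈ s, 0 ≤ w i)
    (A : I → ℕ → Prop) [∀ i j, Decidable (A i j)]
    (h : ∀ i, ∃ c : ℝ, ∀ J : ℕ, (((range J).filter (A i)).card : ℝ) ≤ f i * J + c) :
    ∃ C : ℝ, ∀ J : ℕ, ∑ j ∈ range J, ∑ i ∈ s, (if A i j then w i else 0) ≤
      (∑ i ∈ s, w i * f i) * J + C := by
  choose c hc using h
  refine ⟨∑ i ∈ s, w i * c i, fun J => ?_⟩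
  rw [sum_comm, sum_mul, ← sum_add_distrib]
  refine sum_le_sum fun i hi => ?_
  rw [← sum_filter, sum_const, nsmul_eq_mul, mul_assoc, ← mul_add, mul_comm]
  exact mul_le_mul_of_nonneg_left (hc i J) (hw i hi)

theorem abs_le_of_comp {α x y κ V : ℝ} (h1 : 1 ≤ α) (h2 : α ≤ V) (h : |x * α - y| ≤ κ) :
    |y| ≤ V * |x| + κ ∧ |x| ≤ |y| + κ := by
  have h3 := abs_sub_abs_le_abs_sub (x * α) y
  have h4 := abs_sub_abs_le_abs_sub y (x * α)
  rw [abs_sub_comm] at h4
  rw [abs_mul, abs_of_pos (by linarith : 0 < α)] at h3 h4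
  have := abs_nonneg x
  constructor <;> nlinarith

/-- The number of compatible pairs of defects. -/
noncomputable def GG (u v κ L : ℕ) (α : ℝ) : ℝ :=
  ∑ x ∈ Es u L ×ˢ Es v L, if |x.1 * α - x.2| ≤ κ then 1 else 0

theorem GG_nonneg (u v κ L : ℕ) (α : ℝ) : 0 ≤ GG u v κ L α :=
  sum_nonneg fun _ _ => by split_ifs <;> norm_num

theorem avg_GG (hu : u.Prime) (hv : v.Prime) (huv : u ≠ v) (hu1 : 128 ≤ u) (hv1 : 128 ≤ v)
    (hρ : 1 ≤ ρ) (hκ : 1 ≤ κ) (hr : Function.Injective r) (hrρ : ∀ j, r j ≤ ρ * j) (L : ℕ) :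
    ∃ C : ℝ, ∀ J : ℕ, ∑ j ∈ range J, GG u v κ L (alp u v (r j)) ≤
      384 * κ * (v + κ) * ρ * J + C := by
  have hκ' : (1 : ℝ) ≤ κ := by exact_mod_cast hκ
  obtain ⟨C, hC⟩ := avg_le (Es u L ×ˢ Es v L) (fun _ => 1)
    (fun x => 96 * κ * ρ * (v + κ) * (1 / √(max 1 |(x.1 : ℝ)|) * (1 / √(max 1 |(x.2 : ℝ)|))))
    (fun _ _ => zero_le_one) (fun x j => |x.1 * alp u v (r j) - x.2| ≤ κ) fun x => by
      by_cases hx : |(x.2 : ℝ)| ≤ v * |(x.1 : ℝ)| + κ
      · obtain ⟨c, hc⟩ := freq hu hv huv (by omega) hρ hκ hr hrρ x.1 x.2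
        refine ⟨c, fun J => (hc J).trans (add_le_add_left
          (mul_le_mul_of_nonneg_right ?_ (Nat.cast_nonneg J)) c)⟩
        have m1 := le_max_left 1 |(x.1 : ℝ)|
        have m2 := le_max_right 1 |(x.1 : ℝ)|
        have hv0 : (0 : ℝ) ≤ v := Nat.cast_nonneg v
        have h1 : √(max 1 |(x.2 : ℝ)|) ≤ (v + κ) * √(max 1 |(x.1 : ℝ)|) := by
          rw [sqrt_le_iff, mul_pow, sq_sqrt (by linarith)]
          have h2 : max 1 |(x.2 : ℝ)| ≤ (v + κ) * max 1 |(x.1 : ℝ)| :=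
            max_le (by nlinarith) (by nlinarith)
          exact ⟨by positivity, h2.trans (mul_le_mul_of_nonneg_right (by nlinarith) (by linarith))⟩
        have h3 : 0 < √(max 1 |(x.1 : ℝ)|) := by positivity
        have h4 : 0 < √(max 1 |(x.2 : ℝ)|) := by positivity
        rw [mul_assoc (96 * κ * ρ : ℝ), div_eq_mul_one_div]
        refine mul_le_mul_of_nonneg_left ?_ (by positivity)
        rw [one_div_mul_one_div, mul_one_div, div_le_div_iff₀ (by linarith) (by positivity)]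
        conv_rhs => rw [← mul_self_sqrt (by linarith : 0 ≤ max 1 |(x.1 : ℝ)|)]
        nlinarith
      · refine ⟨0, fun J => ?_⟩
        rw [filter_false_of_mem fun j _ h => hx (abs_le_of_comp (alp_bounds hu.pos hv.one_lt _).1
          (alp_bounds hu.pos hv.one_lt _).2 h).1, card_empty, Nat.cast_zero]
        positivity
  refine ⟨C, fun J => (hC J).trans (add_le_add_left
    (mul_le_mul_of_nonneg_right ?_ (Nat.cast_nonneg J)) C)⟩
  have h1 := (Es_bound hu1 L).2.2.trans (sub_le_self _ (by positivity))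
  have h2 := (Es_bound hv1 L).2.2.trans (sub_le_self _ (by positivity))
  simp only [one_mul, ← mul_sum]
  rw [sum_product]
  simp only [← mul_sum, ← sum_mul]
  refine (mul_le_mul_of_nonneg_left (mul_le_mul h1 h2 (by positivity) zero_le_two)
    (by positivity)).trans_eq (by ring)

theorem card_lin {S : Finset ℤ} {a z : ℤ} (ha : a ≠ 0) {W : ℝ} (hW : 0 ≤ W)
    (h : ∀ y ∈ S, |((y * a - z : ℤ) : ℝ)| ≤ W) : (S.card : ℝ) ≤ 2 * W / |(a : ℝ)| + 1 := by
  have ha' : (0 : ℝ) < |(a : ℝ)| := abs_pos.2 (by exact_mod_cast ha)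
  rcases S.eq_empty_or_nonempty with rfl | hS
  · rw [card_empty, Nat.cast_zero]
    positivity
  have h1 : S ⊆ Icc (S.min' hS) (S.max' hS) := fun y hy =>
    mem_Icc.2 ⟨S.min'_le y hy, S.le_max' y hy⟩
  have h2 : (S.card : ℤ) ≤ S.max' hS + 1 - S.min' hS :=
    (Nat.cast_le.2 (card_le_card h1)).trans_eq (Int.card_Icc_of_le _ _ (by
      have := S.min'_le_max' hS; omega))
  have h3 : (S.card : ℝ) ≤ S.max' hS + 1 - S.min' hS := by exact_mod_cast h2
  have h4 := abs_le.1 (h _ (S.max'_mem hS))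
  have h5 := abs_le.1 (h _ (S.min'_mem hS))
  push_cast at h4 h5
  have h6 : |((S.max' hS : ℝ) - S.min' hS)| ≤ 2 * W / |(a : ℝ)| := by
    rw [le_div_iff₀ ha', ← abs_mul]
    exact abs_le.2 ⟨by linarith, by linarith⟩
  linarith [le_abs_self ((S.max' hS : ℝ) - S.min' hS)]

theorem sum_fib_le {X Y : Type*} [DecidableEq Y] (S : Finset X) (p : X → Y) (t : Finset Y)
    (hp : ∀ x ∈ S, p x ∈ t) {W : ℝ} (hW : ∀ y, ((S.filter fun x => p x = y).card : ℝ) ≤ W)
    (g : Y → ℝ) (hg : ∀ y, 0 ≤ g y) : ∑ x ∈ S, g (p x) ≤ W * ∑ y ∈ t, g y := by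
  rw [← sum_fiberwise_of_maps_to hp, mul_sum]
  refine sum_le_sum fun y _ => ?_
  rw [sum_congr rfl (g := fun _ => g y) fun x hx => by rw [(mem_filter.1 hx).2], sum_const,
    nsmul_eq_mul]
  exact mul_le_mul_of_nonneg_right (hW y) (hg y)

end Pool.Agent.Lib.MP_490b4c_nt.Half
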