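import Pool.Agent.Lib.MP_490b4c_nt.HalfPair

/-! Two bases: the sum of the digit weights over compatible pairs of lags. -/

open Finset Real

namespace Pool.Agent.Lib.MP_490b4c_nt.Half

/-- The pairs of lags in the second base that can be compatible with `a, b`. -/
def Strip (v κ : ℕ) (a b : ℤ) (y : ℤ × ℤ) : Prop :=
  |y.1| ≤ v * |a| + κ ∧ |y.2| ≤ v * |b| + κ ∧ |a| ≤ |y.1| + κ ∧ |b| ≤ |y.2| + κ ∧
    |y.2 * a - y.1 * b| ≤ κ * (|a| + |b|)

instance (v κ : ℕ) (a b : ℤ) : DecidablePred (Strip v κ a b) := fun _ => by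
  unfold Strip; infer_instance

theorem Strip.symm {v κ : ℕ} {a b : ℤ} {y : ℤ × ℤ} (h : Strip v κ a b y) :
    Strip v κ b a y.swap :=
  ⟨h.2.1, h.1, h.2.2.2.1, h.2.2.1, by
    rw [add_comm, abs_sub_comm]; exact h.2.2.2.2⟩

theorem strip_of {v κ : ℕ} {α : ℝ} (h1 : 1 ≤ α) (h2 : α ≤ v) {a b : ℤ} {y : ℤ × ℤ}
    (ha : |a * α - y.1| ≤ κ) (hb : |b * α - y.2| ≤ κ) : Strip v κ a b y := by
  obtain ⟨h3, h4⟩ := abs_le_of_comp h1 h2 ha
  obtain ⟨h5, h6⟩ := abs_le_of_comp h1 h2 hb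
  have h7 : |(y.2 : ℝ) * a - y.1 * b| ≤ κ * (|(a : ℝ)| + |(b : ℝ)|) := by
    rw [show (y.2 : ℝ) * a - y.1 * b = (a * α - y.1) * b - (b * α - y.2) * a by ring]
    refine (abs_sub _ _).trans ?_
    rw [abs_mul, abs_mul, mul_add, add_comm]
    exact add_le_add (mul_le_mul_of_nonneg_right hb (abs_nonneg _))
      (mul_le_mul_of_nonneg_right ha (abs_nonneg _))
  exact ⟨by exact_mod_cast h3, by exact_mod_cast h5, by exact_mod_cast h4, by exact_mod_cast h6,
    by exact_mod_cast h7⟩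

variable {u v m κ : ℕ} {cu cv : ℝ}

theorem fib_fst {a b : ℤ} (hab : |b| ≤ |a|) {S : Finset (ℤ × ℤ)} (hS : ∀ y ∈ S, Strip v κ a b y)
    (hκ : 1 ≤ κ) (x : ℤ) : ((S.filter fun y => y.1 = x).card : ℝ) ≤ 5 * κ := by
  have hκ' : (1 : ℝ) ≤ κ := by exact_mod_cast hκ
  rw [← card_image_of_injOn (f := Prod.snd) fun y hy y' hy' e => Prod.ext
    ((mem_filter.1 (mem_coe.1 hy)).2.trans (mem_filter.1 (mem_coe.1 hy')).2.symm) e]
  rcases eq_or_ne a 0 with rfl | ha
  · have hb : b = 0 := by simpa using hab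
    refine (card_lin (a := 1) (z := 0) one_ne_zero (W := κ) (by linarith) fun z hz => ?_).trans
      (by simp; linarith)
    obtain ⟨y, hy, rfl⟩ := mem_image.1 hz
    have := (hS y (mem_filter.1 hy).1).2.1
    simp only [hb, abs_zero, mul_zero, zero_add] at this
    simpa using (by exact_mod_cast this : |(y.2 : ℝ)| ≤ κ)
  · have ha' : (0 : ℝ) < |(a : ℝ)| := abs_pos.2 (by exact_mod_cast ha)
    refine (card_lin (z := x * b) ha (W := 2 * κ * |(a : ℝ)|) (by positivity) fun z hz => ?_).trans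
      ?_
    · obtain ⟨y, hy, rfl⟩ := mem_image.1 hz
      have h1 := (hS y (mem_filter.1 hy).1).2.2.2.2
      rw [(mem_filter.1 hy).2] at h1
      have h2 : |y.2 * a - x * b| ≤ 2 * κ * |a| := h1.trans (by nlinarith [Nat.cast_nonneg (α := ℤ) κ])
      exact_mod_cast h2
    · rw [mul_div_assoc, mul_div_cancel_right₀ _ ha'.ne']
      linarith

theorem fib_snd {a b : ℤ} (hab : |b| ≤ |a|) (hb : b ≠ 0) {S : Finset (ℤ × ℤ)}
    (hS : ∀ y ∈ S, Strip v κ a b y) (hκ : 1 ≤ κ) (x : ℤ) :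
    ((S.filter fun y => y.2 = x).card : ℝ) ≤ 5 * κ * (|(a : ℝ)| / |(b : ℝ)|) := by
  have hκ' : (1 : ℝ) ≤ κ := by exact_mod_cast hκ
  have hb' : (0 : ℝ) < |(b : ℝ)| := abs_pos.2 (by exact_mod_cast hb)
  have h0 : 1 ≤ |(a : ℝ)| / |(b : ℝ)| := (one_le_div hb').2 (by exact_mod_cast hab)
  rw [← card_image_of_injOn (f := Prod.fst) fun y hy y' hy' e => Prod.ext e
    ((mem_filter.1 (mem_coe.1 hy)).2.trans (mem_filter.1 (mem_coe.1 hy')).2.symm)]
  refine (card_lin (z := x * a) hb (W := 2 * κ * |(a : ℝ)|) (by positivity) fun z hz => ?_).trans ?_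
  · obtain ⟨y, hy, rfl⟩ := mem_image.1 hz
    have h1 := (hS y (mem_filter.1 hy).1).2.2.2.2
    rw [(mem_filter.1 hy).2, abs_sub_comm] at h1
    have h2 : |y.1 * b - x * a| ≤ 2 * κ * |a| := h1.trans (by nlinarith [Nat.cast_nonneg (α := ℤ) κ])
    exact_mod_cast h2
  · rw [mul_div_assoc, mul_div_assoc]
    nlinarith

theorem mem_Icc_natAbs {x a : ℤ} (h : |x| ≤ v * |a| + κ) :
    x ∈ Icc (-((v * a.natAbs + κ : ℕ) : ℤ)) (v * a.natAbs + κ : ℕ) := by
  push_cast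
  exact mem_Icc.2 (abs_le.1 h)

theorem strip_le (hv : 2 ≤ v) (hκ : 1 ≤ κ) (hcu : 1 ≤ cu) (hcu3 : cu ^ 3 = u)
    (hcv : 1 ≤ cv) (hcv3 : cv ^ 3 = v) (hlam : ∑ d ∈ range v, ps v m d ≤ v * (1 / (2 * cv)) ^ 2)
    {a b : ℤ} (hab : |b| ≤ |a|) {S : Finset (ℤ × ℤ)} (hS : ∀ y ∈ S, Strip v κ a b y) :
    ∑ y ∈ S, FF v m y.1 y.2 ≤
      30 * κ ^ 3 * (v + 1) ^ 2 * max 1 |(a : ℝ)| * (1 / cu) ^ Nat.log u b.natAbs := by
  have hκ' : (1 : ℝ) ≤ κ := by exact_mod_cast hκ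
  have hv' : (2 : ℝ) ≤ v := by exact_mod_cast hv
  have m1 := le_max_left 1 |(a : ℝ)|
  have m2 := le_max_right 1 |(a : ℝ)|
  have hab' : |(b : ℝ)| ≤ |(a : ℝ)| := by exact_mod_cast hab
  have hcs : 0 < cu ^ Nat.log u b.natAbs := by positivity
  have hus : (cu ^ Nat.log u b.natAbs) ^ 3 ≤ max 1 b.natAbs := by
    rw [← pow_mul, mul_comm, pow_mul, hcu3]
    rcases eq_or_ne b.natAbs 0 with h | h
    · simp [h]
    · exact_mod_cast (Nat.pow_log_le_self u h).trans (le_max_right _ _)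
  rw [one_div_pow, mul_one_div, le_div_iff₀ hcs]
  by_cases hB : b.natAbs < 2 * κ
  · have h1 := sum_fib_le S Prod.fst _ (fun y hy => mem_Icc_natAbs (hS y hy).1)
      (fib_fst hab hS hκ) (fun _ => 1) fun _ => zero_le_one
    have h2 : ∑ _y ∈ Icc (-((v * a.natAbs + κ : ℕ) : ℤ)) (v * a.natAbs + κ : ℕ), (1 : ℝ) =
        2 * (v * |(a : ℝ)| + κ) + 1 := by
      rw [sum_const, Int.card_Icc, show ((v * a.natAbs + κ : ℕ) : ℤ) + 1 -
        -((v * a.natAbs + κ : ℕ) : ℤ) = (2 * (v * a.natAbs + κ) + 1 : ℕ) by push_cast; ring,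
        Int.toNat_natCast]
      simp
    have h3 : cu ^ Nat.log u b.natAbs ≤ 2 * κ := by
      have h4 : ((max 1 b.natAbs : ℕ) : ℝ) ≤ (2 * κ : ℕ) := Nat.cast_le.2 (by omega)
      push_cast at h4 hus
      exact (le_self_pow₀ (one_le_pow₀ hcu) (by norm_num)).trans (hus.trans h4)
    have h4 : 2 * (v * |(a : ℝ)| + κ) + 1 ≤ 3 * κ * (v + 1) * max 1 |(a : ℝ)| := by
      have h5 : (v : ℝ) * |(a : ℝ)| ≤ κ * v * max 1 |(a : ℝ)| :=
        mul_le_mul (by nlinarith) m2 (abs_nonneg _) (by positivity)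
      have h6 : (κ : ℝ) ≤ κ * max 1 |(a : ℝ)| := le_mul_of_one_le_right (by linarith) m1
      have h7 : 0 ≤ κ * v * max 1 |(a : ℝ)| := by positivity
      nlinarith
    rw [h2] at h1
    have h5 := (sum_le_sum fun y (_ : y ∈ S) => FF_le_one v m y.1 y.2).trans
      (h1.trans (mul_le_mul_of_nonneg_left h4 (by positivity)))
    refine (mul_le_mul h5 h3 hcs.le (by positivity)).trans ?_
    have h6 : 0 ≤ κ ^ 3 * (v + 1) * max 1 |(a : ℝ)| := by positivity
    nlinarith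
  have hb : b ≠ 0 := fun e => hB (by omega)
  have hb' : (0 : ℝ) < |(b : ℝ)| := abs_pos.2 (by exact_mod_cast hb)
  set s := Nat.log v (b.natAbs / 2) with hs
  set σ := 1 / (2 * cv) with hσ
  have σ0 : 0 < σ := by positivity
  have hp : 2 * (v : ℝ) ^ s ≤ |(b : ℝ)| := by
    have h1 : v ^ s ≤ b.natAbs / 2 := Nat.pow_log_le_self v (by omega)
    have h2 : 2 * v ^ s ≤ b.natAbs := by omega
    rw [← Int.cast_abs, ← Nat.cast_natAbs]
    exact_mod_cast h2
  have hk : 2 * (κ : ℝ) ≤ |(b : ℝ)| := by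
    rw [← Int.cast_abs, ← Nat.cast_natAbs]
    exact_mod_cast not_lt.1 hB
  have nn : ∀ (T : Finset ℕ) (x : ℤ), 0 ≤ ∏ t ∈ T, ps v m (dz v t x) := fun T x =>
    prod_nonneg fun _ _ => ps_nonneg _ _ _
  have sq : ∀ (T : Finset ℕ) (x : ℤ), (∏ t ∈ T, ps v m (dz v t x)) ^ 2 ≤
      ∏ t ∈ T, ps v m (dz v t x) := fun T x => by
    rw [pow_two]
    exact mul_le_of_le_one_left (nn T x)
      (prod_le_one (fun _ _ => ps_nonneg _ _ _) fun _ _ => ps_le_one _ _ _)
  have key : ∀ T ∈ (range s).powerset, ∑ y ∈ S, (∏ t ∈ T, ps v m (dz v t y.1)) *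
      ∏ t ∈ range s \ T, ps v m (dz v t y.2) ≤ 10 * κ * (v + 1) * |(a : ℝ)| * σ ^ s := by
    intro T hT
    have hT' := mem_powerset.1 hT
    have h1 := (sum_fib_le S Prod.fst _ (fun y hy => mem_Icc_natAbs (hS y hy).1)
      (fib_fst hab hS hκ) _ (nn T)).trans (mul_le_mul_of_nonneg_left
        (sum_fT (by omega) hlam hT' _) (by positivity))
    have h2 := (sum_fib_le S Prod.snd _ (fun y hy => mem_Icc_natAbs (hS y hy).2.1)
      (fib_snd hab hb hS hκ) _ (nn (range s \ T))).trans (mul_le_mul_of_nonneg_left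
        (sum_fT (by omega) hlam sdiff_subset _) (by positivity))
    push_cast [Nat.cast_natAbs] at h1 h2
    have h3 : 5 * κ * ((2 * (v * |(a : ℝ)| + κ) + 2 * v ^ s) * (σ ^ 2) ^ T.card) ≤
        10 * κ * (v + 1) * |(a : ℝ)| * (σ ^ 2) ^ T.card := by
      rw [← mul_assoc]
      exact mul_le_mul_of_nonneg_right (by nlinarith) (by positivity)
    have h4 : 5 * κ * (|(a : ℝ)| / |(b : ℝ)|) * ((2 * (v * |(b : ℝ)| + κ) + 2 * v ^ s) *
        (σ ^ 2) ^ (range s \ T).card) ≤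
        10 * κ * (v + 1) * |(a : ℝ)| * (σ ^ 2) ^ (range s \ T).card := by
      rw [← mul_assoc]
      refine mul_le_mul_of_nonneg_right ((mul_le_mul_of_nonneg_left
        (by linarith : _ ≤ 2 * (v + 1) * |(b : ℝ)|) (by positivity)).trans_eq ?_) (by positivity)
      field_simp
      ring
    refine abs_le_of_sq_le_sq' ((sum_mul_sq_le_sq_mul_sq _ _ _).trans ((mul_le_mul
      ((sum_le_sum fun y _ => sq T y.1).trans (h1.trans h3))
      ((sum_le_sum fun y _ => sq _ y.2).trans (h2.trans h4)) (by positivity)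
      (by positivity)).trans_eq ?_)) (by positivity) |>.2
    have h5 : T.card + (range s \ T).card = s := by
      rw [add_comm, card_sdiff_add_card_eq_card hT', card_range]
    rw [mul_mul_mul_comm, ← pow_add, h5, mul_pow _ (σ ^ s), ← pow_mul, ← pow_mul, mul_comm s,
      pow_two]
  have h1 : ∑ y ∈ S, FF v m y.1 y.2 ≤ 2 ^ s * (10 * κ * (v + 1) * |(a : ℝ)| * σ ^ s) := by
    refine (sum_le_sum fun y hy => FF_le (s := s) (Nat.log_mono_right ?_)).trans ?_
    · obtain ⟨-, -, h2, h3, -⟩ := hS y hy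
      simp only [Int.abs_eq_natAbs] at h2 h3 hab
      omega
    · rw [sum_comm]
      refine (sum_le_card_nsmul _ _ _ key).trans_eq ?_
      simp
  have h2 : cu ^ Nat.log u b.natAbs ≤ 2 * v * cv ^ s := by
    refine (pow_le_pow_iff_left₀ hcs.le (by positivity) (by norm_num : 3 ≠ 0)).1 (hus.trans ?_)
    have h3 : b.natAbs / 2 < v ^ (s + 1) := Nat.lt_pow_succ_log_self (by omega) _
    have h4 : ((max 1 b.natAbs : ℕ) : ℝ) ≤ (2 * v ^ (s + 1) : ℕ) := Nat.cast_le.2 (by omega)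
    refine h4.trans ?_
    rw [mul_pow (2 * v : ℝ), ← pow_mul cv, mul_comm s, pow_mul, hcv3]
    push_cast
    rw [pow_succ', ← mul_assoc]
    exact mul_le_mul_of_nonneg_right (le_self_pow₀ (by linarith) (by norm_num)) (by positivity)
  have h3 : (2 : ℝ) ^ s * σ ^ s * cv ^ s = 1 := by
    rw [← mul_pow, ← mul_pow, hσ, show 2 * (1 / (2 * cv)) * cv = 1 by field_simp, one_pow]
  refine (mul_le_mul h1 h2 hcs.le (by positivity)).trans ?_
  have h4 : 2 ^ s * (10 * κ * (v + 1) * |(a : ℝ)| * σ ^ s) * (2 * v * cv ^ s) =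
      20 * κ * v * ((v + 1) * |(a : ℝ)|) := by
    linear_combination (20 * κ * v * ((v + 1) * |(a : ℝ)|)) * h3
  have h5 : (κ : ℝ) ≤ κ ^ 3 := le_self_pow₀ hκ' (by norm_num)
  rw [h4, show 30 * (κ : ℝ) ^ 3 * (v + 1) ^ 2 * max 1 |(a : ℝ)| =
    30 * κ ^ 3 * (v + 1) * ((v + 1) * max 1 |(a : ℝ)|) by ring]
  exact mul_le_mul (by nlinarith) (mul_le_mul_of_nonneg_left m2 (by positivity)) (by positivity)
    (by positivity)

theorem full_le (hu : 2 ≤ u) (hcu : 1 ≤ cu) (hcu3 : cu ^ 3 = u)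
    (hlam : ∑ d ∈ range u, ps u m d ≤ u * (1 / (2 * cu)) ^ 2) {A : ℕ} (hA : 1 ≤ A) :
    ∑ x ∈ (Icc (-(A : ℤ)) A ×ˢ Icc (-(A : ℤ)) A).filter (fun x => |x.2| ≤ |x.1|),
      FF u m x.1 x.2 * (1 / cu) ^ Nat.log u x.2.natAbs ≤ 16 * (u + 1) * A := by
  rw [← sum_fiberwise_of_maps_to (g := fun x : ℤ × ℤ => Nat.log u x.2.natAbs)
    (t := range (Nat.log u A + 1)) fun x hx => by
      have := mem_Icc.1 (mem_product.1 (mem_filter.1 hx).1).2
      exact mem_range.2 (Nat.lt_succ_of_le (Nat.log_mono_right (by omega)))]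
  refine (sum_le_sum (g := fun s => 8 * (u + 1) * A * (1 / 2 : ℝ) ^ s) fun s hs => ?_).trans ?_
  swap
  · rw [← mul_sum]
    exact (mul_le_mul_of_nonneg_left (sum_geometric_two_le _) (by positivity)).trans_eq (by ring)
  have hp : (u : ℝ) ^ s ≤ A := by
    exact_mod_cast (Nat.pow_le_pow_right (by omega) (Nat.le_of_lt_succ (mem_range.1 hs))).trans
      (Nat.pow_log_le_self u (by omega))
  set σ := 1 / (2 * cu) with hσ
  have nn : ∀ (T : Finset ℕ) (x : ℤ), 0 ≤ ∏ t ∈ T, ps u m (dz u t x) := fun T x =>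
    prod_nonneg fun _ _ => ps_nonneg _ _ _
  calc _ ≤ ∑ x ∈ Icc (-(A : ℤ)) A ×ˢ Icc (-((u ^ (s + 1) : ℕ) : ℤ)) (u ^ (s + 1) : ℕ),
        (∑ T ∈ (range s).powerset, (∏ t ∈ T, ps u m (dz u t x.1)) *
          ∏ t ∈ range s \ T, ps u m (dz u t x.2)) * (1 / cu) ^ s := by
        refine (sum_le_sum fun x hx => ?_).trans (sum_le_sum_of_subset_of_nonneg (fun x hx => ?_)
          fun x _ _ => mul_nonneg (sum_nonneg fun T _ => mul_nonneg (nn _ _) (nn _ _))
            (by positivity))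
        · obtain ⟨h1, h2⟩ := mem_filter.1 hx
          have h3 := (mem_filter.1 h1).2
          simp only [Int.abs_eq_natAbs, Nat.cast_le] at h3
          rw [h2]
          exact mul_le_mul_of_nonneg_right (FF_le (by rw [min_eq_right h3, h2])) (by positivity)
        · obtain ⟨h1, h2⟩ := mem_filter.1 hx
          have h3 := Nat.lt_pow_succ_log_self (b := u) (by omega) x.2.natAbs
          rw [h2, Nat.succ_eq_add_one] at h3
          exact mem_product.2 ⟨(mem_product.1 (mem_filter.1 h1).1).1, mem_Icc.2 (by omega)⟩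
    _ ≤ (∑ _T ∈ (range s).powerset, 4 * A * (2 * (u + 1) * u ^ s) * (σ ^ 2) ^ s) * (1 / cu) ^ s := by
        rw [← sum_mul, sum_comm]
        refine mul_le_mul_of_nonneg_right (sum_le_sum fun T hT => ?_) (by positivity)
        have hT' := mem_powerset.1 hT
        rw [sum_product]
        simp only [← mul_sum, ← sum_mul]
        refine (mul_le_mul (sum_fT (by omega) hlam hT' _) (sum_fT (by omega) hlam sdiff_subset _)
          (sum_nonneg fun _ _ => nn _ _) (by positivity)).trans ?_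
        have h5 : T.card + (range s \ T).card = s := by
          rw [add_comm, card_sdiff_add_card_eq_card hT', card_range]
        rw [mul_mul_mul_comm, ← pow_add, h5]
        refine mul_le_mul_of_nonneg_right (mul_le_mul (by linarith) (le_of_eq ?_) (by positivity)
          (by positivity)) (by positivity)
        push_cast
        ring
    _ = _ := by
        have h1 : (2 : ℝ) ^ s * u ^ s * (σ ^ 2) ^ s * (1 / cu) ^ s = (1 / 2) ^ s := by
          rw [← mul_pow, ← mul_pow, ← mul_pow, ← hcu3, hσ]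
          congr 1
          field_simp
        rw [sum_const, card_powerset, card_range, nsmul_eq_mul, ← h1]
        push_cast
        ring

/-- The weighted number of compatible quadruples of lags. -/
noncomputable def HH (u v m κ A : ℕ) (α : ℝ) : ℝ :=
  ∑ x ∈ (Icc (-(A : ℤ)) A ×ˢ Icc (-(A : ℤ)) A) ×ˢ (Icc (-(A : ℤ)) A ×ˢ Icc (-(A : ℤ)) A),
    if |x.1.1 * α - x.2.1| ≤ κ ∧ |x.1.2 * α - x.2.2| ≤ κ then
      FF u m x.1.1 x.1.2 * FF v m x.2.1 x.2.2 else 0

theorem HH_nonneg (u v m κ A : ℕ) (α : ℝ) : 0 ≤ HH u v m κ A α :=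
  sum_nonneg fun _ _ => by
    split_ifs
    exacts [mul_nonneg (FF_nonneg _ _ _ _) (FF_nonneg _ _ _ _), le_rfl]

theorem avg_HH {r : ℕ → ℕ} {ρ : ℕ} (hu : u.Prime) (hv : v.Prime) (huv : u ≠ v) (hv3 : 3 ≤ v)
    (hρ : 1 ≤ ρ) (hκ : 1 ≤ κ) (hr : Function.Injective r) (hrρ : ∀ j, r j ≤ ρ * j)
    (hcu : 1 ≤ cu) (hcu3 : cu ^ 3 = u) (hcv : 1 ≤ cv) (hcv3 : cv ^ 3 = v)
    (hlu : ∑ d ∈ range u, ps u m d ≤ u * (1 / (2 * cu)) ^ 2)
    (hlv : ∑ d ∈ range v, ps v m d ≤ v * (1 / (2 * cv)) ^ 2) {A : ℕ} (hA : 1 ≤ A) :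
    ∃ C : ℝ, ∀ J : ℕ, ∑ j ∈ range J, HH u v m κ A (alp u v (r j)) ≤
      92160 * κ ^ 4 * (u + 1) * (v + 1) ^ 2 * ρ * A * J + C := by
  set B := Icc (-(A : ℤ)) A ×ˢ Icc (-(A : ℤ)) A with hB
  set f : ℤ × ℤ → ℤ × ℤ → ℝ := fun x y => if Strip v κ x.1 x.2 y then
    96 * κ * ρ / max (max 1 |(x.1 : ℝ)|) (max 1 |(x.2 : ℝ)|) else 0 with hf
  have f0 : ∀ x y, 0 ≤ f x y := fun x y => by
    simp only [hf]
    split_ifs <;> positivity
  obtain ⟨C, hC⟩ := avg_le (B ×ˢ B) (fun x => FF u m x.1.1 x.1.2 * FF v m x.2.1 x.2.2)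
    (fun x => f x.1 x.2) (fun _ _ => mul_nonneg (FF_nonneg _ _ _ _) (FF_nonneg _ _ _ _))
    (fun x j => |x.1.1 * alp u v (r j) - x.2.1| ≤ κ ∧ |x.1.2 * alp u v (r j) - x.2.2| ≤ κ)
    fun x => by
      simp only [hf]
      split_ifs with hx
      · rcases max_choice (max 1 |(x.1.1 : ℝ)|) (max 1 |(x.1.2 : ℝ)|) with h | h <;> rw [h]
        · obtain ⟨c, hc⟩ := freq hu hv huv hv3 hρ hκ hr hrρ x.1.1 x.2.1
          exact ⟨c, fun J => (Nat.cast_le.2 (card_le_card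
            (monotone_filter_right _ fun j _ h => h.1))).trans (hc J)⟩
        · obtain ⟨c, hc⟩ := freq hu hv huv hv3 hρ hκ hr hrρ x.1.2 x.2.2
          exact ⟨c, fun J => (Nat.cast_le.2 (card_le_card
            (monotone_filter_right _ fun j _ h => h.2))).trans (hc J)⟩
      · refine ⟨0, fun J => ?_⟩
        rw [filter_false_of_mem fun j _ h => hx (strip_of (alp_bounds hu.pos hv.one_lt _).1
          (alp_bounds hu.pos hv.one_lt _).2 h.1 h.2)]
        simp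
  refine ⟨C, fun J => (hC J).trans (add_le_add_left
    (mul_le_mul_of_nonneg_right ?_ (Nat.cast_nonneg J)) C)⟩
  set g : ℤ × ℤ → ℝ := fun x => ∑ y ∈ B, FF u m x.1 x.2 * FF v m y.1 y.2 * f x y with hg
  have sw : ∀ h : ℤ × ℤ → ℝ, ∑ x ∈ B, h x.swap = ∑ x ∈ B, h x := fun h => by
    simp only [hB, sum_product, Prod.swap_prod_mk]
    exact sum_comm
  have gs : ∀ x, g x.swap = g x := fun x => by
    simp only [hg]
    rw [← sw]
    refine sum_congr rfl fun y _ => ?_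
    simp only [hf, Prod.fst_swap, Prod.snd_swap, FF_comm u m x.2, FF_comm v m y.2,
      max_comm (max 1 |(x.2 : ℝ)|)]
    exact congrArg _ (if_congr ⟨fun h => h.symm, fun h => h.symm⟩ rfl rfl)
  have g1 : ∑ x ∈ B.filter (fun x => |x.2| ≤ |x.1|), g x ≤
      96 * κ * ρ * (30 * κ ^ 3 * (v + 1) ^ 2) * (16 * (u + 1) * A) := by
    refine le_trans ?_ (mul_le_mul_of_nonneg_left (full_le hu.two_le hcu hcu3 hlu hA)
      (by positivity))
    rw [mul_sum]
    refine sum_le_sum fun x hx => ?_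
    have h1 := (mem_filter.1 hx).2
    have h2 : max 1 |(x.2 : ℝ)| ≤ max 1 |(x.1 : ℝ)| := max_le_max_left _ (by exact_mod_cast h1)
    have h3 := strip_le hv.two_le hκ hcu hcu3 hcv hcv3 hlv h1
      (S := B.filter (Strip v κ x.1 x.2)) fun y hy => (mem_filter.1 hy).2
    have h4 : g x = FF u m x.1 x.2 * (96 * κ * ρ / max 1 |(x.1 : ℝ)|) *
        ∑ y ∈ B.filter (Strip v κ x.1 x.2), FF v m y.1 y.2 := by
      simp only [hg, hf, max_eq_left h2, sum_filter, mul_sum]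
      refine sum_congr rfl fun y _ => ?_
      split_ifs <;> ring
    have h5 : 0 < max 1 |(x.1 : ℝ)| := by positivity
    rw [h4]
    refine (mul_le_mul_of_nonneg_left h3
      (mul_nonneg (FF_nonneg _ _ _ _) (by positivity))).trans_eq ?_
    field_simp
  have g0 : ∀ x, 0 ≤ g x := fun x => sum_nonneg fun y _ =>
    mul_nonneg (mul_nonneg (FF_nonneg _ _ _ _) (FF_nonneg _ _ _ _)) (f0 _ _)
  have g2 : ∑ x ∈ B, g x ≤ 2 * ∑ x ∈ B.filter (fun x => |x.2| ≤ |x.1|), g x := by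
    rw [sum_filter, two_mul]
    nth_rewrite 2 [← sw]
    rw [← sum_add_distrib]
    refine sum_le_sum fun x _ => ?_
    have := g0 x
    have := le_total |x.2| |x.1|
    simp only [gs, Prod.fst_swap, Prod.snd_swap]
    split_ifs with h1 h2 h2
    · linarith
    · linarith
    · linarith
    · omega
  rw [sum_product]
  exact g2.trans ((mul_le_mul_of_nonneg_left g1 zero_le_two).trans_eq (by ring))

end Pool.Agent.Lib.MP_490b4c_nt.Half
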