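import Pool.Agent.Lib.MP_490b4c_nt.HalfDigit

/-! Sums of digit weights over intervals, and the set of defects. -/

open Finset Real

namespace Pool.Agent.Lib.MP_490b4c_nt.Half

theorem sum_pow_le {q m : ℕ} (hq : 1 ≤ q) (hm : 1 ≤ m) :
    ∑ d ∈ range q, (1 - (d : ℝ) / q) ^ m ≤ 1 + q / m := by
  have hq' : (1 : ℝ) ≤ q := by exact_mod_cast hq
  have hm' : (1 : ℝ) ≤ m := by exact_mod_cast hm
  set x : ℝ := 1 / q with hx
  have x0 : 0 < x := by positivity
  have x1 : x ≤ 1 := (div_le_one (by linarith)).2 hq'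
  set ρ := (1 - x) ^ m with hρ
  have ρ0 : 0 ≤ ρ := pow_nonneg (by linarith) _
  have h1 : ρ * (1 + m * x) ≤ 1 := by
    have h2 : 1 + m * x ≤ (1 + x) ^ m := one_add_mul_le_pow (by linarith) m
    refine (mul_le_mul_of_nonneg_left h2 ρ0).trans ?_
    rw [hρ, ← mul_pow]
    exact pow_le_one₀ (mul_nonneg (by linarith) (by linarith)) (by nlinarith)
  have h3 : ∑ d ∈ range q, (1 - (d : ℝ) / q) ^ m ≤ ∑ d ∈ range q, ρ ^ d := by
    refine sum_le_sum fun d hd => ?_
    have hd' : (d : ℝ) ≤ q := by exact_mod_cast (mem_range.1 hd).le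
    rw [hρ, ← pow_mul, mul_comm, pow_mul]
    refine pow_le_pow_left₀ (sub_nonneg.2 (div_le_one_of_le₀ hd' (by linarith))) ?_ m
    have := one_add_mul_le_pow (a := -x) (by linarith) d
    rw [show 1 - (d : ℝ) / q = 1 + d * -x by rw [hx]; ring]
    exact this
  have h4 : (∑ d ∈ range q, ρ ^ d) * (1 - ρ) ≤ 1 := by
    rw [geom_sum_mul_neg]
    linarith [pow_nonneg ρ0 q]
  have h5 : 0 ≤ ∑ d ∈ range q, ρ ^ d := sum_nonneg fun _ _ => pow_nonneg ρ0 _
  have h6 : 0 < m * x := by positivity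
  have h7 : (q : ℝ) / m * (m * x) = 1 := by rw [hx]; field_simp
  refine h3.trans (le_of_mul_le_mul_right ?_ h6)
  nlinarith

theorem sum_ps_le {q m : ℕ} (hq : 1 ≤ q) (hm : 1 ≤ m) :
    ∑ d ∈ range q, ps q m d ≤ 2 + 2 * (q / m) := by
  have h1 := sum_pow_le hq hm
  have h2 : ∑ d ∈ range q, (1 - ((q - 1 - d : ℕ) : ℝ) / q) ^ m =
      ∑ d ∈ range q, (1 - (d : ℝ) / q) ^ m := sum_range_reflect (fun d => (1 - (d : ℝ) / q) ^ m) q
  have h3 : ∀ d ≤ q, 0 ≤ (1 - (d : ℝ) / q) ^ m := fun d hd =>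
    pow_nonneg (sub_nonneg.2 (div_le_one_of_le₀ (by exact_mod_cast hd) (Nat.cast_nonneg _))) _
  have h4 : ∑ d ∈ range q, ps q m d ≤ ∑ d ∈ range q,
      ((1 - (d : ℝ) / q) ^ m + (1 - ((q - 1 - d : ℕ) : ℝ) / q) ^ m) := by
    refine sum_le_sum fun d hd => ?_
    have h5 := h3 d (mem_range.1 hd).le
    have h6 := h3 (q - 1 - d) (by omega)
    rw [ps, nd]
    rcases min_choice d (q - 1 - d) with h | h <;> rw [h] <;> linarith
  rw [sum_add_distrib, h2] at h4
  linarith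

theorem sum_digits {q : ℕ} (hq : 0 < q) (f : ℕ → ℕ → ℝ) (s : ℕ) :
    ∑ z ∈ range (q ^ s), ∏ t ∈ range s, f t (z / q ^ t % q) =
      ∏ t ∈ range s, ∑ d ∈ range q, f t d := by
  induction s with
  | zero => simp
  | succ s ih =>
    rw [pow_succ, sum_range_mul, prod_range_succ, ← ih, sum_mul_sum, sum_comm]
    refine sum_congr rfl fun z hz => sum_congr rfl fun d hd => ?_
    rw [prod_range_succ, Nat.add_mul_div_left _ _ (by positivity),
      Nat.div_eq_of_lt (mem_range.1 hz), zero_add, Nat.mod_eq_of_lt (mem_range.1 hd)]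
    congr 1
    refine prod_congr rfl fun t ht => ?_
    obtain ⟨k, rfl⟩ := Nat.exists_eq_add_of_lt (mem_range.1 ht)
    rw [pow_succ, pow_add, mul_assoc, mul_assoc, Nat.add_mul_div_left _ _ (by positivity),
      mul_comm (q ^ k), mul_assoc, Nat.add_mul_mod_self_left]

theorem sum_Icc_per {p : ℕ} (hp : 0 < p) (g : ℕ → ℝ) (hg : ∀ r, 0 ≤ g r) (A : ℕ) :
    ∑ a ∈ Icc (-(A : ℤ)) A, g (a % p).toNat ≤ (2 * A / p + 2) * ∑ r ∈ range p, g r := by
  have hp' : (0 : ℤ) < p := by exact_mod_cast hp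
  have hp'' : (0 : ℝ) < p := by exact_mod_cast hp
  rw [← sum_fiberwise_of_maps_to (g := fun a : ℤ => (a % p).toNat) (t := range p) fun a _ => by
    have := Int.emod_lt_of_pos a hp'
    exact mem_range.2 (by omega), mul_sum]
  refine sum_le_sum fun r _ => ?_
  rw [sum_congr rfl (g := fun _ => g r) fun a ha => by rw [(mem_filter.1 ha).2], sum_const,
    nsmul_eq_mul]
  refine mul_le_mul_of_nonneg_right ?_ (hg r)
  have h1 : ((Icc (-(A : ℤ)) A).filter fun a : ℤ => (a % p).toNat = r).card ≤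
      (Icc (-(A : ℤ) / p) (A / p)).card := by
    refine card_le_card_of_injOn (fun a => a / p) (fun a ha => ?_) fun a ha b hb e => ?_
    · have h2 := mem_Icc.1 (mem_filter.1 (mem_coe.1 ha)).1
      exact mem_coe.2 (mem_Icc.2 ⟨Int.ediv_le_ediv hp' h2.1, Int.ediv_le_ediv hp' h2.2⟩)
    · have h2 := (mem_filter.1 (mem_coe.1 ha)).2
      have h3 := (mem_filter.1 (mem_coe.1 hb)).2
      have h4 := Int.emod_nonneg a hp'.ne'
      have h5 := Int.emod_nonneg b hp'.ne'
      have h6 : a % p = b % p := by omega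
      rw [← Int.emod_add_mul_ediv a p, ← Int.emod_add_mul_ediv b p, h6, show a / p = b / p from e]
  have h2 : (p : ℤ) * (A / p) ≤ A := Int.mul_ediv_self_le hp'.ne'
  have h3 : -(A : ℤ) < p * (-(A : ℤ) / p) + p := Int.lt_mul_ediv_self_add hp'
  have h4 : -(A : ℤ) / p ≤ A / p := Int.ediv_le_ediv hp' (by omega)
  have h5 : ((Icc (-(A : ℤ) / p) (A / p)).card : ℤ) = A / p + 1 - -(A : ℤ) / p :=
    Int.card_Icc_of_le _ _ (by omega)
  have h6 : ((Icc (-(A : ℤ) / p) (A / p)).card : ℤ) * p ≤ 2 * A + 2 * p := by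
    rw [h5]
    nlinarith
  have h7 : ((Icc (-(A : ℤ) / p) (A / p)).card : ℝ) * p ≤ 2 * A + 2 * p := by exact_mod_cast h6
  refine (Nat.cast_le.2 h1).trans (le_of_mul_le_mul_right (h7.trans_eq ?_) hp'')
  field_simp

/-- The sum of a product of digit weights over an interval. -/
theorem sum_fT {q m s : ℕ} (hq : 0 < q) {lam : ℝ} (h : ∑ d ∈ range q, ps q m d ≤ q * lam)
    {T : Finset ℕ} (hT : T ⊆ range s) (A : ℕ) :
    ∑ a ∈ Icc (-(A : ℤ)) A, ∏ t ∈ T, ps q m (dz q t a) ≤ (2 * A + 2 * q ^ s) * lam ^ T.card := by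
  have hP : 0 < q ^ s := by positivity
  have hP' : (0 : ℝ) < q ^ s := by positivity
  have e : ∀ f : ℕ → ℝ, ∏ t ∈ T, f t = ∏ t ∈ range s, if t ∈ T then f t else 1 := fun f => by
    rw [prod_ite_mem, inter_eq_right.2 hT]
  have h1 := sum_Icc_per hP (fun z => ∏ t ∈ range s, if t ∈ T then ps q m (z / q ^ t % q) else 1)
    (fun z => prod_nonneg fun t _ => by split_ifs; exacts [ps_nonneg _ _ _, zero_le_one]) A
  rw [sum_digits hq fun t d => if t ∈ T then ps q m d else 1] at h1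
  have h2 : ∏ t ∈ range s, ∑ d ∈ range q, (if t ∈ T then ps q m d else 1) ≤
      q ^ s * lam ^ T.card := by
    rw [← prod_const, e, ← card_range s, ← prod_const, card_range, ← prod_mul_distrib]
    refine prod_le_prod (fun t _ => sum_nonneg fun d _ => by
      split_ifs; exacts [ps_nonneg _ _ _, zero_le_one]) fun t _ => ?_
    split_ifs
    · exact h
    · simp
  refine le_trans (le_of_eq ?_) (h1.trans ((mul_le_mul_of_nonneg_left h2
    (by positivity)).trans_eq ?_))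
  · refine sum_congr rfl fun a _ => (e _).trans (prod_congr rfl fun t ht => ?_)
    rw [dz_eq (a := a) (mem_range.1 ht)]
    rw [Int.toNat_of_nonneg (Int.emod_nonneg _ (by positivity))]
    push_cast
    exact Int.mod_modEq _ _
  · push_cast
    field_simp

/-- The possible defects. -/
def Es (q : ℕ) : ℕ → Finset ℤ
  | 0 => {0}
  | L + 1 => Es q L ∪ ((Es q L).image (· + (q : ℤ) ^ (L + 1)) ∪
      (Es q L).image (· - (q : ℤ) ^ (L + 1)))

theorem Es_mono (q : ℕ) : Monotone (Es q) := monotone_nat_of_le_succ fun _ => subset_union_left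

theorem mem_Es {q y₁ y₂ y₃ y₄ : ℕ} (hq : 0 < q) (L : ℕ) (h : Cong q L y₁ y₂ y₃ y₄) :
    ((y₁ % q ^ L : ℕ) + (y₂ % q ^ L : ℕ) - (y₃ % q ^ L : ℕ) - (y₄ % q ^ L : ℕ) : ℤ) ∈ Es q L := by
  induction L with
  | zero => simp [Es, Nat.mod_one]
  | succ L ih =>
    have h1 := ih fun t ht => h t (by omega)
    have h2 := (h L (by omega)).dvd
    simp only [Nat.mod_pow_succ]
    have d1 := Nat.mod_lt (y₁ / q ^ L) hq
    have d2 := Nat.mod_lt (y₂ / q ^ L) hq
    have d3 := Nat.mod_lt (y₃ / q ^ L) hq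
    have d4 := Nat.mod_lt (y₄ / q ^ L) hq
    generalize y₁ / q ^ L % q = a at *
    generalize y₂ / q ^ L % q = b at *
    generalize y₃ / q ^ L % q = c at *
    generalize y₄ / q ^ L % q = d at *
    clear ih
    generalize y₁ % q ^ L = x₁ at *
    generalize y₂ % q ^ L = x₂ at *
    generalize y₃ % q ^ L = x₃ at *
    generalize y₄ % q ^ L = x₄ at *
    obtain ⟨w, hw⟩ := h2
    have hq' : (0 : ℤ) < q := by exact_mod_cast hq
    have w1 : w < 2 := lt_of_mul_lt_mul_left (a := (q : ℤ)) (by omega) hq'.le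
    have w2 : -2 < w := lt_of_mul_lt_mul_left (a := (q : ℤ)) (by omega) hq'.le
    push_cast at hw ⊢
    simp only [Es, mem_union, mem_image]
    obtain rfl | rfl | rfl : w = 0 ∨ w = -1 ∨ w = 1 := by omega
    · left
      convert h1 using 1
      linear_combination (-(q : ℤ) ^ L) * hw
    · exact Or.inr (Or.inl ⟨_, h1, by linear_combination ((q : ℤ) ^ L) * hw⟩)
    · exact Or.inr (Or.inr ⟨_, h1, by linear_combination ((q : ℤ) ^ L) * hw⟩)

theorem Es_bound {q : ℕ} (hq : 128 ≤ q) (L : ℕ) : (Es q L).card ≤ 3 ^ L ∧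
    (∀ e ∈ Es q L, |e| ≤ 2 * (q : ℤ) ^ L) ∧
    ∑ e ∈ Es q L, 1 / √(max 1 |(e : ℝ)|) ≤ 2 - (3 / 8) ^ L := by
  induction L with
  | zero => simp [Es]; norm_num
  | succ L ih =>
    obtain ⟨h1, h2, h3⟩ := ih
    have hq' : (128 : ℤ) ≤ q := by exact_mod_cast hq
    have hP : (0 : ℤ) < (q : ℤ) ^ L := by positivity
    have hQ : 128 * (q : ℤ) ^ L ≤ (q : ℤ) ^ (L + 1) := by rw [pow_succ]; nlinarith
    have h64 : (64 : ℤ) ^ L ≤ (q : ℤ) ^ L := pow_le_pow_left₀ (by norm_num) (by omega) L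
    set U := (Es q L).image (· + (q : ℤ) ^ (L + 1)) ∪ (Es q L).image (· - (q : ℤ) ^ (L + 1))
      with hU
    have u1 : U.card ≤ 2 * 3 ^ L := by
      refine (card_union_le _ _).trans ((add_le_add card_image_le card_image_le).trans ?_)
      omega
    have u2 : ∀ e ∈ U, 64 ^ (L + 1) ≤ |e| ∧ |e| ≤ 2 * (q : ℤ) ^ (L + 1) := fun e he => by
      rw [pow_succ (64 : ℤ)]
      rcases mem_union.1 he with h | h <;> obtain ⟨x, hx, rfl⟩ := mem_image.1 h <;>
        have := abs_le.1 (h2 x hx)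
      · rw [abs_of_nonneg (by omega)]
        omega
      · rw [abs_of_nonpos (by omega)]
        omega
    refine ⟨(card_union_le _ _).trans ((add_le_add h1 u1).trans_eq (by ring)), fun e he => ?_, ?_⟩
    · rcases mem_union.1 he with h | h
      · exact (h2 e h).trans (by omega)
      · exact (u2 e h).2
    · have h4 : ∑ e ∈ U, 1 / √(max 1 |(e : ℝ)|) ≤ U.card • (1 / 8 ^ (L + 1) : ℝ) := by
        refine sum_le_card_nsmul _ _ _ fun e he => one_div_le_one_div_of_le (by positivity) ?_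
        refine le_sqrt_of_sq_le (le_max_of_le_right ?_)
        rw [← pow_mul, mul_comm, pow_mul]
        exact_mod_cast (u2 e he).1
      have h5 : (U.card : ℝ) ≤ 2 * 3 ^ L := by exact_mod_cast u1
      have h6 : U.card • (1 / 8 ^ (L + 1) : ℝ) ≤ (3 / 8) ^ L / 4 := by
        rw [nsmul_eq_mul]
        refine (mul_le_mul_of_nonneg_right h5 (by positivity)).trans_eq ?_
        rw [div_pow, pow_succ]
        field_simp
        norm_num
      have h7 := sum_union_inter (s₁ := Es q L) (s₂ := U) (f := fun e => 1 / √(max 1 |(e : ℝ)|))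
      have h8 : 0 ≤ ∑ e ∈ Es q L ∩ U, 1 / √(max 1 |(e : ℝ)|) := by positivity
      have h9 : (0 : ℝ) ≤ (3 / 8) ^ L := by positivity
      rw [pow_succ (3 / 8 : ℝ), Es]
      linarith

end Pool.Agent.Lib.MP_490b4c_nt.Half
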