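import Pool.Agent.Lib.MP_490b4c_nt.HalfStrip
import Pool.Agent.Lib.MP_490b4c_nt.HalfDual

/-! The tower of digit blocks and the reduction of the degree to lags. -/

open Finset Real

namespace Pool.Agent.Lib.MP_490b4c_nt.Half

variable {l : ℕ} {q : Fin l → ℕ} [∀ i, Fact (q i).Prime] {s : Finset (Fin l)} {M : ℕ}

/-- The character given by a vector of digits. -/
noncomputable def chr (g : (i : s) → Fin M → ZMod (q i)) :
    AddChar ((i : Fin l) → Fin M → ZMod (q i)) ℂ where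
  toFun a := ∏ i : s, ZMod.stdAddChar (∑ r, a i r * g i r)
  map_zero_eq_one' := by simp
  map_add_eq_mul' a b := by
    simp only [Pi.add_apply, add_mul, sum_add_distrib, AddChar.map_add_eq_mul, prod_mul_distrib]

theorem chr_apply (g : (i : s) → Fin M → ZMod (q i)) (a : (i : Fin l) → Fin M → ZMod (q i)) :
    chr g a = ∏ i : s, ZMod.stdAddChar (∑ r, a i r * g i r) := rfl

theorem chr_add (g g' : (i : s) → Fin M → ZMod (q i)) : chr g + chr g' = chr (g + g') := by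
  ext a
  simp only [AddChar.add_apply, chr_apply, Pi.add_apply, mul_add, sum_add_distrib,
    AddChar.map_add_eq_mul, prod_mul_distrib]

theorem chr_inj {g g' : (i : s) → Fin M → ZMod (q i)} (h : chr g = chr g') : g = g' := by
  funext i r
  have e : ∀ g : (i : s) → Fin M → ZMod (q i),
      chr g (Pi.single i.1 (Pi.single r 1)) = ZMod.stdAddChar (g i r) := fun g => by
    rw [chr_apply, prod_eq_single i (fun i' _ hi => by
      rw [Pi.single_eq_of_ne fun e => hi (Subtype.ext e)]; simp) (by simp), Pi.single_eq_same,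
      sum_eq_single r (fun r' _ hr => by rw [Pi.single_eq_of_ne hr, zero_mul]) (by simp)]
    simp
  exact ZMod.injective_stdAddChar (by rw [← e, ← e, h])

theorem mod_eq_of_digits {b x y : ℕ} (L : ℕ) (h : ∀ t < L, x / b ^ t % b = y / b ^ t % b) :
    x % b ^ L = y % b ^ L := by
  induction L with
  | zero => simp [Nat.mod_one]
  | succ L ih => rw [Nat.mod_pow_succ, Nat.mod_pow_succ, ih fun t ht => h t (by omega), h L (by omega)]

variable (q s M) in
/-- The fresh character of a cell. -/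
noncomputable def psi (ρ : Fin l → ℕ → ℕ) (j : ℕ) (k : s → ℕ) :
    AddChar ((i : Fin l) → Fin M → ZMod (q i)) ℂ :=
  chr fun i r => if ρ i j ≤ r ∧ r < ρ i (j + 1) then
    ((k i / q i ^ (r - ρ i j) % q i : ℕ) : ZMod (q i)) else 0

variable (q s) in
/-- The cell of `n`. -/
def key (ρ : Fin l → ℕ → ℕ) (j n : ℕ) : s → ℕ := fun i => n / q i ^ ρ i j

variable {ρ : Fin l → ℕ → ℕ} {N J j : ℕ}

theorem cong_of (hN : N ≤ 2 ^ M) {n₁ n₂ n₃ n₄ : ℕ} (h₁ : n₁ < N) (h₂ : n₂ < N) (h₃ : n₃ < N)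
    (h₄ : n₄ < N) (h : psi q s M ρ j (key q s ρ j n₁) + psi q s M ρ j (key q s ρ j n₂) =
      psi q s M ρ j (key q s ρ j n₃) + psi q s M ρ j (key q s ρ j n₄)) (i : s) :
    Cong (q i) (ρ i (j + 1) - ρ i j) (key q s ρ j n₁ i) (key q s ρ j n₂ i) (key q s ρ j n₃ i)
      (key q s ρ j n₄ i) := by
  intro t ht
  by_cases hM : ρ i j + t < M
  · rw [psi, psi, psi, psi, chr_add, chr_add] at h
    have h1 := congrFun (congrFun (chr_inj h) i) ⟨_, hM⟩
    simp only [Pi.add_apply, if_pos (show ρ i j ≤ ρ i j + t ∧ ρ i j + t < ρ i (j + 1) by omega),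
      Nat.add_sub_cancel_left, ← Nat.cast_add] at h1
    exact (ZMod.natCast_eq_natCast_iff _ _ _).1 h1
  · have z : ∀ n < N, key q s ρ j n i / q i ^ t = 0 := fun n hn => by
      rw [key, Nat.div_div_eq_div_mul, ← pow_add]
      exact Nat.div_eq_of_lt (hn.trans_le (hN.trans ((Nat.pow_le_pow_right two_pos
        (not_lt.1 hM)).trans (Nat.pow_le_pow_left (Fact.out : (q i).Prime).two_le _))))
    rw [z _ h₁, z _ h₂, z _ h₃, z _ h₄]

omit [∀ i, Fact (q i).Prime] in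
theorem key_succ (hρ : ∀ i j, ρ i j ≤ ρ i (j + 1)) (j n : ℕ) (i : s) :
    key q s ρ (j + 1) n i = key q s ρ j n i / q i ^ (ρ i (j + 1) - ρ i j) := by
  rw [key, key, Nat.div_div_eq_div_mul, ← pow_add, Nat.add_sub_cancel' (hρ i j)]

/-- The tower of digit blocks. -/
noncomputable def tower (hs : s.Nonempty) (hρ : ∀ i j, ρ i j ≤ ρ i (j + 1)) (h0 : ∀ i, ρ i 0 = 0)
    (hN : N ≤ 2 ^ M) (hJ : ∀ i ∈ s, N ≤ q i ^ ρ i J) :
    Tower ((i : Fin l) → Fin M → ZMod (q i)) (s → ℕ) N J where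
  Φ n := chr (s := s) fun i r => ((n / q i ^ (r : ℕ) % q i : ℕ) : ZMod (q i))
  key := key q s ρ
  up j k := fun i => k i / q i ^ (ρ i (j + 1) - ρ i j)
  ψ := psi q s M ρ
  prj j h := fun i r => if ρ i j ≤ r ∧ r < ρ i (j + 1) then h i r else 0
  key_succ j n := funext (key_succ hρ j n)
  fresh j n h := by
    rw [psi, chr_apply, chr_apply]
    refine prod_congr rfl fun i _ => congrArg _ (sum_congr rfl fun r _ => ?_)
    split_ifs with hr
    · rw [key, Nat.div_div_eq_div_mul, ← pow_add, Nat.add_sub_cancel' hr.1]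
    · simp
  inj j n hn n' hn' e1 e2 := by
    funext i
    have h1 := cong_of hN hn hn' hn' hn' (by rw [e2]) i
    have h2 := congrFun e1 i
    rw [key_succ hρ, key_succ hρ] at h2
    have h3 := mod_eq_of_digits (x := key q s ρ j n i) (y := key q s ρ j n' i) _ fun t ht => by
      simpa only [Nat.ModEq, Nat.mod_mod] using Nat.ModEq.add_right_cancel' _ (h1 t ht)
    rw [← Nat.div_add_mod (key q s ρ j n i) (q i ^ (ρ i (j + 1) - ρ i j)), h2, h3, Nat.div_add_mod]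
  bot n _ n' _ e := by
    obtain ⟨i, hi⟩ := hs
    simpa [key, h0] using congrFun e ⟨i, hi⟩
  top n hn n' hn' := funext fun i => by
    rw [key, key, Nat.div_eq_of_lt (hn.trans_le (hJ i i.2)),
      Nat.div_eq_of_lt (hn'.trans_le (hJ i i.2))]
  orth n hn n' hn' e := by
    obtain ⟨i, hi⟩ := hs
    have hm : N ≤ q i ^ M := hN.trans (Nat.pow_le_pow_left (Fact.out : (q i).Prime).two_le M)
    refine Two.eq_of_digits (hn.trans_le hm) (hn'.trans_le hm) fun r hr => ?_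
    have := congrFun (congrFun (chr_inj e) ⟨i, hi⟩) ⟨r, hr⟩
    rwa [ZMod.natCast_eq_natCast_iff', Nat.mod_mod, Nat.mod_mod] at this

/-- Vectors of lags that are compatible in all bases. -/
noncomputable def Adm {ι : Type*} [Fintype ι] [DecidableEq ι] (Q : ι → ℕ) (X A : ℕ) :
    Finset (ι → ℤ) :=
  (Fintype.piFinset fun _ => Icc (-(A : ℤ)) A).filter fun a =>
    ∀ i i', |a i * Q i - a i' * Q i'| ≤ 4 * X

theorem card_Adm_fib {ι : Type*} [Fintype ι] [DecidableEq ι] {Q : ι → ℕ} {X A K : ℕ}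
    (hQ : ∀ i, 0 < Q i) (hK : ∀ i, X ≤ K * Q i) (i₀ : ι) (x : ℤ) {S : Finset (ι → ℤ)}
    (hS : ∀ a ∈ S, a ∈ Adm Q X A ∧ a i₀ = x) : (S.card : ℝ) ≤ (8 * K + 1) ^ Fintype.card ι := by
  have h1 : S ⊆ Fintype.piFinset fun i => S.image (· i) := fun a ha =>
    Fintype.mem_piFinset.2 fun i => mem_image_of_mem _ ha
  refine (Nat.cast_le.2 (card_le_card h1)).trans ?_
  rw [Fintype.card_piFinset, Nat.cast_prod, ← card_univ, ← prod_const]
  refine prod_le_prod (fun _ _ => Nat.cast_nonneg _) fun i _ => ?_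
  have hQ' : (0 : ℝ) < Q i := by exact_mod_cast hQ i
  refine (card_lin (a := Q i) (z := x * Q i₀) (by exact_mod_cast (hQ i).ne') (W := 4 * X)
    (by positivity) fun y hy => ?_).trans ?_
  · obtain ⟨a, ha, rfl⟩ := mem_image.1 hy
    have := (mem_filter.1 (hS a ha).1).2 i i₀
    rw [(hS a ha).2] at this
    exact_mod_cast this
  · have h2 : (X : ℝ) ≤ K * Q i := by exact_mod_cast hK i
    rw [Int.cast_natCast, abs_of_pos hQ', add_le_add_iff_right, div_le_iff₀ hQ']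
    linarith

theorem comp_of_Adm {ι : Type*} [Fintype ι] [DecidableEq ι] {Q : ι → ℕ} {X A K : ℕ}
    (hQ : ∀ i, 0 < Q i) (hK : ∀ i, X ≤ K * Q i) {a : ι → ℤ} (ha : a ∈ Adm Q X A) (i i' : ι) :
    |a i * ((Q i : ℝ) / Q i') - a i'| ≤ (4 * K : ℕ) := by
  have hQ' : (0 : ℝ) < Q i' := by exact_mod_cast hQ i'
  have h1 : |(a i : ℝ) * Q i - a i' * Q i'| ≤ 4 * X := by exact_mod_cast (mem_filter.1 ha).2 i i'
  have h2 : (X : ℝ) ≤ K * Q i' := by exact_mod_cast hK i'
  rw [show a i * ((Q i : ℝ) / Q i') - a i' = (a i * Q i - a i' * Q i') / Q i' by field_simp,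
    abs_div, abs_of_pos hQ', div_le_iff₀ hQ']
  push_cast
  linarith

/-- The admissible triples of lags for the cell of `n`. -/
theorem dg_le_card (hs : s.Nonempty) (hρ : ∀ i j, ρ i j ≤ ρ i (j + 1)) (h0 : ∀ i, ρ i 0 = 0)
    (hN : N ≤ 2 ^ M) (hJ : ∀ i ∈ s, N ≤ q i ^ ρ i J) {X A Lm : ℕ}
    (hX : ∀ i : s, q i ^ ρ i j ≤ X) (hA : ∀ i : s, 2 * q i ^ (ρ i (j + 1) - ρ i j) ≤ A)
    (hL : ∀ i : s, ρ i (j + 1) - ρ i j ≤ Lm) {n : ℕ} (hn : n < N) :
    (tower hs hρ h0 hN hJ).dg j (key q s ρ j n) ≤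
      ((((Adm (fun i : s => q i ^ ρ i j) X A).filter fun a =>
        ∀ i : s, (a i).natAbs < q i ^ (ρ i (j + 1) - ρ i j)) ×ˢ
        Adm (fun i : s => q i ^ ρ i j) X A ×ˢ
        (Adm (fun i : s => q i ^ ρ i j) X A).filter fun e => ∀ i : s, e i ∈ Es (q i) Lm).filter
      fun x => ∀ i : s, key q s ρ j n i % q i ^ (ρ i (j + 1) - ρ i j) ∈
        Zs (q i) (ρ i (j + 1) - ρ i j) (x.1 i) (x.2.1 i) (x.2.2 i)).card := by
  classical
  have hq : ∀ i, 0 < q i := fun i => (Fact.out : (q i).Prime).pos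
  refine card_le_card_of_injOn (fun x => (fun i => (x.2.1 i : ℤ) - key q s ρ j n i,
    fun i => (x.2.2 i : ℤ) - key q s ρ j n i,
    fun i => (x.1 i : ℤ) + key q s ρ j n i - x.2.1 i - x.2.2 i)) (fun x hx => ?_)
    fun x _ y _ e => ?_
  swap
  · simp only [Prod.mk.injEq, funext_iff] at e
    refine Prod.ext (funext fun i => ?_) (Prod.ext (funext fun i => ?_) (funext fun i => ?_)) <;>
      have := e.1 i <;> have := e.2.1 i <;> have := e.2.2 i <;> omega
  obtain ⟨k₂, k₃, k₄⟩ := x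
  obtain ⟨h1, h2⟩ := mem_filter.1 (mem_coe.1 hx)
  simp only [Tower.sib, mem_product, mem_filter, mem_image, mem_range] at h1
  obtain ⟨⟨⟨n₂, m₂, rfl⟩, u₂⟩, ⟨⟨n₃, m₃, rfl⟩, u₃⟩, ⟨n₄, m₄, rfl⟩, u₄⟩ := h1
  have hc := cong_of hN hn m₂ m₃ m₄ h2
  have dec : ∀ {n' : ℕ}, (tower hs hρ h0 hN hJ).up j ((tower hs hρ h0 hN hJ).key j n') =
      (tower hs hρ h0 hN hJ).up j (key q s ρ j n) → ∀ i : s, (key q s ρ j n' i : ℤ) =
        (q i ^ (ρ i (j + 1) - ρ i j) * (key q s ρ j n i / q i ^ (ρ i (j + 1) - ρ i j)) : ℕ) +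
        (key q s ρ j n' i % q i ^ (ρ i (j + 1) - ρ i j) : ℕ) ∧
      key q s ρ j n' i % q i ^ (ρ i (j + 1) - ρ i j) < q i ^ (ρ i (j + 1) - ρ i j) ∧
      0 ≤ key q s ρ j n' i % q i ^ (ρ i (j + 1) - ρ i j) := by
    intro n' h i
    have h3 : key q s ρ j n' i / q i ^ (ρ i (j + 1) - ρ i j) =
      key q s ρ j n i / q i ^ (ρ i (j + 1) - ρ i j) := congrFun h i
    rw [← h3, ← Nat.cast_add, Nat.div_add_mod]
    exact ⟨rfl, Nat.mod_lt _ (pow_pos (hq i) _), Nat.zero_le _⟩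
  have pos : ∀ (n' : ℕ) (i : s), (key q s ρ j n' i : ℤ) * (q i ^ ρ i j : ℕ) ≤ n' ∧
      (n' : ℤ) ≤ key q s ρ j n' i * (q i ^ ρ i j : ℕ) + X := fun n' i => by
    have h3 := Nat.div_add_mod' n' (q i ^ ρ i j)
    have h4 := Nat.mod_lt n' (pow_pos (hq i) (ρ i j))
    have h5 := hX i
    have h6 := Nat.zero_le (n' % q i ^ ρ i j)
    rw [← Nat.cast_mul, key]
    omega
  have d₁ := dec (n' := n) rfl
  have d₂ := dec u₂
  have d₃ := dec u₃
  have d₄ := dec u₄
  change ∀ i, Cong _ _ _ (key q s ρ j n₂ i) (key q s ρ j n₃ i) (key q s ρ j n₄ i) at hc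
  have adm : ∀ {n' : ℕ}, (∀ i : s, |(key q s ρ j n' i : ℤ) - key q s ρ j n i| ≤ A) →
      (fun i => (key q s ρ j n' i : ℤ) - key q s ρ j n i) ∈ Adm (fun i : s => q i ^ ρ i j) X A :=
    fun {n'} h => mem_filter.2 ⟨Fintype.mem_piFinset.2 fun i => mem_Icc.2 (abs_le.1 (h i)),
      fun i i' => by
        have := pos n i
        have := pos n i'
        have := pos n' i
        have := pos n' i'
        simp only [sub_mul]
        rw [abs_le]
        omega⟩
  refine mem_coe.2 (mem_filter.2 ⟨mem_product.2 ⟨mem_filter.2 ⟨adm fun i => ?_, fun i => ?_⟩,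
    mem_product.2 ⟨adm fun i => ?_, mem_filter.2 ⟨mem_filter.2
      ⟨Fintype.mem_piFinset.2 fun i => mem_Icc.2 ?_, fun i i' => ?_⟩, fun i => ?_⟩⟩⟩, fun i =>
    mem_filter.2 ⟨mem_range.2 (d₁ i).2.1, _, _, _, _, hc i, rfl, ?_, ?_, ?_⟩⟩)
  · have := d₁ i; have := d₃ i; have := hA i
    rw [abs_le]
    omega
  · have := d₁ i; have := d₃ i
    change ((key q s ρ j n₃ i : ℤ) - key q s ρ j n i).natAbs < _
    omega
  · have := d₁ i; have := d₄ i; have := hA i
    rw [abs_le]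
    omega
  · have := d₁ i; have := d₂ i; have := d₃ i; have := d₄ i; have := hA i
    change _ ≤ (key q s ρ j n₂ i : ℤ) + key q s ρ j n i - key q s ρ j n₃ i - key q s ρ j n₄ i ∧
      (key q s ρ j n₂ i : ℤ) + key q s ρ j n i - key q s ρ j n₃ i - key q s ρ j n₄ i ≤ _
    omega
  · have := pos n i; have := pos n₂ i; have := pos n₃ i; have := pos n₄ i
    have := pos n i'; have := pos n₂ i'; have := pos n₃ i'; have := pos n₄ i'
    change |((key q s ρ j n₂ i : ℤ) + key q s ρ j n i - key q s ρ j n₃ i - key q s ρ j n₄ i) * _ -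
      ((key q s ρ j n₂ i' : ℤ) + key q s ρ j n i' - key q s ρ j n₃ i' - key q s ρ j n₄ i') * _| ≤ _
    simp only [sub_mul, add_mul]
    rw [abs_le]
    omega
  · refine Es_mono _ (hL i) ?_
    convert mem_Es (hq i) _ (hc i) using 1
    have := d₁ i; have := d₂ i; have := d₃ i; have := d₄ i
    change (key q s ρ j n₂ i : ℤ) + key q s ρ j n i - key q s ρ j n₃ i - key q s ρ j n₄ i = _
    omega
  · exact (add_sub_cancel _ _).symm
  · exact (add_sub_cancel _ _).symm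
  · change (key q s ρ j n₂ i : ℤ) = _ + ((key q s ρ j n₄ i : ℤ) - _) +
      (((key q s ρ j n₃ i : ℤ) - _) + ((key q s ρ j n₂ i : ℤ) + _ - key q s ρ j n₃ i -
        key q s ρ j n₄ i))
    ring

end Pool.Agent.Lib.MP_490b4c_nt.Half
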