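import Pool.Agent.Lib.MP_490b4c_nt.Defs

/-! Uniform images of translation invariant measures and a second moment bound. -/

open MeasureTheory ProbabilityTheory Set

namespace Pool.Agent.Lib.MP_490b4c_nt

variable {Ω : Type} [AddCommGroup Ω] [MeasurableSpace Ω] [MeasurableAdd Ω] {P : Measure Ω}
  [IsProbabilityMeasure P] [P.IsAddLeftInvariant]

theorem real_fiber {H : Type} [AddCommGroup H] [Fintype H] (φ : Ω →+ H)
    (hm : ∀ h, MeasurableSet (φ ⁻¹' {h})) (hs : Function.Surjective φ) (h : H) :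
    P.real (φ ⁻¹' {h}) = 1 / Fintype.card H := by
  have key : ∀ h, P.real (φ ⁻¹' {h}) = P.real (φ ⁻¹' {0}) := by
    intro h
    obtain ⟨a, rfl⟩ := hs h
    rw [Measure.real, ← measure_preimage_add P a]
    congr 2
    ext x
    simp
  have h1 : ∑ h : H, P.real (φ ⁻¹' {h}) = 1 := by
    rw [← measureReal_biUnion_finset (fun a _ b _ hab => (disjoint_singleton.2 hab).preimage φ)
      (fun a _ => hm a)]
    have : ⋃ h ∈ (Finset.univ : Finset H), φ ⁻¹' {h} = univ := by
      ext x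
      simp
    rw [this, probReal_univ]
  simp only [key, Finset.sum_const, Finset.card_univ, nsmul_eq_mul] at h1
  have h2 : (Fintype.card H : ℝ) ≠ 0 := Nat.cast_ne_zero.2 Fintype.card_ne_zero
  rw [key, eq_div_iff h2, mul_comm, h1]

omit [AddCommGroup Ω] [MeasurableAdd Ω] in
theorem meas_pre {H : Type} {φ : Ω → H} (hm : ∀ h, MeasurableSet (φ ⁻¹' {h})) (S : Finset H) :
    MeasurableSet (φ ⁻¹' (S : Set H)) := by
  have : φ ⁻¹' (S : Set H) = ⋃ h ∈ S, φ ⁻¹' {h} := by
    ext x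
    simp
  rw [this]
  exact Finset.measurableSet_biUnion _ fun h _ => hm h

theorem real_pre {H : Type} [AddCommGroup H] [Fintype H] (φ : Ω →+ H)
    (hm : ∀ h, MeasurableSet (φ ⁻¹' {h})) (hs : Function.Surjective φ) (S : Finset H) :
    P.real (φ ⁻¹' (S : Set H)) = S.card / Fintype.card H := by
  have : φ ⁻¹' (S : Set H) = ⋃ h ∈ S, φ ⁻¹' {h} := by
    ext x
    simp
  rw [this, measureReal_biUnion_finset (fun a _ b _ hab => (disjoint_singleton.2 hab).preimage φ)
      (fun a _ => hm a)]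
  simp only [real_fiber φ hm hs, Finset.sum_const, nsmul_eq_mul]
  ring

/-- Second moment bound for pairwise independent tries, on a fibre of `ψ`. -/
theorem tries_bound {H K I : Type} [AddCommGroup H] [Fintype H] [AddCommGroup K] [Fintype K]
    [Fintype I] (ψ : Ω →+ K) (φ : I → Ω →+ H) (hψ : ∀ u, MeasurableSet (ψ ⁻¹' {u}))
    (hφ : ∀ i h, MeasurableSet (φ i ⁻¹' {h}))
    (h1 : ∀ i, Function.Surjective (ψ.prod (φ i)))
    (h2 : ∀ i j, i ≠ j → Function.Surjective (ψ.prod ((φ i).prod (φ j)))) (u : K)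
    (S : Finset H) :
    P.real {ω | ψ ω = u ∧ ∀ i, φ i ω ∉ S} * (Fintype.card I * S.card) ≤
      Fintype.card H / Fintype.card K := by
  classical
  rcases isEmpty_or_nonempty I with hI | hI
  · simp only [Fintype.card_eq_zero, Nat.cast_zero, zero_mul, mul_zero]
    positivity
  have hH : (0 : ℝ) < Fintype.card H := Nat.cast_pos.2 Fintype.card_pos
  have hK : (0 : ℝ) < Fintype.card K := Nat.cast_pos.2 Fintype.card_pos
  have hI' : (0 : ℝ) < Fintype.card I := Nat.cast_pos.2 Fintype.card_pos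
  set ρ : ℝ := S.card / Fintype.card H with hρ
  let A : I → Set Ω := fun i => ψ ⁻¹' {u} ∩ φ i ⁻¹' (S : Set H)
  have hA : ∀ i, MeasurableSet (A i) := fun i => (hψ u).inter (meas_pre (hφ i) S)
  have e0 : P.real (ψ ⁻¹' {u}) = 1 / Fintype.card K :=
    real_fiber ψ hψ (fun k => (h1 (Classical.arbitrary I) (k, 0)).imp fun _ h => congrArg Prod.fst h) u
  have m1 : ∀ i h, MeasurableSet (ψ.prod (φ i) ⁻¹' {h}) := fun i h => by
    convert (hψ h.1).inter (hφ i h.2) using 1
    ext x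
    simp [Prod.ext_iff]
  have e1 : ∀ i, P.real (A i) = ρ / Fintype.card K := fun i => by
    have := real_pre (P := P) _ (m1 i) (h1 i) ({u} ×ˢ S)
    rw [show A i = ψ.prod (φ i) ⁻¹' (({u} ×ˢ S : Finset _) : Set _) by
      ext x; simp [A, eq_comm]; tauto, this]
    simp [hρ]
    field_simp
  have e2 : ∀ i j, i ≠ j → P.real (A i ∩ A j) = ρ ^ 2 / Fintype.card K := fun i j hij => by
    have m2 : ∀ h, MeasurableSet (ψ.prod ((φ i).prod (φ j)) ⁻¹' {h}) := fun h => by
      convert (hψ h.1).inter ((hφ i h.2.1).inter (hφ j h.2.2)) using 1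
      ext x
      simp [Prod.ext_iff]
    have := real_pre (P := P) _ m2 (h2 i j hij) ({u} ×ˢ S ×ˢ S)
    rw [show A i ∩ A j = ψ.prod ((φ i).prod (φ j)) ⁻¹' (({u} ×ˢ S ×ˢ S : Finset _) : Set _) by
      ext x; simp [A, eq_comm]; tauto, this]
    simp [hρ]
    field_simp
  let χ : Set Ω → Ω → ℝ := fun s => s.indicator 1
  have hχ : ∀ s, MeasurableSet s → Integrable (χ s) P := fun s hs =>
    (integrable_const 1).indicator hs
  have iχ : ∀ s, MeasurableSet s → ∫ ω, χ s ω ∂P = P.real s := fun s hs =>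
    integral_indicator_one hs
  set n : ℝ := (Fintype.card I : ℝ) with hn
  have hE : MeasurableSet {ω | ψ ω = u ∧ ∀ i, φ i ω ∉ S} :=
    by
      convert (hψ u).inter (MeasurableSet.iInter fun i => (meas_pre (hφ i) S).compl) using 1
      ext
      simp
  have hpt : ∀ ω, (n * ρ) ^ 2 * χ {ω | ψ ω = u ∧ ∀ i, φ i ω ∉ S} ω ≤
      ∑ i, ∑ j, χ (A i ∩ A j) ω - 2 * (n * ρ) * ∑ i, χ (A i) ω + (n * ρ) ^ 2 * χ (ψ ⁻¹' {u}) ω := by
    intro ω
    have e3 : ∑ i, ∑ j, χ (A i ∩ A j) ω = (∑ i, χ (A i) ω) ^ 2 := by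
      rw [sq, Finset.sum_mul_sum]
      simp only [χ, inter_indicator_one, Pi.mul_apply]
    rw [e3]
    by_cases h : ψ ω = u
    · have : χ (ψ ⁻¹' {u}) ω = 1 := indicator_of_mem (show ω ∈ ψ ⁻¹' {u} from h) _
      rw [this]
      by_cases h' : ∀ i, φ i ω ∉ S
      · have h3 : ∀ i, χ (A i) ω = 0 := fun i => indicator_of_notMem (fun h => h' i h.2) _
        have h4 : χ {ω | ψ ω = u ∧ ∀ i, φ i ω ∉ S} ω = 1 := indicator_of_mem (by exact ⟨h, h'⟩) _
        simp [h3, h4]
      · have h4 : χ {ω | ψ ω = u ∧ ∀ i, φ i ω ∉ S} ω = 0 :=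
          indicator_of_notMem (fun h => h' h.2) _
        rw [h4]
        nlinarith [sq_nonneg (∑ i, χ (A i) ω - n * ρ)]
    · have h3 : ∀ i, χ (A i) ω = 0 := fun i => indicator_of_notMem (fun h' => h h'.1) _
      have h4 : χ {ω | ψ ω = u ∧ ∀ i, φ i ω ∉ S} ω = 0 := indicator_of_notMem (fun h' => h h'.1) _
      have h5 : χ (ψ ⁻¹' {u}) ω = 0 := indicator_of_notMem (show ω ∉ ψ ⁻¹' {u} from h) _
      simp [h3, h4, h5]
  have i1 : Integrable (fun ω => ∑ i, ∑ j, χ (A i ∩ A j) ω) P :=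
    integrable_finsetSum _ fun i _ => integrable_finsetSum _ fun j _ => hχ _ ((hA i).inter (hA j))
  have i2 : Integrable (fun ω => 2 * (n * ρ) * ∑ i, χ (A i) ω) P :=
    (integrable_finsetSum _ fun i _ => hχ _ (hA i)).const_mul _
  have i3 : Integrable (fun ω => ∑ i, ∑ j, χ (A i ∩ A j) ω - 2 * (n * ρ) * ∑ i, χ (A i) ω) P :=
    i1.sub i2
  have hint := integral_mono ((hχ _ hE).const_mul _)
    (i3.add ((hχ _ (hψ u)).const_mul ((n * ρ) ^ 2))) hpt
  simp only [Pi.add_apply] at hint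
  rw [integral_add i3 ((hχ _ (hψ u)).const_mul _), integral_sub i1 i2,
    integral_const_mul, integral_const_mul, integral_const_mul, iχ _ hE, iχ _ (hψ u),
    integral_finsetSum _ fun i _ => hχ _ (hA i), integral_finsetSum _ fun i _ =>
      integrable_finsetSum _ fun j _ => hχ _ ((hA i).inter (hA j))] at hint
  have e4 : ∀ i, ∫ ω, ∑ j, χ (A i ∩ A j) ω ∂P ≤ (ρ + n * ρ ^ 2) / Fintype.card K := by
    intro i
    rw [integral_finsetSum _ fun j _ => hχ _ ((hA i).inter (hA j))]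
    calc _ ≤ ∑ j : I, ((if j = i then ρ / Fintype.card K else 0) + ρ ^ 2 / Fintype.card K) := by
          refine Finset.sum_le_sum fun j _ => ?_
          rw [iχ _ ((hA i).inter (hA j))]
          split_ifs with h
          · rw [h, inter_self, e1]
            exact le_add_of_nonneg_right (by positivity)
          · rw [e2 i j (Ne.symm h), zero_add]
      _ = _ := by
          simp [Finset.sum_add_distrib, hn]
          ring
  have e5 := Finset.sum_le_sum fun i (_ : i ∈ Finset.univ) => e4 i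
  simp only [iχ _ (hA _), e1, e0, Finset.sum_const, Finset.card_univ, nsmul_eq_mul, ← hn] at hint e5
  have hS : (S.card : ℝ) = ρ * Fintype.card H := by rw [hρ, div_mul_cancel₀ _ hH.ne']
  have hρ0 : 0 ≤ ρ := div_nonneg (Nat.cast_nonneg _) hH.le
  clear_value ρ n
  rcases hρ0.eq_or_lt with h | h
  · rw [hS, ← h, zero_mul, mul_zero, mul_zero]
    exact (div_pos hH hK).le
  have e6 : (n * ρ) * ((n * ρ) * P.real {ω | ψ ω = u ∧ ∀ i, φ i ω ∉ S}) ≤
      (n * ρ) * (1 / Fintype.card K) := by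
    have : n * ((ρ + n * ρ ^ 2) / Fintype.card K) - 2 * (n * ρ) * (n * (ρ / Fintype.card K)) +
      (n * ρ) ^ 2 * (1 / Fintype.card K) = (n * ρ) * (1 / Fintype.card K) := by ring
    nlinarith
  have e7 := le_of_mul_le_mul_left e6 (mul_pos hI' h)
  rw [hS]
  calc _ = (n * ρ * P.real {ω | ψ ω = u ∧ ∀ i, φ i ω ∉ S}) * Fintype.card H := by ring
    _ ≤ 1 / Fintype.card K * Fintype.card H := by gcongr
    _ = _ := by ring

variable {l : ℕ} {d q : Fin l → ℕ} [∀ i, NeZero (q i)]

instance : IsProbabilityMeasure (prob d q) := by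
  unfold prob
  infer_instance

instance : (prob d q).IsAddLeftInvariant := by
  refine ⟨fun a => ?_⟩
  have := Measure.infinitePi_map_pi (fun x : Coord d × ℕ × ℕ => uniformOn (univ : Set (ZMod (q x.1.1))))
    (f := fun x y => a x + y) fun _ => measurable_from_top
  refine this.trans (congrArg _ (funext fun x => ?_))
  ext s hs
  rw [Measure.map_apply measurable_from_top hs, uniformOn_univ, uniformOn_univ,
    measure_preimage_add]

end Pool.Agent.Lib.MP_490b4c_nt
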