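import Pool.Agent.Lib.MP_490b4c_nt.Disc
import Pool.Agent.Lib.MP_490b4c_nt.Prob

/-! The almost sure lower bound for the discrepancy. -/

open MeasureTheory Finset Real Filter

namespace Pool.Agent.Lib.MP_490b4c_nt

theorem solve1 {R : Type} [CommRing R] {K : ℕ → R} {t j : ℕ} (hj : j < t) (h : K j = 1) (v : R) :
    ∃ f : ℕ → R, ∑ i ∈ range t, K i * f i = v :=
  ⟨Pi.single j v, by simp [Pi.single_apply, hj, h]⟩

theorem solve2 {R : Type} [CommRing R] {K K' : ℕ → R} {t i j : ℕ} (hi : i < t) (hj : j < t)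
    (h : IsUnit (K i * K' j - K j * K' i)) (v v' : R) :
    ∃ f : ℕ → R, ∑ x ∈ range t, K x * f x = v ∧ ∑ x ∈ range t, K' x * f x = v' := by
  obtain ⟨w, hw⟩ := h.exists_left_inv
  refine ⟨Pi.single i (w * (v * K' j - v' * K j)) + Pi.single j (w * (v' * K i - v * K' i)), ?_, ?_⟩
  · simp only [Pi.add_apply, mul_add, sum_add_distrib, Pi.single_apply, mul_ite, mul_zero,
      sum_ite_eq', mem_range, hi, hj, if_true]
    linear_combination v * hw
  · simp only [Pi.add_apply, mul_add, sum_add_distrib, Pi.single_apply, mul_ite, mul_zero,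
      sum_ite_eq', mem_range, hi, hj, if_true]
    linear_combination v' * hw

theorem level_sets {H : Type} [Fintype H] {Z : H → ℝ} {c p L : ℝ} (hc : 0 ≤ c) (hp : 0 ≤ p)
    {b : ℕ} (h1 : ∀ v, Z v ≤ c * p ^ b)
    (h2 : ∀ t < b, p ^ t * (univ.filter fun v => c * p ^ t < Z v).card ≤ L) :
    ∑ v, Z v ≤ c * (Fintype.card H + b * (p * L)) := by
  have key : ∀ v n, Z v ≤ c * p ^ n →
      Z v ≤ c * (1 + ∑ t ∈ range n, p ^ (t + 1) * if c * p ^ t < Z v then 1 else 0) := by
    intro v n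
    induction n with
    | zero => simp
    | succ n ih =>
      intro h
      have h0 : 0 ≤ ∑ t ∈ range n, p ^ (t + 1) * if c * p ^ t < Z v then (1 : ℝ) else 0 :=
        sum_nonneg fun _ _ => by positivity
      rw [sum_range_succ]
      split_ifs with h3
      · nlinarith
      · simpa using ih (not_lt.1 h3)
  refine (sum_le_sum fun v _ => key v b (h1 v)).trans ?_
  rw [← mul_sum, sum_add_distrib, sum_comm]
  refine mul_le_mul_of_nonneg_left (add_le_add (by simp) ?_) hc
  refine (sum_le_card_nsmul _ _ (p * L) fun t ht => ?_).trans_eq (by simp)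
  rw [← mul_sum, sum_boole, pow_succ', mul_assoc]
  exact mul_le_mul_of_nonneg_left (h2 t (mem_range.1 ht)) hp

variable {l : ℕ} {d q : Fin l → ℕ} [∀ i, NeZero (q i)]

/-- A combination of rows, cut after `a` columns. -/
def row (k : Coord d) (K : ℕ → ZMod (q k.1)) (t a : ℕ) : Mats d q →+ (Fin a → ZMod (q k.1)) where
  toFun C r := comb k K t C r
  map_zero' := by
    funext r
    simp [comb]
  map_add' C C' := by
    funext r
    simp [comb, mul_add, sum_add_distrib]

theorem meas_row (k : Coord d) (K : ℕ → ZMod (q k.1)) (t a : ℕ) (h : Fin a → ZMod (q k.1)) :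
    MeasurableSet (row k K t a ⁻¹' {h}) := by
  refine Measurable.eq_const (f := row k K t a) (measurable_pi_lambda _ fun r => ?_) h |>.setOf
  change Measurable fun C : Mats d q => ∑ j ∈ range t, K j * C (k, j, r)
  exact Finset.measurable_fun_sum _ fun j _ => (measurable_pi_apply (X := fun x : Coord d × ℕ × ℕ =>
    ZMod (q x.1.1)) (k, j, r)).const_mul _

omit [∀ i, NeZero (q i)] in
theorem exists_mats {k k' : Coord d} (hk : k ≠ k') (f : ℕ → ℕ → ZMod (q k.1))
    (f' : ℕ → ℕ → ZMod (q k'.1)) :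
    ∃ C : Mats d q, (∀ j r, C (k, j, r) = f r j) ∧ ∀ j r, C (k', j, r) = f' r j := by
  classical
  let F : (j : Coord d) → ℕ → ℕ → ZMod (q j.1) := Function.update (Function.update 0 k f) k' f'
  exact ⟨fun x => F x.1 x.2.2 x.2.1, fun j r => by simp [F, hk], fun j r => by simp [F]⟩

theorem ext_fin {R : Type} [Zero R] {a : ℕ} (u : Fin a → R) : ∃ w : ℕ → R, ∀ r : Fin a, w r = u r :=
  ⟨fun r => if h : r < a then u ⟨r, h⟩ else 0, fun r => by simp⟩

theorem rows_bound (k : Coord d) (J m a : ℕ) (S : Finset (Fin a → ZMod (q k.1))) :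
    (prob d q).real {C | ∀ i : Fin m, row k (Pi.single (J + i) 1) (J + m) a C ∉ S} *
      (m * S.card) ≤ (q k.1 : ℝ) ^ a := by
  classical
  have key : ∀ f : ℕ → ℕ → ZMod (q k.1), ∃ C : Mats d q, ∀ j r, C (k, j, r) = f r j := fun f =>
    ⟨fun x => (Function.update (0 : (j : Coord d) → ℕ → ℕ → ZMod (q j.1)) k f) x.1 x.2.2 x.2.1,
      fun j r => by simp⟩
  have := tries_bound (P := prob d q) (0 : Mats d q →+ Unit)
    (fun i : Fin m => row k (Pi.single (J + i) 1) (J + m) a) (fun u => by simp [Set.preimage])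
    (fun i => meas_row _ _ _ _) (fun i u => ?_) (fun i j hij u => ?_) () S
  · simpa using this
  · obtain ⟨w, hw⟩ := ext_fin u.2
    choose f hf using fun r => solve1 (K := Pi.single (J + i) (1 : ZMod (q k.1))) (t := J + m)
      (j := J + i) (by omega) (by simp) (w r)
    obtain ⟨C, hC⟩ := key f
    exact ⟨C, Prod.ext rfl (funext fun r => by simp [row, comb, hC, hf, hw])⟩
  · obtain ⟨w, hw⟩ := ext_fin u.2.1
    obtain ⟨w', hw'⟩ := ext_fin u.2.2
    have h1 : J + i ≠ J + j := fun h => hij (Fin.ext (by omega))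
    choose f hf hf' using fun r => solve2 (K := Pi.single (J + i) (1 : ZMod (q k.1)))
      (K' := Pi.single (J + j) 1) (t := J + m) (i := J + i) (j := J + j) (by omega) (by omega)
      (by simp [Pi.single_eq_of_ne h1, Pi.single_eq_of_ne h1.symm]) (w r) (w' r)
    obtain ⟨C, hC⟩ := key f
    exact ⟨C, Prod.ext rfl (Prod.ext (funext fun r => by simp [row, comb, hC, hf, hw])
      (funext fun r => by simp [row, comb, hC, hf', hw']))⟩

theorem ae_digits : ∀ᵐ C ∂prob d q, ∀ n k J, ∃ j, J ≤ j ∧ ydig C n k j = 0 := by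
  simp only [ae_all_iff]
  intro n k J
  rw [ae_iff, ← measureReal_eq_zero_iff]
  refine le_antisymm (le_of_forall_pos_le_add fun ε hε => ?_) measureReal_nonneg
  obtain ⟨m, hm⟩ := exists_nat_gt ((q k.1 : ℝ) ^ n / ε)
  have h1 := rows_bound (q := q) k J m n {0}
  have h2 : (prob d q).real {C | ¬ ∃ j, J ≤ j ∧ ydig C n k j = 0} ≤ (prob d q).real
      {C | ∀ i : Fin m, row k (Pi.single (J + i) 1) (J + m) n C ∉ ({0} : Finset _)} := by
    refine measureReal_mono fun C hC i hi => hC ⟨J + i, by omega, sum_eq_zero fun r hr => ?_⟩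
    have := congrFun (mem_singleton.1 hi) ⟨r, mem_range.1 hr⟩
    simp [row, comb, Pi.single_apply] at this
    rw [this, zero_mul]
  rw [div_lt_iff₀ hε] at hm
  simp only [card_singleton, Nat.cast_one, mul_one] at h1
  have h3 : (0 : ℝ) < m := by
    have : (0 : ℝ) ≤ (q k.1 : ℝ) ^ n := by positivity
    nlinarith
  nlinarith

/-- The frequencies that are tried. -/
def freq {B t p : ℕ} (x : Fin t → Fin p) (j : ℕ) : ZMod B :=
  if h : j < t then ((x ⟨j, h⟩ : ℕ) : ZMod B) else 1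

theorem freq_bound {k k' : Coord d} (hk : k ≠ k') {s R : ℕ} (hs : s < R)
    (a b t : ℕ) (u : Fin a → ZMod (q k.1)) (S : Finset (Fin b → ZMod (q k'.1))) :
    (prob d q).real {C | row k (Pi.single s 1) R a C = u ∧
      ∀ x : Fin t → Fin (q k'.1).minFac, row k' (freq x) (t + 1) b C ∉ S} *
      (((q k'.1).minFac : ℝ) ^ t * S.card) ≤ (q k'.1 : ℝ) ^ b / (q k.1 : ℝ) ^ a := by
  classical
  have h0 : ∀ x : Fin t → Fin (q k'.1).minFac, freq x t = (1 : ZMod (q k'.1)) := fun x => by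
    simp [freq]
  have := tries_bound (P := prob d q) (row k (Pi.single s 1) R a)
    (fun x : Fin t → Fin (q k'.1).minFac => row k' (freq x) (t + 1) b) (meas_row _ _ _ _)
    (fun i => meas_row _ _ _ _) (fun x v => ?_) (fun x x' hx v => ?_) u S
  · simpa using this
  · obtain ⟨w, hw⟩ := ext_fin v.1
    obtain ⟨w', hw'⟩ := ext_fin v.2
    choose f hf using fun r => solve1 (K := Pi.single s (1 : ZMod (q k.1))) hs (by simp) (w r)
    choose f' hf' using fun r => solve1 (Nat.lt_succ_self t) (h0 x) (w' r)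
    obtain ⟨C, hC, hC'⟩ := exists_mats hk f f'
    exact ⟨C, Prod.ext (funext fun r => by simp [row, comb, hC, hf, hw])
      (funext fun r => by simp [row, comb, hC', hf', hw'])⟩
  · obtain ⟨w, hw⟩ := ext_fin v.1
    obtain ⟨w1, hw1⟩ := ext_fin v.2.1
    obtain ⟨w2, hw2⟩ := ext_fin v.2.2
    obtain ⟨j, hj⟩ := Function.ne_iff.1 hx
    have key : ∀ y y' : Fin (q k'.1).minFac, y < y' →
        IsUnit (((y' : ℕ) : ZMod (q k'.1)) - ((y : ℕ) : ZMod (q k'.1))) := fun y y' h => by
      rw [← Nat.cast_sub h.le, ZMod.isUnit_iff_coprime]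
      have h1 : (y : ℕ) < y' := h
      exact (Nat.coprime_of_lt_minFac (by omega) (by omega)).symm
    have hu : IsUnit (freq x j * freq x' t - freq x t * freq x' j : ZMod (q k'.1)) := by
      rw [h0, h0, mul_one, one_mul, freq, freq, dif_pos j.2, dif_pos j.2]
      rcases lt_or_gt_of_ne hj with h | h
      · exact (IsUnit.sub_iff.1 (key _ _ h))
      · exact key _ _ h
    choose f hf using fun r => solve1 (K := Pi.single s (1 : ZMod (q k.1))) hs (by simp) (w r)
    choose f' hf1 hf2 using fun r => solve2 (Nat.lt_succ_of_lt j.2) (Nat.lt_succ_self t) hu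
      (w1 r) (w2 r)
    obtain ⟨C, hC, hC'⟩ := exists_mats hk f f'
    exact ⟨C, Prod.ext (funext fun r => by simp [row, comb, hC, hf, hw])
      (Prod.ext (funext fun r => by simp [row, comb, hC', hf1, hw1])
        (funext fun r => by simp [row, comb, hC', hf2, hw2]))⟩

theorem bad_null (hq : ∀ i, 2 ≤ q i) {k k' : Coord d} (hk : k ≠ k')
    (hco : (q k.1).Coprime (q k'.1)) {δ : ℝ} (hδ : 0 ≤ δ) (hδ' : δ < expo (q k'.1)) {c : ℝ}
    (hc : 1 ≤ c) : prob d q {C | (∀ n k J, ∃ j, J ≤ j ∧ ydig C n k j = 0) ∧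
      ∀ N : ℕ, N * disc (pt C) N ≤ c * (N : ℝ) ^ δ} = 0 := by
  classical
  rw [← measureReal_eq_zero_iff]
  refine le_antisymm (le_of_forall_pos_le_add fun ε hε => ?_) measureReal_nonneg
  have hA := hq k.1
  have hB := hq k'.1
  have hA' : (2 : ℝ) ≤ q k.1 := by exact_mod_cast hA
  have hB' : (2 : ℝ) ≤ q k'.1 := by exact_mod_cast hB
  have hp : (2 : ℝ) ≤ (q k'.1).minFac := by
    exact_mod_cast (Nat.minFac_prime (by omega)).two_le
  have hp' : ((q k'.1).minFac : ℝ) ≤ q k'.1 := by exact_mod_cast Nat.minFac_le (by omega)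
  set p : ℝ := ((q k'.1).minFac : ℝ) with hpd
  have hlp : 0 < log p := log_pos (by linarith)
  have hlB : 0 < log (q k'.1) := log_pos (by linarith)
  set σ := log p / log (q k'.1) with hσd
  have hσ : 0 < σ := div_pos hlp hlB
  have hσ1 : σ ≤ 1 := (div_le_one hlB).2 (log_le_log (by linarith) hp')
  have hσl : σ * log (q k'.1) = log p := div_mul_cancel₀ _ hlB.ne'
  have hσp : (q k'.1 : ℝ) ^ σ = p := by
    rw [rpow_def_of_pos (by linarith), mul_comm, hσl, exp_log (by linarith)]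
  rw [expo_eq, lt_div_iff₀ (by positivity)] at hδ'
  set φ := ∫ θ, log (mm (q k'.1) σ θ) with hφ
  obtain ⟨η, hη, hφη⟩ : ∃ η, 0 < η ∧ φ - η = δ * (2 * log p) + η :=
    ⟨(φ - δ * (2 * log p)) / 2, by linarith, by ring⟩
  obtain ⟨R, hR⟩ := exists_nat_gt (2 * log p / (η * ε))
  rw [div_lt_iff₀ (by positivity)] at hR
  have hR0 : (0 : ℝ) < R := by
    by_contra h
    nlinarith [mul_pos hη hε]
  set c₀ := (3 * ((q k.1 : ℝ) ^ R * q k'.1 * (c * (q k.1 : ℝ) ^ δ))) ^ σ with hc₀
  have hc1 : 1 ≤ c₀ := by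
    refine one_le_rpow ?_ hσ.le
    have h1 : (1 : ℝ) ≤ (q k.1 : ℝ) ^ R := one_le_pow₀ (by linarith)
    have h2 : (1 : ℝ) ≤ (q k.1 : ℝ) ^ δ := one_le_rpow (by linarith) hδ
    have h3 := one_le_mul_of_one_le_of_one_le (one_le_mul_of_one_le_of_one_le h1
      (show (1 : ℝ) ≤ q k'.1 by linarith)) (one_le_mul_of_one_le_of_one_le hc h2)
    linarith
  obtain ⟨b, hb⟩ := exists_nat_gt (2 * c₀ * (1 + p * (2 * R / ε)) / η ^ 2 + 1)
  have hb0 : 0 ≤ 2 * c₀ * (1 + p * (2 * R / ε)) / η ^ 2 := by positivity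
  have hb1 : (1 : ℝ) < b := by linarith
  have hb2 : c₀ * (1 + b * (p * (2 * R / ε))) < exp (η * b) := by
    have h1 := quadratic_le_exp_of_nonneg (show 0 ≤ η * b by positivity)
    have h2 : 2 * c₀ * (1 + p * (2 * R / ε)) < b * η ^ 2 :=
      (div_lt_iff₀ (by positivity)).1 (by linarith)
    have h3 : 0 ≤ η * b := by positivity
    nlinarith [mul_lt_mul_of_pos_left h2 (show (0 : ℝ) < b by linarith)]
  set a := Nat.clog (q k.1) (q k'.1 ^ b) with ha
  have ha1 : q k'.1 ^ b ≤ q k.1 ^ a := Nat.le_pow_clog hA _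
  have ha2 : q k.1 ^ a ≤ q k.1 * q k'.1 ^ b := by
    have h1 : 1 < q k'.1 ^ b := Nat.one_lt_pow (by rintro rfl; norm_num at hb1) hB
    have h2 := Nat.pow_pred_clog_lt_self hA h1
    have h3 := Nat.clog_pos hA h1
    rw [← ha] at h2 h3
    rw [← Nat.succ_pred_eq_of_pos h3, Nat.pow_succ, mul_comm]
    exact Nat.mul_le_mul_left _ h2.le
  set Λ := c₀ * exp (δ * (2 * log p) * b) with hΛ
  have hΛ1 : 1 ≤ Λ := one_le_mul_of_one_le_of_one_le hc1 (one_le_exp (by positivity))
  let G : Finset (Fin a → ZMod (q k.1)) := univ.filter fun u => (φ - η) * b ≤ WW (q k'.1) b σ u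
  have hG : η * (q k.1 : ℝ) ^ a ≤ G.card * log p := by
    have h1 := sum_WW (A := q k.1) (B := q k'.1) (a := a) (b := b) hσ
    have h2 : ∑ u : Fin a → ZMod (q k.1), WW (q k'.1) b σ u ≤
        ∑ u : Fin a → ZMod (q k.1), ((φ - η) * b + if u ∈ G then b * log p else 0) := by
      refine sum_le_sum fun u _ => ?_
      split_ifs with h
      · have := WW_le (B := q k'.1) (b := b) hA hσ u
        rw [hσl] at this
        have : 0 ≤ (φ - η) * b := by rw [hφη]; positivity
        linarith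
      · simpa [G] using (not_le.1 fun h' => h (mem_filter.2 ⟨mem_univ _, h'⟩)).le
    rw [h1, sum_add_distrib, sum_ite_mem, univ_inter] at h2
    simp only [sum_const, card_univ, Fintype.card_fun, ZMod.card, Fintype.card_fin, nsmul_eq_mul,
      Nat.cast_pow, ← hφ] at h2
    refine le_of_mul_le_mul_left ?_ (show (0 : ℝ) < b by linarith)
    linarith
  have hT : ∀ u ∈ G, ∃ t, 2 * R / ε * (q k'.1 : ℝ) ^ b <
      p ^ t * (univ.filter fun v : Fin b → ZMod (q k'.1) => Λ * p ^ t < ZZ σ u v).card := by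
    intro u hu
    by_contra h
    push Not at h
    have h1 := level_sets (Z := fun v : Fin b → ZMod (q k'.1) => ZZ σ u v) (by linarith : 0 ≤ Λ)
      (by linarith : 0 ≤ p) (b := b) (fun v => (ZZ_le hA hσ u v).trans (by
        rw [hσp]
        exact le_mul_of_one_le_left (by positivity) hΛ1)) fun t _ => h t
    have h2 := (mul_le_mul_of_nonneg_right (exp_le_exp.2 (mem_filter.1 hu).2)
      (by positivity)).trans ((exp_WW_le hA hσ u).trans h1)
    simp only [Fintype.card_fun, ZMod.card, Fintype.card_fin, Nat.cast_pow] at h2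
    rw [hφη, add_mul, exp_add, hΛ] at h2
    have h3 := mul_lt_mul_of_pos_left hb2
      (show 0 < exp (δ * (2 * log p) * b) * (q k'.1 : ℝ) ^ b by positivity)
    linarith
  choose! T hT using hT
  have hsub : {C | (∀ n k J, ∃ j, J ≤ j ∧ ydig C n k j = 0) ∧
      ∀ N : ℕ, N * disc (pt C) N ≤ c * (N : ℝ) ^ δ} ⊆
      {C : Mats d q | ∀ i : Fin R, row k (Pi.single (0 + i) 1) (0 + R) a C ∉ G} ∪
      ⋃ s ∈ range R, ⋃ u ∈ G, {C | row k (Pi.single s 1) R a C = u ∧
        ∀ x : Fin (T u) → Fin (q k'.1).minFac, row k' (freq x) (T u + 1) b C ∉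
          univ.filter fun v : Fin b → ZMod (q k'.1) => Λ * p ^ T u < ZZ σ u v} := by
    rintro C ⟨h1, h2⟩
    by_contra h
    simp only [Set.mem_union, Set.mem_ofPred_eq, not_or, not_forall, not_not, zero_add,
      Set.mem_iUnion, not_exists, not_and, mem_filter, mem_univ, true_and] at h
    obtain ⟨⟨i, hi⟩, h⟩ := h
    obtain ⟨x, hx⟩ := h i (mem_range.2 i.2) _ hi rfl
    generalize T (row k (Pi.single (i : ℕ) 1) R a C) = t at x hx
    refine hx.not_ge ((ZZ_le_of hA hσ (by linarith) _ _ (by positivity)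
      (energy_le hA hB hco ha1 (comb k (Pi.single (i : ℕ) 1) R C) (comb k' (freq x) (t + 1) C)
      (y := (q k.1 : ℝ) ^ R * (q k'.1 : ℝ) ^ (t + 1) *
        (c * ((q k.1 : ℝ) * ((q k'.1 : ℝ) ^ b) ^ 2) ^ δ)) fun N hN => ?_)).trans_eq ?_)
    · refine (sum_le_disc hq h1 hk _ _ R t (by simp [freq]) N).trans ?_
      refine mul_le_mul_of_nonneg_left ((h2 N).trans ?_) (by positivity)
      gcongr
      have : N ≤ q k.1 * (q k'.1 ^ b) ^ 2 := hN.trans (by nlinarith)
      exact_mod_cast this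
    · have e1 : exp (δ * (2 * log p) * b) = ((((q k'.1 : ℝ) ^ b) ^ 2) ^ δ) ^ σ := by
        rw [← pow_mul, ← rpow_natCast, ← rpow_mul (by positivity), ← rpow_mul (by positivity),
          rpow_def_of_pos (by positivity), ← hσl]
        congr 1
        push_cast
        ring
      rw [hΛ, hc₀, e1, ← hσp, rpow_pow_comm (by positivity), ← mul_rpow (by positivity) (by positivity),
        ← mul_rpow (by positivity) (by positivity), mul_rpow (x := (q k.1 : ℝ)) (by positivity)
          (by positivity)]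
      congr 1
      ring
  refine (measureReal_mono hsub).trans ((measureReal_union_le _ _).trans ?_)
  have hAa : (0 : ℝ) < (q k.1 : ℝ) ^ a := by positivity
  have hBb : (0 : ℝ) < (q k'.1 : ℝ) ^ b := by positivity
  have b1 := rows_bound (q := q) k 0 R a G
  have b2 : (prob d q).real {C : Mats d q | ∀ i : Fin R,
      row k (Pi.single (0 + i) 1) (0 + R) a C ∉ G} ≤ ε / 2 := by
    set x := (prob d q).real {C : Mats d q | ∀ i : Fin R,
      row k (Pi.single (0 + i) 1) (0 + R) a C ∉ G}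
    have hx : 0 ≤ x := measureReal_nonneg
    have h1 : x * R * η * (q k.1 : ℝ) ^ a ≤ log p * (q k.1 : ℝ) ^ a := by
      nlinarith [mul_le_mul_of_nonneg_left hG (show 0 ≤ x * R by positivity),
        mul_le_mul_of_nonneg_left b1 hlp.le]
    have h2 := le_of_mul_le_mul_right h1 hAa
    refine le_of_mul_le_mul_right ?_ (mul_pos hR0 hη)
    linarith
  have b3 : ∀ s ∈ range R, ∀ u ∈ G, (prob d q).real {C | row k (Pi.single s 1) R a C = u ∧
      ∀ x : Fin (T u) → Fin (q k'.1).minFac, row k' (freq x) (T u + 1) b C ∉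
        univ.filter fun v : Fin b → ZMod (q k'.1) => Λ * p ^ T u < ZZ σ u v} ≤
      ε / (2 * R) / (q k.1 : ℝ) ^ a := by
    intro s hs u hu
    have h1 := (mul_le_mul_of_nonneg_left (hT u hu).le measureReal_nonneg).trans
      (freq_bound hk (mem_range.1 hs) a b (T u) u _)
    refine le_of_mul_le_mul_right (h1.trans_eq ?_) (by positivity)
    field_simp
  have b4 : (G.card : ℝ) ≤ (q k.1 : ℝ) ^ a := by
    have := card_le_univ G
    simp only [Fintype.card_fun, ZMod.card, Fintype.card_fin] at this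
    exact_mod_cast this
  refine (add_le_add b2 ((measureReal_biUnion_finset_le _ _).trans (sum_le_card_nsmul _ _
    (ε / (2 * R)) fun s hs => (measureReal_biUnion_finset_le _ _).trans
      ((sum_le_card_nsmul _ _ _ (b3 s hs)).trans ?_)))).trans_eq ?_
  · rw [nsmul_eq_mul, mul_div_assoc', div_le_iff₀ hAa, mul_comm]
    gcongr
  · rw [nsmul_eq_mul, card_range]
    field_simp
    ring

theorem main (hq : ∀ i, 2 ≤ q i) {k k' : Coord d} (hk : k ≠ k')
    (hco : (q k.1).Coprime (q k'.1)) {δ : ℝ} (hδ : δ < expo (q k'.1)) (h0 : 0 < expo (q k'.1)) :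
    ∀ᵐ C ∂prob d q, ∀ c : ℝ, ∃ᶠ N : ℕ in atTop, c * (N : ℝ) ^ (δ - 1) < disc (pt C) N := by
  have key : ∀ᵐ C ∂prob d q, ∀ m : ℕ, ¬ ((∀ n k J, ∃ j, J ≤ j ∧ ydig C n k j = 0) ∧
      ∀ N : ℕ, N * disc (pt C) N ≤ (m + 1) * (N : ℝ) ^ max δ 0) :=
    ae_all_iff.2 fun m => measure_eq_zero_iff_ae_notMem.1
      (bad_null hq hk hco (le_max_right _ _) (max_lt hδ h0) (by linarith [m.cast_nonneg (α := ℝ)]))
  filter_upwards [key, ae_digits] with C h1 h2 c
  by_contra h
  obtain ⟨N₀, h⟩ := eventually_atTop.1 (not_frequently.1 h)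
  obtain ⟨m, hm⟩ := exists_nat_ge (max c N₀)
  refine h1 m ⟨h2, fun N => ?_⟩
  rcases N.eq_zero_or_pos with rfl | hN
  · simp only [Nat.cast_zero, zero_mul]
    positivity
  have hN' : (1 : ℝ) ≤ N := by exact_mod_cast hN
  have h3 : (1 : ℝ) ≤ (N : ℝ) ^ max δ 0 := one_le_rpow hN' (le_max_right _ _)
  have h4 := le_max_left c N₀
  have h5 := le_max_right c N₀
  rcases lt_or_ge N N₀ with h6 | h6
  · have h7 : (N : ℝ) ≤ N₀ := by exact_mod_cast h6.le
    nlinarith [disc_le_one (pt C) N, m.cast_nonneg (α := ℝ)]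
  · have h7 := mul_le_mul_of_nonneg_left (not_lt.1 (h N h6)) (show (0 : ℝ) ≤ N by linarith)
    rw [rpow_sub_one (by linarith), mul_left_comm, mul_div_cancel₀ _ (by linarith)] at h7
    have h8 := rpow_le_rpow_of_exponent_le hN' (le_max_left δ 0)
    have h9 : (0 : ℝ) ≤ (N : ℝ) ^ δ := by positivity
    nlinarith [m.cast_nonneg (α := ℝ)]

end Pool.Agent.Lib.MP_490b4c_nt
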