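import Pool.Agent.Lib.MP_490b4c_nt.TwoETK

/-! Decomposition of boxes into elementary intervals with a budget on the total level. -/

open Finset Real

namespace Pool.Agent.Lib.MP_490b4c_nt

namespace One

theorem chain {B : ℕ} (hB : 1 ≤ B) {F : ℕ → ℝ} (h0 : F 0 = 0) {t : ℕ} {E : ℕ → ℝ}
    (hE : ∀ i, 0 ≤ E i) (u : ℕ) (hu : u ≤ t)
    (h : ∀ i ≤ u, ∀ P < B ^ i, |F ((P + 1) * B ^ (t - i)) - F (P * B ^ (t - i))| ≤ E i) :
    ∀ x ≤ B ^ u, |F (x * B ^ (t - u))| ≤ B * ∑ i ∈ range (u + 1), E i := by
  have hB' : (1 : ℝ) ≤ B := by exact_mod_cast hB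
  induction u with
  | zero =>
    intro x hx
    have h1 := h 0 le_rfl 0 (by simp)
    have h2 := hE 0
    rw [pow_zero] at hx
    rw [zero_mul, h0, sub_zero, zero_add] at h1
    rw [zero_add, sum_range_one]
    interval_cases x
    · rw [zero_mul, h0, abs_zero]
      positivity
    · nlinarith
  | succ u ih =>
    intro x hx
    have h1 := ih (by omega) (fun i hi => h i (by omega)) (x / B)
      (Nat.div_le_of_le_mul (by rwa [pow_succ'] at hx))
    have h2 : ∀ r, x / B * B + r ≤ B ^ (u + 1) →
        |F ((x / B * B + r) * B ^ (t - (u + 1))) - F (x / B * B ^ (t - u))| ≤ r * E (u + 1) := by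
      intro r
      induction r with
      | zero =>
        intro _
        rw [show t - u = t - (u + 1) + 1 by omega, pow_succ', add_zero, mul_assoc]
        simp
      | succ r ihr =>
        intro hr
        have h3 := h (u + 1) le_rfl (x / B * B + r) (by omega)
        have h4 := ihr (by omega)
        rw [← add_assoc]
        push_cast
        linarith [abs_sub_le (F ((x / B * B + r + 1) * B ^ (t - (u + 1))))
          (F ((x / B * B + r) * B ^ (t - (u + 1)))) (F (x / B * B ^ (t - u)))]
    have h3 := h2 (x % B) (by rwa [Nat.div_add_mod'])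
    rw [Nat.div_add_mod'] at h3
    have h4 : ((x % B : ℕ) : ℝ) ≤ B := by exact_mod_cast (Nat.mod_lt x hB).le
    have h5 := mul_le_mul_of_nonneg_right h4 (hE (u + 1))
    rw [sum_range_succ, mul_add]
    linarith [abs_sub_abs_le_abs_sub (F (x * B ^ (t - (u + 1)))) (F (x / B * B ^ (t - u)))]

theorem geo {b : ℝ} (hb : 2 ≤ b) (w : ℕ) : ∑ e ∈ range w, b ^ e ≤ b ^ w := by
  induction w with
  | zero => simp
  | succ w ih =>
    rw [sum_range_succ, pow_succ]
    nlinarith [pow_pos (show 0 < b by linarith) w]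

theorem geo' {b : ℝ} (hb : 2 ≤ b) (u L S : ℕ) :
    (∑ i ∈ range (u + 1), if L ≤ i then if S ≤ u - i then b ^ (u - i - S) else 0 else 0) ≤
      2 * if L + S ≤ u then b ^ (u - (L + S)) else 0 := by
  have hb0 : 0 < b := by linarith
  simp only [← ite_and]
  rw [← sum_filter]
  split_ifs with h
  · rw [← sum_image (f := fun e => b ^ e) (g := fun i => u - i - S) fun i hi j hj hij => by
      simp only [coe_filter, mem_range, Set.mem_ofPred_eq] at hi hj hij
      omega]
    refine (sum_le_sum_of_subset_of_nonneg (t := range (u - (L + S) + 1)) (fun e he => ?_)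
      fun _ _ _ => by positivity).trans ?_
    · obtain ⟨i, hi, rfl⟩ := mem_image.1 he
      simp only [mem_filter, mem_range] at hi ⊢
      omega
    · rw [sum_range_succ]
      linarith [geo hb (u - (L + S))]
  · rw [filter_false_of_mem fun i hi => by
      rw [mem_range] at hi
      omega]
    simp

variable {κ ζ : Type} [DecidableEq κ]

/-- The weight of a family of frequencies for the budget `u`. -/
noncomputable def Wt (B : ℕ) (Z : Finset ζ) (ℓ : ζ → κ → ℕ) (s : Finset κ) (u : ℕ) : ℝ :=
  ∑ z ∈ Z, if ∑ k ∈ s, ℓ z k ≤ u then (B : ℝ) ^ (u - ∑ k ∈ s, ℓ z k) else 0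

omit [DecidableEq κ] in
theorem Wt_nonneg (B : ℕ) (Z : Finset ζ) (ℓ : ζ → κ → ℕ) (s : Finset κ) (u : ℕ) :
    0 ≤ Wt B Z ℓ s u := sum_nonneg fun _ _ => by positivity

theorem box {B : ℕ} (hB : 2 ≤ B) {g : ℕ → κ → ℕ} {t : ℕ} (hg : ∀ n k, g n k < B ^ t)
    (ℓ : ζ → κ → ℕ) {α β : κ → ℕ} (hβ : ∀ k, β k ≤ B ^ t) (s : Finset κ) :
    ∀ (V : Finset ℕ) (Z : Finset ζ) (u : ℕ), u ≤ t →
      (∀ a P : κ → ℕ, ∑ k ∈ s, a k ≤ u → (∀ k ∈ s, P k < B ^ a k) →
        |((V.filter fun n => ∀ k ∈ s, g n k / B ^ (t - a k) = P k).card : ℝ) -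
          (B : ℝ) ^ (u - ∑ k ∈ s, a k)| ≤
          (B : ℝ) ^ (u - ∑ k ∈ s, a k) * (Z.filter fun z => ∀ k ∈ s, ℓ z k ≤ a k).card) →
      |((V.filter fun n => ∀ k ∈ s, g n k ∈ Ico (α k) (β k)).card : ℝ) -
        (B : ℝ) ^ u * ∏ k ∈ s, ((β k - α k : ℕ) : ℝ) / (B : ℝ) ^ t| ≤
        (4 * B + 2) ^ s.card * (s.card * (u + 1) ^ (s.card - 1) + Wt B Z ℓ s u) := by
  have hB' : (2 : ℝ) ≤ B := by exact_mod_cast hB
  have hp : ∀ e, 0 < B ^ e := fun e => by positivity
  have hp' : ∀ e, (0 : ℝ) < (B : ℝ) ^ e := fun e => by positivity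
  induction s using Finset.induction_on with
  | empty =>
    intro V Z u _ h
    simpa [Wt, mul_comm] using h 0 0 (by simp) (by simp)
  | insert k₀ s hk ih =>
    intro V Z u hu h
    set c : ℝ := (4 * B + 2) ^ s.card with hc
    have hc1 : 1 ≤ c := one_le_pow₀ (by linarith)
    set vol : ℝ := ∏ k ∈ s, ((β k - α k : ℕ) : ℝ) / (B : ℝ) ^ t with hvol
    have hv0 : 0 ≤ vol := prod_nonneg fun _ _ => by positivity
    have hv1 : vol ≤ 1 := prod_le_one (fun _ _ => by positivity) fun k _ =>
      (div_le_one (hp' t)).2 (by exact_mod_cast (Nat.sub_le _ _).trans (hβ k))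
    set W := Wt B Z ℓ (insert k₀ s) u with hW
    have hW0 : 0 ≤ W := Wt_nonneg _ _ _ _ _
    let F : ℕ → ℝ := fun x => ((V.filter fun n => g n k₀ < x ∧
      ∀ k ∈ s, g n k ∈ Ico (α k) (β k)).card : ℝ) - (B : ℝ) ^ u * (x / (B : ℝ) ^ t * vol)
    have hF : ∀ x y, x ≤ y → F y - F x = ((V.filter fun n => g n k₀ ∈ Ico x y ∧
        ∀ k ∈ s, g n k ∈ Ico (α k) (β k)).card : ℝ) -
        (B : ℝ) ^ u * (((y - x : ℕ) : ℝ) / (B : ℝ) ^ t * vol) := by
      intro x y hxy
      have e := card_filter_add_card_filter_not (s := V.filter fun n => g n k₀ < y ∧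
        ∀ k ∈ s, g n k ∈ Ico (α k) (β k)) fun n => g n k₀ < x
      rw [filter_filter, filter_filter, filter_congr (q := fun n => g n k₀ < x ∧
        ∀ k ∈ s, g n k ∈ Ico (α k) (β k)) fun n _ => ⟨fun h => ⟨h.2, h.1.2⟩,
          fun h => ⟨⟨h.1.trans_le hxy, h.2⟩, h.1⟩⟩,
        filter_congr (p := fun n => (g n k₀ < y ∧ ∀ k ∈ s, g n k ∈ Ico (α k) (β k)) ∧
          ¬ g n k₀ < x) (q := fun n => g n k₀ ∈ Ico x y ∧
          ∀ k ∈ s, g n k ∈ Ico (α k) (β k)) fun n _ => by rw [mem_Ico, not_lt]; tauto] at e
      simp only [F]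
      rw [← e, Nat.cast_sub hxy]
      push_cast
      ring
    have hdiv : ∀ (n D P : ℕ), 0 < D → (n ∈ Ico (P * D) ((P + 1) * D) ↔ n / D = P) :=
      fun n D P hD => by
        rw [mem_Ico, ← Nat.le_div_iff_mul_le hD, ← Nat.div_lt_iff_lt_mul hD]
        omega
    let E : ℕ → ℝ := fun i => c * (s.card * ((u - i : ℕ) + 1) ^ (s.card - 1) +
      Wt B (Z.filter fun z => ℓ z k₀ ≤ i) ℓ s (u - i))
    have hE : ∀ i, 0 ≤ E i := fun i => by
      have := Wt_nonneg B (Z.filter fun z => ℓ z k₀ ≤ i) ℓ s (u - i)
      positivity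
    have h1 := chain (F := F) (by omega : 1 ≤ B) (by simp [F]) hE u hu fun i hi P hP => by
      rw [hF _ _ (Nat.mul_le_mul_right _ (Nat.le_succ _))]
      have h2 := ih (V.filter fun n => g n k₀ / B ^ (t - i) = P) (Z.filter fun z => ℓ z k₀ ≤ i)
        (u - i) (by omega) fun a Q ha hQ => by
          have e1 : ∑ k ∈ insert k₀ s, Function.update a k₀ i k = i + ∑ k ∈ s, a k := by
            rw [sum_insert hk, Function.update_self, sum_update_of_notMem hk]
          have hne : ∀ k ∈ s, k ≠ k₀ := fun k hks e => hk (e ▸ hks)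
          have h3 := h (Function.update a k₀ i) (Function.update Q k₀ P) (by omega) fun k hks => by
            rcases mem_insert.1 hks with rfl | hks
            · simpa using hP
            · simpa [hne k hks] using hQ k hks
          rw [e1, ← Nat.sub_sub] at h3
          rw [filter_filter, filter_filter]
          rwa [filter_congr (q := fun n => g n k₀ / B ^ (t - i) = P ∧
            ∀ k ∈ s, g n k / B ^ (t - a k) = Q k) fun n _ => ?_,
            filter_congr (s := Z) (q := fun z => ℓ z k₀ ≤ i ∧ ∀ k ∈ s, ℓ z k ≤ a k)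
              fun z _ => ?_] at h3
          all_goals
            simp only [forall_mem_insert, Function.update_self]
            exact and_congr_right fun _ => forall₂_congr fun k hks => by simp [hne k hks]
      rw [filter_filter] at h2
      have e2 : (B : ℝ) ^ u * ((((P + 1) * B ^ (t - i) - P * B ^ (t - i) : ℕ) : ℝ) /
          (B : ℝ) ^ t * vol) = (B : ℝ) ^ (u - i) * vol := by
        rw [add_mul, one_mul, Nat.add_sub_cancel_left, Nat.cast_pow, pow_sub₀ _ (by linarith) hi,
          pow_sub₀ _ (by linarith) (hi.trans hu)]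
        field_simp
      rw [e2, filter_congr fun n _ => and_congr_left fun _ => hdiv _ _ _ (hp _)]
      exact h2
    have h2 : ∑ i ∈ range (u + 1), E i ≤ c * (s.card * (u + 1) ^ s.card + 2 * W) := by
      simp only [E]
      rw [← mul_sum, sum_add_distrib]
      refine mul_le_mul_of_nonneg_left (add_le_add ?_ ?_) (by linarith)
      · refine (sum_le_card_nsmul _ _ (s.card * ((u : ℝ) + 1) ^ (s.card - 1)) fun i _ => ?_).trans ?_
        · have : ((u - i : ℕ) : ℝ) ≤ u := by exact_mod_cast Nat.sub_le u i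
          gcongr
        · rcases hs : s.card with _ | j
          · simp
          · simp only [card_range, nsmul_eq_mul, Nat.add_sub_cancel]
            push_cast
            exact le_of_eq (by ring)
      · simp only [Wt, sum_filter, hW, sum_insert hk]
        rw [sum_comm, mul_sum]
        exact sum_le_sum fun z _ => geo' hB' u _ _
    have h3 : ∀ x ≤ B ^ t, |F x| ≤
        (2 * B + 1) * c * ((s.card + 1) * (u + 1) ^ s.card + W) := by
      intro x hx
      have ht : B ^ t = B ^ u * B ^ (t - u) := by rw [← pow_add, Nat.add_sub_cancel' hu]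
      have hx' : x / B ^ (t - u) ≤ B ^ u := Nat.div_le_of_le_mul (by rwa [mul_comm, ← ht])
      have h4 := h1 _ hx'
      have h5 : |F x - F (x / B ^ (t - u) * B ^ (t - u))| ≤ 1 + W := by
        rcases hx'.eq_or_lt with e | hlt
        · rw [e, ← ht, le_antisymm hx (by
            rw [ht, ← e]; exact Nat.div_mul_le_self _ _), sub_self, abs_zero]
          linarith
        · have hm := (hdiv x _ _ (hp (t - u))).2 rfl
          rw [mem_Ico] at hm
          rw [hF _ _ hm.1]
          have hne : ∀ k ∈ s, k ≠ k₀ := fun k hks e => hk (e ▸ hks)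
          have e1 : ∑ k ∈ insert k₀ s, Function.update (0 : κ → ℕ) k₀ u k = u := by
            rw [sum_insert hk, Function.update_self, sum_update_of_notMem hk]
            simp
          have h6 := h (Function.update 0 k₀ u) (Function.update 0 k₀ (x / B ^ (t - u))) e1.le
            fun k hks => by
              rcases mem_insert.1 hks with rfl | hks
              · simpa using hlt
              · simp [hne k hks]
          rw [e1, Nat.sub_self, pow_zero, one_mul] at h6
          have h7 : ((Z.filter fun z => ∀ k ∈ insert k₀ s,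
              ℓ z k ≤ Function.update (0 : κ → ℕ) k₀ u k).card : ℝ) ≤ W := by
            rw [card_filter, hW, Wt]
            push_cast
            refine sum_le_sum fun z _ => ?_
            split_ifs with h8 h9
            · exact one_le_pow₀ (by linarith)
            · exact absurd ((sum_le_sum h8).trans e1.le) h9
            · positivity
            · exact le_rfl
          have h8 : ((V.filter fun n => g n k₀ ∈ Ico (x / B ^ (t - u) * B ^ (t - u)) x ∧
              ∀ k ∈ s, g n k ∈ Ico (α k) (β k)).card : ℝ) ≤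
              (V.filter fun n => ∀ k ∈ insert k₀ s, g n k /
                B ^ (t - Function.update (0 : κ → ℕ) k₀ u k) =
                  Function.update (0 : κ → ℕ) k₀ (x / B ^ (t - u)) k).card := by
            refine Nat.cast_le.2 (card_le_card (monotone_filter_right _ fun n _ hn k hks => ?_))
            rcases mem_insert.1 hks with rfl | hks
            · simp only [Function.update_self]
              exact (hdiv _ _ _ (hp _)).1 (mem_Ico.2 ⟨(mem_Ico.1 hn.1).1,
                (mem_Ico.1 hn.1).2.trans hm.2⟩)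
            · simpa [hne k hks] using Or.inr (hg n k)
          have h9 : (B : ℝ) ^ u * (((x - x / B ^ (t - u) * B ^ (t - u) : ℕ) : ℝ) /
              (B : ℝ) ^ t * vol) ≤ 1 := by
            have h10 : B ^ u * (x - x / B ^ (t - u) * B ^ (t - u)) ≤ B ^ t := by
              rw [ht]
              refine Nat.mul_le_mul_left _ ?_
              have := hm.2
              rw [add_mul, one_mul] at this
              omega
            have h11 : (B : ℝ) ^ u * (((x - x / B ^ (t - u) * B ^ (t - u) : ℕ) : ℝ) /
                (B : ℝ) ^ t) ≤ 1 := by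
              rw [← mul_div_assoc, div_le_one (hp' t)]
              exact_mod_cast h10
            rw [← mul_assoc]
            exact mul_le_one₀ h11 hv0 hv1
          have h10 : 0 ≤ (B : ℝ) ^ u * (((x - x / B ^ (t - u) * B ^ (t - u) : ℕ) : ℝ) /
              (B : ℝ) ^ t * vol) := by positivity
          have h11 := (abs_le.1 h6).2
          rw [abs_le]
          constructor
          · linarith [Nat.cast_nonneg (α := ℝ) (V.filter fun n =>
              g n k₀ ∈ Ico (x / B ^ (t - u) * B ^ (t - u)) x ∧
              ∀ k ∈ s, g n k ∈ Ico (α k) (β k)).card]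
          · linarith
      have h6 : (1 : ℝ) ≤ (u + 1) ^ s.card := one_le_pow₀ (by linarith [u.cast_nonneg (α := ℝ)])
      have h7 := mul_le_mul_of_nonneg_left h2 (show (0 : ℝ) ≤ B by linarith)
      have h8 : (0 : ℝ) ≤ s.card * (u + 1) ^ s.card := by positivity
      have h9 := abs_sub_abs_le_abs_sub (F x) (F (x / B ^ (t - u) * B ^ (t - u)))
      have h10 : 1 + W ≤ c * ((u + 1) ^ s.card + W) := by nlinarith
      have h11 : 0 ≤ B * c * (s.card * (u + 1) ^ s.card + 2 * (u + 1) ^ s.card) := by positivity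
      have h12 : 0 ≤ c * (s.card * (u + 1) ^ s.card) := by positivity
      nlinarith
    rw [card_insert_of_notMem hk, Nat.add_sub_cancel, prod_insert hk, pow_succ, ← hc, ← hvol]
    simp only [forall_mem_insert]
    push_cast
    rcases le_total (α k₀) (β k₀) with hab | hab
    · rw [← hF _ _ hab]
      linarith [abs_sub (F (β k₀)) (F (α k₀)), h3 _ (hβ k₀), h3 _ (hab.trans (hβ k₀))]
    · rw [Nat.sub_eq_zero_of_le hab, Ico_eq_empty_of_le hab]
      simp only [notMem_empty, false_and, filter_false, card_empty, Nat.cast_zero, zero_div,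
        zero_mul, mul_zero, sub_zero, abs_zero]
      positivity

end One

end Pool.Agent.Lib.MP_490b4c_nt
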