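import Pool.Agent.Lib.MP_490b4c_nt.OneProb

/-! Tail bounds on one block of scales. -/

open Finset Real MeasureTheory ProbabilityTheory

namespace Pool.Agent.Lib.MP_490b4c_nt

namespace One

variable {κ : Type} [Fintype κ] [DecidableEq κ] {B t : ℕ} [NeZero B]
  {P : Measure (κ × ℕ × ℕ → ZMod B)} [IsProbabilityMeasure P] [P.IsAddLeftInvariant]

omit [Fintype κ] [DecidableEq κ] [NeZero B] in
theorem prop_symm {p : ℕ} [Fact p.Prime] (K K' : κ → Fin t → ZMod p)
    (h : ∃ c : ZMod p, c ≠ 0 ∧ K' = c • K) : ∃ c : ZMod p, c ≠ 0 ∧ K = c • K' := by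
  obtain ⟨c, hc, rfl⟩ := h
  exact ⟨c⁻¹, inv_ne_zero hc, (inv_smul_smul₀ hc K).symm⟩

theorem upper_core (hB : 2 ≤ B) (t G : ℕ) :
    P.real {C | (∃ K : κ → Fin t → ZMod B, K ≠ 0 ∧ ∀ r < ∑ k, lev (K k) + G, bet K C r = 0) ∨
      (B : ℝ) ^ G + 2 ^ B * (t + 1) ^ Fintype.card κ * G < YY t G C} ≤
      (1 + 3 * B) * (2 ^ B * (t + 1) ^ Fintype.card κ / (B.minFac : ℝ) ^ G) := by
  classical
  have hB' : (2 : ℝ) ≤ B := by exact_mod_cast hB
  have hp : (0 : ℝ) < B.minFac := Nat.cast_pos.2 B.minFac_pos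
  set c : ℝ := 2 ^ B * (t + 1) ^ Fintype.card κ with hc
  have hc0 : 0 < c := by positivity
  set S := univ.erase (0 : κ → Fin t → ZMod B) with hS
  let A : (κ → Fin t → ZMod B) → ℕ → Set (κ × ℕ × ℕ → ZMod B) := fun K g =>
    Ev id K (∑ k, lev (K k) + g)
  have hA : ∀ K g, MeasurableSet (A K g) := fun K g => meas_Ev _ _ _
  have h1 : ∀ g, ∑ K ∈ S, P.real (A K g) ≤ c / (B.minFac : ℝ) ^ g := first_moment t
  have hY : ∀ C, YY t G C =
      ∑ K ∈ S, ∑ g ∈ range G, (A K g).indicator (fun _ => (B : ℝ) ^ g) C := fun C =>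
    sum_congr rfl fun K _ => sum_congr rfl fun g _ => by
      rw [Set.indicator_apply]
      exact if_congr Iff.rfl rfl rfl
  have hm : ∀ w : ℕ → ℝ, (∀ g, 0 ≤ w g) → ∑ K ∈ S, ∑ g ∈ range G, w g * P.real (A K g) ≤
      c * ∑ g ∈ range G, w g / (B.minFac : ℝ) ^ g := fun w hw => by
    rw [sum_comm, mul_sum]
    refine sum_le_sum fun g _ => ?_
    rw [← mul_sum]
    exact (mul_le_mul_of_nonneg_left (h1 g) (hw g)).trans_eq (by ring)
  rw [Set.ofPred_or, add_mul, one_mul]
  refine (measureReal_union_le _ _).trans (add_le_add ?_ ?_)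
  · refine le_trans (le_trans (measureReal_mono (fun C hC => ?_) (measure_ne_top _ _))
      (measureReal_biUnion_finset_le S fun K => A K G)) (h1 G)
    obtain ⟨K, hK, h⟩ := hC
    exact Set.mem_biUnion (mem_coe.2 (mem_erase.2 ⟨hK, mem_univ _⟩)) h
  by_cases hpr : B.Prime
  · have : Fact B.Prime := ⟨hpr⟩
    rw [hpr.minFac_eq] at *
    have h2 := cheb (P := P) S hA hB' G (R := fun K K' => ∃ c : ZMod B, c ≠ 0 ∧ K' = c • K)
      prop_symm (r := B) (fun K _ => by
        have := (card_le_card (s := S.filter fun K' => ∃ c : ZMod B, c ≠ 0 ∧ K' = c • K)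
          (t := univ.image fun c : ZMod B => c • K) fun K' hK' => by
            obtain ⟨c, _, h⟩ := (mem_filter.1 hK').2
            exact mem_image.2 ⟨c, mem_univ _, h.symm⟩).trans card_image_le
        rw [card_univ, ZMod.card] at this
        exact_mod_cast this)
      (fun K hK K' hK' h g g' => real_pair (f := AddMonoidHom.id _) Function.surjective_id
        (mem_erase.1 hK).1 (mem_erase.1 hK').1 h _ _) (pow_pos hp G)
    have h3 := hm (fun g => (B : ℝ) ^ g) fun g => by positivity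
    have h4 := hm (fun g => ((B : ℝ) ^ g) ^ 2) fun g => by positivity
    simp only [sq, mul_div_assoc, div_self (pow_pos hp _).ne', mul_one, sum_const, card_range,
      nsmul_eq_mul] at h2 h3 h4
    refine le_trans (measureReal_mono fun C hC => ?_) (h2.trans ?_)
    · rw [Set.mem_ofPred_eq] at hC ⊢
      refine le_trans ?_ (le_abs_self _)
      rw [← hY]
      linarith
    · have h5 := h4.trans (mul_le_mul_of_nonneg_left (geo hB' G) hc0.le)
      calc _ ≤ B * (3 * (c * (B : ℝ) ^ G / ((B : ℝ) ^ G * (B : ℝ) ^ G))) := by gcongr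
        _ = _ := by field_simp
  · have h2 : 2 * B.minFac ≤ B := by
      obtain ⟨e, he⟩ := B.minFac_dvd
      have h3 := (Nat.not_prime_iff_minFac_lt hB).1 hpr
      rcases e with _ | _ | e <;> nlinarith
    have h3 : (2 : ℝ) ≤ B / B.minFac := by
      rw [le_div_iff₀ hp]
      exact_mod_cast h2
    have h4 := fun K => int_step (P := P) (hA K) (fun g => (B : ℝ) ^ g) G
    have h5 := mul_meas_ge_le_integral_of_nonneg (μ := P) (f := YY (κ := κ) t G)
      (ae_of_all _ fun C => YY_nonneg G C) (by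
        rw [funext hY]
        exact integrable_finsetSum _ fun K _ => (h4 K).1.integrable one_le_two) ((B : ℝ) ^ G)
    have h6 : ∫ C, YY t G C ∂P ≤ c * ((B : ℝ) / B.minFac) ^ G := by
      simp only [hY]
      rw [integral_finsetSum _ fun K _ => (h4 K).1.integrable one_le_two]
      simp only [(h4 _).2]
      refine (hm _ fun g => by positivity).trans (mul_le_mul_of_nonneg_left ?_ hc0.le)
      simpa only [div_pow] using geo h3 G
    have h7 : P.real {C | (B : ℝ) ^ G ≤ YY t G C} ≤ c / (B.minFac : ℝ) ^ G :=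
      le_of_mul_le_mul_left ((h5.trans h6).trans_eq (by rw [div_pow]; ring))
        (pow_pos (by linarith) G)
    refine le_trans (measureReal_mono fun C hC => ?_) (h7.trans
      (le_mul_of_one_le_left (by positivity) (by linarith)))
    rw [Set.mem_ofPred_eq] at hC ⊢
    exact le_trans (le_add_of_nonneg_right (by positivity)) hC.le

variable {p : ℕ} [Fact p.Prime]

omit [NeZero B] in
theorem lower_core [Nonempty κ] {f : ZMod B →+ ZMod p} (hf : Function.Surjective f) (S : Finset ℕ)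
    (g : ℕ → ℕ) (ht : ∀ i ∈ S, 2 * 2 ^ i ≤ t) :
    P.real {C | ∀ i ∈ S, ∀ K : κ → Fin t → ZMod p, (∀ k, lev (K k) ∈ Ioc (2 ^ i) (2 * 2 ^ i)) →
      C ∉ Ev f K (∑ k, lev (K k) + g i)} *
      ∑ i ∈ S, ((2 : ℝ) ^ i / 2) ^ Fintype.card κ / (p : ℝ) ^ g i ≤ 3 * p := by
  classical
  have hp : 2 ≤ p := (Fact.out : p.Prime).two_le
  have hp' : (0 : ℝ) < p := by positivity
  obtain ⟨k₀⟩ := ‹Nonempty κ›
  set T := (S ×ˢ (univ : Finset (κ → Fin t → ZMod p))).filter fun x =>
    ∀ k, lev (x.2 k) ∈ Ioc (2 ^ x.1) (2 * 2 ^ x.1) with hT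
  have hne : ∀ x ∈ T, x.2 ≠ 0 := fun x hx h => by
    have h1 := (mem_Ioc.1 ((mem_filter.1 hx).2 k₀)).1
    have h2 : lev (x.2 k₀) ≤ 0 := lev_le.2 fun j _ => by simp [h]
    exact absurd (h1.trans_le h2) (Nat.not_lt_zero _)
  let A : ℕ × (κ → Fin t → ZMod p) → ℕ → Set (κ × ℕ × ℕ → ZMod B) := fun x _ =>
    Ev f x.2 (∑ k, lev (x.2 k) + g x.1)
  set μ := ∑ x ∈ T, P.real (A x 0) with hμ
  have h1 : ∑ i ∈ S, ((2 : ℝ) ^ i / 2) ^ Fintype.card κ / (p : ℝ) ^ g i ≤ μ := by
    rw [hμ, sum_congr rfl fun x hx => real_Ev' (P := P) hf (hne x hx) _, hT, sum_filter, sum_product]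
    refine sum_le_sum fun i hi => ?_
    have h2 := le_sum_lev (R := ZMod p) (by rwa [ZMod.card]) (ht i hi)
    rw [ZMod.card] at h2
    push_cast at h2
    refine (div_le_div_of_nonneg_right (pow_le_pow_left₀ (by positivity) h2 _)
      (by positivity)).trans (le_of_eq ?_)
    rw [← card_univ, ← prod_const, prod_univ_sum, sum_div, ← sum_filter]
    refine sum_congr (by ext K; simp) fun K _ => ?_
    rw [prod_pow_eq_pow_sum, pow_add, one_div, inv_pow _ (g i), div_eq_mul_inv]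
  have h0 : 0 ≤ μ := sum_nonneg fun _ _ => measureReal_nonneg
  refine (mul_le_mul_of_nonneg_left h1 measureReal_nonneg).trans ?_
  rcases h0.eq_or_lt with h | h
  · rw [← h, mul_zero]
    positivity
  have h2 := cheb (P := P) T (A := A) (fun x _ => meas_Ev _ _ _) le_rfl 1
    (R := fun x y => ∃ c : ZMod p, c ≠ 0 ∧ y.2 = c • x.2) (fun x y => prop_symm _ _) (r := p)
    (fun x hx => by
      have := (card_le_card (s := T.filter fun y => ∃ c : ZMod p, c ≠ 0 ∧ y.2 = c • x.2)
        (t := univ.image fun c : ZMod p => (x.1, c • x.2)) fun y hy => by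
          obtain ⟨hy, c, hc, h⟩ := mem_filter.1 hy
          refine mem_image.2 ⟨c, mem_univ _, Prod.ext ?_ h.symm⟩
          have e : lev (y.2 k₀) = lev (x.2 k₀) := by
            refine eq_of_forall_ge_iff fun a => ?_
            simp [lev_le, h, hc]
          have h3 := mem_Ioc.1 ((mem_filter.1 hx).2 k₀)
          have h4 := mem_Ioc.1 ((mem_filter.1 hy).2 k₀)
          rw [e, ← pow_succ'] at h4
          rw [← pow_succ'] at h3
          have h5 := (Nat.pow_lt_pow_iff_right one_lt_two).1 (h3.1.trans_le h4.2)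
          have h6 := (Nat.pow_lt_pow_iff_right one_lt_two).1 (h4.1.trans_le h3.2)
          simp only
          omega).trans card_image_le
      rw [card_univ, ZMod.card] at this
      exact_mod_cast this)
    (fun x hx y hy h _ _ => real_pair hf (hne x hx) (hne y hy) h _ _) h
  simp only [sum_range_one, pow_zero, one_mul, one_pow, ← hμ] at h2
  rw [← le_div_iff₀ h]
  refine le_trans (measureReal_mono fun C hC => ?_) (h2.trans_eq (by field_simp))
  rw [Set.mem_ofPred_eq, sum_eq_zero fun x hx => Set.indicator_of_notMem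
    (hC x.1 (mem_product.1 (mem_filter.1 hx).1).1 x.2 (mem_filter.1 hx).2) _, zero_sub, abs_neg]
  exact le_abs_self _

theorem mul_eq_zero_iff (hp : p ∣ B) (w : ZMod B) :
    ((B / p : ℕ) : ZMod B) * w = 0 ↔ ZMod.castHom hp (ZMod p) w = 0 := by
  obtain ⟨n, rfl⟩ := ZMod.natCast_zmod_surjective w
  rw [map_natCast, ← Nat.cast_mul, ZMod.natCast_eq_zero_iff, ZMod.natCast_eq_zero_iff]
  have h := Nat.div_pos (Nat.le_of_dvd (NeZero.pos B) hp) (Nat.pos_of_dvd_of_pos hp (NeZero.pos B))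
  rw [← Nat.mul_dvd_mul_iff_left (b := p) h, Nat.div_mul_cancel hp]

omit [DecidableEq κ] in
theorem disc_lower' (hB : 2 ≤ B) (hp : p ∣ B) {C : κ × ℕ × ℕ → ZMod B} {z : ℕ → κ → ℝ}
    (hz : ∀ n k a, z n k ∈ Set.Ico (pre (yd C n k) a / (B : ℝ) ^ a)
      ((pre (yd C n k) a + 1) / (B : ℝ) ^ a)) {K : κ → Fin t → ZMod p} (hK : K ≠ 0) {g : ℕ}
    (h : C ∈ Ev (ZMod.castHom hp (ZMod p)).toAddMonoidHom K (∑ k, lev (K k) + g)) :
    (B : ℝ) ^ g ≤ (B ^ (∑ k, lev (K k) + g) : ℕ) * disc z (B ^ (∑ k, lev (K k) + g)) := by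
  have e : ∀ k j, ((B / p : ℕ) : ZMod B) * ((K k j).val : ZMod B) = 0 ↔ K k j = 0 := fun k j => by
    rw [mul_eq_zero_iff hp, map_natCast, ZMod.natCast_zmod_val]
  refine disc_lower hB hz (K := fun k j => ((B / p : ℕ) : ZMod B) * ((K k j).val : ZMod B))
    (fun h0 => hK (funext₂ fun k j => (e k j).1 (congrFun₂ h0 k j)))
    (fun k => lev_le.2 fun j hj => (e k j).2 (lev_le.1 le_rfl j hj)) fun r hr => ?_
  simp only [bet, mul_assoc, ← mul_sum]
  rw [mul_eq_zero_iff hp, ← h r hr]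
  simp only [map_sum, map_mul, map_natCast, ZMod.natCast_zmod_val, bet]
  rfl

end One

end Pool.Agent.Lib.MP_490b4c_nt
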