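import Pool.Agent.Lib.MP_490b4c_nt.OneBox
import Pool.Agent.Lib.MP_490b4c_nt.TwoUp

/-! The deterministic bound for the discrepancy of a digital sequence in one base. -/

open Finset Real

namespace Pool.Agent.Lib.MP_490b4c_nt

namespace One

/-- The level of a frequency in one coordinate. -/
def lev {R : Type} [Zero R] [DecidableEq R] {t : ℕ} (v : Fin t → R) : ℕ :=
  (univ.filter fun j => v j ≠ 0).sup fun j => (j : ℕ) + 1

theorem lev_le {R : Type} [Zero R] [DecidableEq R] {t a : ℕ} {v : Fin t → R} :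
    lev v ≤ a ↔ ∀ j : Fin t, a ≤ j → v j = 0 := by
  simp only [lev, Finset.sup_le_iff, mem_filter, mem_univ, true_and]
  exact forall_congr' fun j => ⟨fun h h1 => by_contra fun h2 => by have := h h2; omega,
    fun h h1 => by_contra fun h2 => h1 (h (by omega))⟩

variable {κ : Type} [Fintype κ] [DecidableEq κ] {B t : ℕ}

/-- The combination of rows given by a frequency. -/
def bet (K : κ → Fin t → ZMod B) (C : κ × ℕ × ℕ → ZMod B) (r : ℕ) : ZMod B :=
  ∑ k, ∑ j, K k j * C (k, j, r)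

/-- The digits of the points. -/
def yd (C : κ × ℕ × ℕ → ZMod B) (n : ℕ) (k : κ) (j : ℕ) : ZMod B := lin (fun r => C (k, j, r)) n

omit [DecidableEq κ] in
theorem lin_bet (K : κ → Fin t → ZMod B) (C : κ × ℕ × ℕ → ZMod B) (n : ℕ) :
    lin (bet K C) n = ∑ k, ∑ j, K k j * yd C n k j := by
  simp only [lin, bet, yd, sum_mul, mul_sum, mul_assoc]
  rw [sum_comm]
  exact sum_congr rfl fun k _ => sum_comm

variable [NeZero B]

theorem pre_div (y : ℕ → ZMod B) (a e : ℕ) : pre y (a + e) / B ^ e = pre y a := by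
  induction e with
  | zero => simp
  | succ e ih =>
    rw [← add_assoc, pre, pow_succ', ← Nat.div_div_eq_div_mul, mul_comm,
      Nat.mul_add_div (NeZero.pos B), Nat.div_eq_of_lt (y (a + e)).val_lt, add_zero, ih]

theorem pre_inj (y y' : ℕ → ZMod B) (a : ℕ) : pre y a = pre y' a ↔ ∀ j < a, y j = y' j := by
  induction a with
  | zero => simp [pre]
  | succ a ih =>
    rw [pre, pre]
    refine ⟨fun h j hj => ?_, fun h => by rw [ih.2 fun j hj => h j (by omega), h a (by omega)]⟩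
    have h1 := congrArg (· / B) h
    have h2 := congrArg (· % B) h
    simp only [mul_comm _ B, Nat.mul_add_div (NeZero.pos B), Nat.div_eq_of_lt (ZMod.val_lt _),
      add_zero, Nat.mul_add_mod, Nat.mod_eq_of_lt (ZMod.val_lt _)] at h1 h2
    rcases Nat.lt_succ_iff_lt_or_eq.1 hj with h3 | rfl
    · exact ih.1 h1 j h3
    · exact ZMod.val_injective _ h2

theorem sum_ch_lin (hB : 2 ≤ B) (u : ℕ → ZMod B) (m : ℕ) :
    ∑ n ∈ range (B ^ m), ch (lin u n) = if ∀ r < m, u r = 0 then (B : ℂ) ^ m else 0 := by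
  have h := poly_eq hB u m 1
  simp only [one_pow, mul_one, PP, Dk, ch_pow, Two.sum_range_ch] at h
  rw [← h]
  split_ifs with h1
  · simp [h1]
  · push Not at h1
    obtain ⟨r, hr, h1⟩ := h1
    exact prod_eq_zero (mem_univ ⟨r, hr⟩) (if_neg h1)

theorem indicator_eq {a : κ → ℕ} (ha : ∀ k, a k ≤ t) (v : κ → ℕ → ZMod B) :
    ∑ K ∈ univ.filter fun K : κ → Fin t → ZMod B => ∀ k, lev (K k) ≤ a k,
      ch (∑ k, ∑ j, K k j * v k j) =
      if ∀ k, ∀ j < a k, v k j = 0 then (B : ℂ) ^ ∑ k, a k else 0 := by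
  have e : (univ.filter fun K : κ → Fin t → ZMod B => ∀ k, lev (K k) ≤ a k) =
      Fintype.piFinset fun k => Fintype.piFinset fun j : Fin t =>
        if (j : ℕ) < a k then univ else {0} := by
    ext K
    simp only [mem_filter, mem_univ, true_and, Fintype.mem_piFinset, lev_le]
    refine forall₂_congr fun k j => ?_
    split_ifs with h
    · simp [not_le.2 h]
    · simp [not_lt.1 h]
  simp only [e, Two.ch_sum]
  rw [← prod_univ_sum (f := fun k (w : Fin t → ZMod B) => ∏ j, ch (w j * v k j))]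
  have e1 : ∀ k, ∑ w ∈ Fintype.piFinset fun j : Fin t =>
      if (j : ℕ) < a k then (univ : Finset (ZMod B)) else {0}, ∏ j, ch (w j * v k j) =
      if ∀ j < a k, v k j = 0 then (B : ℂ) ^ a k else 0 := by
    intro k
    rw [← prod_univ_sum (f := fun (j : Fin t) (c : ZMod B) => ch (c * v k j)),
      prod_congr rfl (g := fun j : Fin t => if (j : ℕ) < a k then
        if v k j = 0 then (B : ℂ) else 0 else 1) fun j _ => by
          split_ifs with h1 h2
          · rw [sum_ch, if_pos h2]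
          · rw [sum_ch, if_neg h2]
          · simp,
      Fin.prod_univ_eq_prod_range (fun j => if j < a k then
        if v k j = 0 then (B : ℂ) else 0 else 1) t, ← prod_filter,
      show (range t).filter (fun j => j < a k) = range (a k) by
        ext j
        have := ha k
        simp only [mem_filter, mem_range]
        omega]
    simp [prod_ite_zero]
  simp only [e1, prod_ite_zero, mem_univ, forall_const, prod_pow_eq_pow_sum]

theorem cyl (hB : 2 ≤ B) (C : κ × ℕ × ℕ → ZMod B) {m : ℕ} (hm : m ≤ t) (Q : ℕ) (a P : κ → ℕ)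
    (ha : ∑ k, a k ≤ m) (hP : ∀ k, P k < B ^ a k) :
    |(((Ico (Q * B ^ m) ((Q + 1) * B ^ m)).filter fun n =>
      ∀ k, pre (yd C n k) t / B ^ (t - a k) = P k).card : ℝ) - (B : ℝ) ^ (m - ∑ k, a k)| ≤
      (B : ℝ) ^ (m - ∑ k, a k) * ((univ.filter fun K : κ → Fin t → ZMod B =>
        K ≠ 0 ∧ ∀ r < m, bet K C r = 0).filter fun K => ∀ k, lev (K k) ≤ a k).card := by
  have hat : ∀ k, a k ≤ t := fun k =>
    ((single_le_sum (fun _ _ => Nat.zero_le _) (mem_univ k)).trans ha).trans hm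
  choose p hp using fun k => Two.exists_pre (a k) (hP k)
  set S := univ.filter fun K : κ → Fin t → ZMod B => ∀ k, lev (K k) ≤ a k with hS
  have h0 : (0 : κ → Fin t → ZMod B) ∈ S := by simp [hS, lev_le]
  have e1 : ((((Ico (Q * B ^ m) ((Q + 1) * B ^ m)).filter fun n =>
      ∀ k, pre (yd C n k) t / B ^ (t - a k) = P k).card : ℝ) : ℂ) * (B : ℂ) ^ ∑ k, a k =
      ∑ K ∈ S, ch (lin (bet K C) (Q * B ^ m) - ∑ k, ∑ j, K k j * p k j) *
        if ∀ r < m, bet K C r = 0 then (B : ℂ) ^ m else 0 := by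
    simp only [← sum_ch_lin hB, mul_sum]
    rw [sum_comm, card_filter, sum_Ico_eq_sum_range, add_mul, one_mul, Nat.add_sub_cancel_left]
    push_cast
    rw [sum_mul]
    refine sum_congr rfl fun n hn => ?_
    have e2 := indicator_eq hat fun k j => yd C (Q * B ^ m + n) k j - p k j
    simp only [mul_sub, sum_sub_distrib, ← lin_bet, lin_add hB _ Q (mem_range.1 hn),
      sub_eq_zero, ← pre_inj, hp] at e2
    simp only [ch, ← AddChar.map_add_eq_mul, sub_add_eq_add_sub]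
    rw [e2, apply_ite Complex.ofReal, Complex.ofReal_one, Complex.ofReal_zero, ite_mul, one_mul,
      zero_mul]
    refine if_congr (forall_congr' fun k => ?_) rfl rfl
    rw [← pre_div (yd C (Q * B ^ m + n) k) (a k) (t - a k), Nat.add_sub_cancel' (hat k)]
  rw [← add_sum_erase _ _ h0] at e1
  have hB0 : (0 : ℝ) < B := Nat.cast_pos.2 (NeZero.pos B)
  have e2 : (B : ℝ) ^ m = (B : ℝ) ^ (m - ∑ k, a k) * (B : ℝ) ^ ∑ k, a k := by
    rw [← pow_add, Nat.sub_add_cancel ha]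
  refine le_of_mul_le_mul_right ?_ (pow_pos hB0 (∑ k, a k))
  rw [← abs_of_pos (pow_pos hB0 (∑ k, a k)), ← abs_mul, abs_of_pos (pow_pos hB0 (∑ k, a k)),
    sub_mul, mul_right_comm, ← e2, ← Real.norm_eq_abs, ← Complex.norm_real]
  push_cast at e1 ⊢
  rw [e1, show ch (lin (bet (0 : κ → Fin t → ZMod B) C) (Q * B ^ m) -
      ∑ k, ∑ j, (0 : κ → Fin t → ZMod B) k j * p k j) = 1 by simp [lin_bet],
    if_pos fun r _ => by simp [bet], one_mul, add_sub_cancel_left]
  refine (norm_sum_le _ _).trans (le_of_eq ?_)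
  rw [filter_filter, card_filter, ← filter_ne', hS, filter_filter, sum_filter]
  push_cast
  rw [mul_sum]
  refine sum_congr rfl fun K _ => ?_
  rw [norm_mul, norm_ch]
  by_cases h2 : ∀ r < m, bet K C r = 0
  · simp only [eq_true h2]
    by_cases h1 : K = 0 <;> by_cases h3 : ∀ k, lev (K k) ≤ a k <;> simp [h1, h3]
  · simp [h2]

/-- The truncated random majorant. -/
noncomputable def YY (t G : ℕ) (C : κ × ℕ × ℕ → ZMod B) : ℝ :=
  ∑ K ∈ univ.erase (0 : κ → Fin t → ZMod B), ∑ g ∈ range G,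
    if ∀ r < ∑ k, lev (K k) + g, bet K C r = 0 then (B : ℝ) ^ g else 0

theorem YY_nonneg (G : ℕ) (C : κ × ℕ × ℕ → ZMod B) : 0 ≤ YY t G C :=
  sum_nonneg fun _ _ => sum_nonneg fun _ _ => by positivity

theorem grid (hB : 2 ≤ B) (C : κ × ℕ × ℕ → ZMod B) {G : ℕ}
    (hG : ∀ K : κ → Fin t → ZMod B, K ≠ 0 → ¬ ∀ r < ∑ k, lev (K k) + G, bet K C r = 0)
    {N : ℕ} (hN : N ≤ B ^ t) (α : κ → ℕ) {β : κ → ℕ} (hβ : ∀ k, β k ≤ B ^ t) :
    |(((range N).filter fun n => ∀ k, pre (yd C n k) t ∈ Ico (α k) (β k)).card : ℝ) -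
      N * ∏ k, ((β k - α k : ℕ) : ℝ) / (B : ℝ) ^ t| ≤
      B * (4 * B + 2) ^ Fintype.card κ *
        (Fintype.card κ * (t + 1) ^ Fintype.card κ + YY t G C) := by
  set D := Fintype.card κ
  let Z : ℕ → Finset (κ → Fin t → ZMod B) := fun m =>
    univ.filter fun K => K ≠ 0 ∧ ∀ r < m, bet K C r = 0
  let E : ℕ → ℝ := fun i => (4 * B + 2) ^ D * (D * ((t - i : ℕ) + 1) ^ (D - 1) +
    Wt B (Z (t - i)) (fun K k => lev (K k)) univ (t - i))
  have h1 := chain (F := fun x => (((range x).filter fun n =>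
    ∀ k, pre (yd C n k) t ∈ Ico (α k) (β k)).card : ℝ) -
      x * ∏ k, ((β k - α k : ℕ) : ℝ) / (B : ℝ) ^ t) (by omega : 1 ≤ B) (by simp) (E := E)
    (fun i => by
      have := Wt_nonneg B (Z (t - i)) (fun K k => lev (K k)) univ (t - i)
      positivity) t le_rfl (fun i _ Q _ => by
      have h2 := box hB (g := fun n k => pre (yd C n k) t) (fun n k => pre_lt _ _)
        (fun (K : κ → Fin t → ZMod B) k => lev (K k)) (α := α) hβ univ
        (Ico (Q * B ^ (t - i)) ((Q + 1) * B ^ (t - i))) (Z (t - i)) (t - i) (Nat.sub_le _ _)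
        fun a P ha hP => by
          simpa only [mem_univ, forall_const] using
            cyl hB C (Nat.sub_le t i) Q a P ha fun k => hP k (mem_univ k)
      simp only [mem_univ, forall_const, card_univ] at h2
      refine le_of_eq_of_le (congrArg _ ?_) h2
      rw [range_eq_Ico, range_eq_Ico, ← Ico_union_Ico_eq_Ico (Nat.zero_le (Q * B ^ (t - i)))
        (Nat.mul_le_mul_right _ (Nat.le_succ Q)), filter_union, card_union_of_disjoint
        (disjoint_filter_filter (Ico_disjoint_Ico_consecutive _ _ _))]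
      push_cast
      ring) N hN
  rw [Nat.sub_self, pow_zero, mul_one] at h1
  refine h1.trans ?_
  rw [mul_assoc]
  refine mul_le_mul_of_nonneg_left ?_ (Nat.cast_nonneg _)
  simp only [E]
  rw [← mul_sum, sum_add_distrib]
  refine mul_le_mul_of_nonneg_left (add_le_add ?_ ?_) (by positivity)
  · refine (sum_le_card_nsmul _ _ (D * ((t : ℝ) + 1) ^ (D - 1)) fun i _ => ?_).trans ?_
    · have : ((t - i : ℕ) : ℝ) ≤ t := by exact_mod_cast Nat.sub_le t i
      gcongr
    · rcases D with _ | j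
      · simp
      · simp only [card_range, nsmul_eq_mul, Nat.add_sub_cancel]
        push_cast
        exact le_of_eq (by ring)
  · simp only [Wt, Z, sum_filter, YY, ← filter_ne']
    rw [sum_comm]
    refine sum_le_sum fun K _ => ?_
    by_cases hK : K ≠ 0
    · simp only [eq_true hK, true_and, if_true, ← ite_and]
      rw [← sum_filter, ← sum_filter, ← sum_image (f := fun e => (B : ℝ) ^ e)
        (g := fun i => t - i - ∑ k, lev (K k)) fun i hi j hj hij => by
          simp only [coe_filter, mem_range, Set.mem_ofPred_eq] at hi hj hij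
          omega]
      refine sum_le_sum_of_subset_of_nonneg (fun e he => ?_) fun _ _ _ => by positivity
      obtain ⟨i, hi, rfl⟩ := mem_image.1 he
      obtain ⟨_, h2, h3⟩ := mem_filter.1 hi
      refine mem_filter.2 ⟨mem_range.2 (by_contra fun h4 => hG K hK fun r hr => h2 r ?_),
        fun r hr => h2 r ?_⟩ <;> omega
    · simp [hK]

omit [NeZero B] in
theorem disc_le_of_grid (hB : 2 ≤ B) {g : ℕ → κ → ℕ} {z : ℕ → κ → ℝ}
    (hz : ∀ n k, z n k ∈ Set.Ico (g n k / (B : ℝ) ^ t) ((g n k + 1) / (B : ℝ) ^ t)) {N : ℕ}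
    (hN : N ≤ B ^ t) {X : ℝ} (hX : 0 ≤ X) (hbox : ∀ α β : κ → ℕ, (∀ k, β k ≤ B ^ t) →
      |(((range N).filter fun n => ∀ k, g n k ∈ Ico (α k) (β k)).card : ℝ) -
        N * ∏ k, ((β k - α k : ℕ) : ℝ) / (B : ℝ) ^ t| ≤ X) :
    N * disc z N ≤ X + 2 * Fintype.card κ := by
  classical
  rcases N.eq_zero_or_pos with rfl | hN0
  · simp only [Nat.cast_zero, zero_mul]
    positivity
  have hN' : (0 : ℝ) < N := Nat.cast_pos.2 hN0
  rw [← le_div_iff₀' hN']
  refine Real.sSup_le ?_ (by positivity)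
  rintro _ ⟨u, v, h, rfl⟩
  have hL : (0 : ℝ) < (B : ℝ) ^ t := by positivity
  have hNL : (N : ℝ) ≤ (B : ℝ) ^ t := by exact_mod_cast hN
  have hε : 2 / (B : ℝ) ^ t ≤ 2 / N := by gcongr
  have h0 : ∀ k, 0 ≤ v k - u k ∧ v k - u k ≤ 1 := fun k => ⟨by linarith [h k], by linarith [h k]⟩
  have hu : ∀ k, 0 ≤ u k * (B : ℝ) ^ t := fun k => mul_nonneg (h k).1 hL.le
  have hv : ∀ k, 0 ≤ v k * (B : ℝ) ^ t := fun k => mul_nonneg ((h k).1.trans (h k).2.1) hL.le
  have hv1 : ∀ k, v k * (B : ℝ) ^ t ≤ (B ^ t : ℕ) := fun k => by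
    rw [Nat.cast_pow]; exact mul_le_of_le_one_left hL.le (h k).2.2
  have huv : ∀ k, u k * (B : ℝ) ^ t ≤ v k * (B : ℝ) ^ t := fun k =>
    mul_le_mul_of_nonneg_right (h k).2.1 hL.le
  have hz1 : ∀ n k, (g n k : ℝ) ≤ z n k * (B : ℝ) ^ t := fun n k => (div_le_iff₀ hL).1 (hz n k).1
  have hz2 : ∀ n k, z n k * (B : ℝ) ^ t < g n k + 1 := fun n k => (lt_div_iff₀ hL).1 (hz n k).2
  have g1 := (abs_le.1 (hbox (fun k => ⌊u k * (B : ℝ) ^ t⌋₊)
    (fun k => ⌈v k * (B : ℝ) ^ t⌉₊) fun k => Nat.ceil_le.2 (hv1 k))).2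
  have g2 := (abs_le.1 (hbox (fun k => ⌈u k * (B : ℝ) ^ t⌉₊)
    (fun k => ⌊v k * (B : ℝ) ^ t⌋₊) fun k => Nat.floor_le_of_le (hv1 k))).1
  have c1 : (((range N).filter fun n => ∀ k, z n k ∈ Set.Ico (u k) (v k)).card : ℝ) ≤
      ((range N).filter fun n => ∀ k, g n k ∈
        Ico ⌊u k * (B : ℝ) ^ t⌋₊ ⌈v k * (B : ℝ) ^ t⌉₊).card := by
    refine Nat.cast_le.2 (card_le_card (monotone_filter_right _ fun n _ hn k => mem_Ico.2 ⟨?_, ?_⟩))
    · refine Nat.lt_succ_iff.1 ((Nat.floor_lt (hu k)).2 ?_)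
      push_cast
      exact (mul_le_mul_of_nonneg_right (hn k).1 hL.le).trans_lt (hz2 n k)
    · exact Nat.lt_ceil.2 ((hz1 n k).trans_lt (mul_lt_mul_of_pos_right (hn k).2 hL))
  have c2 : (((range N).filter fun n => ∀ k, g n k ∈
        Ico ⌈u k * (B : ℝ) ^ t⌉₊ ⌊v k * (B : ℝ) ^ t⌋₊).card : ℝ) ≤
      ((range N).filter fun n => ∀ k, z n k ∈ Set.Ico (u k) (v k)).card := by
    refine Nat.cast_le.2 (card_le_card (monotone_filter_right _ fun n _ hn k => ⟨?_, ?_⟩))
    · exact le_of_mul_le_mul_right ((Nat.ceil_le.1 (mem_Ico.1 (hn k)).1).trans (hz1 n k)) hL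
    · refine lt_of_mul_lt_mul_right ((hz2 n k).trans_le ?_) hL.le
      have := (Nat.le_floor_iff (hv k)).1 (Nat.succ_le_of_lt (mem_Ico.1 (hn k)).2)
      exact_mod_cast this
  have p1 := Two.prod_le_add univ (ε := 2 / N) (by positivity)
    (x := fun k => ((⌈v k * (B : ℝ) ^ t⌉₊ - ⌊u k * (B : ℝ) ^ t⌋₊ : ℕ) : ℝ) / (B : ℝ) ^ t)
    (fun k => ⟨by positivity, (div_le_one hL).2 (by
      exact_mod_cast (Nat.sub_le _ _).trans (Nat.ceil_le.2 (hv1 k)))⟩) h0 fun k => by
      refine le_trans ?_ (add_le_add_right hε _)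
      rw [Nat.cast_sub ((Nat.floor_le_floor (huv k)).trans (Nat.floor_le_ceil _)),
        div_le_iff₀ hL, add_mul, div_mul_cancel₀ _ hL.ne']
      linarith [Nat.ceil_lt_add_one (hv k), Nat.lt_floor_add_one (u k * (B : ℝ) ^ t)]
  have p2 := Two.prod_le_add univ (ε := 2 / N) (by positivity) h0
    (y := fun k => ((⌊v k * (B : ℝ) ^ t⌋₊ - ⌈u k * (B : ℝ) ^ t⌉₊ : ℕ) : ℝ) / (B : ℝ) ^ t)
    (fun k => ⟨by positivity, (div_le_one hL).2 (by
      exact_mod_cast (Nat.sub_le _ _).trans (Nat.floor_le_of_le (hv1 k)))⟩) fun k => by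
      refine le_trans ?_ (add_le_add_right hε _)
      rw [← add_div, le_div_iff₀ hL]
      have : (⌊v k * (B : ℝ) ^ t⌋₊ : ℝ) ≤ ((⌊v k * (B : ℝ) ^ t⌋₊ - ⌈u k * (B : ℝ) ^ t⌉₊ : ℕ) : ℝ) +
          ⌈u k * (B : ℝ) ^ t⌉₊ := by exact_mod_cast le_tsub_add
      linarith [Nat.ceil_lt_add_one (hu k), Nat.lt_floor_add_one (v k * (B : ℝ) ^ t)]
  rw [card_univ] at p1 p2
  have p3 := mul_le_mul_of_nonneg_left p1 hN'.le
  have p4 := mul_le_mul_of_nonneg_left p2 hN'.le
  have e : (N : ℝ) * (Fintype.card κ * (2 / N)) = 2 * Fintype.card κ := by field_simp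
  rw [mul_add, e] at p3 p4
  rw [le_div_iff₀' hN', ← abs_of_pos hN', ← abs_mul, abs_of_pos hN', mul_sub,
    mul_div_cancel₀ _ hN'.ne', abs_le]
  constructor <;> linarith

theorem disc_upper (hB : 2 ≤ B) {C : κ × ℕ × ℕ → ZMod B} {z : ℕ → κ → ℝ}
    (hz : ∀ n k, z n k ∈ Set.Ico (pre (yd C n k) t / (B : ℝ) ^ t)
      ((pre (yd C n k) t + 1) / (B : ℝ) ^ t)) {G : ℕ}
    (hG : ∀ K : κ → Fin t → ZMod B, K ≠ 0 → ¬ ∀ r < ∑ k, lev (K k) + G, bet K C r = 0)
    {N : ℕ} (hN : N ≤ B ^ t) : N * disc z N ≤ B * (4 * B + 2) ^ Fintype.card κ *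
      (Fintype.card κ * (t + 1) ^ Fintype.card κ + YY t G C) + 2 * Fintype.card κ :=
  disc_le_of_grid hB hz hN (by have := YY_nonneg (t := t) G C; positivity)
    fun α _ hβ => grid hB C hG hN α hβ

omit [DecidableEq κ] in
theorem disc_lower (hB : 2 ≤ B) {C : κ × ℕ × ℕ → ZMod B} {z : ℕ → κ → ℝ}
    (hz : ∀ n k a, z n k ∈ Set.Ico (pre (yd C n k) a / (B : ℝ) ^ a)
      ((pre (yd C n k) a + 1) / (B : ℝ) ^ a)) {K : κ → Fin t → ZMod B} (hK : K ≠ 0) {a : κ → ℕ}
    (ha : ∀ k, lev (K k) ≤ a k) {g : ℕ} (h : ∀ r < ∑ k, a k + g, bet K C r = 0) :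
    (B : ℝ) ^ g ≤ (B ^ (∑ k, a k + g) : ℕ) * disc z (B ^ (∑ k, a k + g)) := by
  obtain ⟨k₀, hk⟩ := Function.ne_iff.1 hK
  choose L hL using fun k => ext_fin (K k)
  let L' : κ → ℕ → ZMod B := fun k j => if j < t then L k j else 0
  have e : ∀ k (y : ℕ → ZMod B), lc (L' k) (a k) (pre y (a k)) = ∑ j, K k j * y j := fun k y => by
    rw [lc_pre, ← sum_subset (s₁ := range (min t (a k))) (range_subset_range.2 (min_le_right _ _))
      fun j hj hj' => by
        rw [mem_range] at hj hj'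
        simp [L', show ¬ j < t by omega],
      sum_subset (s₂ := range t) (range_subset_range.2 (min_le_left _ _)) fun j hj hj' => by
        rw [mem_range] at hj hj'
        simp [L', hj, hL k ⟨j, hj⟩, lev_le.1 (ha k) ⟨j, hj⟩ (show a k ≤ j by omega)], sum_range]
    simp [L', hL]
  have h0 : ∑ P ∈ range (B ^ a k₀), ch (lc (L' k₀) (a k₀) P) = 0 := by
    have e1 := Two.sum_dot (B := B) fun j : Fin (a k₀) => L' k₀ j
    rw [if_neg fun h1 => hk (funext fun j => by
      by_cases h2 : (j : ℕ) < a k₀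
      · simpa [L', hL] using congrFun h1 ⟨j, h2⟩
      · exact lev_le.1 (ha k₀) j (not_lt.1 h2))] at e1
    rw [← e1]
    choose w hw using fun y : Fin (a k₀) → ZMod B => ext_fin y
    refine (sum_bij (fun y _ => pre (w y) (a k₀)) (fun y _ => mem_range.2 (pre_lt _ _))
      (fun y _ y' _ h1 => funext fun j => by
        rw [← hw y j, ← hw y' j, (pre_inj _ _ _).1 h1 j j.2]) (fun P hP => ?_) fun y _ => ?_).symm
    · obtain ⟨y, hy⟩ := Two.exists_pre (a k₀) (mem_range.1 hP)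
      exact ⟨fun j => y j, mem_univ _, hy ▸ (pre_inj _ _ _).2 fun j hj => hw _ ⟨j, hj⟩⟩
    · rw [lc_pre, sum_range]
      simp only [hw, mul_comm]
  have h1 := koksma (β := fun k => B ^ a k) (fun k => pow_pos (NeZero.pos _) _) (z := z)
    (g := fun n k => pre (yd C n k) (a k)) (fun n k => pre_lt _ _)
    (fun n k => by rw [Nat.cast_pow]; exact hz n k (a k))
    (ψ := fun k P => ch (lc (L' k) (a k) P)) (fun _ _ => norm_ch _) (k₀ := k₀) h0
    (B ^ (∑ k, a k + g))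
  simp only [e, ← Two.ch_sum, ← lin_bet, sum_ch_lin hB, if_pos h, norm_pow, Complex.norm_natCast,
    Nat.cast_pow, prod_pow_eq_pow_sum] at h1
  rw [pow_add (B : ℝ) (∑ k, a k) g] at h1
  rw [Nat.cast_pow, pow_add (B : ℝ) (∑ k, a k) g]
  exact le_of_mul_le_mul_left h1 (by positivity)

end One

end Pool.Agent.Lib.MP_490b4c_nt
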