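import Pool.Agent.Lib.MP_490b4c_nt.OneCore

/-! The two halves of the integral test. -/

open Finset Real MeasureTheory ProbabilityTheory Filter Topology

namespace Pool.Agent.Lib.MP_490b4c_nt

namespace One

theorem olivier {f : ℕ → ℝ} (hf : Antitone f) (h0 : ∀ n, 0 ≤ f n) (hs : Summable f) :
    Tendsto (fun n : ℕ => n * f n) atTop (𝓝 0) := by
  have h1 := ((tendsto_sum_nat_add f).comp (Nat.tendsto_div_const_atTop two_ne_zero)).const_mul 2
  rw [mul_zero] at h1
  refine squeeze_zero (fun n => mul_nonneg n.cast_nonneg (h0 n)) (fun n => ?_) h1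
  have h2 := ((summable_nat_add_iff (n / 2)).2 hs).sum_le_tsum (range (n - n / 2)) fun k _ => h0 _
  have h3 := card_nsmul_le_sum (range (n - n / 2)) (fun k => f (k + n / 2)) (f n) fun k hk =>
    hf (by rw [mem_range] at hk; omega)
  rw [card_range, nsmul_eq_mul] at h3
  have h4 : (n : ℝ) ≤ 2 * (n - n / 2 : ℕ) := by exact_mod_cast (by omega : n ≤ 2 * (n - n / 2))
  have h5 := mul_le_mul_of_nonneg_right h4 (h0 n)
  simp only [Function.comp]
  linarith

theorem near {p : ℝ} (hp : 1 < p) (x : ℝ) : ∃ G : ℕ, x < p ^ G ∧ p ^ G ≤ p * max x 1 := by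
  obtain ⟨n, h1, h2⟩ := exists_nat_pow_near (le_max_right x 1) hp
  exact ⟨n + 1, (le_max_left _ _).trans_lt h2, by
    rw [pow_succ']; exact mul_le_mul_of_nonneg_left h1 (by linarith)⟩

theorem expo_facts {B : ℕ} (hB : 2 ≤ B) : (2 : ℝ) ≤ B.minFac ∧ 1 ≤ log B / log B.minFac ∧
    ∀ G : ℕ, ((B.minFac : ℝ) ^ G) ^ (log B / log B.minFac) = (B : ℝ) ^ G := by
  have h1 : (2 : ℝ) ≤ B.minFac := by exact_mod_cast (Nat.minFac_prime (by omega)).two_le
  have h2 : (B.minFac : ℝ) ≤ B := by exact_mod_cast Nat.minFac_le (by omega)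
  refine ⟨h1, (one_le_div (log_pos (by linarith))).2 (log_le_log (by linarith) h2), fun G => ?_⟩
  rw [← rpow_natCast, ← rpow_mul (by linarith), mul_comm, rpow_mul (by linarith), rpow_natCast]
  exact congrArg (· ^ G) (rpow_logb (by linarith) (by linarith) (by linarith))

variable {κ : Type} [Fintype κ] [DecidableEq κ] {B : ℕ} [NeZero B]
  {P : Measure (κ × ℕ × ℕ → ZMod B)} [IsProbabilityMeasure P] [P.IsAddLeftInvariant]
  {z : (κ × ℕ × ℕ → ZMod B) → ℕ → κ → ℝ} {φ : ℝ → ℝ}

theorem upper_block (hB : 2 ≤ B) (hpos : ∀ x, 0 < φ x) (hs : Summable fun n : ℕ => 1 / φ n)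
    (hz : ∀ᵐ C ∂P, ∀ n k a, z C n k ∈ Set.Ico (pre (yd C n k) a / (B : ℝ) ^ a)
      ((pre (yd C n k) a + 1) / (B : ℝ) ^ a)) {ε : ℝ} (h0 : 0 < ε) (h1 : ε ≤ 1) :
    ∀ᵐ C ∂P, ∀ᶠ i : ℕ in atTop, ∀ N : ℕ, log N ≤ exp (i + 1) → N * disc (z C) N ≤
      B * (4 * B + 2) ^ Fintype.card κ * (ε + (8 ^ Fintype.card κ * (Fintype.card κ + 2 ^ B *
        (2 * (Fintype.card κ * i + log (φ i)))) + 2 * Fintype.card κ) / φ i) *
        (exp i ^ Fintype.card κ * φ i) ^ (log B / log B.minFac) := by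
  obtain ⟨hp, hα, hG⟩ := expo_facts hB
  set D := Fintype.card κ
  set p : ℝ := (B.minFac : ℝ)
  set α := log B / log p
  have hB' : (2 : ℝ) ≤ B := by exact_mod_cast hB
  have hp0 : 0 < p := by linarith
  choose G hG1 hG2 using fun i : ℕ => near (show 1 < p by linarith) (ε / p * (exp i ^ D * φ i))
  let t : ℕ → ℕ := fun i => ⌈2 * exp (i + 1)⌉₊
  have ht : ∀ i : ℕ, ((t i : ℝ) + 1) ^ D ≤ 8 ^ D * exp i ^ D := fun i => by
    rw [← mul_pow]
    refine pow_le_pow_left₀ (by positivity) ?_ _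
    have h2 := Nat.ceil_lt_add_one (show 0 ≤ 2 * exp (i + 1) by positivity)
    have h3 : (1 : ℝ) ≤ exp i := one_le_exp i.cast_nonneg
    simp only [t]
    rw [exp_add] at h2 ⊢
    nlinarith [exp_one_lt_d9]
  let E : ℕ → Set (κ × ℕ × ℕ → ZMod B) := fun i =>
    {C | (∃ K : κ → Fin (t i) → ZMod B, K ≠ 0 ∧ ∀ r < ∑ k, lev (K k) + G i, bet K C r = 0) ∨
      (B : ℝ) ^ G i + 2 ^ B * (t i + 1) ^ D * G i < YY (t i) (G i) C}
  have hE : ∀ i : ℕ, P.real (E i) ≤ (1 + 3 * B) * (2 ^ B * 8 ^ D * (p / ε)) * (1 / φ i) := fun i => by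
    have := hpos i
    refine (upper_core hB (t i) (G i)).trans ?_
    calc _ ≤ (1 + 3 * B) * (2 ^ B * (8 ^ D * exp i ^ D) / (ε / p * (exp i ^ D * φ i))) := by
          gcongr
          · exact ht i
          · exact (hG1 i).le
      _ = _ := by field_simp
  have hBC := ae_eventually_notMem (μ := P) (s := E) (ne_top_of_le_ne_top
    (hs.mul_left ((1 + 3 * B) * (2 ^ B * 8 ^ D * (p / ε)))).tsum_ofReal_ne_top
    (ENNReal.tsum_le_tsum fun i => by
      rw [← ofReal_measureReal (measure_ne_top _ _)]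
      exact ENNReal.ofReal_le_ofReal (hE i)))
  filter_upwards [hBC, hz] with C h2 h3
  filter_upwards [h2, hs.tendsto_atTop_zero.eventually (gt_mem_nhds (div_pos h0 hp0))]
    with i h4 h5 N hN
  have hφ := hpos i
  have he : (1 : ℝ) ≤ exp i ^ D := one_le_pow₀ (one_le_exp i.cast_nonneg)
  rw [div_lt_iff₀ hφ] at h5
  have h6 : 1 ≤ ε / p * (exp i ^ D * φ i) := by nlinarith [div_pos h0 hp0]
  have h7 : p ^ G i ≤ ε * (exp i ^ D * φ i) :=
    (hG2 i).trans_eq (by rw [max_eq_left h6]; field_simp)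
  have h8 : 1 ≤ exp i ^ D * φ i := by
    have : 1 ≤ p ^ G i := one_le_pow₀ (by linarith)
    nlinarith [mul_pos (show 0 < exp i ^ D by linarith) hφ]
  set H := (exp i ^ D * φ i) ^ α with hH
  have h9 : exp i ^ D * φ i ≤ H := self_le_rpow_of_one_le h8 hα
  have h10 : (B : ℝ) ^ G i ≤ ε * H := by
    rw [← hG]
    refine (rpow_le_rpow (by positivity) h7 (by linarith)).trans ?_
    rw [mul_rpow h0.le (by linarith)]
    exact mul_le_mul_of_nonneg_right (rpow_le_self_of_le_one h0.le h1 hα) (by linarith)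
  have h11 : (G i : ℝ) ≤ 2 * (D * i + log (φ i)) := by
    have h12 := log_le_log (by positivity) ((pow_le_pow_left₀ zero_le_two hp (G i)).trans
      (h7.trans (mul_le_of_le_one_left (by linarith) h1)))
    rw [log_pow, log_mul (by positivity) hφ.ne', log_pow, log_exp] at h12
    nlinarith [log_two_gt_d9, (G i).cast_nonneg (α := ℝ)]
  have hNt : N ≤ B ^ t i := by
    rcases N.eq_zero_or_pos with rfl | hN0
    · exact Nat.zero_le _
    have h12 : (N : ℝ) ≤ (2 : ℝ) ^ t i := by
      rw [← log_le_log_iff (by exact_mod_cast hN0) (by positivity), log_pow]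
      nlinarith [log_two_gt_d9, Nat.le_ceil (2 * exp (i + 1)), exp_pos ((i : ℝ) + 1)]
    exact_mod_cast h12.trans (pow_le_pow_left₀ zero_le_two hB' _)
  simp only [E, Set.mem_ofPred_eq, not_or, not_exists, not_and, not_lt] at h4
  have h12 := disc_upper hB (fun n k => h3 n k (t i)) h4.1 hNt
  set c : ℝ := B * (4 * B + 2) ^ D
  have hc : 1 ≤ c := one_le_mul_of_one_le_of_one_le (by linarith) (one_le_pow₀ (by linarith))
  have hGi : (0 : ℝ) ≤ G i := Nat.cast_nonneg _
  have h13 : D * ((t i : ℝ) + 1) ^ D + 2 ^ B * (t i + 1) ^ D * G i + 2 * D ≤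
      (8 ^ D * (D + 2 ^ B * (2 * (D * i + log (φ i)))) + 2 * D) / φ i * H :=
    calc _ ≤ D * (8 ^ D * exp i ^ D) + 2 ^ B * (8 ^ D * exp i ^ D) * (2 * (D * i + log (φ i))) +
          2 * D * exp i ^ D := by
          have := ht i
          refine add_le_add (by gcongr) (le_mul_of_one_le_right (by positivity) he)
      _ = (8 ^ D * (D + 2 ^ B * (2 * (D * i + log (φ i)))) + 2 * D) / φ i *
          (exp i ^ D * φ i) := by field_simp
      _ ≤ _ := mul_le_mul_of_nonneg_left h9 (by have := hGi.trans h11; positivity)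
  have h14 : (2 : ℝ) * D ≤ c * (2 * D) := le_mul_of_one_le_left (by positivity) hc
  have h15 := mul_le_mul_of_nonneg_left (add_le_add h13 (h4.2.trans (add_le_add_left h10 _)))
    (show 0 ≤ c by linarith)
  nlinarith

theorem upper (hB : 2 ≤ B) (hφ : Monotone φ) (hpos : ∀ x, 0 < φ x)
    (hs : Summable fun n : ℕ => 1 / φ n)
    (hz : ∀ᵐ C ∂P, ∀ n k a, z C n k ∈ Set.Ico (pre (yd C n k) a / (B : ℝ) ^ a)
      ((pre (yd C n k) a + 1) / (B : ℝ) ^ a)) :
    ∀ᵐ C ∂P, ∀ ε : ℝ, 0 < ε → ∀ᶠ N : ℕ in atTop, N * disc (z C) N ≤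
      ε * (log N ^ Fintype.card κ * φ (log (log N))) ^ (log B / log B.minFac) := by
  have h1 := ae_all_iff.2 fun n : ℕ => upper_block hB hpos hs hz
    (Nat.one_div_pos_of_nat (n := n)) (by
      rw [div_le_one (by positivity)]; linarith [n.cast_nonneg (α := ℝ)])
  obtain ⟨_, hα, _⟩ := expo_facts hB
  set D := Fintype.card κ
  have t1 := hs.tendsto_atTop_zero
  have t2 := olivier (f := fun n : ℕ => 1 / φ n) (fun a b hab => one_div_le_one_div_of_le (hpos _)
    (hφ (by exact_mod_cast hab))) (fun n => (one_div_pos.2 (hpos _)).le) hs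
  have t3 : Tendsto (fun n : ℕ => φ n) atTop atTop := by
    have := (tendsto_nhdsWithin_iff.2 ⟨t1, Eventually.of_forall fun n =>
      (show 1 / φ n ∈ Set.Ioi 0 from one_div_pos.2 (hpos _))⟩).inv_tendsto_nhdsGT_zero
    exact this.congr fun n => by simp
  have t4 := isLittleO_log_id_atTop.tendsto_div_nhds_zero.comp t3
  have t5 : Tendsto (fun i : ℕ => ((8 : ℝ) ^ D * (D + 2 ^ B * (2 * (D * i + log (φ i)))) +
      2 * D) / φ i) atTop (𝓝 0) := by
    have := (((t1.const_mul (D : ℝ)).add ((((t2.const_mul (D : ℝ)).add t4).const_mul 2).const_mul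
      (2 ^ B))).const_mul (8 ^ D)).add (t1.const_mul (2 * (D : ℝ)))
    simp only [mul_zero, add_zero] at this
    refine this.congr fun i => ?_
    simp only [Function.comp, id]
    ring
  have t6 : Tendsto (fun N : ℕ => log (log N)) atTop atTop :=
    tendsto_log_atTop.comp (tendsto_log_atTop.comp tendsto_natCast_atTop_atTop)
  filter_upwards [h1] with C hC ε hε
  set c : ℝ := B * (4 * B + 2) ^ D
  have hc : 0 < c := by positivity
  obtain ⟨n, hn⟩ := exists_nat_one_div_lt (show 0 < ε / (2 * c) by positivity)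
  filter_upwards [(tendsto_nat_floor_atTop.comp t6).eventually ((hC n).and
    (t5.eventually (gt_mem_nhds (show 0 < ε / (2 * c) by positivity)))),
    t6.eventually_ge_atTop 0, eventually_ge_atTop 2] with N ⟨h2, h3⟩ h4 h5
  simp only [Function.comp] at h2 h3
  have h6 : 0 < log N := log_pos (by exact_mod_cast h5)
  have h7 := Nat.floor_le h4
  have h8 := h2 N ((log_le_iff_le_exp h6).1 (Nat.lt_floor_add_one _).le)
  have h9 := hpos (⌊log (log N)⌋₊ : ℕ)
  refine h8.trans (mul_le_mul ?_ (rpow_le_rpow (by positivity) (mul_le_mul (pow_le_pow_left₀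
    (by positivity) ((le_log_iff_exp_le h6).1 h7) _) (hφ h7) h9.le (by positivity))
    (by linarith)) (by positivity) hε.le)
  rw [← le_div_iff₀' hc, show ε / c = ε / (2 * c) + ε / (2 * c) by ring]
  exact add_le_add hn.le h3.le

theorem lower [Nonempty κ] (hB : 2 ≤ B) (hφ : Monotone φ) (hpos : ∀ x, 0 < φ x)
    (hs : ¬ Summable fun n : ℕ => 1 / φ n)
    (hz : ∀ᵐ C ∂P, ∀ n k a, z C n k ∈ Set.Ico (pre (yd C n k) a / (B : ℝ) ^ a)
      ((pre (yd C n k) a + 1) / (B : ℝ) ^ a)) :
    ∀ᵐ C ∂P, ∀ c : ℝ, ∃ᶠ N : ℕ in atTop,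
      c * (log N ^ Fintype.card κ * φ (log (log N))) ^ (log B / log B.minFac) <
        N * disc (z C) N := by
  classical
  obtain ⟨hp, hα, hG⟩ := expo_facts hB
  have : Fact B.minFac.Prime := ⟨Nat.minFac_prime (by omega)⟩
  obtain ⟨k₀⟩ := ‹Nonempty κ›
  set D := Fintype.card κ with hD
  set α := log B / log B.minFac
  have hB' : (2 : ℝ) ≤ B := by exact_mod_cast hB
  have hlB : 0 < log B := log_pos (by linarith)
  have key : ∀ m : ℕ, P {C | (∀ n k a, z C n k ∈ Set.Ico (pre (yd C n k) a / (B : ℝ) ^ a)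
      ((pre (yd C n k) a + 1) / (B : ℝ) ^ a)) ∧ ∀ N : ℕ, m ≤ N → N * disc (z C) N ≤
        (m + 1) * (log N ^ D * φ (log (log N))) ^ α} = 0 := by
    intro m
    rw [← measureReal_eq_zero_iff]
    by_contra hη
    set η := P.real _ with hη'
    replace hη : 0 < η := lt_of_le_of_ne measureReal_nonneg (Ne.symm hη)
    set L : ℝ := (2 * D + 1) * log B with hL
    have hL0 : 0 < L := by positivity
    let x : ℕ → ℝ := fun i => (m + 1) * ((L * 2 ^ i) ^ D * φ (i + ⌈log L⌉₊ : ℕ))
    have hx : ∀ i, 0 < x i := fun i => by have := hpos (i + ⌈log L⌉₊ : ℕ); positivity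
    choose G hG1 hG2 using fun i : ℕ => near (show (1 : ℝ) < B.minFac by linarith) (x i)
    let y : ℕ → ℝ := fun i => ((2 : ℝ) ^ i / 2) ^ D / (B.minFac : ℝ) ^ G i
    have hy : ∀ i, 0 ≤ y i := fun i => by positivity
    have h1 : Summable fun i => if m ≤ i ∧ G i ≤ 2 ^ i then y i else 0 := by
      refine summable_of_sum_le (c := 3 * B.minFac / η) (fun i => by
        have := hy i; simp only [Pi.zero_apply]; positivity) fun u => ?_
      rw [← sum_filter, le_div_iff₀' hη]
      refine le_trans (mul_le_mul_of_nonneg_right (measureReal_mono ?_) (sum_nonneg fun i _ => hy i))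
        (lower_core (P := P) (f := (ZMod.castHom B.minFac_dvd (ZMod B.minFac)).toAddMonoidHom)
          (ZMod.castHom_surjective B.minFac_dvd) (u.filter fun i => m ≤ i ∧ G i ≤ 2 ^ i) G
          (t := ∑ i ∈ u, 2 * 2 ^ i) fun i hi => single_le_sum (f := fun i => 2 * 2 ^ i)
            (fun _ _ => Nat.zero_le _) (mem_filter.1 hi).1)
      rintro C ⟨h2, h3⟩ i hi K hK h4
      obtain ⟨h5, h6⟩ := (mem_filter.1 hi).2
      have h7 : 2 ^ i < ∑ k, lev (K k) + G i := (mem_Ioc.1 (hK k₀)).1.trans_le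
        ((single_le_sum (f := fun k => lev (K k)) (fun _ _ => Nat.zero_le _)
          (mem_univ k₀)).trans (Nat.le_add_right _ _))
      have h8 : ∑ k, lev (K k) ≤ D * (2 * 2 ^ i) :=
        sum_le_card_nsmul univ _ _ fun k _ => (mem_Ioc.1 (hK k)).2
      have h9 := disc_lower' hB B.minFac_dvd h2 (K := K) (fun h => by
        have h1 := (mem_Ioc.1 (hK k₀)).1
        have h2 : lev (K k₀) ≤ 0 := lev_le.2 fun j _ => by simp [h]
        exact absurd (h1.trans_le h2) (Nat.not_lt_zero _)) h4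
      set s := ∑ k, lev (K k) + G i with hs
      have h10 := h9.trans (h3 _ (h5.trans (((Nat.lt_pow_self one_lt_two).trans h7).trans
        (Nat.lt_pow_self hB)).le))
      have h11 : (0 : ℝ) < s := by exact_mod_cast (Nat.zero_le _).trans_lt h7
      have h12 : (s : ℝ) * log B ≤ L * 2 ^ i := by
        have : (s : ℝ) ≤ (2 * D + 1) * 2 ^ i := by
          exact_mod_cast (show s ≤ (2 * D + 1) * 2 ^ i by nlinarith)
        rw [hL, mul_right_comm]
        exact mul_le_mul_of_nonneg_right this hlB.le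
      have h13 : log (s * log B) ≤ (i + ⌈log L⌉₊ : ℕ) := by
        refine (log_le_log (by positivity) h12).trans ?_
        rw [log_mul hL0.ne' (by positivity), log_pow]
        push_cast
        nlinarith [Nat.le_ceil (log L), log_two_lt_d9, i.cast_nonneg (α := ℝ)]
      rw [Nat.cast_pow, log_pow, ← hG] at h10
      have h14 := hpos (log (s * log B))
      have h15 : (1 : ℝ) ≤ m + 1 := by linarith [m.cast_nonneg (α := ℝ)]
      refine absurd h10 (not_le.2 (lt_of_le_of_lt ?_
        (rpow_lt_rpow (hx i).le (hG1 i) (by linarith))))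
      simp only [x]
      rw [mul_rpow (x := m + 1) (by positivity)
        (by have := hpos (i + ⌈log L⌉₊ : ℕ); positivity)]
      exact mul_le_mul (self_le_rpow_of_one_le h15 hα) (rpow_le_rpow (by positivity)
        (mul_le_mul (pow_le_pow_left₀ (by positivity) h12 _) (hφ h13) h14.le (by positivity))
        (zero_le_one.trans hα)) (by positivity) (by positivity)
    have h2 : Summable fun i : ℕ => ((2 ^ i : ℕ) : ℝ) ^ D * (1 / 2 : ℝ) ^ 2 ^ i :=
      (summable_pow_mul_geometric_of_norm_lt_one D (r := (1 / 2 : ℝ))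
        (by norm_num)).comp_injective (Nat.pow_right_injective le_rfl)
    have h0 := hpos 0
    set w : ℝ := 2 ^ D * (B.minFac * ((m + 1) * L ^ D + 1 / φ 0)) with hw
    refine hs ((summable_nat_add_iff ⌈log L⌉₊).1 ((summable_nat_add_iff m).1
      (Summable.of_nonneg_of_le (fun i => (one_div_pos.2 (hpos _)).le) (fun i => ?_)
        ((summable_nat_add_iff m).2 ((h1.add h2).mul_left w)))))
    have h3 := hpos (i + m + ⌈log L⌉₊ : ℕ)
    have h4 : 1 / φ (i + m + ⌈log L⌉₊ : ℕ) ≤ w * y (i + m) := by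
      have h5 : 1 ≤ ((2 : ℝ) ^ (i + m)) ^ D * φ (i + m + ⌈log L⌉₊ : ℕ) * (1 / φ 0) := by
        rw [mul_assoc, mul_one_div]
        exact one_le_mul_of_one_le_of_one_le (one_le_pow₀ (one_le_pow₀ one_le_two))
          ((one_le_div h0).2 (hφ (Nat.cast_nonneg _)))
      have h6 := (hG2 (i + m)).trans (mul_le_mul_of_nonneg_left (max_le
        (le_add_of_nonneg_right (zero_le_one.trans h5))
        (le_add_of_nonneg_of_le (hx _).le h5)) (by linarith))
      simp only [y, hw]
      rw [← mul_div_assoc, div_le_div_iff₀ h3 (by positivity), one_mul]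
      refine h6.trans_eq ?_
      simp only [x, mul_pow, div_pow]
      field_simp
    refine h4.trans (mul_le_mul_of_nonneg_left ?_ (by positivity))
    split_ifs with h5
    · exact le_add_of_nonneg_right (by positivity)
    · have h6 : 2 ^ (i + m) ≤ G (i + m) := by omega
      simp only [y]
      rw [zero_add, one_div, inv_pow, ← div_eq_mul_inv]
      push_cast
      exact div_le_div₀ (by positivity) (pow_le_pow_left₀ (by positivity)
        (half_le_self (by positivity)) _) (by positivity) ((pow_le_pow_right₀ one_le_two h6).trans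
        (pow_le_pow_left₀ zero_le_two hp _))
  filter_upwards [ae_all_iff.2 fun m => measure_eq_zero_iff_ae_notMem.1 (key m), hz] with C h1 h2 c
  by_contra h
  obtain ⟨N₀, h⟩ := eventually_atTop.1 ((not_frequently.1 h).and (eventually_ge_atTop 1))
  obtain ⟨m, hm⟩ := exists_nat_ge (max c N₀)
  refine h1 m ⟨h2, fun N hN => ?_⟩
  obtain ⟨h3, h4⟩ := h N (le_trans (by exact_mod_cast (le_max_right _ _).trans hm) hN)
  have h5 := hpos (log (log N))
  have h6 := log_natCast_nonneg N
  exact (not_lt.1 h3).trans (mul_le_mul_of_nonneg_right (by linarith [le_max_left c N₀])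
    (by positivity))

end One

end Pool.Agent.Lib.MP_490b4c_nt
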