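import Pool.Agent.Lib.MP_490b4c_nt.OneGrid

/-! First and second moments of the random majorant. -/

open Finset Real MeasureTheory ProbabilityTheory

namespace Pool.Agent.Lib.MP_490b4c_nt

namespace One

section cheb

variable {Ω ι : Type} [MeasurableSpace Ω] {P : Measure Ω} [IsProbabilityMeasure P]

theorem int_step {A : ℕ → Set Ω} (hA : ∀ g, MeasurableSet (A g)) (w : ℕ → ℝ) (G : ℕ) :
    MemLp (fun ω => ∑ g ∈ range G, (A g).indicator (fun _ => w g) ω) 2 P ∧
    ∫ ω, ∑ g ∈ range G, (A g).indicator (fun _ => w g) ω ∂P = ∑ g ∈ range G, w g * P.real (A g) := by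
  refine ⟨memLp_finsetSum _ fun g _ =>
    memLp_indicator_const 2 (hA g) _ (Or.inr (measure_ne_top _ _)), ?_⟩
  rw [integral_finsetSum _ fun g _ => (integrable_const _).indicator (hA g)]
  exact sum_congr rfl fun g _ => by rw [integral_indicator_const _ (hA g), smul_eq_mul, mul_comm]

theorem cheb (S : Finset ι) {A : ι → ℕ → Set Ω} (hA : ∀ i g, MeasurableSet (A i g)) {b : ℝ}
    (hb : 2 ≤ b) (G : ℕ) {R : ι → ι → Prop} [DecidableRel R] (hR : ∀ i j, R i j → R j i) {r : ℝ}
    (hr : ∀ i ∈ S, ((S.filter (R i)).card : ℝ) ≤ r)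
    (hind : ∀ i ∈ S, ∀ j ∈ S, ¬ R i j → ∀ g g', P.real (A i g ∩ A j g') =
      P.real (A i g) * P.real (A j g')) {T : ℝ} (hT : 0 < T) :
    P.real {ω | T ≤ |∑ i ∈ S, ∑ g ∈ range G, (A i g).indicator (fun _ => b ^ g) ω -
      ∑ i ∈ S, ∑ g ∈ range G, b ^ g * P.real (A i g)|} ≤
      r * (3 * ∑ i ∈ S, ∑ g ∈ range G, (b ^ g) ^ 2 * P.real (A i g)) / T ^ 2 := by
  have hb0 : 0 < b := by linarith
  let W : ι → Ω → ℝ := fun i ω => ∑ g ∈ range G, (A i g).indicator (fun _ => b ^ g) ω
  have hW : ∀ i, MemLp (W i) 2 P := fun i => (int_step (hA i) _ G).1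
  have iW : ∀ i, ∫ ω, W i ω ∂P = ∑ g ∈ range G, b ^ g * P.real (A i g) := fun i =>
    (int_step (hA i) _ G).2
  let V : ι → ℝ := fun i => 3 * ∑ g ∈ range G, (b ^ g) ^ 2 * P.real (A i g)
  have hV0 : ∀ i, 0 ≤ V i := fun i => by positivity
  have hV : ∀ i, ∫ ω, W i ω ^ 2 ∂P ≤ V i := fun i => by
    have h1 := int_step (P := P) (hA i) (fun g => (b ^ g) ^ 2) G
    simp only [V]
    rw [← h1.2, ← integral_const_mul]
    refine integral_mono (hW i).integrable_sq ((h1.1.integrable one_le_two).const_mul _) fun ω => ?_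
    simp only [W]
    clear h1 hV0 V iW hW W
    induction G with
    | zero => simp
    | succ G ih =>
      rw [sum_range_succ, sum_range_succ]
      by_cases h : ω ∈ A i G
      · have h2 : ∑ g ∈ range G, (A i g).indicator (fun _ => b ^ g) ω ≤ b ^ G :=
          (sum_le_sum fun g _ => Set.indicator_le_self' (fun _ _ => by positivity) ω).trans
            (geo hb G)
        simp only [Set.indicator_of_mem h]
        nlinarith [pow_pos hb0 G]
      · simpa [Set.indicator_of_notMem h] using ih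
  have hc : ∀ i ∈ S, ∀ j ∈ S, cov[W i, W j; P] ≤ if R i j then (V i + V j) / 2 else 0 := by
    intro i hi j hj
    rw [covariance_eq_sub (hW i) (hW j)]
    split_ifs with h
    · have h1 : ∫ ω, (W i * W j) ω ∂P ≤ ∫ ω, (W i ω ^ 2 + W j ω ^ 2) / 2 ∂P :=
        integral_mono ((hW i).integrable_mul (hW j))
          (((hW i).integrable_sq.add (hW j).integrable_sq).div_const 2) fun ω => by
            simp only [Pi.mul_apply]
            nlinarith [sq_nonneg (W i ω - W j ω)]
      rw [integral_div, integral_add (hW i).integrable_sq (hW j).integrable_sq] at h1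
      have h2 : 0 ≤ (∫ ω, W i ω ∂P) * ∫ ω, W j ω ∂P := by
        rw [iW, iW]
        positivity
      linarith [hV i, hV j]
    · have e : W i * W j = fun ω => ∑ g ∈ range G, ∑ g' ∈ range G,
          (A i g ∩ A j g').indicator (fun _ => b ^ g * b ^ g') ω := by
        funext ω
        simp only [W, Pi.mul_apply, sum_mul_sum, Set.inter_indicator_mul]
      have h1 := fun g => int_step (P := P) (fun g' => (hA i g).inter (hA j g'))
        (fun g' => b ^ g * b ^ g') G
      rw [e, integral_finsetSum _ fun g _ => (h1 g).1.integrable one_le_two, iW, iW, sum_mul_sum]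
      simp only [(h1 _).2, hind i hi j hj h, sub_nonpos]
      exact le_of_eq (sum_congr rfl fun _ _ => sum_congr rfl fun _ _ => by ring)
  have hvar : Var[fun ω => ∑ i ∈ S, W i ω; P] ≤ r * ∑ i ∈ S, V i := by
    rw [variance_fun_sum' fun i _ => hW i]
    refine (sum_le_sum fun i hi => sum_le_sum fun j hj => hc i hi j hj).trans ?_
    have h1 : ∑ i ∈ S, ∑ j ∈ S, (if R i j then V i else 0) ≤ r * ∑ i ∈ S, V i := by
      rw [mul_sum]
      refine sum_le_sum fun i hi => ?_
      rw [← sum_filter, sum_const, nsmul_eq_mul]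
      exact mul_le_mul_of_nonneg_right (hr i hi) (hV0 i)
    have h2 : ∑ i ∈ S, ∑ j ∈ S, (if R i j then V j else 0) =
        ∑ i ∈ S, ∑ j ∈ S, (if R i j then V i else 0) := by
      rw [sum_comm]
      exact sum_congr rfl fun i _ => sum_congr rfl fun j _ =>
        if_congr ⟨hR _ _, hR _ _⟩ rfl rfl
    have h3 : ∑ i ∈ S, ∑ j ∈ S, (if R i j then (V i + V j) / 2 else 0) =
        (∑ i ∈ S, ∑ j ∈ S, (if R i j then V i else 0) +
          ∑ i ∈ S, ∑ j ∈ S, (if R i j then V j else 0)) / 2 := by
      simp only [← sum_add_distrib, sum_div]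
      exact sum_congr rfl fun i _ => sum_congr rfl fun j _ => by split_ifs <;> simp
    linarith
  have h := meas_ge_le_variance_div_sq (memLp_finsetSum S fun i _ => hW i) hT
  rw [integral_finsetSum _ fun i _ => (hW i).integrable one_le_two] at h
  simp only [iW] at h
  refine (ENNReal.toReal_le_of_le_ofReal (div_nonneg (variance_nonneg _ _) (sq_nonneg _)) h).trans ?_
  rw [mul_sum S]
  exact div_le_div_of_nonneg_right hvar (sq_nonneg _)

end cheb

section count

variable {R : Type} [Zero R] [DecidableEq R] [Fintype R] {t : ℕ}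

theorem card_lev {J : Finset R} (hJ : 0 ∈ J) {a : ℕ} (ha : a ≤ t) :
    (univ.filter fun v : Fin t → R => (∀ j, v j ∈ J) ∧ lev v ≤ a).card = J.card ^ a := by
  have e : (univ.filter fun v : Fin t → R => (∀ j, v j ∈ J) ∧ lev v ≤ a) =
      Fintype.piFinset fun j : Fin t => if (j : ℕ) < a then J else {0} := by
    ext v
    simp only [mem_filter, mem_univ, true_and, Fintype.mem_piFinset, lev_le, ← forall_and]
    refine forall_congr' fun j => ?_
    split_ifs with h
    · simp [not_le.2 h]
    · simpa [not_lt.1 h] using fun h : v j = 0 => h ▸ hJ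
  rw [e, Fintype.card_piFinset, prod_congr rfl (g := fun j : Fin t =>
    if (j : ℕ) < a then J.card else 1) fun j _ => by split_ifs <;> simp,
    Fin.prod_univ_eq_prod_range (fun j => if j < a then J.card else 1) t, ← prod_filter,
    show (range t).filter (fun j => j < a) = range a by
      ext j
      simp only [mem_filter, mem_range]
      omega, prod_const, card_range]

omit [Fintype R] in
theorem lev_le_t (v : Fin t → R) : lev v ≤ t := lev_le.2 fun j hj => absurd j.2 (not_lt.2 hj)

theorem sum_lev_le {J : Finset R} (hJ : 0 ∈ J) :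
    ∑ v ∈ univ.filter fun v : Fin t → R => ∀ j, v j ∈ J, (1 / (J.card : ℝ)) ^ lev v ≤ t + 1 := by
  have h0 : (0 : ℝ) < J.card := Nat.cast_pos.2 (card_pos.2 ⟨0, hJ⟩)
  rw [← sum_fiberwise_of_maps_to (t := range (t + 1)) (g := lev)
    fun v _ => mem_range.2 (Nat.lt_succ_of_le (lev_le_t v))]
  refine (sum_le_card_nsmul _ _ (1 : ℝ) fun a ha => ?_).trans_eq (by simp)
  rw [sum_congr rfl (g := fun _ => (1 / (J.card : ℝ)) ^ a) fun v hv => by rw [(mem_filter.1 hv).2],
    sum_const, nsmul_eq_mul, one_div, inv_pow, ← div_eq_mul_inv, div_le_one (by positivity),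
    ← Nat.cast_pow, ← card_lev hJ (Nat.le_of_lt_succ (mem_range.1 ha)), filter_filter]
  exact Nat.cast_le.2 (card_le_card (monotone_filter_right _ fun v _ h => ⟨h.1, h.2.le⟩))

theorem le_sum_lev (h2 : 2 ≤ Fintype.card R) {A : ℕ} (hA : 2 * A ≤ t) :
    (A : ℝ) / 2 ≤ ∑ v ∈ univ.filter fun v : Fin t → R => lev v ∈ Ioc A (2 * A),
      (1 / (Fintype.card R : ℝ)) ^ lev v := by
  have h0 : (2 : ℝ) ≤ Fintype.card R := by exact_mod_cast h2
  rw [← sum_fiberwise_of_maps_to (t := Ioc A (2 * A)) (g := lev) fun v hv => (mem_filter.1 hv).2]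
  refine le_trans (le_of_eq ?_) (card_nsmul_le_sum _ _ (1 / 2 : ℝ) fun a ha => ?_)
  · rw [Nat.card_Ioc, show 2 * A - A = A by omega, nsmul_eq_mul]
    ring
  · obtain ⟨ha1, ha2⟩ := mem_Ioc.1 ha
    obtain ⟨a, rfl⟩ := Nat.exists_eq_add_one_of_ne_zero (show a ≠ 0 by omega)
    have e1 := card_lev (R := R) (t := t) (mem_univ 0) (show a + 1 ≤ t by omega)
    have e2 := card_lev (R := R) (t := t) (mem_univ 0) (show a ≤ t by omega)
    simp only [mem_univ, implies_true, true_and, card_univ] at e1 e2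
    have e3 := card_filter_add_card_filter_not
      (s := univ.filter fun v : Fin t → R => lev v ≤ a + 1) fun v => lev v ≤ a
    rw [filter_filter, filter_filter, e1, filter_congr (q := fun v => lev v ≤ a)
      fun v _ => by omega, e2, filter_congr (q := fun v => lev v ∈ Ioc A (2 * A) ∧ lev v = a + 1)
      fun v _ => by rw [mem_Ioc]; omega] at e3
    rw [sum_congr rfl (g := fun _ => (1 / (Fintype.card R : ℝ)) ^ (a + 1))
      fun v hv => by rw [(mem_filter.1 hv).2], sum_const, nsmul_eq_mul, filter_filter, one_div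
        (Fintype.card R : ℝ), inv_pow, ← div_eq_mul_inv, le_div_iff₀ (by positivity)]
    have e4 := congrArg (Nat.cast : ℕ → ℝ) e3
    push_cast at e4
    rw [← e4]
    rw [pow_succ] at e4
    nlinarith [pow_pos (show (0 : ℝ) < Fintype.card R by linarith) a]

end count

variable {κ : Type} [Fintype κ] [DecidableEq κ] {B t : ℕ}

omit [Fintype κ] [DecidableEq κ] in
theorem exists_C {R : Type} [Zero R] (c : ℕ → κ × Fin t → R) :
    ∃ C : κ × ℕ × ℕ → R, ∀ r k (j : Fin t), C (k, j, r) = c r (k, j) :=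
  ⟨fun x => if h : x.2.1 < t then c x.2.2 (x.1, ⟨_, h⟩) else 0, fun r k j => by simp⟩

omit [DecidableEq κ] in
theorem meas_bet {p : ℕ} [NeZero p] (f : ZMod B → ZMod p) (K : κ → Fin t → ZMod p) (r : ℕ) :
    Measurable fun C : κ × ℕ × ℕ → ZMod B => bet K (fun x => f (C x)) r :=
  Finset.measurable_fun_sum _ fun k _ => Finset.measurable_fun_sum _ fun j _ =>
    ((measurable_from_top (f := f)).comp (measurable_pi_apply (k, (j : ℕ), r))).const_mul (K k j)

/-- The event that the combination of rows starts with `m` zeros. -/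
def Ev {p : ℕ} (f : ZMod B → ZMod p) (K : κ → Fin t → ZMod p) (m : ℕ) :
    Set (κ × ℕ × ℕ → ZMod B) := {C | ∀ r < m, bet K (fun x => f (C x)) r = 0}

omit [DecidableEq κ] in
theorem meas_Ev {p : ℕ} [NeZero p] (f : ZMod B → ZMod p) (K : κ → Fin t → ZMod p) (m : ℕ) :
    MeasurableSet (Ev f K m) := by
  have : Ev f K m = ⋂ r, ⋂ _ : r < m, (fun C => bet K (fun x => f (C x)) r) ⁻¹' {0} := by
    ext C
    simp [Ev]
  rw [this]
  exact .iInter fun r => .iInter fun _ => meas_bet f K r (measurableSet_singleton _)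

variable [NeZero B] {P : Measure (κ × ℕ × ℕ → ZMod B)} [IsProbabilityMeasure P]
  [P.IsAddLeftInvariant]

omit [DecidableEq κ] in
theorem real_Ev (K : κ → Fin t → ZMod B) (m : ℕ) [DecidablePred (· ∈ Ideal.span
    (Set.range fun x : κ × Fin t => K x.1 x.2))] : P.real (Ev id K m) = (1 / ((univ.filter
      (· ∈ Ideal.span (Set.range fun x : κ × Fin t => K x.1 x.2))).card : ℝ)) ^ m := by
  let I := Ideal.span (Set.range fun x : κ × Fin t => K x.1 x.2)
  let φ : (κ × ℕ × ℕ → ZMod B) →+ (Fin m → I) :=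
    { toFun := fun C r => ⟨bet K C r, I.sum_mem fun k _ => I.sum_mem fun j _ =>
        I.mul_mem_right _ (Ideal.subset_span ⟨(k, j), rfl⟩)⟩
      map_zero' := by funext r; simp [bet]
      map_add' := fun C C' => by funext r; simp [bet, mul_add, sum_add_distrib] }
  have h := real_fiber (P := P) φ (fun h => by
    have : φ ⁻¹' {h} = ⋂ r : Fin m, (fun C => bet K (fun x => id (C x)) r) ⁻¹' {(h r : ZMod B)} := by
      ext C
      simp [φ, funext_iff, Subtype.ext_iff]
    rw [this]
    exact .iInter fun r => meas_bet id K r (measurableSet_singleton _)) (fun v => by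
      choose c hc using fun r => Ideal.mem_span_range_iff_exists_fun.1 (v r).2
      obtain ⟨w, hw⟩ := ext_fin c
      obtain ⟨C, hC⟩ := exists_C w
      refine ⟨C, funext fun r => Subtype.ext ?_⟩
      rw [← hc, Fintype.sum_prod_type]
      simp [φ, bet, hC, hw, mul_comm]) 0
  rw [show Ev id K m = φ ⁻¹' {0} by
    ext C
    simp [Ev, φ, funext_iff, Subtype.ext_iff, Fin.forall_iff], h]
  simp [Fintype.card_subtype, I]

theorem first_moment (t g : ℕ) :
    ∑ K ∈ univ.erase (0 : κ → Fin t → ZMod B), P.real (Ev id K (∑ k, lev (K k) + g)) ≤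
      2 ^ B * (t + 1) ^ Fintype.card κ / (B.minFac : ℝ) ^ g := by
  classical
  have hp : (0 : ℝ) < B.minFac := Nat.cast_pos.2 B.minFac_pos
  let J : (κ → Fin t → ZMod B) → Finset (ZMod B) := fun K =>
    univ.filter (· ∈ Ideal.span (Set.range fun x : κ × Fin t => K x.1 x.2))
  have hJ0 : ∀ K, 0 ∈ J K := fun K => by simp [J]
  have hJ1 : ∀ K k j, K k j ∈ J K := fun K k j =>
    mem_filter.2 ⟨mem_univ _, Ideal.subset_span ⟨(k, j), rfl⟩⟩
  rw [le_div_iff₀ (by positivity), sum_mul]
  calc _ ≤ ∑ K : κ → Fin t → ZMod B, ∏ k, (1 / ((J K).card : ℝ)) ^ lev (K k) := by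
        refine (sum_le_sum fun K hK => ?_).trans (sum_le_sum_of_subset_of_nonneg (erase_subset _ _)
          fun _ _ _ => by positivity)
        obtain ⟨k, hk⟩ := Function.ne_iff.1 (mem_erase.1 hK).1
        obtain ⟨j, hj⟩ := Function.ne_iff.1 hk
        have h1 : B.minFac ≤ (J K).card := by
          refine Nat.minFac_le_of_dvd (one_lt_card.2 ⟨_, hJ1 K k j, _, hJ0 K, hj⟩) ?_
          have := (Ideal.span (Set.range fun x : κ × Fin t =>
            K x.1 x.2)).toAddSubgroup.card_addSubgroup_dvd_card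
          rwa [Nat.card_zmod, Nat.card_eq_fintype_card, Fintype.card_subtype] at this
        have h2 : (B.minFac : ℝ) ≤ (J K).card := by exact_mod_cast h1
        rw [real_Ev, prod_pow_eq_pow_sum, pow_add, mul_assoc, ← mul_pow]
        refine mul_le_of_le_one_right (by positivity) (pow_le_one₀ (by positivity) ?_)
        rw [one_div, inv_mul_le_iff₀ (hp.trans_le h2), mul_one]
        exact h2
    _ ≤ _ := by
        rw [← sum_fiberwise_of_maps_to (t := univ.filter fun S : Finset (ZMod B) => 0 ∈ S) (g := J)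
          fun K _ => mem_filter.2 ⟨mem_univ _, hJ0 K⟩]
        refine (sum_le_card_nsmul _ _ (((t : ℝ) + 1) ^ Fintype.card κ) fun S hS => ?_).trans ?_
        · rw [sum_congr rfl (g := fun K => ∏ k, (1 / (S.card : ℝ)) ^ lev (K k))
            fun K hK => by rw [(mem_filter.1 hK).2]]
          refine (sum_le_sum_of_subset_of_nonneg (t := Fintype.piFinset fun _ : κ =>
            univ.filter fun v : Fin t → ZMod B => ∀ j, v j ∈ S) (fun K hK =>
              Fintype.mem_piFinset.2 fun k => mem_filter.2 ⟨mem_univ _, fun j => by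
                rw [← (mem_filter.1 hK).2]
                exact hJ1 K k j⟩) fun _ _ _ => by positivity).trans ?_
          rw [← prod_univ_sum (f := fun (_ : κ) (v : Fin t → ZMod B) => (1 / (S.card : ℝ)) ^ lev v),
            prod_const, card_univ]
          exact pow_le_pow_left₀ (sum_nonneg fun _ _ => by positivity)
            (sum_lev_le (mem_filter.1 hS).2) _
        · rw [nsmul_eq_mul]
          refine mul_le_mul_of_nonneg_right ?_ (by positivity)
          have := card_le_univ (univ.filter fun S : Finset (ZMod B) => 0 ∈ S)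
          rw [Fintype.card_finset, ZMod.card] at this
          exact_mod_cast this

variable {p : ℕ} [Fact p.Prime]

/-- The first columns of a combination of rows, read modulo `p`. -/
def psi (f : ZMod B →+ ZMod p) (K : κ → Fin t → ZMod p) (m : ℕ) :
    (κ × ℕ × ℕ → ZMod B) →+ (Fin m → ZMod p) where
  toFun C r := bet K (fun x => f (C x)) r
  map_zero' := by funext r; simp [bet]
  map_add' C C' := by funext r; simp [bet, mul_add, sum_add_distrib]

omit [DecidableEq κ] [NeZero B] in
theorem meas_psi (f : ZMod B →+ ZMod p) (K : κ → Fin t → ZMod p) (m : ℕ) (h : Fin m → ZMod p) :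
    MeasurableSet (psi f K m ⁻¹' {h}) :=
  Measurable.eq_const (f := psi f K m) (measurable_pi_lambda _ fun r => meas_bet f K r) h |>.setOf

omit [DecidableEq κ] [NeZero B] in
theorem Ev_eq (f : ZMod B →+ ZMod p) (K : κ → Fin t → ZMod p) (m : ℕ) :
    Ev f K m = psi f K m ⁻¹' {0} := by
  ext C
  simp [Ev, psi, funext_iff, Fin.forall_iff]

omit [NeZero B] in
theorem real_Ev' {f : ZMod B →+ ZMod p} (hf : Function.Surjective f) {K : κ → Fin t → ZMod p}
    (hK : K ≠ 0) (m : ℕ) : P.real (Ev f K m) = (1 / (p : ℝ)) ^ m := by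
  obtain ⟨k, hk⟩ := Function.ne_iff.1 hK
  obtain ⟨j, hj⟩ := Function.ne_iff.1 hk
  rw [Ev_eq, real_fiber (P := P) _ (meas_psi f K m) fun v => ?_]
  · simp
  obtain ⟨w, hw⟩ := ext_fin v
  choose s hs using hf
  obtain ⟨C, hC⟩ := exists_C fun r x => s (Pi.single (M := fun _ => ZMod p) (k, j)
    ((K k j)⁻¹ * w r) x)
  refine ⟨C, funext fun r => ?_⟩
  simp only [psi, bet, AddMonoidHom.coe_mk, ZeroHom.coe_mk, hC, hs]
  rw [← Fintype.sum_prod_type' (fun k' j' => K k' j' * Pi.single (M := fun _ => ZMod p) (k, j)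
    ((K k j)⁻¹ * w r) (k', j'))]
  simp only [Pi.single_apply, mul_ite, mul_zero, sum_ite_eq', mem_univ, if_true]
  rw [mul_inv_cancel_left₀ hj, hw]

omit [NeZero B] in
theorem real_pair {f : ZMod B →+ ZMod p} (hf : Function.Surjective f)
    {K K' : κ → Fin t → ZMod p} (hK : K ≠ 0) (hK' : K' ≠ 0) (h : ¬ ∃ c : ZMod p, c ≠ 0 ∧ K' = c • K)
    (m m' : ℕ) : P.real (Ev f K m ∩ Ev f K' m') = P.real (Ev f K m) * P.real (Ev f K' m') := by
  obtain ⟨k, hk⟩ := Function.ne_iff.1 hK
  obtain ⟨j, hj⟩ := Function.ne_iff.1 hk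
  have hj : K k j ≠ 0 := hj
  obtain ⟨k', j', hd⟩ : ∃ k' j', K k j * K' k' j' - K k' j' * K' k j ≠ 0 := by
    by_contra h1
    push Not at h1
    have e : K' = (K' k j / K k j) • K := by
      funext a b
      simp only [Pi.smul_apply, smul_eq_mul]
      field_simp
      linear_combination h1 a b
    exact h ⟨_, fun h2 => hK' (by rw [e, h2, zero_smul]), e⟩
  rw [real_Ev' hf hK, real_Ev' hf hK', show Ev f K m ∩ Ev f K' m' =
    (psi f K m).prod (psi f K' m') ⁻¹' {0} by
      ext C
      simp [Ev_eq], real_fiber (P := P) _ (fun h => ?_) fun v => ?_]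
  · simp [mul_comm]
  · convert (meas_psi f K m h.1).inter (meas_psi f K' m' h.2) using 1
    ext x
    simp [Prod.ext_iff]
  obtain ⟨w, hw⟩ := ext_fin v.1
  obtain ⟨w', hw'⟩ := ext_fin v.2
  choose s hs using hf
  set D := K k j * K' k' j' - K k' j' * K' k j with hD
  let c : ℕ → κ × Fin t → ZMod p := fun r =>
    Pi.single (k, j) ((w r * K' k' j' - w' r * K k' j') / D) +
      Pi.single (k', j') ((w' r * K k j - w r * K' k j) / D)
  obtain ⟨C, hC⟩ := exists_C fun r x => s (c r x)
  have e : ∀ (L : κ → Fin t → ZMod p) r, bet L (fun x => f (C x)) r =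
      L k j * ((w r * K' k' j' - w' r * K k' j') / D) +
        L k' j' * ((w' r * K k j - w r * K' k j) / D) := fun L r => by
    simp only [bet, hC, hs]
    rw [← Fintype.sum_prod_type' (fun a b => L a b * c r (a, b))]
    simp only [c, Pi.add_apply, mul_add, sum_add_distrib, Pi.single_apply, mul_ite, mul_zero,
      sum_ite_eq', mem_univ, if_true]
  refine ⟨C, Prod.ext (funext fun r => ?_) (funext fun r => ?_)⟩
  · change bet K (fun x => f (C x)) r = _
    rw [e, ← hw]
    field_simp
    rw [hD]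
    ring
  · change bet K' (fun x => f (C x)) r = _
    rw [e, ← hw']
    field_simp
    rw [hD]
    ring

end One

end Pool.Agent.Lib.MP_490b4c_nt
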