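import Pool.Agent.Lib.MP_490b4c_nt.Trig

/-! Digit characters, their generating polynomials, and the moment inequalities. -/

open MeasureTheory Finset Real

namespace Pool.Agent.Lib.MP_490b4c_nt

theorem sum_range_mul' {M : Type} [AddCommMonoid M] (f : ℕ → M) (a b : ℕ) :
    ∑ n ∈ range (a * b), f n = ∑ x ∈ range a, ∑ m ∈ range b, f (x * b + m) := by
  induction a with
  | zero => simp
  | succ a ih => rw [Nat.succ_mul, sum_range_add, ih, sum_range_succ]

/-- The linear form in the digits of `n`. -/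
def lin {B : ℕ} (u : ℕ → ZMod B) (n : ℕ) : ZMod B :=
  ∑ r ∈ range n, u r * ((n / B ^ r % B : ℕ) : ZMod B)

variable {B : ℕ}

theorem lin_eq (hB : 2 ≤ B) (u : ℕ → ZMod B) {n K : ℕ} (h : n < B ^ K) :
    lin u n = ∑ r ∈ range K, u r * ((n / B ^ r % B : ℕ) : ZMod B) := by
  have key' : ∀ K K', K ≤ K' → n < B ^ K → ∑ r ∈ range K, u r * ((n / B ^ r % B : ℕ) : ZMod B) =
      ∑ r ∈ range K', u r * ((n / B ^ r % B : ℕ) : ZMod B) := fun K K' hK h =>
    sum_subset (range_subset_range.2 hK) fun r _ hr => by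
      rw [Nat.div_eq_of_lt (h.trans_le (Nat.pow_le_pow_right (by omega) (by simpa using hr)))]
      simp
  rw [lin, key' n (n + K) (by omega) (Nat.lt_pow_self hB), key' K (n + K) (by omega) h]

theorem lin_add (hB : 2 ≤ B) (u : ℕ → ZMod B) (x : ℕ) {k m : ℕ} (h : m < B ^ k) :
    lin u (x * B ^ k + m) = lin u (x * B ^ k) + lin u m := by
  have h1 : x * B ^ k + m < B ^ (x * B ^ k + m) := Nat.lt_pow_self hB
  have hB0 : ∀ r, 0 < B ^ r := fun r => by positivity
  rw [lin_eq hB u h1, lin_eq hB u (lt_of_le_of_lt (Nat.le_add_right _ m) h1),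
    lin_eq hB u (lt_of_le_of_lt (Nat.le_add_left m _) h1), ← sum_add_distrib]
  refine sum_congr rfl fun r _ => ?_
  rw [← mul_add, ← Nat.cast_add]
  congr 2
  rcases lt_or_ge r k with hr | hr
  · obtain ⟨j, rfl⟩ := Nat.exists_eq_add_of_lt hr
    have e : x * B ^ (r + j + 1) = B ^ r * (B * (x * B ^ j)) := by ring
    rw [e, Nat.mul_add_div (hB0 r), Nat.mul_add_mod, Nat.mul_div_cancel_left _ (hB0 r),
      Nat.mul_mod_right, zero_add]
  · obtain ⟨j, rfl⟩ := Nat.exists_eq_add_of_le hr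
    rw [pow_add, ← Nat.div_div_eq_div_mul, ← Nat.div_div_eq_div_mul, ← Nat.div_div_eq_div_mul,
      mul_comm x, Nat.mul_add_div (hB0 k), Nat.mul_div_cancel_left _ (hB0 k), Nat.div_eq_of_lt h]
    simp

theorem lin_top (hB : 2 ≤ B) (u : ℕ → ZMod B) {x : ℕ} (hx : x < B) (k : ℕ) :
    lin u (x * B ^ k) = u k * (x : ZMod B) := by
  have hB0 : ∀ r, 0 < B ^ r := fun r => by positivity
  rw [lin_eq hB u (K := k + 1) (by rw [pow_succ']; exact Nat.mul_lt_mul_of_pos_right hx (hB0 k)),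
    sum_range_succ, Nat.mul_div_cancel _ (hB0 k), Nat.mod_eq_of_lt hx, sum_eq_zero, zero_add]
  intro r hr
  obtain ⟨j, rfl⟩ := Nat.exists_eq_add_of_lt (mem_range.1 hr)
  have e : x * B ^ (r + j + 1) = B ^ r * (B * (x * B ^ j)) := by ring
  rw [e, Nat.mul_div_cancel_left _ (hB0 r), Nat.mul_mod_right]
  simp

variable [NeZero B]

/-- The generating polynomial in product form. -/
noncomputable def PP {k : ℕ} (u : Fin k → ZMod B) (z : ℂ) : ℂ :=
  ∏ r : Fin k, Dk B (ch (u r) * z ^ B ^ (r : ℕ))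

@[fun_prop]
theorem cont_PP {k : ℕ} (u : Fin k → ZMod B) : Continuous (PP u) := by
  unfold PP
  fun_prop

theorem poly_eq (hB : 2 ≤ B) (u : ℕ → ZMod B) (k : ℕ) (z : ℂ) :
    PP (fun r : Fin k => u r) z = ∑ m ∈ range (B ^ k), ch (lin u m) * z ^ m := by
  rw [PP, Fin.prod_univ_eq_prod_range (fun r => Dk B (ch (u r) * z ^ B ^ r)) k]
  induction k with
  | zero => simp [lin]
  | succ k ih =>
    rw [prod_range_succ, ih, pow_succ', sum_range_mul', mul_comm, Dk, sum_mul_sum]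
    refine sum_congr rfl fun x hx => sum_congr rfl fun m hm => ?_
    rw [lin_add hB u x (mem_range.1 hm), lin_top hB u (mem_range.1 hx), mul_pow, ch_pow]
    simp only [ch, AddChar.map_add_eq_mul]
    ring

theorem sum_PP {k : ℕ} (σ : ℝ) (θ : UnitAddCircle) :
    ∑ v : Fin k → ZMod B, ‖PP v (ee θ)‖ ^ σ =
      ∏ r : Fin k, ∑ c : ZMod B, ‖Dk B (ch c * ee (B ^ (r : ℕ) • θ))‖ ^ σ := by
  rw [Fintype.prod_sum]
  refine sum_congr rfl fun v _ => ?_
  rw [PP, norm_prod, ← finsetProd_rpow _ _ fun _ _ => norm_nonneg _]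
  simp only [ee_nsmul]

/-- The density of the Riesz product type measure. -/
noncomputable def wt {k : ℕ} (u : Fin k → ZMod B) (θ : UnitAddCircle) : ℝ :=
  ‖PP u (ee (-θ))‖ ^ 2 / (B : ℝ) ^ k

@[fun_prop]
theorem cont_wt {k : ℕ} (u : Fin k → ZMod B) : Continuous (wt u) := by
  unfold wt
  fun_prop

theorem wt_nonneg {k : ℕ} (u : Fin k → ZMod B) (θ : UnitAddCircle) : 0 ≤ wt u θ := by
  unfold wt
  positivity

theorem int_wt (hB : 2 ≤ B) {k : ℕ} (u : Fin k → ZMod B) : ∫ θ, wt u θ = 1 := by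
  have hB0 : (0 : ℝ) < B := Nat.cast_pos.2 (NeZero.pos B)
  obtain ⟨w, rfl⟩ : ∃ w : ℕ → ZMod B, u = fun r : Fin k => w r :=
    ⟨fun r => if h : r < k then u ⟨r, h⟩ else 0, funext fun r => by simp⟩
  simp only [wt, poly_eq hB, ee_neg_pow, integral_div]
  rw [parseval (range (B ^ k)) (fun m : ℕ => -(m : ℤ)) fun a _ b _ h => by simpa using h]
  simp [hB0.ne']

theorem sum_wt {k : ℕ} (θ : UnitAddCircle) : ∑ u : Fin k → ZMod B, wt u θ = (B : ℝ) ^ k := by
  have hB0 : (0 : ℝ) < B := Nat.cast_pos.2 (NeZero.pos B)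
  have := sum_PP (B := B) (k := k) 2 (-θ)
  simp only [rpow_two, energy (norm_ee _), prod_const, card_univ, Fintype.card_fin] at this
  simp only [wt, ← sum_div, this]
  rw [← pow_mul, two_mul, pow_add, mul_div_cancel_right₀ _ (by positivity)]

variable {A : ℕ} [NeZero A] {a b : ℕ}

/-- The fractional moment of one polynomial against the density of another. -/
noncomputable def ZZ (σ : ℝ) (u : Fin a → ZMod A) (v : Fin b → ZMod B) : ℝ :=
  ∫ θ, ‖PP v (ee θ)‖ ^ σ * wt u θ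

/-- The logarithmic mean against the density. -/
noncomputable def WW (B : ℕ) [NeZero B] (b : ℕ) (σ : ℝ) (u : Fin a → ZMod A) : ℝ :=
  ∫ θ, (∑ r : Fin b, log (mm B σ (B ^ (r : ℕ) • θ))) * wt u θ

theorem cont_L {σ : ℝ} (hσ : 0 < σ) :
    Continuous fun θ : UnitAddCircle => ∑ r : Fin b, log (mm B σ (B ^ (r : ℕ) • θ)) :=
  continuous_finsetSum _ fun _ _ => (cont_log_mm hσ).comp (continuous_nsmul _)

theorem cont_Z {σ : ℝ} (hσ : 0 < σ) (v : Fin b → ZMod B) :
    Continuous fun θ => ‖PP v (ee θ)‖ ^ σ :=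
  Continuous.rpow_const (by fun_prop) fun _ => Or.inr hσ.le

theorem exp_WW_le (hA : 2 ≤ A) {σ : ℝ} (hσ : 0 < σ) (u : Fin a → ZMod A) :
    exp (WW B b σ u) * (B : ℝ) ^ b ≤ ∑ v : Fin b → ZMod B, ZZ σ u v := by
  have hB0 : (0 : ℝ) < B := Nat.cast_pos.2 (NeZero.pos B)
  have i1 := cont_int ((cont_L (B := B) (b := b) hσ).fun_mul (cont_wt u))
  have i2 := cont_int (cont_wt u)
  simp only [ZZ]
  rw [← integral_finsetSum _ fun v _ => cont_int ((cont_Z hσ v).fun_mul (cont_wt u))]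
  have e : exp (WW B b σ u) * (B : ℝ) ^ b = ∫ θ, exp (WW B b σ u) * (B : ℝ) ^ b *
      ((∑ r : Fin b, log (mm B σ (B ^ (r : ℕ) • θ))) * wt u θ + (1 - WW B b σ u) * wt u θ) := by
    rw [integral_const_mul, integral_add i1 (i2.const_mul _), integral_const_mul, int_wt hA]
    unfold WW
    ring
  rw [e]
  refine integral_mono ((i1.add (i2.const_mul _)).const_mul _) (integrable_finsetSum _
    fun v _ => cont_int ((cont_Z hσ v).fun_mul (cont_wt u))) fun θ => ?_
  simp only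
  rw [← sum_mul, sum_PP, ← add_mul, ← mul_assoc]
  refine mul_le_mul_of_nonneg_right ?_ (wt_nonneg u θ)
  have e1 : ∏ r : Fin b, ∑ c : ZMod B, ‖Dk B (ch c * ee (B ^ (r : ℕ) • θ))‖ ^ σ =
      (B : ℝ) ^ b * exp (∑ r : Fin b, log (mm B σ (B ^ (r : ℕ) • θ))) := by
    rw [exp_sum, ← Fin.prod_const, ← prod_mul_distrib]
    refine prod_congr rfl fun r _ => ?_
    rw [exp_log (mm_pos _ _), mm, mul_div_cancel₀ _ hB0.ne']
  rw [e1]
  set L := ∑ r : Fin b, log (mm B σ (B ^ (r : ℕ) • θ))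
  have := add_one_le_exp (L - WW B b σ u)
  rw [exp_sub, le_div_iff₀ (exp_pos _)] at this
  nlinarith [pow_pos hB0 b]

theorem sum_WW {σ : ℝ} (hσ : 0 < σ) :
    ∑ u : Fin a → ZMod A, WW B b σ u = (A : ℝ) ^ a * (b * ∫ θ, log (mm B σ θ)) := by
  simp only [WW]
  rw [← integral_finsetSum _ fun u _ => cont_int ((cont_L hσ).fun_mul (cont_wt u))]
  simp only [← mul_sum, sum_wt]
  have h := fun r : Fin b => int_nsmul (pow_ne_zero r (NeZero.ne B)) (cont_int (cont_log_mm (B := B) hσ))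
  rw [integral_mul_const, integral_finsetSum _ fun r _ => (h r).1]
  simp [(h _).2, mul_comm]

theorem WW_le (hA : 2 ≤ A) {σ : ℝ} (hσ : 0 < σ) (u : Fin a → ZMod A) :
    WW B b σ u ≤ b * (σ * log B) := by
  have hB0 : (0 : ℝ) < B := Nat.cast_pos.2 (NeZero.pos B)
  rw [← mul_one (b * (σ * log B)), ← int_wt hA u, ← integral_const_mul]
  refine integral_mono (cont_int ((cont_L hσ).fun_mul (cont_wt u)))
    ((cont_int (cont_wt u)).const_mul _) fun θ => mul_le_mul_of_nonneg_right ?_ (wt_nonneg u θ)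
  refine (sum_le_sum fun r _ => log_le_log (mm_pos _ _) (mm_le hσ _)).trans ?_
  simp [log_rpow hB0]

theorem ZZ_le (hA : 2 ≤ A) {σ : ℝ} (hσ : 0 < σ) (u : Fin a → ZMod A) (v : Fin b → ZMod B) :
    ZZ σ u v ≤ ((B : ℝ) ^ σ) ^ b := by
  rw [← mul_one (_ ^ b), ← int_wt hA u, ← integral_const_mul]
  refine integral_mono (cont_int ((cont_Z hσ v).fun_mul (cont_wt u)))
    ((cont_int (cont_wt u)).const_mul _) fun θ => mul_le_mul_of_nonneg_right ?_ (wt_nonneg u θ)
  rw [PP, norm_prod, ← finsetProd_rpow _ _ fun _ _ => norm_nonneg _, ← Fin.prod_const]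
  refine prod_le_prod (fun _ _ => by positivity) fun r _ => rpow_le_rpow (norm_nonneg _)
    (norm_Dk_le B ?_) hσ.le
  rw [norm_mul, norm_ch, norm_pow, norm_ee, one_pow, mul_one]

theorem ZZ_le_of (hA : 2 ≤ A) {σ : ℝ} (hσ : 0 < σ) (hσ' : σ ≤ 2) (u : Fin a → ZMod A)
    (v : Fin b → ZMod B) {y : ℝ} (hy : 0 < y)
    (h : ∫ θ, ‖PP v (ee θ)‖ ^ 2 * wt u θ ≤ y ^ 2) : ZZ σ u v ≤ y ^ σ := by
  have i1 : Integrable fun θ => ‖PP v (ee θ)‖ ^ 2 * wt u θ := cont_int (by fun_prop)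
  have i2 := cont_int (cont_wt u)
  have h1 : ZZ σ u v ≤ ∫ θ, y ^ σ * ((1 - σ / 2) * wt u θ +
      σ / 2 / y ^ 2 * (‖PP v (ee θ)‖ ^ 2 * wt u θ)) := by
    refine integral_mono (cont_int ((cont_Z hσ v).fun_mul (cont_wt u)))
      (((i2.const_mul _).add (i1.const_mul _)).const_mul _) fun θ => ?_
    have h2 := rpow_one_add_le_one_add_mul_self (s := (‖PP v (ee θ)‖ / y) ^ 2 - 1)
      (by linarith [sq_nonneg (‖PP v (ee θ)‖ / y)]) (p := σ / 2) (by linarith) (by linarith)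
    rw [add_sub_cancel, ← rpow_two, ← rpow_mul (by positivity), mul_div_cancel₀ _ two_ne_zero,
      div_rpow (norm_nonneg _) hy.le, div_le_iff₀ (rpow_pos_of_pos hy _), rpow_two] at h2
    refine (mul_le_mul_of_nonneg_right h2 (wt_nonneg u θ)).trans_eq ?_
    field_simp
    ring
  rw [integral_const_mul, integral_add (i2.const_mul _) (i1.const_mul _), integral_const_mul,
    integral_const_mul, int_wt hA] at h1
  refine h1.trans (mul_le_of_le_one_right (by positivity) ?_)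
  have := mul_le_mul_of_nonneg_left h (show 0 ≤ σ / 2 / y ^ 2 by positivity)
  rw [div_mul_cancel₀ _ (by positivity)] at this
  linarith

/-- The energy of the product is controlled by sums over windows. -/
theorem energy_le (hA : 2 ≤ A) (hB : 2 ≤ B) (hAB : A.Coprime B) (hab : B ^ b ≤ A ^ a)
    (u : ℕ → ZMod A) (v : ℕ → ZMod B) {y : ℝ}
    (h : ∀ N ≤ A ^ a * B ^ b, ‖∑ n ∈ range N, ch (lin u n) * ch (lin v n)‖ ≤ y) :
    ∫ θ, ‖PP (fun r : Fin b => v r) (ee θ)‖ ^ 2 * wt (fun r : Fin a => u r) θ ≤ (3 * y) ^ 2 := by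
  have hA0 : (0 : ℝ) < (A : ℝ) ^ a := pow_pos (Nat.cast_pos.2 (NeZero.pos A)) a
  have hy : 0 ≤ y := by simpa using h 0 (Nat.zero_le _)
  set M := A ^ a with hM
  set M' := B ^ b with hM'
  have hM0 : 0 < M := by positivity
  have hM0' : 0 < M' := by positivity
  let C : ℤ → ℂ := fun h => ∑ p ∈ (range M ×ˢ range M').filter fun p => (p.2 : ℤ) - p.1 = h,
    ch (lin u p.1) * ch (lin v p.2)
  have hC : ∀ k ∈ Ioo (-(M : ℤ)) M', ‖C k‖ ≤ 2 * y := by
    intro k hk
    rw [mem_Ioo] at hk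
    obtain ⟨x, hx, hxk⟩ : ∃ x : ℕ, x < M' ∧ (M' : ℤ) ∣ x * M - k := by
      have : NeZero M' := ⟨hM0'.ne'⟩
      have hu := (ZMod.isUnit_iff_coprime M M').2 (hAB.pow a b)
      refine ⟨((k : ZMod M') * hu.unit⁻¹).val, ZMod.val_lt _, ?_⟩
      rw [← ZMod.intCast_zmod_eq_zero_iff_dvd]
      simp [mul_assoc]
    obtain ⟨x', hx'⟩ := hxk
    have h0 : 0 ≤ x' := by
      by_contra h0
      have h1 : (0 : ℤ) ≤ x * M := by positivity
      nlinarith
    obtain ⟨x', rfl⟩ := Int.eq_ofNat_of_zero_le h0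
    have h2 : x * M + M ≤ M * M' := by nlinarith
    have e : ch (lin u (x * M)) * ch (lin v (x' * M')) * C k =
        ∑ n ∈ Ico (max (x * M) (x' * M')) (min (x * M + M) (x' * M' + M')),
          ch (lin u n) * ch (lin v n) := by
      rw [mul_sum]
      have e1 : ((x * M : ℕ) : ℤ) - k = ((x' * M' : ℕ) : ℤ) := by push_cast; linarith
      generalize hs : x * M = s at *
      generalize hs' : x' * M' = s' at *
      refine sum_nbij' (fun p => s + p.1) (fun n => (n - s, n - s')) ?_ ?_ ?_ ?_ ?_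
      · simp only [mem_filter, mem_product, mem_range, mem_Ico]
        omega
      · simp only [mem_filter, mem_product, mem_range, mem_Ico]
        omega
      · simp only [mem_filter, mem_product, mem_range, Prod.ext_iff]
        omega
      · simp only [mem_Ico]
        omega
      · simp only [mem_filter, mem_product, mem_range]
        intro p hp
        have e2 : s + p.1 = s' + p.2 := by omega
        conv_rhs => rw [← hs, lin_add hA u x hp.1.1, hs, e2, ← hs', lin_add hB v x' hp.1.2, hs']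
        simp only [ch, AddChar.map_add_eq_mul]
        ring
    have e3 := congrArg norm e
    rw [norm_mul, norm_mul, norm_ch, norm_ch, one_mul, one_mul] at e3
    rw [e3]
    rcases le_total (max (x * M) (x' * M')) (min (x * M + M) (x' * M' + M')) with h3 | h3
    · rw [sum_Ico_eq_sub _ h3]
      refine (norm_sub_le _ _).trans ?_
      have h4 := (min_le_left _ (x' * M' + M')).trans h2
      linarith [h _ h4, h _ (h3.trans h4)]
    · rw [Ico_eq_empty_of_le h3]
      simpa using hy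
  have e : ∀ θ, ‖PP (fun r : Fin b => v r) (ee θ)‖ ^ 2 * wt (fun r : Fin a => u r) θ =
      ‖∑ k ∈ Ioo (-(M : ℤ)) M', C k * fourier k θ‖ ^ 2 / (A : ℝ) ^ a := by
    intro θ
    rw [wt, ← mul_div_assoc, ← mul_pow, ← norm_mul, poly_eq hA, poly_eq hB, mul_comm, sum_mul_sum,
      ← sum_product', ← sum_fiberwise_of_maps_to (t := Ioo (-(M : ℤ)) M')
        (g := fun p : ℕ × ℕ => (p.2 : ℤ) - p.1)]
    · congr 3
      refine sum_congr rfl fun k _ => ?_
      rw [sum_mul]
      refine sum_congr rfl fun p hp => ?_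
      rw [ee_neg_pow, ee_pow, ← (mem_filter.1 hp).2, sub_eq_add_neg, fourier_add]
      ring
    · simp only [mem_product, mem_range, mem_Ioo]
      omega
  simp only [e]
  rw [integral_div, parseval _ (fun k => k) (Set.injOn_id _), div_le_iff₀ hA0]
  refine (sum_le_card_nsmul _ _ ((2 * y) ^ 2) fun k hk =>
    pow_le_pow_left₀ (norm_nonneg _) (hC k hk) 2).trans ?_
  have h5 : ((Ioo (-(M : ℤ)) M').card : ℝ) ≤ 2 * (A : ℝ) ^ a := by
    rw [Int.card_Ioo]
    exact_mod_cast (by omega : ((M' : ℤ) - -(M : ℤ) - 1).toNat ≤ 2 * M)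
  rw [nsmul_eq_mul]
  nlinarith [mul_le_mul_of_nonneg_right h5 (sq_nonneg (2 * y)), mul_nonneg hA0.le (sq_nonneg y)]

end Pool.Agent.Lib.MP_490b4c_nt
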