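import Pool.Agent.Lib.MP_490b4c_nt.Defs

/-! Trigonometric polynomials attached to random digit characters. -/

open MeasureTheory Finset Real

namespace Pool.Agent.Lib.MP_490b4c_nt

instance : IsProbabilityMeasure (volume : Measure UnitAddCircle) := ⟨UnitAddCircle.measure_univ⟩

theorem cont_int {E : Type} [NormedAddCommGroup E] {f : UnitAddCircle → E} (hf : Continuous f) :
    Integrable f :=
  hf.integrable_of_hasCompactSupport (HasCompactSupport.of_compactSpace f)

theorem int_fourier (n : ℤ) : ∫ θ : UnitAddCircle, fourier n θ = if n = 0 then 1 else 0 := by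
  have h := congrFun (fourierCoeff_fourier (T := 1) n) 0
  rw [fourierCoeff, AddCircle.integral_haarAddCircle] at h
  simpa [Pi.single_apply, eq_comm] using h

theorem parseval {ι : Type} (s : Finset ι) (n : ι → ℤ) (hn : Set.InjOn n s) (c : ι → ℂ) :
    ∫ θ : UnitAddCircle, ‖∑ i ∈ s, c i * fourier (n i) θ‖ ^ 2 = ∑ i ∈ s, ‖c i‖ ^ 2 := by
  classical
  have h1 : ∀ θ : UnitAddCircle, ((‖∑ i ∈ s, c i * fourier (n i) θ‖ ^ 2 : ℝ) : ℂ) =
      ∑ i ∈ s, ∑ j ∈ s, c i * (starRingEnd ℂ) (c j) * fourier (n i - n j) θ := by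
    intro θ
    rw [Complex.ofReal_pow, ← Complex.mul_conj', map_sum, sum_mul_sum]
    refine sum_congr rfl fun i _ => sum_congr rfl fun j _ => ?_
    rw [map_mul, ← fourier_neg, sub_eq_add_neg, fourier_add]
    ring
  apply Complex.ofReal_injective
  rw [← integral_complex_ofReal]
  simp only [h1]
  rw [integral_finsetSum _ fun i _ => cont_int (by fun_prop), Complex.ofReal_sum]
  refine sum_congr rfl fun i hi => ?_
  rw [integral_finsetSum _ fun i _ => cont_int (by fun_prop), sum_eq_single i]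
  · simp [Complex.mul_conj']
  · intro j hj hji
    rw [integral_const_mul, int_fourier, if_neg (fun h => hji (hn hi hj (sub_eq_zero.1 h)).symm),
      mul_zero]
  · exact fun h => absurd hi h

theorem int_nsmul {n : ℕ} (hn : n ≠ 0) {f : UnitAddCircle → ℝ} (hf : Integrable f) :
    Integrable (fun θ => f (n • θ)) ∧ ∫ θ, f (n • θ) = ∫ θ, f θ := by
  have h := Measure.measurePreserving_zsmul (volume : Measure UnitAddCircle)
    (Int.natCast_ne_zero.2 hn)
  simp only [natCast_zsmul] at h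
  refine ⟨h.integrable_comp_of_integrable hf, ?_⟩
  rw [← integral_map h.measurable.aemeasurable (h.map_eq.symm ▸ hf.aestronglyMeasurable), h.map_eq]

/-- The point of the unit circle. -/
noncomputable def ee (θ : UnitAddCircle) : ℂ := fourier 1 θ

@[fun_prop]
theorem cont_ee : Continuous ee := (fourier 1).continuous

theorem norm_ee (θ : UnitAddCircle) : ‖ee θ‖ = 1 := Circle.norm_coe _

theorem ee_pow (θ : UnitAddCircle) (n : ℕ) : ee θ ^ n = fourier n θ := by
  induction n with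
  | zero => simp
  | succ n ih => rw [pow_succ, ih, Nat.cast_succ, fourier_add, ee]

theorem ee_nsmul (θ : UnitAddCircle) (n : ℕ) : ee (n • θ) = ee θ ^ n := by
  rw [ee_pow, ee, fourier_apply, fourier_apply, one_zsmul, natCast_zsmul]

theorem ee_add (θ η : UnitAddCircle) : ee (θ + η) = ee θ * ee η := by
  simp [ee, AddCircle.toCircle_add]

theorem ee_coe (t : ℝ) : ee t = Complex.exp (2 * π * Complex.I * t) := by
  rw [ee, fourier_coe_apply]
  simp

theorem ee_neg_pow (θ : UnitAddCircle) (n : ℕ) : ee (-θ) ^ n = fourier (-n) θ := by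
  rw [ee_pow, fourier_apply, fourier_apply, neg_smul, smul_neg]

/-- The Dirichlet kernel. -/
noncomputable def Dk (B : ℕ) (w : ℂ) : ℂ := ∑ x ∈ range B, w ^ x

@[fun_prop]
theorem cont_Dk (B : ℕ) : Continuous (Dk B) := by
  unfold Dk
  fun_prop

theorem norm_Dk_le (B : ℕ) {w : ℂ} (hw : ‖w‖ = 1) : ‖Dk B w‖ ≤ B :=
  (norm_sum_le _ _).trans (by simp [hw])

variable {B : ℕ} [NeZero B]

/-- The standard character. -/
noncomputable abbrev ch (c : ZMod B) : ℂ := ZMod.stdAddChar c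

theorem norm_ch (c : ZMod B) : ‖ch c‖ = 1 := Circle.norm_coe _

theorem ch_pow (c : ZMod B) (x : ℕ) : ch c ^ x = ch (c * (x : ZMod B)) := by
  rw [← AddChar.map_nsmul_eq_pow, nsmul_eq_mul, mul_comm]

theorem sum_ch (b : ZMod B) : ∑ c : ZMod B, ch (c * b) = if b = 0 then (B : ℂ) else 0 := by
  have := AddChar.sum_mulShift b (ZMod.isPrimitive_stdAddChar B)
  simpa using this

theorem energy {z : ℂ} (hz : ‖z‖ = 1) : ∑ c : ZMod B, ‖Dk B (ch c * z)‖ ^ 2 = (B : ℝ) ^ 2 := by
  apply Complex.ofReal_injective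
  have h1 : ∀ c : ZMod B, ((‖Dk B (ch c * z)‖ ^ 2 : ℝ) : ℂ) = ∑ x ∈ range B, ∑ y ∈ range B,
      ch (c * ((x : ZMod B) - (y : ZMod B))) * (z ^ x * (starRingEnd ℂ) (z ^ y)) := by
    intro c
    rw [Complex.ofReal_pow, ← Complex.mul_conj', Dk, map_sum, sum_mul_sum]
    refine sum_congr rfl fun x _ => sum_congr rfl fun y _ => ?_
    rw [mul_pow, mul_pow, ch_pow, ch_pow, map_mul, mul_sub, sub_eq_add_neg]
    simp only [ch, AddChar.map_add_eq_mul, AddChar.map_neg_eq_conj]
    ring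
  rw [Complex.ofReal_sum]
  simp only [h1]
  rw [sum_comm]
  have h2 : ∀ x ∈ range B, ∑ c : ZMod B, ∑ y ∈ range B,
      ch (c * ((x : ZMod B) - (y : ZMod B))) * (z ^ x * (starRingEnd ℂ) (z ^ y)) = B := by
    intro x hx
    rw [sum_comm, sum_eq_single x]
    · rw [← sum_mul, sum_ch, if_pos (sub_self _), Complex.mul_conj', norm_pow, hz]
      simp
    · intro y hy hyx
      rw [← sum_mul, sum_ch, if_neg, zero_mul]
      rw [sub_eq_zero, ZMod.natCast_eq_natCast_iff', Nat.mod_eq_of_lt (mem_range.1 hx),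
        Nat.mod_eq_of_lt (mem_range.1 hy)]
      exact Ne.symm hyx
    · exact fun h => absurd hx h
  rw [sum_congr rfl h2]
  simp [sq]

/-- The mean of the powers of the shifted Dirichlet kernels. -/
noncomputable def mm (B : ℕ) [NeZero B] (σ : ℝ) (θ : UnitAddCircle) : ℝ :=
  (∑ c : ZMod B, ‖Dk B (ch c * ee θ)‖ ^ σ) / B

theorem cont_mm {σ : ℝ} (hσ : 0 < σ) : Continuous (mm B σ) := by
  unfold mm
  refine (continuous_finsetSum _ fun c _ => ?_).div_const _
  exact Continuous.rpow_const (by fun_prop) fun _ => Or.inr hσ.le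

theorem mm_pos (σ : ℝ) (θ : UnitAddCircle) : 0 < mm B σ θ := by
  have hB : (0 : ℝ) < B := Nat.cast_pos.2 (NeZero.pos B)
  obtain ⟨c, hc⟩ : ∃ c : ZMod B, Dk B (ch c * ee θ) ≠ 0 := by
    by_contra h
    push Not at h
    have := energy (B := B) (norm_ee θ)
    simp [h] at this
    nlinarith
  exact div_pos (sum_pos' (fun _ _ => by positivity)
    ⟨c, mem_univ _, rpow_pos_of_pos (norm_pos_iff.2 hc) _⟩) hB

theorem mm_le {σ : ℝ} (hσ : 0 < σ) (θ : UnitAddCircle) : mm B σ θ ≤ (B : ℝ) ^ σ := by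
  have hB : (0 : ℝ) < B := Nat.cast_pos.2 (NeZero.pos B)
  rw [mm, div_le_iff₀ hB]
  refine (sum_le_sum fun c _ => rpow_le_rpow (norm_nonneg _)
    (norm_Dk_le B (by rw [norm_mul, norm_ch, norm_ee, mul_one])) hσ.le).trans ?_
  simp [mul_comm]

theorem cont_log_mm {σ : ℝ} (hσ : 0 < σ) : Continuous fun θ => log (mm B σ θ) :=
  (cont_mm hσ).log fun θ => (mm_pos σ θ).ne'

theorem int_psi : Integrable fun θ : UnitAddCircle => log ‖ee θ - 1‖ := by
  have h1 := (circleIntegrable_log_norm_sub_const (a := 1) (c := 0) 1).comp_mul_left (c := 2 * π)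
  rw [zero_div, div_self (by positivity), intervalIntegrable_iff_integrableOn_Ioc_of_le zero_le_one]
    at h1
  have h2 := AddCircle.measurePreserving_mk (1 : ℝ) 0
  rw [zero_add] at h2
  refine (h2.integrable_comp (measurable_log.comp
    (cont_ee.sub continuous_const).norm.measurable).aestronglyMeasurable).1 ?_
  refine Integrable.congr h1 (ae_of_all _ fun t => ?_)
  change log ‖circleMap 0 1 (2 * π * t) - 1‖ = log ‖ee (t : UnitAddCircle) - 1‖
  rw [ee_coe, circleMap]
  congr 3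
  push_cast
  ring_nf

theorem ae_pow_ne : ∀ᵐ θ : UnitAddCircle, ee θ ^ B ≠ 1 := by
  have h := Measure.measurePreserving_zsmul (volume : Measure UnitAddCircle)
    (Int.natCast_ne_zero.2 (NeZero.ne B))
  have h1 : ∀ᵐ θ : UnitAddCircle, θ ≠ 0 := by
    have := AddCircle.volume_closedBall (T := 1) (x := 0) 0
    simpa [ae_iff] using this
  filter_upwards [h.quasiMeasurePreserving.ae h1] with θ hθ h2
  rw [← ee_nsmul, ee, fourier_one, Circle.coe_eq_one, ← AddCircle.toCircle_zero (T := 1)] at h2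
  exact hθ (by simpa using AddCircle.injective_toCircle one_ne_zero h2)

theorem ch_eq (c : ZMod B) : ch c = ee ((c.val / B : ℝ) : UnitAddCircle) := by
  rw [ee_coe, ch, ZMod.stdAddChar_apply, ZMod.toCircle_apply]
  congr 1
  push_cast
  ring

theorem int_log_Dk (c : ZMod B) : Integrable (fun θ => log ‖Dk B (ch c * ee θ)‖) ∧
    ∫ θ, log ‖Dk B (ch c * ee θ)‖ = 0 := by
  have h1 := int_nsmul (NeZero.ne B) int_psi
  have h2 := int_psi.comp_add_left ((c.val / B : ℝ) : UnitAddCircle)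
  have h3 := integral_add_left_eq_self (μ := volume) (fun θ : UnitAddCircle => log ‖ee θ - 1‖)
    ((c.val / B : ℝ) : UnitAddCircle)
  have h4 : (fun θ => log ‖ee (B • θ) - 1‖ - log ‖ee (((c.val / B : ℝ) : UnitAddCircle) + θ) - 1‖)
      =ᵐ[volume] fun θ => log ‖Dk B (ch c * ee θ)‖ := by
    filter_upwards [ae_pow_ne (B := B)] with θ hθ
    have h5 : (ch c * ee θ) ^ B = ee θ ^ B := by
      rw [mul_pow, ch_pow, ZMod.natCast_self, mul_zero, ch, AddChar.map_zero_eq_one, one_mul]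
    have h6 : ch c * ee θ ≠ 1 := fun h => hθ (by rw [← h5, h, one_pow])
    rw [Dk, geom_sum_eq h6, norm_div, h5, ee_add, ← ch_eq, ee_nsmul,
      log_div (norm_ne_zero_iff.2 (sub_ne_zero.2 hθ)) (norm_ne_zero_iff.2 (sub_ne_zero.2 h6))]
  refine ⟨(h1.1.sub h2).congr h4, ?_⟩
  rw [← integral_congr_ae h4, integral_sub h1.1 h2, h1.2, h3, sub_self]

theorem phi_pos (hB : 2 ≤ B) {σ : ℝ} (hσ : 0 < σ) : 0 < ∫ θ, log (mm B σ θ) := by
  have hB0 : (0 : ℝ) < B := Nat.cast_pos.2 (NeZero.pos B)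
  let h : UnitAddCircle → ℝ := fun θ =>
    B * log (mm B σ θ) - ∑ c : ZMod B, σ * log ‖Dk B (ch c * ee θ)‖
  have i1 : Integrable fun θ => B * log (mm B σ θ) := (cont_int (cont_log_mm hσ)).const_mul _
  have i2 : Integrable fun θ => ∑ c : ZMod B, σ * log ‖Dk B (ch c * ee θ)‖ :=
    integrable_finsetSum _ fun c _ => (int_log_Dk c).1.const_mul _
  have e1 : ∫ θ, h θ = B * ∫ θ, log (mm B σ θ) := by
    rw [integral_sub i1 i2, integral_finsetSum _ fun c _ => (int_log_Dk c).1.const_mul _]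
    simp [integral_const_mul, (int_log_Dk _).2]
  have e2 : ∀ᵐ θ, (∀ c : ZMod B, 0 < ‖Dk B (ch c * ee θ)‖ ^ σ / mm B σ θ) ∧
      h θ = ∑ c : ZMod B, (‖Dk B (ch c * ee θ)‖ ^ σ / mm B σ θ - 1 -
        log (‖Dk B (ch c * ee θ)‖ ^ σ / mm B σ θ)) := by
    filter_upwards [ae_pow_ne (B := B)] with θ hθ
    have h7 : ∀ c : ZMod B, 0 < ‖Dk B (ch c * ee θ)‖ := fun c => by
      have h5 : (ch c * ee θ) ^ B = ee θ ^ B := by
        rw [mul_pow, ch_pow, ZMod.natCast_self, mul_zero, ch, AddChar.map_zero_eq_one, one_mul]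
      have h6 : ch c * ee θ ≠ 1 := fun h => hθ (by rw [← h5, h, one_pow])
      rw [Dk, geom_sum_eq h6, h5]
      exact norm_pos_iff.2 (div_ne_zero (sub_ne_zero.2 hθ) (sub_ne_zero.2 h6))
    have h8 := mm_pos (B := B) σ θ
    refine ⟨fun c => div_pos (rpow_pos_of_pos (h7 c) _) h8, ?_⟩
    have h9 : ∑ c : ZMod B, ‖Dk B (ch c * ee θ)‖ ^ σ = B * mm B σ θ := by
      rw [mm, mul_div_cancel₀ _ hB0.ne']
    simp only [h, log_div (rpow_pos_of_pos (h7 _) _).ne' h8.ne', log_rpow (h7 _), sum_sub_distrib,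
      ← sum_div, h9, sum_const, card_univ, ZMod.card, nsmul_eq_mul, mul_div_cancel_right₀ _ h8.ne']
    ring
  have e3 : 0 ≤ᵐ[volume] h := e2.mono fun θ hθ => hθ.2 ▸ sum_nonneg fun c _ =>
    sub_nonneg.2 (log_le_sub_one_of_pos (hθ.1 c))
  refine pos_of_mul_pos_left ?_ hB0.le
  rw [mul_comm, ← e1]
  refine (integral_nonneg_of_ae e3).lt_of_ne fun h0 => ?_
  have e4 := (integral_eq_zero_iff_of_nonneg_ae e3 (i1.sub i2)).1 h0.symm
  have e5 : ∀ c : ZMod B, (fun θ => ‖Dk B (ch c * ee θ)‖ ^ σ) = mm B σ := fun c => by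
    refine (Continuous.ae_eq_iff_eq volume
      (Continuous.rpow_const (by fun_prop) fun _ => Or.inr hσ.le) (cont_mm hσ)).1 ?_
    filter_upwards [e2, e4] with θ h1 h2
    rw [h1.2, Pi.zero_apply, sum_eq_zero_iff_of_nonneg fun c _ =>
      sub_nonneg.2 (log_le_sub_one_of_pos (h1.1 c))] at h2
    by_contra h3
    have := log_lt_sub_one_of_pos (h1.1 c) fun h => h3 (eq_of_div_eq_one h)
    linarith [h2 c (mem_univ c)]
  have e6 := congrFun (e5 1) 0
  have e7 : ch (1 : ZMod B) ≠ 1 := fun h => by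
    have : Fact (1 < B) := ⟨hB⟩
    exact one_ne_zero (ZMod.injective_stdAddChar (h.trans (AddChar.map_zero_eq_one _).symm))
  have e8 : ee 0 = 1 := fourier_eval_zero 1
  rw [e8, mul_one, Dk, geom_sum_eq e7, ch_pow, ZMod.natCast_self, mul_zero, ch,
    AddChar.map_zero_eq_one, sub_self, zero_div, norm_zero, zero_rpow hσ.ne'] at e6
  exact (mm_pos σ 0).ne e6

theorem expo_eq : expo B = (∫ θ, log (mm B (log B.minFac / log B) θ)) / (2 * log B.minFac) := by
  rw [expo, ← UnitAddCircle.intervalIntegral_preimage 0, zero_add]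
  congr 2
  funext t
  rw [mm]
  congr 2
  refine (sum_nbij' (fun c : ZMod B => c.val) (fun c => (c : ZMod B)) (fun c _ => mem_range.2 c.val_lt)
    (fun _ _ => mem_univ _) (fun c _ => ZMod.natCast_zmod_val c)
    (fun c hc => ZMod.val_cast_of_lt (mem_range.1 hc)) fun c _ => ?_).symm
  congr 2
  refine sum_congr rfl fun x _ => ?_
  rw [ch_eq, ee_coe, ee_coe, ← Complex.exp_add, ← Complex.exp_nat_mul]
  congr 1
  push_cast
  ring

theorem phi_two : log 2 / 4 ≤ ∫ θ, log (mm 2 1 θ) := by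
  have h1 := parseval (univ : Finset Bool) (fun b => if b then 2 else 0)
    (fun a _ b _ h => by cases a <;> cases b <;> simp_all) fun b => if b then -1 else 1
  have h2 : ∫ θ : UnitAddCircle, log 2 / 8 * ‖1 - ee θ ^ 2‖ ^ 2 = log 2 / 4 := by
    rw [integral_const_mul]
    have : ∫ θ : UnitAddCircle, ‖1 - ee θ ^ 2‖ ^ 2 = 2 := by
      convert h1 using 3
      · rw [ee_pow]
        simp
        ring_nf
      · simp
        norm_num
    rw [this]
    ring
  rw [← h2]
  refine integral_mono (cont_int (by fun_prop)) (cont_int (cont_log_mm one_pos)) fun θ => ?_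
  have h3 : mm 2 1 θ = (‖1 + ee θ‖ + ‖1 - ee θ‖) / 2 := by
    have : ch (1 : ZMod 2) = -1 := by
      rw [ch_eq, ee_coe, ZMod.val_one, ← Complex.exp_pi_mul_I]
      congr 1
      push_cast
      ring
    rw [mm, show (univ : Finset (ZMod 2)) = {0, 1} from rfl, sum_pair (by decide), this]
    simp [Dk, sum_range_succ, sub_eq_add_neg]
  have h4 : ‖1 - ee θ ^ 2‖ = ‖1 + ee θ‖ * ‖1 - ee θ‖ := by
    rw [← norm_mul]
    congr 1
    ring
  have h5 := parallelogram_law_with_norm ℂ (1 : ℂ) (ee θ)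
  rw [norm_one, norm_ee] at h5
  set x := ‖1 - ee θ ^ 2‖ / 2 with hx
  have h6 : mm 2 1 θ ^ 2 = 1 + x := by
    rw [h3, hx, h4]
    nlinarith
  have h7 : 0 ≤ x := by positivity
  have h8 : x ≤ 1 := by
    rw [hx, h4]
    nlinarith [sq_nonneg (‖1 + ee θ‖ - ‖1 - ee θ‖)]
  have h9 : x * log 2 ≤ log (1 + x) := by
    have := strictConcaveOn_log_Ioi.concaveOn.2 (x := 1) (y := 2) (by simp) (by simp)
      (sub_nonneg.2 h8) h7 (sub_add_cancel 1 x)
    simp only [smul_eq_mul, log_one] at this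
    rw [show (1 - x) * 1 + x * 2 = 1 + x by ring] at this
    linarith
  rw [← h6, log_pow] at h9
  have h10 : ‖1 - ee θ ^ 2‖ = 2 * x := by rw [hx]; ring
  have h11 := log_pos one_lt_two
  simp only [h10]
  push_cast at h9
  nlinarith [mul_nonneg h7 (sub_nonneg.2 h8)]

end Pool.Agent.Lib.MP_490b4c_nt
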