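import Pool.Agent.Lib.MP_490b4c_nt.Defs

/-! The mean size of the maximal sum of a product of random digit characters. -/

open Finset

namespace Pool.Agent.Lib.MP_490b4c_nt

variable {l : ℕ} (q : Fin l → ℕ) [∀ i, NeZero (q i)]

/-- The sum over `n < N` of `∏ i ∈ s, e(⟨a i, digits of n in base q i⟩ / q i)`. -/
noncomputable def csum (s : Finset (Fin l)) {m : ℕ} (a : (i : Fin l) → Fin m → ZMod (q i))
    (N : ℕ) : ℂ :=
  ∑ n ∈ range N, ∏ i ∈ s,
    ZMod.stdAddChar (∑ r : Fin m, a i r * ((n / q i ^ (r : ℕ) % q i : ℕ) : ZMod (q i)))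

/-- For every nonempty set `s` of bases take the average over all coefficient vectors `a` of the
maximum of `‖csum q s a M‖` over `M ≤ N`, and add these averages.  The vectors have as many entries
as `N` has binary digits, so all digits of all `n < N` are used. -/
noncomputable def mean (N : ℕ) : ℝ :=
  ∑ s ∈ (univ : Finset (Finset (Fin l))).erase ∅,
    (∑ a : (i : Fin l) → Fin N.size → ZMod (q i), ⨆ M : Fin (N + 1), ‖csum q s a M‖) /
      ∏ i, (q i : ℝ) ^ N.size

end Pool.Agent.Lib.MP_490b4c_nt
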