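import Pool.Agent.Lib.MP_490b4c_nt.Disc

/-! A digital inequality of Erdős-Turán-Koksma type. -/

open Finset Real

namespace Pool.Agent.Lib.MP_490b4c_nt

namespace Two

/-- A linear form in the digits of a number with `t` digits. -/
def lf {B : ℕ} : (t : ℕ) → (Fin t → ZMod B) → ℕ → ZMod B
  | 0, _, _ => 0
  | t + 1, K, Q => K (Fin.last t) * (Q : ZMod B) + lf t (Fin.init K) (Q / B)

/-- The bound for incomplete sums. -/
noncomputable def RR {B : ℕ} : (t : ℕ) → (Fin t → ZMod B) → ℝ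
  | 0, _ => 1
  | t + 1, K => (if K (Fin.last t) = 0 then B * RR t (Fin.init K) else 0) + B

variable {B : ℕ} [NeZero B]

theorem lf_pre (y : ℕ → ZMod B) (t : ℕ) (K : Fin t → ZMod B) :
    lf t K (pre y t) = ∑ j : Fin t, K j * y j := by
  induction t with
  | zero => simp [lf]
  | succ t ih =>
    rw [lf, pre, mul_comm (pre y t), Nat.mul_add_div (NeZero.pos B), Nat.div_eq_of_lt (y t).val_lt,
      add_zero, ih, Fin.sum_univ_castSucc, add_comm]
    simp [Fin.init]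

omit [NeZero B] in
theorem RR_nonneg (t : ℕ) (K : Fin t → ZMod B) : 0 ≤ RR t K := by
  induction t with
  | zero => simp [RR]
  | succ t ih =>
    have := ih (Fin.init K)
    rw [RR]
    split_ifs <;> positivity

theorem sum_RR (t : ℕ) : ∑ K : Fin t → ZMod B, RR t K = (B : ℝ) ^ t * (1 + t * B) := by
  induction t with
  | zero => simp [RR]
  | succ t ih =>
    rw [← (Fin.snocEquiv fun _ : Fin (t + 1) => ZMod B).sum_comp, Fintype.sum_prod_type]
    simp only [Fin.snocEquiv, Equiv.coe_fn_mk, RR, Fin.snoc_last, Fin.init_snoc, sum_add_distrib]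
    rw [sum_comm]
    simp only [sum_ite_eq', mem_univ, if_true, ← mul_sum, ih, sum_const, card_univ, ZMod.card,
      Fintype.card_fun, Fintype.card_fin, nsmul_eq_mul]
    push_cast
    ring

theorem sum_range_ch (c : ZMod B) :
    ∑ m ∈ range B, ch (c * (m : ZMod B)) = if c = 0 then (B : ℂ) else 0 := by
  rw [← sum_ch c]
  exact (sum_nbij' (s := univ) (fun c : ZMod B => c.val)
    (fun c => (c : ZMod B)) (fun c _ => mem_range.2 c.val_lt) (fun _ _ => mem_univ _)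
    (fun c _ => ZMod.natCast_zmod_val c) (fun c hc => ZMod.val_cast_of_lt (mem_range.1 hc))
    fun c _ => by rw [ZMod.natCast_zmod_val, mul_comm]).symm

theorem ch_lf (t : ℕ) (K : Fin (t + 1) → ZMod B) (x : ℕ) {m : ℕ} (hm : m < B) :
    ch (lf (t + 1) K (x * B + m)) = ch (lf t (Fin.init K) x) * ch (K (Fin.last t) * (m : ZMod B)) := by
  rw [lf, mul_comm x, Nat.mul_add_div (NeZero.pos B), Nat.div_eq_of_lt hm]
  simp [AddChar.map_add_eq_mul, mul_comm]

theorem sum_block (t : ℕ) (K : Fin (t + 1) → ZMod B) (x : ℕ) :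
    ∑ P ∈ range (x * B), ch (lf (t + 1) K P) =
      (∑ P ∈ range x, ch (lf t (Fin.init K) P)) * if K (Fin.last t) = 0 then (B : ℂ) else 0 := by
  rw [sum_range_mul', sum_mul]
  refine sum_congr rfl fun P _ => ?_
  rw [sum_congr rfl fun m hm => ch_lf t K P (mem_range.1 hm), ← mul_sum, sum_range_ch]

theorem norm_sum_lf (t : ℕ) (K : Fin t → ZMod B) {β : ℕ} (h : β ≤ B ^ t) :
    ‖∑ P ∈ range β, ch (lf t K P)‖ ≤ RR t K := by
  induction t generalizing β with
  | zero =>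
    refine (norm_sum_le _ _).trans ?_
    simpa [RR, norm_ch] using h
  | succ t ih =>
    have h1 : β / B ≤ B ^ t := Nat.div_le_of_le_mul (by rwa [pow_succ'] at h)
    rw [← Nat.div_add_mod' β B, sum_range_add, sum_block, RR]
    refine (norm_add_le _ _).trans (add_le_add ?_ ((norm_sum_le _ _).trans ?_))
    · split_ifs
      · rw [norm_mul, Complex.norm_natCast, mul_comm]
        exact mul_le_mul_of_nonneg_left (ih _ h1) (Nat.cast_nonneg _)
      · simp
    · simpa [norm_ch] using (Nat.mod_lt β (NeZero.pos B)).le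

omit [NeZero B] in
theorem exists_pre (t : ℕ) {P : ℕ} (h : P < B ^ t) : ∃ y : ℕ → ZMod B, pre y t = P := by
  have hc : ∀ (y y' : ℕ → ZMod B) t, (∀ j < t, y j = y' j) → pre y t = pre y' t := by
    intro y y' t
    induction t with
    | zero => simp [pre]
    | succ t ih =>
      intro h
      rw [pre, pre, ih fun j hj => h j (by omega), h t (by omega)]
  induction t generalizing P with
  | zero => exact ⟨0, by simp only [pre]; simp at h; omega⟩
  | succ t ih =>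
    obtain ⟨y, hy⟩ := ih (P := P / B) (Nat.div_lt_of_lt_mul (by rwa [pow_succ'] at h))
    refine ⟨Function.update y t P, ?_⟩
    rw [pre, hc _ y t fun j hj => Function.update_of_ne hj.ne _ _, hy, Function.update_self,
      ZMod.val_natCast, Nat.div_add_mod']

theorem sum_dot {t : ℕ} (v : Fin t → ZMod B) :
    ∑ K : Fin t → ZMod B, ch (∑ j, K j * v j) = if v = 0 then (B : ℂ) ^ t else 0 := by
  have h : ∀ K : Fin t → ZMod B, ch (∑ j, K j * v j) = ∏ j, ch (K j * v j) := fun K => by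
    induction (univ : Finset (Fin t)) using Finset.induction_on with
    | empty => simp
    | insert a s ha ih => rw [sum_insert ha, prod_insert ha, ← ih, ch, AddChar.map_add_eq_mul]
  simp only [h]
  rw [← Fintype.prod_sum fun j (c : ZMod B) => ch (c * v j)]
  simp only [sum_ch]
  split_ifs with hv
  · simp [hv]
  · obtain ⟨j, hj⟩ := Function.ne_iff.1 hv
    exact prod_eq_zero (mem_univ j) (if_neg hj)

theorem orth (t : ℕ) (y : ℕ → ZMod B) {P : ℕ} (h : P < B ^ t) :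
    ∑ K : Fin t → ZMod B, ch (∑ j, K j * y j - lf t K P) =
      if pre y t = P then (B : ℂ) ^ t else 0 := by
  obtain ⟨y', rfl⟩ := exists_pre t h
  split_ifs with e
  · simp [← lf_pre, e]
  · simp only [lf_pre, ← sum_sub_distrib, ← mul_sub]
    rw [sum_dot fun j : Fin t => y j - y' j, if_neg]
    intro h0
    refine e ?_
    clear h e
    induction t with
    | zero => rfl
    | succ t ih =>
      rw [pre, pre, ih (funext fun j => congrFun h0 j.castSucc),
        show y t = y' t from sub_eq_zero.1 (congrFun h0 (Fin.last t))]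

/-- The Fourier coefficient of an interval of integers. -/
noncomputable def cf (t α β : ℕ) (K : Fin t → ZMod B) : ℂ :=
  (∑ P ∈ Ico α β, ch (-lf t K P)) / (B : ℂ) ^ t

theorem expand_Ico (t α : ℕ) {β : ℕ} (h : β ≤ B ^ t) (y : ℕ → ZMod B) :
    ∑ K : Fin t → ZMod B, cf t α β K * ch (∑ j, K j * y j) =
      if pre y t ∈ Ico α β then 1 else 0 := by
  have hB : (B : ℂ) ^ t ≠ 0 := pow_ne_zero _ (Nat.cast_ne_zero.2 (NeZero.ne B))
  simp only [cf, div_mul_eq_mul_div, ← sum_div, sum_mul, ch, ← AddChar.map_add_eq_mul,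
    neg_add_eq_sub]
  rw [sum_comm, sum_congr rfl fun P hP => orth t y ((mem_Ico.1 hP).2.trans_le h), sum_ite_eq]
  split_ifs <;> simp [hB]

omit [NeZero B] in
theorem lf_zero (t P : ℕ) : lf t (0 : Fin t → ZMod B) P = 0 := by
  induction t generalizing P with
  | zero => rfl
  | succ t ih =>
    rw [lf, show Fin.init (0 : Fin (t + 1) → ZMod B) = 0 from rfl, ih]
    simp

theorem cf_zero (t α β : ℕ) :
    cf t α β (0 : Fin t → ZMod B) = (((β - α : ℕ) : ℝ) / (B : ℝ) ^ t : ℝ) := by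
  simp [cf, lf_zero]

theorem norm_cf (t α : ℕ) {β : ℕ} (h : β ≤ B ^ t) (K : Fin t → ZMod B) :
    ‖cf t α β K‖ ≤ 2 * RR t K / (B : ℝ) ^ t := by
  rw [cf, norm_div, norm_pow, Complex.norm_natCast]
  refine div_le_div_of_nonneg_right ?_ (by positivity)
  have := RR_nonneg t K
  rcases le_total α β with h1 | h1
  · simp only [ch, AddChar.map_neg_eq_conj, ← map_sum, Complex.norm_conj]
    rw [sum_Ico_eq_sub _ h1]
    linarith [norm_sub_le (∑ P ∈ range β, ch (lf t K P)) (∑ P ∈ range α, ch (lf t K P)),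
      norm_sum_lf t K h, norm_sum_lf t K (h1.trans h)]
  · rw [Ico_eq_empty_of_le h1, sum_empty, norm_zero]
    positivity

section box

variable {κ : Type} [Fintype κ] [DecidableEq κ] {b : κ → ℕ} [∀ k, NeZero (b k)]

/-- The weight of a frequency. -/
noncomputable def wgt (t : ℕ) (K : (k : κ) → Fin t → ZMod (b k)) : ℝ :=
  ∏ k, 2 * RR t (K k) / (b k : ℝ) ^ t

omit [DecidableEq κ] [∀ k, NeZero (b k)] in
theorem wgt_nonneg (t : ℕ) (K : (k : κ) → Fin t → ZMod (b k)) : 0 ≤ wgt t K :=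
  prod_nonneg fun k _ => by have := RR_nonneg t (K k); positivity

theorem sum_wgt (t : ℕ) :
    ∑ K : (k : κ) → Fin t → ZMod (b k), wgt t K = ∏ k, 2 * (1 + (t : ℝ) * b k) := by
  simp only [wgt]
  rw [← Fintype.prod_sum fun k (K : Fin t → ZMod (b k)) => 2 * RR t K / (b k : ℝ) ^ t]
  refine prod_congr rfl fun k _ => ?_
  have : (b k : ℝ) ^ t ≠ 0 := pow_ne_zero _ (Nat.cast_ne_zero.2 (NeZero.ne _))
  rw [← sum_div, ← mul_sum, sum_RR]
  field_simp

/-- The character sum attached to a frequency. -/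
noncomputable def SS (y : ℕ → (k : κ) → ℕ → ZMod (b k)) (t : ℕ) (K : (k : κ) → Fin t → ZMod (b k))
    (N : ℕ) : ℂ := ∑ n ∈ range N, ∏ k, ch (∑ j, K k j * y n k j)

theorem grid_box (y : ℕ → (k : κ) → ℕ → ZMod (b k)) (t N : ℕ) (α : κ → ℕ) {β : κ → ℕ}
    (h : ∀ k, β k ≤ b k ^ t) :
    |(((range N).filter fun n => ∀ k, pre (y n k) t ∈ Ico (α k) (β k)).card : ℝ) -
      N * ∏ k, ((β k - α k : ℕ) : ℝ) / (b k : ℝ) ^ t| ≤
      ∑ K ∈ univ.erase 0, wgt t K * ‖SS y t K N‖ := by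
  have e1 : ((((range N).filter fun n => ∀ k, pre (y n k) t ∈ Ico (α k) (β k)).card : ℝ) : ℂ) =
      ∑ K : (k : κ) → Fin t → ZMod (b k), (∏ k, cf t (α k) (β k) (K k)) * SS y t K N := by
    simp only [SS, mul_sum, ← prod_mul_distrib]
    rw [sum_comm, card_filter]
    push_cast
    refine sum_congr rfl fun n _ => ?_
    rw [← Fintype.prod_sum fun k (K : Fin t → ZMod (b k)) =>
      cf t (α k) (β k) K * ch (∑ j, K j * y n k j)]
    simp only [expand_Ico t _ (h _), prod_ite_zero, mem_univ, forall_const, prod_const_one]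
    split_ifs <;> simp
  rw [← Real.norm_eq_abs, ← Complex.norm_real, Complex.ofReal_sub, e1,
    ← add_sum_erase _ _ (mem_univ 0)]
  have e2 : (∏ k, cf t (α k) (β k) ((0 : (k : κ) → Fin t → ZMod (b k)) k)) * SS y t 0 N =
      ((N * ∏ k, ((β k - α k : ℕ) : ℝ) / (b k : ℝ) ^ t : ℝ) : ℂ) := by
    simp only [Pi.zero_apply, cf_zero, SS]
    simp [mul_comm]
  rw [e2, add_sub_cancel_left]
  refine (norm_sum_le _ _).trans (sum_le_sum fun K _ => ?_)
  rw [norm_mul, norm_prod]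
  exact mul_le_mul_of_nonneg_right (prod_le_prod (fun _ _ => norm_nonneg _)
    fun k _ => norm_cf t _ (h k) _) (norm_nonneg _)

omit [Fintype κ] in
theorem prod_le_add (s : Finset κ) {x y : κ → ℝ} {ε : ℝ} (hε : 0 ≤ ε) (hx : ∀ k, 0 ≤ x k ∧ x k ≤ 1)
    (hy : ∀ k, 0 ≤ y k ∧ y k ≤ 1) (h : ∀ k, x k ≤ y k + ε) :
    ∏ k ∈ s, x k ≤ ∏ k ∈ s, y k + s.card * ε := by
  induction s using Finset.induction_on with
  | empty => simp
  | insert a s ha ih =>
    rw [prod_insert ha, prod_insert ha, card_insert_of_notMem ha]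
    push_cast
    have h1 : ∏ k ∈ s, y k ≤ 1 := prod_le_one (fun k _ => (hy k).1) fun k _ => (hy k).2
    have h2 : 0 ≤ ∏ k ∈ s, y k := prod_nonneg fun k _ => (hy k).1
    have h3 : 0 ≤ (s.card : ℝ) * ε := by positivity
    have h4 := mul_le_mul_of_nonneg_left ih (hx a).1
    nlinarith [mul_le_mul_of_nonneg_right (h a) h2, mul_le_mul_of_nonneg_right (hx a).2 h3]

theorem etk (hb : ∀ k, 2 ≤ b k) {y : ℕ → (k : κ) → ℕ → ZMod (b k)} {z : ℕ → κ → ℝ} {t : ℕ}
    (hz : ∀ n k, z n k ∈ Set.Ico (pre (y n k) t / (b k : ℝ) ^ t)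
      ((pre (y n k) t + 1) / (b k : ℝ) ^ t)) {N : ℕ} (hN : N ≤ 2 ^ t) :
    N * disc z N ≤ ∑ K ∈ univ.erase 0, wgt t K * ‖SS y t K N‖ + 2 * Fintype.card κ := by
  classical
  set X := ∑ K ∈ univ.erase 0, wgt t K * ‖SS y t K N‖
  have hX : 0 ≤ X := sum_nonneg fun K _ => mul_nonneg (wgt_nonneg t K) (norm_nonneg _)
  rcases N.eq_zero_or_pos with rfl | hN0
  · simp only [Nat.cast_zero, zero_mul]
    positivity
  have hN' : (0 : ℝ) < N := Nat.cast_pos.2 hN0
  rw [← le_div_iff₀' hN']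
  refine Real.sSup_le ?_ (by positivity)
  rintro _ ⟨u, v, h, rfl⟩
  have hL : ∀ k, (0 : ℝ) < (b k : ℝ) ^ t := fun k => pow_pos (Nat.cast_pos.2 (NeZero.pos _)) _
  have hNL : ∀ k, (N : ℝ) ≤ (b k : ℝ) ^ t := fun k => by
    exact_mod_cast hN.trans (Nat.pow_le_pow_left (hb k) t)
  have hε : ∀ k, 2 / (b k : ℝ) ^ t ≤ 2 / N := fun k => by have := hNL k; gcongr
  have h0 : ∀ k, 0 ≤ v k - u k ∧ v k - u k ≤ 1 := fun k => ⟨by linarith [h k], by linarith [h k]⟩
  have hu : ∀ k, 0 ≤ u k * (b k : ℝ) ^ t := fun k => mul_nonneg (h k).1 (hL k).le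
  have hv : ∀ k, 0 ≤ v k * (b k : ℝ) ^ t := fun k => mul_nonneg ((h k).1.trans (h k).2.1) (hL k).le
  have hv1 : ∀ k, v k * (b k : ℝ) ^ t ≤ (b k ^ t : ℕ) := fun k => by
    rw [Nat.cast_pow]; exact mul_le_of_le_one_left (hL k).le (h k).2.2
  have huv : ∀ k, u k * (b k : ℝ) ^ t ≤ v k * (b k : ℝ) ^ t := fun k =>
    mul_le_mul_of_nonneg_right (h k).2.1 (hL k).le
  have hz1 : ∀ n k, (pre (y n k) t : ℝ) ≤ z n k * (b k : ℝ) ^ t := fun n k =>
    (div_le_iff₀ (hL k)).1 (hz n k).1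
  have hz2 : ∀ n k, z n k * (b k : ℝ) ^ t < pre (y n k) t + 1 := fun n k =>
    (lt_div_iff₀ (hL k)).1 (hz n k).2
  have g1 := (abs_le.1 (grid_box y t N (fun k => ⌊u k * (b k : ℝ) ^ t⌋₊)
    (β := fun k => ⌈v k * (b k : ℝ) ^ t⌉₊) fun k => Nat.ceil_le.2 (hv1 k))).2
  have g2 := (abs_le.1 (grid_box y t N (fun k => ⌈u k * (b k : ℝ) ^ t⌉₊)
    (β := fun k => ⌊v k * (b k : ℝ) ^ t⌋₊) fun k => Nat.floor_le_of_le (hv1 k))).1
  have c1 : (((range N).filter fun n => ∀ k, z n k ∈ Set.Ico (u k) (v k)).card : ℝ) ≤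
      ((range N).filter fun n => ∀ k, pre (y n k) t ∈
        Ico ⌊u k * (b k : ℝ) ^ t⌋₊ ⌈v k * (b k : ℝ) ^ t⌉₊).card := by
    refine Nat.cast_le.2 (card_le_card (monotone_filter_right _ fun n _ hn k => mem_Ico.2 ⟨?_, ?_⟩))
    · refine Nat.lt_succ_iff.1 ((Nat.floor_lt (hu k)).2 ?_)
      push_cast
      exact (mul_le_mul_of_nonneg_right (hn k).1 (hL k).le).trans_lt (hz2 n k)
    · exact Nat.lt_ceil.2 ((hz1 n k).trans_lt (mul_lt_mul_of_pos_right (hn k).2 (hL k)))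
  have c2 : (((range N).filter fun n => ∀ k, pre (y n k) t ∈
        Ico ⌈u k * (b k : ℝ) ^ t⌉₊ ⌊v k * (b k : ℝ) ^ t⌋₊).card : ℝ) ≤
      ((range N).filter fun n => ∀ k, z n k ∈ Set.Ico (u k) (v k)).card := by
    refine Nat.cast_le.2 (card_le_card (monotone_filter_right _ fun n _ hn k => ⟨?_, ?_⟩))
    · exact le_of_mul_le_mul_right ((Nat.ceil_le.1 (mem_Ico.1 (hn k)).1).trans (hz1 n k)) (hL k)
    · refine lt_of_mul_lt_mul_right ((hz2 n k).trans_le ?_) (hL k).le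
      have := (Nat.le_floor_iff (hv k)).1 (Nat.succ_le_of_lt (mem_Ico.1 (hn k)).2)
      exact_mod_cast this
  have p1 := prod_le_add univ (ε := 2 / N) (by positivity)
    (x := fun k => ((⌈v k * (b k : ℝ) ^ t⌉₊ - ⌊u k * (b k : ℝ) ^ t⌋₊ : ℕ) : ℝ) / (b k : ℝ) ^ t)
    (fun k => ⟨by positivity, (div_le_one (hL k)).2 (by
      exact_mod_cast (Nat.sub_le _ _).trans (Nat.ceil_le.2 (hv1 k)))⟩) h0 fun k => by
      refine le_trans ?_ (add_le_add_right (hε k) _)
      rw [Nat.cast_sub ((Nat.floor_le_floor (huv k)).trans (Nat.floor_le_ceil _)),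
        div_le_iff₀ (hL k), add_mul, div_mul_cancel₀ _ (hL k).ne']
      linarith [Nat.ceil_lt_add_one (hv k), Nat.lt_floor_add_one (u k * (b k : ℝ) ^ t)]
  have p2 := prod_le_add univ (ε := 2 / N) (by positivity) h0
    (y := fun k => ((⌊v k * (b k : ℝ) ^ t⌋₊ - ⌈u k * (b k : ℝ) ^ t⌉₊ : ℕ) : ℝ) / (b k : ℝ) ^ t)
    (fun k => ⟨by positivity, (div_le_one (hL k)).2 (by
      exact_mod_cast (Nat.sub_le _ _).trans (Nat.floor_le_of_le (hv1 k)))⟩) fun k => by
      refine le_trans ?_ (add_le_add_right (hε k) _)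
      rw [← add_div, le_div_iff₀ (hL k)]
      have : (⌊v k * (b k : ℝ) ^ t⌋₊ : ℝ) ≤ ((⌊v k * (b k : ℝ) ^ t⌋₊ - ⌈u k * (b k : ℝ) ^ t⌉₊ : ℕ) : ℝ) +
          ⌈u k * (b k : ℝ) ^ t⌉₊ := by exact_mod_cast le_tsub_add
      linarith [Nat.ceil_lt_add_one (hu k), Nat.lt_floor_add_one (v k * (b k : ℝ) ^ t)]
  rw [card_univ] at p1 p2
  have p3 := mul_le_mul_of_nonneg_left p1 hN'.le
  have p4 := mul_le_mul_of_nonneg_left p2 hN'.le
  have e : (N : ℝ) * (Fintype.card κ * (2 / N)) = 2 * Fintype.card κ := by field_simp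
  rw [mul_add, e] at p3 p4
  rw [le_div_iff₀' hN', ← abs_of_pos hN', ← abs_mul, abs_of_pos hN', mul_sub,
    mul_div_cancel₀ _ hN'.ne', abs_le]
  constructor <;> linarith

end box

end Two

end Pool.Agent.Lib.MP_490b4c_nt
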