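import Pool.Agent.Lib.MP_490b4c_nt.Main

/-! Random samples with product structure hit large values of any nonnegative function. -/

open Finset MeasureTheory ProbabilityTheory

namespace Pool.Agent.Lib.MP_490b4c_nt

namespace Two

/-- The number of elements with a property. -/
noncomputable def cnt {Ω : Type} [Fintype Ω] (p : Ω → Prop) : ℝ :=
  (@filter Ω p (Classical.decPred p) univ).card

theorem cnt_eq {Ω : Type} [Fintype Ω] (p : Ω → Prop) [DecidablePred p] :
    cnt p = (univ.filter p).card := by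
  rw [cnt, filter_congr_decidable]

theorem cnt_mono {Ω : Type} [Fintype Ω] {p p' : Ω → Prop} (h : ∀ ω, p ω → p' ω) :
    cnt p ≤ cnt p' := by
  classical
  rw [cnt_eq, cnt_eq]
  exact Nat.cast_le.2 (card_le_card (monotone_filter_right _ fun ω _ => h ω))

theorem cnt_false {Ω : Type} [Fintype Ω] {p : Ω → Prop} (h : ∀ ω, ¬ p ω) : cnt p = 0 := by
  classical
  rw [cnt_eq, filter_false_of_mem fun ω _ => h ω, card_empty, Nat.cast_zero]

theorem cnt_le {Ω : Type} [Fintype Ω] (p : Ω → Prop) : cnt p ≤ Fintype.card Ω :=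
  Nat.cast_le.2 (card_le_univ _)

theorem cnt_equiv {Ω Ω' : Type} [Fintype Ω] [Fintype Ω'] (e : Ω ≃ Ω') (p : Ω' → Prop) :
    cnt p = cnt fun ω => p (e ω) := by
  classical
  rw [cnt_eq, cnt_eq, card_filter, card_filter, ← e.sum_comp]

theorem cnt_prod {Ω Ω' : Type} [Fintype Ω] [Fintype Ω'] (p : Ω × Ω' → Prop) :
    cnt p = ∑ ω, cnt fun ω' => p (ω, ω') := by
  classical
  simp only [cnt_eq, card_filter, Fintype.sum_prod_type, Nat.cast_sum]

/-- At level `e` the random element `ω` provides the samples `a` with `S e ω a` at the price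
`cost e`.  For some level a sample with a large value is found with probability `1 - η`. -/
def Hit {G Ω I : Type} [Fintype G] [Fintype Ω] [Fintype I] (S : I → Ω → G → Prop) (cost : I → ℝ)
    (c η : ℝ) : Prop :=
  ∀ f : G → ℝ, (∀ a, 0 ≤ f a) → ∃ w : I → ℝ, (∀ e, 0 ≤ w e) ∧
    c * ∑ a, f a ≤ Fintype.card G * ∑ e, w e ∧
    ∀ e, (cnt fun ω => ∀ a, S e ω a → f a < w e * cost e) ≤ η * Fintype.card Ω

section

variable {G Ω I G' Ω' I' : Type} [Fintype G] [Fintype Ω] [Fintype I] [Fintype G'] [Fintype Ω']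
  [Fintype I'] {S : I → Ω → G → Prop} {cost : I → ℝ} {c η : ℝ} {S' : I' → Ω' → G' → Prop}
  {cost' : I' → ℝ} {c' η' : ℝ}

theorem Hit.congr (h : Hit S cost c η) (eG : G ≃ G') (eΩ : Ω ≃ Ω') (eI : I ≃ I')
    (hS : ∀ e ω a, S e ω a → S' (eI e) (eΩ ω) (eG a)) (hc : ∀ e, cost' (eI e) = cost e) :
    Hit S' cost' c η := by
  classical
  intro f hf
  obtain ⟨w, h0, h1, h2⟩ := h (fun a => f (eG a)) fun a => hf _
  refine ⟨fun e => w (eI.symm e), fun e => h0 _, ?_, fun e => ?_⟩
  · rwa [eI.symm.sum_comp, ← Fintype.card_congr eG, ← eG.sum_comp]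
  · obtain ⟨e, rfl⟩ := eI.surjective e
    rw [← Fintype.card_congr eΩ, cnt_equiv eΩ]
    refine le_trans (cnt_mono fun ω hω a ha => ?_) (h2 e)
    simpa only [Equiv.symm_apply_apply, hc] using hω _ (hS e ω a ha)

theorem Hit.prod (h : Hit S cost c η) (h' : Hit S' cost' c' η') (hc : 0 ≤ c) (hη' : 0 ≤ η')
    (hcost : ∀ e, 0 ≤ cost' e) :
    Hit (fun (e : I × I') (ω : Ω × Ω') (a : G × G') => S e.1 ω.1 a.1 ∧ S' e.2 ω.2 a.2)
      (fun e => cost e.1 * cost' e.2) (c * c') (η + η') := by
  classical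
  intro f hf
  choose w' h0' h1' h2' using fun a => h' (fun a' => f (a, a')) fun a' => hf _
  choose w h0 h1 h2 using fun e' => h (fun a => w' a e') fun a => h0' a e'
  refine ⟨fun e => w e.2 e.1, fun e => h0 _ _, ?_, fun e => ?_⟩
  · rw [Fintype.sum_prod_type, Fintype.sum_prod_type_right, Fintype.card_prod]
    calc c * c' * ∑ a, ∑ a', f (a, a') = c * ∑ a, c' * ∑ a', f (a, a') := by
          rw [← mul_sum, mul_assoc]
      _ ≤ c * ∑ a, Fintype.card G' * ∑ e', w' a e' :=
          mul_le_mul_of_nonneg_left (sum_le_sum fun a _ => h1' a) hc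
      _ = Fintype.card G' * ∑ e', c * ∑ a, w' a e' := by
          rw [← mul_sum, sum_comm, ← mul_sum, mul_left_comm]
      _ ≤ Fintype.card G' * ∑ e', Fintype.card G * ∑ e, w e' e :=
          mul_le_mul_of_nonneg_left (sum_le_sum fun e' _ => h1 e') (Nat.cast_nonneg _)
      _ = _ := by
          rw [← mul_sum]
          push_cast
          ring
  · rw [cnt_prod, Fintype.card_prod]
    push_cast
    have key : ∀ ω : Ω, (cnt fun ω' : Ω' => ∀ a : G × G', S e.1 ω a.1 ∧ S' e.2 ω' a.2 →
        f a < w e.2 e.1 * (cost e.1 * cost' e.2)) ≤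
        (if ∀ a, S e.1 ω a → w' a e.2 < w e.2 e.1 * cost e.1 then (1 : ℝ) else 0) *
          Fintype.card Ω' + η' * Fintype.card Ω' := by
      intro ω
      split_ifs with hω
      · rw [one_mul]
        exact le_add_of_le_of_nonneg (cnt_le _) (by positivity)
      · simp only [not_forall, not_lt] at hω
        obtain ⟨a, ha, hw⟩ := hω
        rw [zero_mul, zero_add]
        refine le_trans (cnt_mono fun ω' hω' a' ha' => (hω' (a, a') ⟨ha, ha'⟩).trans_le ?_)
          (h2' a e.2)
        rw [← mul_assoc]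
        exact mul_le_mul_of_nonneg_right hw (hcost _)
    refine (sum_le_sum fun ω _ => key ω).trans ?_
    rw [sum_add_distrib, ← sum_mul, sum_boole, ← cnt_eq, sum_const, card_univ, nsmul_eq_mul]
    have := mul_le_mul_of_nonneg_right (h2 e.2 e.1) (Nat.cast_nonneg (Fintype.card Ω'))
    nlinarith

end

theorem Hit.pi {l : ℕ} {G Ω I : Fin l → Type} [∀ i, Fintype (G i)] [∀ i, Fintype (Ω i)]
    [∀ i, Fintype (I i)] {S : ∀ i, I i → Ω i → G i → Prop} {cost : ∀ i, I i → ℝ} {c : Fin l → ℝ}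
    {η : ℝ} (h : ∀ i, Hit (S i) (cost i) (c i) η) (hc : ∀ i, 0 ≤ c i) (hη : 0 ≤ η)
    (hcost : ∀ i e, 0 ≤ cost i e) :
    Hit (fun (e : ∀ i, I i) (ω : ∀ i, Ω i) (a : ∀ i, G i) => ∀ i, S i (e i) (ω i) (a i))
      (fun e => ∏ i, cost i (e i)) (∏ i, c i) (l * η) := by
  induction l with
  | zero =>
    intro f hf
    refine ⟨fun _ => f default, fun _ => hf _, by simp, fun e => ?_⟩
    rw [cnt_false fun ω hω => by simpa using hω default]
    simp
  | succ l ih =>
    have := (h 0).prod (ih (fun i => h i.succ) (fun i => hc _) fun i => hcost _) (hc 0)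
      (by positivity) fun e => prod_nonneg fun i _ => hcost _ _
    rw [Fin.prod_univ_succ, Nat.cast_succ, add_mul, one_mul, add_comm _ η]
    refine this.congr (Fin.consEquiv G) (Fin.consEquiv Ω) (Fin.consEquiv I) ?_ fun e => ?_
    · rintro e ω a ⟨h1, h2⟩ i
      induction i using Fin.cases with
      | zero => exact h1
      | succ i => exact h2 i
    · rw [Fin.prod_univ_succ]
      rfl

theorem Hit.one {G Ω : Type} [Fintype G] [Fintype Ω] {E : ℕ} {S : Fin (E + 1) → Ω → G → Prop}
    {b η : ℝ} (hb : 1 ≤ b) (hη : 0 < η) (hη1 : η ≤ 1) (hE : Fintype.card G ≤ η * b ^ E)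
    (h0 : ∀ e ω, ∃ a, S e ω a)
    (h : ∀ e (A : Finset G), (cnt fun ω => ∀ a, S e ω a → a ∉ A) *
      (b ^ (e : ℕ) * A.card) ≤ Fintype.card G * Fintype.card Ω) :
    Hit S (fun e => b ^ (e : ℕ)) (η / b) η := by
  classical
  intro f hf
  have hb0 : 0 < b := by linarith
  let ρ : G → ℕ := fun a => (univ.filter fun a' => f a ≤ f a').card
  have hρ : ∀ a, 1 ≤ ρ a := fun a => card_pos.2 ⟨a, mem_filter.2 ⟨mem_univ _, le_rfl⟩⟩
  have hu : ∀ e : ℕ, ∃ u : ℝ, 0 ≤ u ∧ (∀ a, (Fintype.card G : ℝ) ≤ η * (b ^ e * ρ a) → f a ≤ u) ∧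
      (u = 0 ∨ ∃ a, (Fintype.card G : ℝ) ≤ η * (b ^ e * ρ a) ∧ f a = u) := by
    intro e
    rcases (univ.filter fun a => (Fintype.card G : ℝ) ≤ η * (b ^ e * ρ a)).eq_empty_or_nonempty
      with h1 | h1
    · exact ⟨0, le_rfl, fun a ha => absurd ha (filter_eq_empty_iff.1 h1 (mem_univ a)), Or.inl rfl⟩
    · obtain ⟨a, ha, hm⟩ := exists_max_image _ f h1
      exact ⟨f a, hf a, fun a' ha' => hm a' (mem_filter.2 ⟨mem_univ _, ha'⟩),
        Or.inr ⟨a, (mem_filter.1 ha).2, rfl⟩⟩
  choose u hu0 hu1 hu2 using hu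
  have hcount : ∀ x : ℝ, 0 ≤ x → ((univ.filter fun a => (ρ a : ℝ) < x).card : ℝ) ≤ x := by
    intro x hx
    rcases (univ.filter fun a => (ρ a : ℝ) < x).eq_empty_or_nonempty with h1 | h1
    · rwa [h1, card_empty, Nat.cast_zero]
    · obtain ⟨a, ha, hm⟩ := exists_min_image _ f h1
      exact le_trans (Nat.cast_le.2 (card_le_card fun a' ha' =>
        mem_filter.2 ⟨mem_univ _, hm a' ha'⟩)) (mem_filter.1 ha).2.le
  refine ⟨fun e => u e / b ^ (e : ℕ), fun e => by have := hu0 e; positivity, ?_, fun e => ?_⟩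
  · have key : ∀ a, f a ≤ ∑ e : Fin (E + 1),
        if (ρ a : ℝ) < Fintype.card G * b / (η * b ^ (e : ℕ)) ∨ (e : ℕ) = 0 then u e else 0 := by
      intro a
      have hex : ∃ e : ℕ, (Fintype.card G : ℝ) ≤ η * (b ^ e * ρ a) := ⟨E, hE.trans (by
        have : (1 : ℝ) ≤ ρ a := by exact_mod_cast hρ a
        exact mul_le_mul_of_nonneg_left (le_mul_of_one_le_right (by positivity) this) hη.le)⟩
      have hle : Nat.find hex < E + 1 := Nat.lt_succ_of_le (Nat.find_min' hex (hE.trans (by
        have : (1 : ℝ) ≤ ρ a := by exact_mod_cast hρ a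
        exact mul_le_mul_of_nonneg_left (le_mul_of_one_le_right (by positivity) this) hη.le)))
      refine le_trans ?_ (single_le_sum (fun e _ => by split_ifs; exacts [hu0 _, le_rfl])
        (mem_univ ⟨Nat.find hex, hle⟩))
      rw [if_pos]
      · exact hu1 _ a (Nat.find_spec hex)
      · rcases Nat.eq_zero_or_pos (Nat.find hex) with h1 | h1
        · exact Or.inr h1
        · obtain ⟨k, hk⟩ := Nat.exists_eq_add_of_lt h1
          have h2 := not_le.1 (Nat.find_min hex (show k < Nat.find hex by omega))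
          left
          simp only [hk, zero_add]
          rw [lt_div_iff₀ (by positivity), pow_succ]
          nlinarith
    have h3 := sum_le_sum fun a (_ : a ∈ univ) => key a
    rw [sum_comm] at h3
    refine (mul_le_mul_of_nonneg_left h3 (by positivity)).trans ?_
    rw [mul_sum, mul_sum]
    refine sum_le_sum fun e _ => ?_
    rw [← sum_filter, sum_const, nsmul_eq_mul]
    have h4 : ((univ.filter fun a => (ρ a : ℝ) < Fintype.card G * b / (η * b ^ (e : ℕ)) ∨
        (e : ℕ) = 0).card : ℝ) ≤ Fintype.card G * b / (η * b ^ (e : ℕ)) := by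
      by_cases he : (e : ℕ) = 0
      · refine (Nat.cast_le.2 (card_le_univ _)).trans ?_
        rw [he, pow_zero, mul_one, le_div_iff₀ hη]
        exact mul_le_mul_of_nonneg_left (hη1.trans hb) (Nat.cast_nonneg _)
      · simpa only [he, or_false] using hcount _ (by positivity)
    refine (mul_le_mul_of_nonneg_left (mul_le_mul_of_nonneg_right h4 (hu0 e))
      (by positivity)).trans_eq ?_
    field_simp
  · simp only [div_mul_cancel₀ _ (pow_pos hb0 _).ne']
    rcases hu2 e with h1 | ⟨a, h1, h2⟩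
    · rw [cnt_false fun ω hω => by
        obtain ⟨a, ha⟩ := h0 e ω
        exact (hω a ha).not_ge (h1 ▸ hf a)]
      positivity
    · have h3 := h e (univ.filter fun a' => f a ≤ f a')
      simp only [mem_filter, mem_univ, true_and, not_le, h2] at h3
      have h4 : (0 : ℝ) < b ^ (e : ℕ) * ρ a := mul_pos (pow_pos hb0 _) (Nat.cast_pos.2 (hρ a))
      refine le_of_mul_le_mul_right ?_ h4
      simp only [ρ, h2] at h1 ⊢
      refine h3.trans ((mul_le_mul_of_nonneg_right h1 (Nat.cast_nonneg _)).trans_eq ?_)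
      ring

/-- The samples: combinations of the first `e + 1` rows with last coefficient one. -/
def Samp {p E m : ℕ} (e : Fin (E + 1)) (r : Fin (E + 1) → Fin m → ZMod p) (a : Fin m → ZMod p) :
    Prop :=
  ∃ K : Fin (e + 1) → ZMod p, K (Fin.last e) = 1 ∧
    ∀ x, a x = ∑ j, K j * r (Fin.castLE (Nat.succ_le_of_lt e.2) j) x

theorem tries_fin {Ω H I : Type} [AddCommGroup Ω] [Fintype Ω] [AddCommGroup H] [Fintype H]
    [Fintype I] (φ : I → Ω →+ H) (h1 : ∀ i, Function.Surjective (φ i))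
    (h2 : ∀ i j, i ≠ j → Function.Surjective ((φ i).prod (φ j))) (A : Finset H) :
    (cnt fun ω => ∀ i, φ i ω ∉ A) * (Fintype.card I * A.card) ≤
      Fintype.card H * Fintype.card Ω := by
  classical
  let _ : MeasurableSpace Ω := ⊤
  have : DiscreteMeasurableSpace Ω := ⟨fun _ => trivial⟩
  have : (uniformOn (Set.univ : Set Ω)).IsAddLeftInvariant := by
    refine ⟨fun a => ?_⟩
    ext s hs
    rw [Measure.map_apply (measurable_const_add a) hs, uniformOn_univ, uniformOn_univ,
      measure_preimage_add]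
  have h := tries_bound (P := uniformOn Set.univ) (0 : Ω →+ Unit) φ
    (fun _ => .of_discrete) (fun _ _ => .of_discrete)
    (fun i v => (h1 i v.2).imp fun _ h => Prod.ext rfl h)
    (fun i j hij v => (h2 i j hij v.2).imp fun _ h => Prod.ext rfl h) () A
  have hΩ : (0 : ℝ) < Fintype.card Ω := Nat.cast_pos.2 Fintype.card_pos
  have e : {ω | (0 : Ω →+ Unit) ω = () ∧ ∀ i, φ i ω ∉ A} =
      ↑(univ.filter fun ω => ∀ i, φ i ω ∉ A) := by
    ext ω
    simp
  rw [e, Measure.real, uniformOn_univ, Measure.count_apply_finset, ENNReal.toReal_div,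
    ENNReal.toReal_natCast, ENNReal.toReal_natCast, Fintype.card_unit, Nat.cast_one, div_one,
    div_mul_eq_mul_div, div_le_iff₀ hΩ] at h
  rwa [cnt_eq]

/-- The sample with coefficient vector `K` as a homomorphism. -/
def smp {p E m : ℕ} (e : Fin (E + 1)) (K : Fin e → ZMod p) :
    (Fin (E + 1) → Fin m → ZMod p) →+ (Fin m → ZMod p) where
  toFun r x := ∑ j : Fin e, K j * r (Fin.castLE e.2.le j) x + r e x
  map_zero' := by funext x; simp
  map_add' r r' := by
    funext x
    simp only [Pi.add_apply, mul_add, sum_add_distrib]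
    ring

theorem smp_apply {p E m : ℕ} (e : Fin (E + 1)) (K : Fin e → ZMod p)
    (r : Fin (E + 1) → Fin m → ZMod p) (x : Fin m) :
    smp e K r x = ∑ j : Fin e, K j * r (Fin.castLE e.2.le j) x + r e x := rfl

theorem hit_samp {p : ℕ} [Fact p.Prime] {E m : ℕ} {η : ℝ} (hη : 0 < η) (hη1 : η ≤ 1)
    (hE : (p : ℝ) ^ m ≤ η * p ^ E) :
    Hit (Samp (p := p) (E := E) (m := m)) (fun e => (p : ℝ) ^ (e : ℕ)) (η / p) η := by
  have hp : (1 : ℝ) ≤ p := by exact_mod_cast (Fact.out : p.Prime).one_le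
  refine Hit.one hp hη hη1 (by simpa using hE)
    (fun e r => ⟨_, fun _ => 1, rfl, fun _ => rfl⟩) fun e A => ?_
  have hne : ∀ j : Fin e, Fin.castLE e.2.le j ≠ e := fun j h => j.2.ne (congrArg Fin.val h)
  have h1 := tries_fin (smp (p := p) (m := m) e) (fun K v => ⟨Pi.single e v,
      funext fun x => by simp [smp_apply, Pi.single_eq_of_ne (hne _)]⟩)
    (fun K K' hK v => by
      obtain ⟨j, hj⟩ := Function.ne_iff.1 hK
      have hj' := sub_ne_zero.2 hj
      have hs : ∀ (K : Fin e → ZMod p) (y z : Fin m → ZMod p) x,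
          smp e K (Pi.single (Fin.castLE e.2.le j) y + Pi.single e z) x = K j * y x + z x := by
        intro K y z x
        simp only [smp_apply, Pi.add_apply,
          Pi.single_eq_of_ne (hne _), Pi.single_eq_of_ne (hne j).symm, Pi.single_eq_same,
          Pi.zero_apply, add_zero, zero_add]
        rw [sum_eq_single j (fun i _ hi => by
          rw [Pi.single_eq_of_ne ((Fin.castLE_injective _).ne hi)]; simp) (by simp),
          Pi.single_eq_same]
      refine ⟨Pi.single (Fin.castLE e.2.le j) (fun x => (v.1 x - v.2 x) / (K j - K' j)) +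
        Pi.single e (fun x => v.1 x - K j * ((v.1 x - v.2 x) / (K j - K' j))),
        Prod.ext (funext fun x => ?_) (funext fun x => ?_)⟩
      · simp only [AddMonoidHom.prod_apply, hs]
        ring
      · simp only [AddMonoidHom.prod_apply, hs]
        field_simp
        ring) A
  rw [show (Fintype.card (Fin e → ZMod p) : ℝ) = (p : ℝ) ^ (e : ℕ) by simp] at h1
  refine le_trans (mul_le_mul_of_nonneg_right (cnt_mono fun r hr K => hr _
    ⟨Fin.snoc K 1, Fin.snoc_last _ _, fun x => ?_⟩) (by positivity)) h1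
  rw [smp_apply, Fin.sum_univ_castSucc]
  simp only [Fin.snoc_castSucc, Fin.snoc_last, one_mul]
  rfl

end Two

end Pool.Agent.Lib.MP_490b4c_nt
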