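import Pool.Agent.Lib.MP_490b4c_nt.TwoDefs
import Pool.Agent.Lib.MP_490b4c_nt.TwoETK
import Pool.Agent.Lib.MP_490b4c_nt.TwoHit

/-! The almost sure lower bound in terms of the mean maximal character sum. -/

open Finset MeasureTheory Real Filter

namespace Pool.Agent.Lib.MP_490b4c_nt

namespace Two

variable {l : ℕ} {d q : Fin l → ℕ}

section

variable [∀ i, NeZero (q i)]

/-- The maximal character sum. -/
noncomputable def TT (s : Finset (Fin l)) {m : ℕ} (N : ℕ) (a : (i : Fin l) → Fin m → ZMod (q i)) :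
    ℝ := ⨆ M : Fin (N + 1), ‖csum q s a M‖

/-- Its average. -/
noncomputable def av (q : Fin l → ℕ) [∀ i, NeZero (q i)] (s : Finset (Fin l)) (N : ℕ) : ℝ :=
  (∑ a : (i : Fin l) → Fin N.size → ZMod (q i), TT s N a) / ∏ i, (q i : ℝ) ^ N.size

theorem mean_eq (N : ℕ) : mean q N = ∑ s ∈ univ.erase ∅, av q s N := rfl

variable {s : Finset (Fin l)} {m : ℕ}

theorem le_TT {M N : ℕ} (h : M ≤ N) (a : (i : Fin l) → Fin m → ZMod (q i)) :
    ‖csum q s a M‖ ≤ TT s N a :=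
  le_ciSup (f := fun M : Fin (N + 1) => ‖csum q s a M‖) (Finite.bddAbove_range _)
    ⟨M, Nat.lt_succ_of_le h⟩

theorem exists_TT (s : Finset (Fin l)) (N : ℕ) (a : (i : Fin l) → Fin m → ZMod (q i)) :
    ∃ M ≤ N, TT s N a = ‖csum q s a M‖ := by
  obtain ⟨M, hM⟩ := exists_eq_ciSup_of_finite (f := fun M : Fin (N + 1) => ‖csum q s a M‖)
  exact ⟨M, Nat.le_of_lt_succ M.2, hM.symm⟩

theorem TT_nonneg (N : ℕ) (a : (i : Fin l) → Fin m → ZMod (q i)) : 0 ≤ TT s N a :=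
  (norm_nonneg _).trans (le_TT (Nat.zero_le N) a)

theorem TT_le (N : ℕ) (a : (i : Fin l) → Fin m → ZMod (q i)) : TT s N a ≤ N := by
  obtain ⟨M, hM, e⟩ := exists_TT s N a
  rw [e, csum]
  refine (norm_sum_le _ _).trans ?_
  simpa [norm_prod, norm_ch] using hM

theorem one_le_TT {N : ℕ} (hN : 1 ≤ N) (a : (i : Fin l) → Fin m → ZMod (q i)) :
    1 ≤ TT s N a := by
  refine le_trans (le_of_eq ?_) (le_TT hN a)
  simp [csum]

theorem card_G (m : ℕ) :
    (Fintype.card ((i : Fin l) → Fin m → ZMod (q i)) : ℝ) = ∏ i, (q i : ℝ) ^ m := by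
  simp

theorem G_pos (m : ℕ) : (0 : ℝ) < ∏ i, (q i : ℝ) ^ m :=
  prod_pos fun _ _ => pow_pos (Nat.cast_pos.2 (NeZero.pos _)) _

theorem av_nonneg (s : Finset (Fin l)) (N : ℕ) : 0 ≤ av q s N :=
  div_nonneg (sum_nonneg fun a _ => TT_nonneg N a) (G_pos _).le

theorem card_sets : (((univ : Finset (Finset (Fin l))).erase ∅).card : ℝ) ≤ 2 ^ l := by
  have : ((univ : Finset (Finset (Fin l))).erase ∅).card ≤ 2 ^ l := card_erase_le.trans (by simp)
  exact_mod_cast this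

theorem mean_nonneg (N : ℕ) : 0 ≤ mean q N := sum_nonneg fun s _ => av_nonneg s N

theorem av_le_mean (hs : s.Nonempty) (N : ℕ) : av q s N ≤ mean q N :=
  single_le_sum (fun s _ => av_nonneg s N) (mem_erase.2 ⟨hs.ne_empty, mem_univ _⟩)

theorem mean_le (N : ℕ) : mean q N ≤ 2 ^ l * N := by
  refine (sum_le_card_nsmul _ _ (N : ℝ) fun s _ => ?_).trans ?_
  · rw [div_le_iff₀ (G_pos _), ← card_G]
    refine (sum_le_card_nsmul _ _ (N : ℝ) fun a _ => TT_le N a).trans_eq ?_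
    rw [nsmul_eq_mul, card_univ, mul_comm]
  · rw [nsmul_eq_mul]
    exact mul_le_mul_of_nonneg_right card_sets (Nat.cast_nonneg _)

theorem one_le_mean (hl : 1 ≤ l) {N : ℕ} (hN : 1 ≤ N) : 1 ≤ mean q N := by
  refine le_trans ?_ (av_le_mean (s := {⟨0, hl⟩}) (singleton_nonempty _) N)
  rw [av, le_div_iff₀ (G_pos _), ← card_G]
  refine le_trans (le_of_eq ?_) (card_nsmul_le_sum _ _ (1 : ℝ) fun a _ => one_le_TT hN a)
  rw [nsmul_eq_mul, card_univ, mul_comm]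

omit [∀ i, NeZero (q i)] in
theorem dot_ydig (hq : ∀ i, 2 ≤ q i) (C : Mats d q) (k : Coord d) {t n : ℕ} (hn : n < 2 ^ m)
    (K : Fin t → ZMod (q k.1)) : ∑ j, K j * ydig C n k j = ∑ r : Fin m, (∑ j, K j * C (k, j, r)) *
      ((n / q k.1 ^ (r : ℕ) % q k.1 : ℕ) : ZMod (q k.1)) := by
  simp only [sum_mul, mul_assoc]
  rw [sum_comm]
  refine sum_congr rfl fun j _ => ?_
  rw [← mul_sum, show ydig C n k j = lin (fun r => C (k, j, r)) n from rfl,
    lin_eq (hq k.1) _ (hn.trans_le (Nat.pow_le_pow_left (hq k.1) m)), sum_range]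

theorem csum_le_disc (hd : ∀ i, 1 ≤ d i) (hq : ∀ i, 2 ≤ q i) {C : Mats d q}
    (hC : ∀ n k J, ∃ j, J ≤ j ∧ ydig C n k j = 0) (hs : s.Nonempty) (e : Fin l → ℕ)
    (K : (i : Fin l) → Fin (e i + 1) → ZMod (q i)) (hK : ∀ i, K i (Fin.last _) = 1)
    {a : (i : Fin l) → Fin m → ZMod (q i)}
    (ha : ∀ i r, a i r = ∑ j, K i j * C (⟨i, ⟨0, hd i⟩⟩, j, r)) {N : ℕ} (hN : N ≤ 2 ^ m) :
    ‖csum q s a N‖ ≤ (∏ i, (q i : ℝ) ^ (e i + 1)) * (N * disc (pt C) N) := by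
  obtain ⟨i₀, hi₀⟩ := hs
  have := koksma (β := fun k : Coord d => q k.1 ^ if (k.2 : ℕ) = 0 then e k.1 + 1 else 0)
    (fun j => pow_pos (NeZero.pos _) _) (z := pt C)
    (g := fun n k => pre (ydig C n k) (if (k.2 : ℕ) = 0 then e k.1 + 1 else 0))
    (fun n j => pre_lt _ _) (fun n j => by rw [Nat.cast_pow]; exact mem_pre (hq _) (hC n j) _)
    (ψ := fun k P => if k.1 ∈ s ∧ (k.2 : ℕ) = 0 then ch (lf (e k.1 + 1) (K k.1) P) else 1)
    (fun _ _ => by split_ifs; exacts [norm_ch _, norm_one]) (k₀ := ⟨i₀, ⟨0, hd i₀⟩⟩) (by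
      have : Fact (1 < q i₀) := ⟨hq i₀⟩
      simp only [hi₀, true_and, if_true]
      rw [pow_succ, sum_block, hK, if_neg one_ne_zero, mul_zero]) N
  have h1 : ∀ {R : Type} [CommMonoid R] (f : Coord d → R), (∀ k, (k.2 : ℕ) ≠ 0 → f k = 1) →
      ∏ k, f k = ∏ i, f ⟨i, ⟨0, hd i⟩⟩ := fun f hf => by
    rw [Fintype.prod_sigma]
    exact prod_congr rfl fun i _ => prod_eq_single _ (fun x _ hx => hf _ fun h => hx (Fin.ext h))
      (by simp)
  rw [h1 _ fun k hk => by simp [hk]] at this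
  simp only [if_true, Nat.cast_pow] at this
  refine le_trans (le_of_eq (congrArg norm (sum_congr rfl fun n hn => ?_))) this
  rw [h1 _ fun k hk => by simp [hk]]
  simp only [and_true, if_true, prod_ite_mem, univ_inter]
  refine prod_congr rfl fun i _ => ?_
  rw [lf_pre, dot_ydig hq C ⟨i, ⟨0, hd i⟩⟩ ((mem_range.1 hn).trans_le hN)]
  simp only [ha]

/-- The upper left corners of the first matrices of all bases. -/
def corner (hd : ∀ i, 1 ≤ d i) (t m : ℕ) :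
    Mats d q →+ ((i : Fin l) → Fin t → Fin m → ZMod (q i)) where
  toFun C i j r := C (⟨i, ⟨0, hd i⟩⟩, j, r)
  map_zero' := rfl
  map_add' _ _ := rfl

theorem real_corner (hd : ∀ i, 1 ≤ d i) (t m : ℕ)
    (p : ((i : Fin l) → Fin t → Fin m → ZMod (q i)) → Prop) :
    (prob d q).real {C | p (corner hd t m C)} =
      cnt p / Fintype.card ((i : Fin l) → Fin t → Fin m → ZMod (q i)) := by
  classical
  rw [cnt_eq, ← real_pre (P := prob d q) (corner hd t m) (fun h => ?_) (fun v => ?_)]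
  · congr 1
    ext C
    simp
  · exact Measurable.eq_const (f := corner hd t m) (measurable_pi_lambda _ fun i =>
      measurable_pi_lambda _ fun j => measurable_pi_lambda _ fun r =>
        measurable_pi_apply (X := fun x : Coord d × ℕ × ℕ => ZMod (q x.1.1)) _) h |>.setOf
  · refine ⟨fun x => if h : x.2.1 < t ∧ x.2.2 < m then v x.1.1 ⟨x.2.1, h.1⟩ ⟨x.2.2, h.2⟩ else 0, ?_⟩
    funext i j r
    simp [corner]

end

theorem size_le_log {M : ℕ} (hM : 2 ≤ M) : 1 / 2 ≤ log M ∧ (M.size : ℝ) ≤ 4 * log M := by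
  have h1 := log_two_gt_d9
  have h2 : log 2 ≤ log M := log_le_log two_pos (by exact_mod_cast hM)
  obtain ⟨k, hk⟩ := Nat.exists_eq_add_of_lt (Nat.size_pos.2 (show 0 < M by omega))
  have h3 : 2 ^ k ≤ M := Nat.lt_size.1 (by omega)
  have h4 : log ((2 : ℝ) ^ k) ≤ log M := log_le_log (by positivity) (by exact_mod_cast h3)
  rw [log_pow] at h4
  rw [hk]
  push_cast
  constructor <;> nlinarith [k.cast_nonneg (α := ℝ)]

variable [∀ i, Fact (q i).Prime]

theorem low_core (hl : 1 ≤ l) (hd : ∀ i, 1 ≤ d i) {η₀ : ℝ} (h0 : 0 < η₀) (h1 : η₀ ≤ 1) {c₀ : ℕ}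
    (hc₀ : 1 ≤ η₀ * 2 ^ c₀) (M : ℕ) :
    (prob d q).real {C | (∀ n k J, ∃ j, J ≤ j ∧ ydig C n k j = 0) ∧ ∀ N ≤ M, N * disc (pt C) N <
      η₀ ^ l * mean q M / ((∏ i, (q i : ℝ)) ^ 2 * 2 ^ l * (M.size + c₀ + 1) ^ l)} ≤ l * η₀ := by
  have hq : ∀ i, 2 ≤ q i := fun i => (Fact.out : (q i).Prime).two_le
  have hq' : ∀ i, (2 : ℝ) ≤ q i := fun i => by exact_mod_cast hq i
  have hq0 : ∀ i, (0 : ℝ) < q i := fun i => by linarith [hq' i]
  have hP : 0 < ∏ i, η₀ / q i := prod_pos fun i _ => div_pos h0 (hq0 i)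
  have hQ : 0 < ∏ i, (q i : ℝ) := prod_pos fun i _ => hq0 i
  obtain ⟨s, hs, hmax⟩ := exists_max_image (univ.erase ∅) (fun s => av q s M)
    ⟨{⟨0, hl⟩}, mem_erase.2 ⟨singleton_ne_empty _, mem_univ _⟩⟩
  have hs' : s.Nonempty := nonempty_iff_ne_empty.2 (mem_erase.1 hs).1
  have h3 : mean q M ≤ 2 ^ l * av q s M := (sum_le_card_nsmul _ _ _ hmax).trans (by
    rw [nsmul_eq_mul]
    exact mul_le_mul_of_nonneg_right card_sets (av_nonneg s M))
  obtain ⟨w, w0, w1, w2⟩ := Hit.pi (fun i => hit_samp (p := q i) (E := M.size + c₀) (m := M.size)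
    h0 h1 (by
      have : (2 : ℝ) ^ c₀ ≤ (q i : ℝ) ^ c₀ := pow_le_pow_left₀ zero_le_two (hq' i) _
      rw [pow_add, mul_left_comm]
      exact le_mul_of_one_le_right (pow_pos (hq0 i) _).le (by nlinarith)))
    (fun i => (div_pos h0 (hq0 i)).le) h0.le (fun i e => (pow_pos (hq0 i) _).le)
    (TT s M) (TT_nonneg M)
  obtain ⟨e, -, he⟩ := exists_max_image univ w univ_nonempty
  have h4 : ∑ e, w e ≤ ((M.size : ℝ) + c₀ + 1) ^ l * w e :=
    (sum_le_card_nsmul _ _ _ he).trans_eq (by simp)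
  have h5 : (∏ i, η₀ / q i) * av q s M ≤ ((M.size : ℝ) + c₀ + 1) ^ l * w e := by
    rw [av, ← mul_div_assoc, div_le_iff₀' (G_pos _), ← card_G]
    exact w1.trans (mul_le_mul_of_nonneg_left h4 (Nat.cast_nonneg _))
  have h6 : (∏ i, (q i : ℝ)) *
      (η₀ ^ l * mean q M / ((∏ i, (q i : ℝ)) ^ 2 * 2 ^ l * (M.size + c₀ + 1) ^ l)) ≤ w e := by
    have e1 : (∏ i, (q i : ℝ)) *
        (η₀ ^ l * mean q M / ((∏ i, (q i : ℝ)) ^ 2 * 2 ^ l * (M.size + c₀ + 1) ^ l)) =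
        (∏ i, η₀ / q i) * mean q M / (2 ^ l * ((M.size : ℝ) + c₀ + 1) ^ l) := by
      rw [prod_div_distrib, prod_const, card_univ, Fintype.card_fin]
      field_simp
    rw [e1, div_le_iff₀ (by positivity)]
    nlinarith [mul_le_mul_of_nonneg_left h3 hP.le,
      mul_le_mul_of_nonneg_left h5 (show (0 : ℝ) ≤ 2 ^ l by positivity)]
  have hΩ : (0 : ℝ) < Fintype.card ((i : Fin l) → Fin (M.size + c₀ + 1) → Fin M.size → ZMod (q i)) :=
    Nat.cast_pos.2 Fintype.card_pos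
  refine le_trans (measureReal_mono fun C hC => ?_) ((real_corner hd _ _ _).trans_le
    ((div_le_iff₀ hΩ).2 (w2 e)))
  intro a ha
  choose K hK ha using ha
  obtain ⟨N, hN, e1⟩ := exists_TT s M a
  rw [e1]
  refine (csum_le_disc hd hq hC.1 hs' (fun i => e i) K hK ha
    (hN.trans (Nat.lt_size_self M).le)).trans_lt ?_
  have h7 : 0 < ∏ i, (q i : ℝ) ^ (e i : ℕ) := prod_pos fun i _ => pow_pos (hq0 i) _
  simp only [pow_succ, prod_mul_distrib]
  rw [mul_assoc, mul_comm (w e)]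
  exact mul_lt_mul_of_pos_left ((mul_lt_mul_of_pos_left (hC.2 N hN) hQ).trans_le h6) h7

theorem low_prob (hl : 1 ≤ l) (hd : ∀ i, 1 ≤ d i) {η : ℝ} (hη : 0 < η) :
    ∃ c, 0 < c ∧ ∀ M : ℕ, 2 ≤ M → (prob d q).real {C | (∀ n k J, ∃ j, J ≤ j ∧ ydig C n k j = 0) ∧
      ∀ N ≤ M, N * disc (pt C) N < c * (mean q M / log M ^ l)} ≤ η := by
  have hl' : (0 : ℝ) < l := by exact_mod_cast hl
  obtain ⟨η₀, h0, h1, h2⟩ : ∃ η₀ : ℝ, 0 < η₀ ∧ η₀ ≤ 1 ∧ l * η₀ ≤ η :=
    ⟨min 1 (η / l), by positivity, min_le_left _ _, (le_div_iff₀' hl').1 (min_le_right _ _)⟩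
  obtain ⟨c₀, hc₀⟩ := pow_unbounded_of_one_lt (1 / η₀) (one_lt_two (α := ℝ))
  rw [div_lt_iff₀' h0] at hc₀
  have hQ : 0 < ∏ i, (q i : ℝ) := prod_pos fun i _ => Nat.cast_pos.2 (NeZero.pos _)
  refine ⟨η₀ ^ l / ((∏ i, (q i : ℝ)) ^ 2 * 2 ^ l * (2 * c₀ + 6) ^ l), by positivity,
    fun M hM => le_trans (measureReal_mono fun C hC => ?_)
      ((low_core (q := q) hl hd h0 h1 hc₀.le M).trans h2)⟩
  refine ⟨hC.1, fun N hN => (hC.2 N hN).trans_le ?_⟩
  have hlog := size_le_log hM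
  have := mean_nonneg (q := q) M
  rw [div_mul_div_comm, mul_assoc _ (_ ^ l) (_ ^ l), ← mul_pow]
  gcongr
  nlinarith [hlog.1, hlog.2, c₀.cast_nonneg (α := ℝ)]

omit [∀ i, Fact (q i).Prime] in
theorem half_le (hl : 1 ≤ l) (hd : ∀ i, 1 ≤ d i) (C : Mats d q) {N : ℕ} (hN : 1 ≤ N) :
    1 / 2 ≤ N * disc (pt C) N := by
  classical
  have hN' : (1 : ℝ) ≤ N := by exact_mod_cast hN
  have h0 : (0 : ℝ) < 1 / (2 * N) := by positivity
  have h1 : (1 : ℝ) / (2 * N) ≤ 1 := (div_le_one (by positivity)).2 (by linarith)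
  have h2 := (le_abs_self _).trans (le_disc (pt C) N (a := fun _ => 0) (b := fun _ => 1 / (2 * N))
    fun _ => ⟨le_rfl, h0.le, h1⟩)
  have h3 : (1 : ℝ) ≤ ((range N).filter fun n =>
      ∀ k, pt C n k ∈ Set.Ico (0 : ℝ) (1 / (2 * N))).card := by
    refine Nat.one_le_cast.2 (card_pos.2 ⟨0, mem_filter.2 ⟨mem_range.2 hN, fun k => ?_⟩⟩)
    simpa [pt, ydig] using Nat.pos_of_ne_zero (by omega)
  have h4 : ∏ _k : Coord d, ((1 : ℝ) / (2 * N) - 0) ≤ 1 / (2 * N) := by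
    rw [prod_const, sub_zero]
    exact pow_le_of_le_one h0.le h1 (card_pos.2 ⟨⟨⟨0, hl⟩, ⟨0, hd _⟩⟩, mem_univ _⟩).ne'
  have h5 := div_le_div_of_nonneg_right h3 (show (0 : ℝ) ≤ N by linarith)
  have h6 : (1 : ℝ) / 2 = N * (1 / N - 1 / (2 * N)) := by field_simp; norm_num
  rw [h6]
  exact mul_le_mul_of_nonneg_left (by linarith) (by linarith)

theorem lower (hl : 1 ≤ l) (hd : ∀ i, 1 ≤ d i) : ∀ᵐ C ∂prob d q, ∃ c, 0 < c ∧
    ∃ᶠ N : ℕ in atTop, c * (mean q N / log N ^ l) ≤ N * disc (pt C) N := by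
  set g : ℕ → ℝ := fun N => mean q N / log N ^ l with hg
  by_cases hb : ∃ A, ∀ N, 2 ≤ N → g N ≤ A
  · obtain ⟨A, hA⟩ := hb
    refine ae_of_all _ fun C => ⟨1 / (2 * (|A| + 1)), by positivity, Eventually.frequently ?_⟩
    filter_upwards [eventually_ge_atTop 2] with N hN
    refine le_trans ?_ (half_le hl hd C (by omega))
    rw [div_mul_eq_mul_div, div_le_iff₀ (by positivity)]
    linarith [hA N hN, le_abs_self A]
  have hrec : ∀ A : ℝ, ∃ M, 2 ≤ M ∧ A < g M ∧ ∀ N, 2 ≤ N → N ≤ M → g N ≤ g M := by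
    intro A
    push Not at hb
    obtain ⟨N, hN, hA⟩ := hb A
    obtain ⟨M, hM, hmax⟩ := exists_max_image (Icc 2 N) g ⟨N, mem_Icc.2 ⟨hN, le_rfl⟩⟩
    exact ⟨M, (mem_Icc.1 hM).1, hA.trans_le (hmax N (mem_Icc.2 ⟨hN, le_rfl⟩)),
      fun n h1 h2 => hmax n (mem_Icc.2 ⟨h1, h2.trans (mem_Icc.1 hM).2⟩)⟩
  have key : prob d q {C | (∀ n k J, ∃ j, J ≤ j ∧ ydig C n k j = 0) ∧ ¬ ∃ c, 0 < c ∧
      ∃ᶠ N : ℕ in atTop, c * g N ≤ N * disc (pt C) N} = 0 := by
    refine le_antisymm (ENNReal.le_of_forall_pos_le_add fun η hη _ => ?_) zero_le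
    obtain ⟨c, hc, h⟩ := low_prob (q := q) hl hd (η := η) hη
    let B : ℕ → Set (Mats d q) := fun N₀ => {C | (∀ n k J, ∃ j, J ≤ j ∧ ydig C n k j = 0) ∧
      ∀ N, N₀ ≤ N → N * disc (pt C) N < c * g N}
    have hB : Monotone B := fun a b hab C hC => ⟨hC.1, fun N hN => hC.2 N (hab.trans hN)⟩
    refine (measure_mono (t := ⋃ N₀, B N₀) fun C hC => ?_).trans ?_
    · obtain ⟨N₀, hN₀⟩ := eventually_atTop.1 (not_frequently.1 fun h => hC.2 ⟨c, hc, h⟩)
      exact Set.mem_iUnion.2 ⟨N₀, hC.1, fun N hN => not_le.1 (hN₀ N hN)⟩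
    · rw [hB.measure_iUnion, zero_add]
      refine iSup_le fun N₀ => ?_
      obtain ⟨M, hM, h1, h2⟩ := hrec ((N₀ + 2) / c)
      rw [div_lt_iff₀' hc] at h1
      rw [← ENNReal.ofReal_coe_nnreal, ← ofReal_measureReal (measure_ne_top _ _)]
      refine ENNReal.ofReal_le_ofReal (le_trans (measureReal_mono fun C hC => ?_) (h M hM))
      refine ⟨hC.1, fun N hN => ?_⟩
      rcases lt_or_ge N (N₀ + 2) with h3 | h3
      · have h4 : (N : ℝ) ≤ N₀ + 2 := by exact_mod_cast h3.le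
        exact ((mul_le_of_le_one_right (Nat.cast_nonneg _) (disc_le_one _ _)).trans h4).trans_lt h1
      · exact (hC.2 N (by omega)).trans_le (mul_le_mul_of_nonneg_left (h2 N (by omega) hN) hc.le)
  filter_upwards [measure_eq_zero_iff_ae_notMem.1 key, ae_digits] with C h1 h2
  by_contra h
  exact h1 ⟨h2, h⟩

theorem lower' (hl : 1 ≤ l) (hd : ∀ i, 1 ≤ d i) : ∀ᵐ C ∂prob d q, ∃ c, 0 < c ∧
    ∀ M : ℕ, 2 ≤ M → ∃ N ≤ M, c * (mean q M / log M ^ (3 * l)) ≤ N * disc (pt C) N := by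
  classical
  have hQ : 0 < ∏ i, (q i : ℝ) := prod_pos fun i _ => Nat.cast_pos.2 (NeZero.pos _)
  let m : ℕ → ℕ := fun j => if h : ∃ M, (2 : ℝ) ^ j ≤ mean q M then Nat.find h else 0
  have hp : ∀ j : ℕ, (0 : ℝ) < 1 / ((j : ℝ) + 1) ^ 2 := fun j => by positivity
  have hs : Summable fun j : ℕ => l * (1 / ((j : ℝ) + 1) ^ 2) := by
    have := (summable_nat_add_iff 1).2 (summable_one_div_nat_pow.2 one_lt_two)
    exact Summable.mul_left _ (by simpa using this)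
  have hBC := ae_eventually_notMem (μ := prob d q) (ne_top_of_le_ne_top hs.tsum_ofReal_ne_top
    (ENNReal.tsum_le_tsum fun j => by
      rw [← ofReal_measureReal (measure_ne_top _ _)]
      refine ENNReal.ofReal_le_ofReal (low_core (q := q) hl hd (hp j) ?_ (c₀ := (j + 1) * 2) ?_ (m j))
      · rw [div_le_one (by positivity)]
        exact one_le_pow₀ (by linarith [j.cast_nonneg (α := ℝ)])
      · rw [one_div_mul_eq_div, le_div_iff₀ (by positivity), one_mul, pow_mul]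
        refine pow_le_pow_left₀ (by positivity) ?_ 2
        exact_mod_cast (Nat.lt_pow_self one_lt_two).le))
  filter_upwards [hBC, ae_digits] with C h1 h2
  obtain ⟨j₀, h1⟩ := eventually_atTop.1 h1
  set A : ℝ := 20 + 4 * l with hA
  have hl0 := l.cast_nonneg (α := ℝ)
  refine ⟨min (1 / (2 * (2 ^ j₀ * 2 ^ (3 * l))))
    (1 / (2 * ((∏ i, (q i : ℝ)) ^ 2 * 2 ^ l * A ^ (3 * l)))), by positivity, fun M hM => ?_⟩
  have h4 := one_le_mean (q := q) hl (show 1 ≤ M by omega)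
  obtain ⟨j, hj1, hj2⟩ := exists_nat_pow_near h4 (one_lt_two (α := ℝ))
  obtain ⟨l1, l2⟩ := size_le_log hM
  have l0 : 0 < log M := by linarith
  rcases lt_or_ge j j₀ with h | h
  · refine ⟨1, by omega, le_trans ?_ (half_le hl hd C le_rfl)⟩
    refine (mul_le_mul_of_nonneg_right (min_le_left _ _) (by positivity)).trans ?_
    have h5 : mean q M ≤ 2 ^ j₀ := hj2.le.trans (pow_le_pow_right₀ one_le_two h)
    have h6 : (1 : ℝ) ≤ 2 ^ (3 * l) * log M ^ (3 * l) := by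
      rw [← mul_pow]
      exact one_le_pow₀ (by linarith)
    rw [div_mul_div_comm, div_le_div_iff₀ (by positivity) two_pos]
    nlinarith [mul_le_mul h5 h6 zero_le_one (by positivity)]
  · have hex : ∃ M, (2 : ℝ) ^ j ≤ mean q M := ⟨M, hj1⟩
    have m1 : m j ≤ M := by simpa only [m, dif_pos hex] using Nat.find_min' hex hj1
    have m2 : (2 : ℝ) ^ j ≤ mean q (m j) := by simpa only [m, dif_pos hex] using Nat.find_spec hex
    have h5 := h1 j h
    simp only [not_and, not_forall, not_lt] at h5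
    obtain ⟨N, hN, h5⟩ := h5 h2
    refine ⟨N, hN.trans m1, le_trans ?_ h5⟩
    refine (mul_le_mul_of_nonneg_right (min_le_right _ _) (by positivity)).trans ?_
    have h6 : j < M.size + l := by
      refine (pow_lt_pow_iff_right₀ (one_lt_two (α := ℝ))).1 ((hj1.trans (mean_le M)).trans_lt ?_)
      rw [pow_add, mul_comm]
      exact mul_lt_mul_of_pos_right (by exact_mod_cast Nat.lt_size_self M) (by positivity)
    have h7 : (j : ℝ) + 1 ≤ M.size + l := by exact_mod_cast h6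
    have h8 : ((m j).size : ℝ) ≤ M.size := by exact_mod_cast Nat.size_le_size m1
    have h9 : (((j : ℝ) + 1) ^ 2) ^ l * (((m j).size : ℝ) + ((j + 1) * 2 : ℕ) + 1) ^ l ≤
        A ^ (3 * l) * log M ^ (3 * l) := by
      rw [← mul_pow, ← mul_pow, pow_mul]
      refine pow_le_pow_left₀ (by positivity) ?_ l
      rw [pow_succ (A * log M) 2]
      push_cast
      gcongr <;> nlinarith
    rw [pow_succ] at hj2
    rw [one_div_pow, div_mul_div_comm, div_mul_eq_mul_div, div_div,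
      div_le_div_iff₀ (by positivity) (by positivity)]
    have h10 := mul_le_mul (show mean q M ≤ 2 * mean q (m j) by linarith) h9 (by positivity)
      (by linarith [mean_nonneg (q := q) (m j)])
    nlinarith [mul_le_mul_of_nonneg_left h10
      (show 0 ≤ (∏ i, (q i : ℝ)) ^ 2 * 2 ^ l by positivity)]

end Two

end Pool.Agent.Lib.MP_490b4c_nt
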